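import Pool.Agent.DEH.MeanSq

/-!
Definitions for the theorem on sparse families (doc `proof/MP_e9eb55_nt_SE`).
-/

open Complex Pool.Agent.ANT Pool.Agent.DEH

namespace Pool.Agent.SEH

/-- `1 + log X` -/
noncomputable def LL (X : ℕ) : ℝ := 1 + Real.log X

/-- the non-zero integers of absolute value at most `X` -/
noncomputable def Zs (X : ℕ) : Finset ℤ := (Finset.Icc (-(X:ℤ)) X).erase 0

section

variable {ι : Type*} (I : Finset ι) (N : ι → ℕ) (X : ℕ)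

/-- the pairs with difference `h` -/
noncomputable def PP (h : ℤ) : Finset (ι × ι) := (I ×ˢ I).filter (fun x => (N x.2 : ℤ) - N x.1 = h)

/-- the number of pairs with difference `h` -/
noncomputable def rr (h : ℤ) : ℝ := ((PP I N h).card : ℝ)

/-- `∑_{h ≠ 0} τ(|h|) r(h)^2` -/
noncomputable def H1 : ℝ := ∑ h ∈ Zs X, tauR h.natAbs * rr I N h ^ 2

/-- `∑_{h ≠ 0} τ(|h|)^2 r(h)^2` -/
noncomputable def H2 : ℝ := ∑ h ∈ Zs X, tauR h.natAbs ^ 2 * rr I N h ^ 2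

/-- `∑_{h ≠ 0} τ(|h|) #{((i,j),(i',j')) : both differences are h, N_i = N_i'}` -/
noncomputable def H3 : ℝ :=
  ∑ h ∈ Zs X, tauR h.natAbs * ∑ x ∈ PP I N h, (((PP I N h).filter (fun y => N y.1 = N x.1)).card : ℝ)

/-- `∑_i ∑_{q} |∑_{m ≤ M} c_m f(N_i - q m)|^2` -/
noncomputable def WW (f : ℤ → ℝ) (c : ℕ → ℝ) (M : ℕ) : ℝ :=
  ∑ i ∈ I, ∑ q ∈ Finset.Icc (-(X:ℤ)) X, (∑ m ∈ Finset.Ioc 0 M, c m * f (N i - q * m)) ^ 2

end

/-- the twisted autocorrelation of `f` -/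
noncomputable def FF (f : ℤ → ℝ) (X : ℕ) (u : ℤ) (α : ℝ) : ℂ :=
  ∑ n ∈ Finset.Ioc 0 X, ((f n * f (n - u) : ℝ) : ℂ) * ee (n * α)

/-- `f` lives on `[1, X]` -/
def Supp (f : ℤ → ℝ) (X : ℕ) : Prop := ∀ n, f n ≠ 0 → 1 ≤ n ∧ n ≤ X

end Pool.Agent.SEH
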