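import Pool.Agent.SEH.Mom
import Pool.Agent.DEH.Count

/-!
# Asymptotic facts about `LL X = 1 + log X`
-/

open Complex Pool.Agent.ANT Pool.Agent.DEH Filter

namespace Pool.Agent.SEH

lemma ev_LL_ge (K : ℝ) : ∀ᶠ X : ℕ in atTop, K ≤ LL X := by
  filter_upwards [(Real.tendsto_log_atTop.comp tendsto_natCast_atTop_atTop).eventually_ge_atTop K]
    with X hX
  unfold LL
  simp only [Function.comp_apply] at hX
  linarith

/-- powers of the logarithm against powers of `X` -/
lemma ev_LL_pow (K : ℝ) (a : ℕ) {δ : ℝ} (hδ : 0 < δ) : ∀ᶠ X : ℕ in atTop, K * LL X ^ a ≤ (X:ℝ) ^ δ := by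
  filter_upwards [eventually_log_pow_le (a + 1) hδ, ev_LL_ge (1 + |K| * 2 ^ a), ev_LL_ge 2] with X h1 h2 h3
  refine le_trans ?_ h1
  have h4 : |K| * 2 ^ a ≤ Real.log X := by unfold LL at h2; linarith
  have h5 : 1 ≤ Real.log X := by unfold LL at h3; linarith
  have h6 : LL X ≤ 2 * Real.log X := by unfold LL; linarith
  have hL := LL_pos X
  calc K * LL X ^ a ≤ |K| * (2 * Real.log X) ^ a := by
        have := le_abs_self K
        gcongr
    _ = (|K| * 2 ^ a) * Real.log X ^ a := by rw [mul_pow]; ring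
    _ ≤ Real.log X * Real.log X ^ a := by gcongr
    _ = _ := by ring

end Pool.Agent.SEH
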