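import Pool.Agent.SEH.Energy
import Pool.Agent.SEH.Ev

/-!
# Energies of the families `a k^2 + b k + c + w`, `w ∈ W`, `|W| ≥ X^δ`: asymptotic form
-/

open Complex Pool.Agent.ANT Pool.Agent.DEH Filter

namespace Pool.Agent.SEH.En

lemma real_r0 {P n T u d r : ℝ} (hu0 : 0 ≤ u) (hP : u / 2 ≤ P) (hn : d ^ 4 ≤ n) (hT0 : 0 ≤ T) (hT : T ≤ d)
    (hd : 2 ≤ d) (hu : 8 * d ^ 3 ≤ u) (hr : r ≤ P * n + n ^ 2 * T) : r * u * d ^ 2 ≤ (P * n) ^ 2 := by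
  have hd0 : 0 < d := by linarith
  have hP0 : 0 ≤ P := by linarith
  have hn0 : 0 ≤ n := le_trans (by positivity) hn
  have h1 : d ^ 2 ≤ n / 4 := by
    have h0 : 4 ≤ d ^ 2 := by nlinarith
    have h01 : 4 * d ^ 2 ≤ d ^ 4 := by
      have : d ^ 4 = d ^ 2 * d ^ 2 := by ring
      rw [this]
      exact mul_le_mul_of_nonneg_right h0 (by positivity)
    linarith
  have h2 : P * n * u * d ^ 2 ≤ (P * n) ^ 2 / 2 := by
    calc P * n * u * d ^ 2 ≤ P * n * (2 * P) * (n / 4) := by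
          have : u ≤ 2 * P := by linarith
          gcongr
      _ = _ := by ring
  have h3 : n ^ 2 * T * u * d ^ 2 ≤ (P * n) ^ 2 / 2 := by
    calc n ^ 2 * T * u * d ^ 2 ≤ n ^ 2 * d * u * d ^ 2 := by gcongr
      _ = n ^ 2 * (8 * d ^ 3) * u / 8 := by ring
      _ ≤ n ^ 2 * u * u / 8 := by gcongr
      _ ≤ n ^ 2 * (2 * P) * (2 * P) / 8 := by
          have : u ≤ 2 * P := by linarith
          gcongr
      _ = _ := by ring
  calc r * u * d ^ 2 ≤ (P * n + n ^ 2 * T) * u * d ^ 2 := by gcongr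
    _ = P * n * u * d ^ 2 + n ^ 2 * T * u * d ^ 2 := by ring
    _ ≤ _ := by linarith

/-- the family of parameters -/
def fam (b c : ℤ) (X : ℕ) (W : Finset ℕ) : Finset (ℕ × ℕ) := (Finset.Ioc (kz b c) (Nat.sqrt X)) ×ˢ W

lemma fam_range {a b c : ℤ} (ha : 0 < a) {X : ℕ} (hX : 1 ≤ X) {W : Finset ℕ} (hW : W ⊆ Finset.range (X + 1)) :
    ∀ x ∈ fam b c X W, 1 ≤ Nv a b c x.1 x.2 ∧ Nv a b c x.1 x.2 ≤ Hz a b c * X := by
  intro x hx
  obtain ⟨h1, h2⟩ := Finset.mem_product.mp hx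
  obtain ⟨h3, h4⟩ := Finset.mem_Ioc.mp h1
  have h5 := Finset.mem_range.mp (hW h2)
  have h6 := Nv_cast ha h3 x.2
  have h7 := Fv_low ha h3
  have h8 : x.1 ^ 2 ≤ X := by
    calc x.1 ^ 2 ≤ (Nat.sqrt X) ^ 2 := Nat.pow_le_pow_left h4 2
      _ ≤ X := Nat.sqrt_le' X
  have h9 := Fv_up (a := a) (b := b) (c := c) h8 hX
  have h10 := sq_nonneg (x.1:ℤ)
  constructor
  · omega
  · have : (Nv a b c x.1 x.2 : ℤ) ≤ ((Hz a b c * X : ℕ) : ℤ) := by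
      rw [h6]; push_cast; omega
    exact_mod_cast this

lemma card_s (z : ℕ) : ∀ᶠ X : ℕ in atTop, √(X:ℝ) / 2 ≤ ((Finset.Ioc z (Nat.sqrt X)).card : ℝ) := by
  filter_upwards [eventually_ge_atTop ((2 * (1 + z)) ^ 2)] with X hX
  rw [Nat.card_Ioc]
  have h1 : √(X:ℝ) ≤ Nat.sqrt X + 1 := (Real.sqrt_lt_sqrt (Nat.cast_nonneg _) (by
    exact_mod_cast Nat.lt_succ_sqrt X : (X:ℝ) < (Nat.sqrt X + 1) * (Nat.sqrt X + 1))).le.trans (by
      rw [Real.sqrt_mul_self (by positivity)])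
  have h2 : 2 * (1 + (z:ℝ)) ≤ √(X:ℝ) := by
    rw [Real.le_sqrt (by positivity) (Nat.cast_nonneg _)]
    exact_mod_cast hX
  have h3 : ((Nat.sqrt X : ℕ) : ℝ) - z ≤ ((Nat.sqrt X - z : ℕ) : ℝ) := by
    rw [sub_le_iff_le_add]
    exact_mod_cast (by omega : Nat.sqrt X ≤ Nat.sqrt X - z + z)
  linarith

lemma card_s_le (z X : ℕ) : ((Finset.Ioc z (Nat.sqrt X)).card : ℝ) ≤ √(X:ℝ) := by
  rw [Nat.card_Ioc]
  have h1 : ((Nat.sqrt X - z : ℕ) : ℝ) ≤ Nat.sqrt X := by exact_mod_cast Nat.sub_le _ _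
  exact h1.trans (Real.nat_sqrt_le_real_sqrt)

lemma LL_mul_le {H X : ℕ} (hH : 1 ≤ H) (hX : 1 ≤ X) : LL (H * X) ≤ LL X + Real.log H := by
  unfold LL
  push_cast
  rw [Real.log_mul (by positivity) (by positivity)]
  linarith

/-- **Energies, family with many shifts.** -/
theorem energyB {a b c : ℤ} (ha : 0 < a) {δ : ℝ} (hδ : 0 < δ) (hδ1 : δ ≤ 1 / 2) (B : ℕ) :
    ∀ᶠ X : ℕ in atTop, ∀ W : Finset ℕ, W ⊆ Finset.range (X + 1) → (X:ℝ) ^ δ ≤ W.card →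
      rr (fam b c X W) (fun x => Nv a b c x.1 x.2) 0 * √((Hz a b c * X : ℕ) : ℝ) * LL (Hz a b c * X) ^ B ≤
        ((fam b c X W).card : ℝ) ^ 2 ∧
      H2 (fam b c X W) (fun x => Nv a b c x.1 x.2) (Hz a b c * X) * ((Hz a b c * X : ℕ) : ℝ) ≤
        ((fam b c X W).card : ℝ) ^ 4 * LL (Hz a b c * X) ^ 16 ∧
      H3 (fam b c X W) (fun x => Nv a b c x.1 x.2) (Hz a b c * X) * ((Hz a b c * X : ℕ) : ℝ) *
        LL (Hz a b c * X) ^ B ≤ ((fam b c X W).card : ℝ) ^ 4 := by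
  obtain ⟨C, hC1, hC⟩ := tauR_le_rpow (show (0:ℝ) < δ / 8 by positivity)
  set H := Hz a b c with hH
  have hH1 : 1 ≤ H := by rw [hH]; unfold Hz; omega
  have hHR : (1:ℝ) ≤ H := by exact_mod_cast hH1
  filter_upwards [card_s (kz b c), ev_LL_pow (C * (H:ℝ) ^ (δ / 8)) 0 (show (0:ℝ) < δ / 8 by positivity),
    ev_LL_pow (H * 2 ^ B) B (show (0:ℝ) < δ / 2 by positivity), ev_LL_pow 8 0 (show (0:ℝ) < 1 / 8 by norm_num),
    ev_LL_pow 2 0 (show (0:ℝ) < δ / 4 by positivity), ev_LL_pow (16 * H) 0 (show (0:ℝ) < δ / 2 by positivity),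
    ev_LL_ge (12 * 16 * 2 ^ 15 * (H:ℝ) ^ 2), ev_LL_ge (Real.log H), ev_LL_ge 2, eventually_ge_atTop 1]
    with X e1 e2 e3 e4 e5 e6 e7 e8 e9 hX1 W hW hWc
  simp only [pow_zero, mul_one] at e2 e4 e5 e6
  have hX0 : (0:ℝ) < X := by exact_mod_cast hX1
  have hXR : (1:ℝ) ≤ X := by exact_mod_cast hX1
  set Y := H * X with hY
  have hXY : X ≤ Y := Nat.le_mul_of_pos_left X hH1
  have hY1 : 1 ≤ Y := hX1.trans hXY
  have hYR : (Y:ℝ) = H * X := by rw [hY]; push_cast; ring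
  have hY0 : (0:ℝ) < Y := by exact_mod_cast hY1
  set s := Finset.Ioc (kz b c) (Nat.sqrt X) with hs
  have hsk : ∀ k ∈ s, kz b c < k := fun k hk => (Finset.mem_Ioc.mp hk).1
  set P : ℝ := (s.card : ℝ) with hP
  set n : ℝ := (W.card : ℝ) with hn
  have hcard : ((fam b c X W).card : ℝ) = P * n := by
    unfold fam; rw [Finset.card_product]; push_cast; rfl
  set u := √(X:ℝ) with hu
  have hu0 : 0 < u := Real.sqrt_pos.mpr hX0
  have hu2 : u ^ 2 = X := Real.sq_sqrt hX0.le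
  set d : ℝ := (X:ℝ) ^ (δ / 4) with hd
  have hd2 : 2 ≤ d := e5
  have hd0 : 0 < d := by linarith
  have hdsq : d ^ 2 = (X:ℝ) ^ (δ / 2) := by
    rw [hd, ← Real.rpow_natCast, ← Real.rpow_mul hX0.le]; congr 1; push_cast; ring
  have hd4 : d ^ 4 = (X:ℝ) ^ δ := by
    rw [hd, ← Real.rpow_natCast, ← Real.rpow_mul hX0.le]; congr 1; push_cast; ring
  have hn4 : d ^ 4 ≤ n := by rw [hd4]; exact hWc
  have hn0 : 0 ≤ n := Nat.cast_nonneg _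
  have hP0 : 0 ≤ P := Nat.cast_nonneg _
  have h8 : 8 * d ^ 3 ≤ u := by
    have h1 : d ^ 3 ≤ (X:ℝ) ^ (3 / 8 : ℝ) := by
      rw [hd, ← Real.rpow_natCast, ← Real.rpow_mul hX0.le]
      refine Real.rpow_le_rpow_of_exponent_le hXR ?_
      push_cast; linarith
    calc 8 * d ^ 3 ≤ (X:ℝ) ^ (1 / 8 : ℝ) * (X:ℝ) ^ (3 / 8 : ℝ) := by gcongr
      _ = u := by rw [← Real.rpow_add hX0, hu, Real.sqrt_eq_rpow]; norm_num
  set T : ℝ := C * (Y:ℝ) ^ (δ / 8) with hT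
  have hT0 : 0 ≤ T := by positivity
  have hTd : T ≤ d := by
    have h1 : (Y:ℝ) ^ (δ / 8) = (H:ℝ) ^ (δ / 8) * (X:ℝ) ^ (δ / 8) := by
      rw [hYR, Real.mul_rpow (by positivity) (by positivity)]
    calc T = (C * (H:ℝ) ^ (δ / 8)) * (X:ℝ) ^ (δ / 8) := by rw [hT, h1]; ring
      _ ≤ (X:ℝ) ^ (δ / 8) * (X:ℝ) ^ (δ / 8) := by gcongr
      _ = d := by rw [← Real.rpow_add hX0, hd]; congr 1; ring
  have hTb : ∀ h ∈ Zs Y, tauR h.natAbs ≤ T := by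
    intro h hh
    obtain ⟨h1, h2, h3⟩ := mem_Zs.mp hh
    have h4 : h.natAbs ≠ 0 := by omega
    refine (hC _ h4).trans ?_
    have h5 : (h.natAbs : ℝ) ≤ Y := by exact_mod_cast (by omega : h.natAbs ≤ Y)
    rw [hT]
    gcongr
  have hr0 := r0_prod_le ha hsk hXY hW hT0 hTb
  have hr00 := rr_nonneg (s ×ˢ W) (fun x => Nv a b c x.1 x.2) 0
  have hfam : fam b c X W = s ×ˢ W := rfl
  rw [← hfam] at hr0 hr00
  set r := rr (fam b c X W) (fun x => Nv a b c x.1 x.2) 0 with hr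
  have hmain : r * u * d ^ 2 ≤ (P * n) ^ 2 := real_r0 hu0.le e1 hn4 hT0 hTd hd2 h8 hr0
  have hLX := LL_pos X
  have hLX1 := LL_one_le X
  have hLY : LL Y ≤ 2 * LL X := by
    have := LL_mul_le hH1 hX1
    rw [← hY] at this
    linarith
  have hLXY : LL X ≤ LL Y := LL_mono hX1 hXY
  have hLY0 := LL_pos Y
  have hLY1 := LL_one_le Y
  have hL2Y : LL (2 * Y) ≤ 2 * LL Y := by
    have h1 := LL_mul_le (H := 2) (by norm_num) hY1
    have h2 : Real.log ((2:ℕ):ℝ) ≤ 1 := by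
      have := Real.log_two_lt_d9
      push_cast; linarith
    linarith
  have hHL : (H:ℝ) * LL Y ^ B ≤ d ^ 2 := by
    calc (H:ℝ) * LL Y ^ B ≤ H * (2 * LL X) ^ B := by gcongr
      _ = (H * 2 ^ B) * LL X ^ B := by rw [mul_pow]; ring
      _ ≤ (X:ℝ) ^ (δ / 2) := e3
      _ = d ^ 2 := hdsq.symm
  rw [hcard]
  refine ⟨?_, ?_, ?_⟩
  · have h1 : √(Y:ℝ) ≤ H * u := by
      rw [hYR, Real.sqrt_mul (by positivity)]
      have : √(H:ℝ) ≤ H := by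
        rw [Real.sqrt_le_left (by positivity)]
        nlinarith
      gcongr
    calc r * √(Y:ℝ) * LL Y ^ B ≤ r * (H * u) * LL Y ^ B := by gcongr
      _ = r * u * (H * LL Y ^ B) := by ring
      _ ≤ r * u * d ^ 2 := by gcongr
      _ ≤ _ := hmain
  · have h2 := H2_prod_le ha hsk hY1 hXY hW hTb
    rw [← hfam] at h2
    have hLL16 : (1:ℝ) ≤ LL Y ^ 16 := one_le_pow₀ hLY1
    have hu2P : u ^ 2 ≤ 4 * P ^ 2 := by nlinarith
    have ha1 : 2 * P ^ 2 * T ^ 2 * n ^ 3 * Y ≤ (P * n) ^ 4 * LL Y ^ 16 / 2 := by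
      calc 2 * P ^ 2 * T ^ 2 * n ^ 3 * Y ≤ 2 * P ^ 2 * d ^ 2 * n ^ 3 * (H * u ^ 2) := by
            rw [hYR, hu2]; gcongr
        _ ≤ 2 * P ^ 2 * d ^ 2 * n ^ 3 * (H * (4 * P ^ 2)) := by gcongr
        _ = P ^ 4 * n ^ 3 * ((16 * H) * d ^ 2) / 2 := by ring
        _ ≤ P ^ 4 * n ^ 3 * ((X:ℝ) ^ (δ / 2) * d ^ 2) / 2 := by gcongr
        _ = P ^ 4 * n ^ 3 * d ^ 4 / 2 := by rw [← hdsq]; ring
        _ ≤ P ^ 4 * n ^ 3 * n / 2 := by gcongr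
        _ = (P * n) ^ 4 * 1 / 2 := by ring
        _ ≤ _ := by gcongr
    have hb1 : 6 * n ^ 4 * Y * LL (2 * Y) ^ 15 * Y ≤ (P * n) ^ 4 * LL Y ^ 16 / 2 := by
      calc 6 * n ^ 4 * Y * LL (2 * Y) ^ 15 * Y ≤ 6 * n ^ 4 * Y * (2 * LL Y) ^ 15 * Y := by
            have := LL_pos (2 * Y)
            gcongr
        _ = 6 * n ^ 4 * (H * u ^ 2) * (2 * LL Y) ^ 15 * (H * u ^ 2) := by rw [hYR, hu2]
        _ = n ^ 4 * (6 * 2 ^ 15 * (H:ℝ) ^ 2) * (u ^ 2) ^ 2 * LL Y ^ 15 := by ring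
        _ ≤ n ^ 4 * (6 * 2 ^ 15 * (H:ℝ) ^ 2) * (4 * P ^ 2) ^ 2 * LL Y ^ 15 := by gcongr
        _ = (P * n) ^ 4 * (12 * 16 * 2 ^ 15 * (H:ℝ) ^ 2) * LL Y ^ 15 / 2 := by ring
        _ ≤ (P * n) ^ 4 * LL Y * LL Y ^ 15 / 2 := by
            have := e7.trans hLXY
            gcongr
        _ = _ := by ring
    calc H2 (fam b c X W) (fun x => Nv a b c x.1 x.2) Y * Y ≤
          (2 * P ^ 2 * T ^ 2 * n ^ 3 + 6 * n ^ 4 * Y * LL (2 * Y) ^ 15) * Y := by gcongr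
      _ = 2 * P ^ 2 * T ^ 2 * n ^ 3 * Y + 6 * n ^ 4 * Y * LL (2 * Y) ^ 15 * Y := by ring
      _ ≤ _ := by linarith
  · have h3 := H3_le_T (I := fam b c X W) (N := fun x => Nv a b c x.1 x.2) hT0 hTb
    rw [← hr] at h3
    calc H3 (fam b c X W) (fun x => Nv a b c x.1 x.2) Y * Y * LL Y ^ B ≤ (T * r ^ 2) * Y * LL Y ^ B := by gcongr
      _ ≤ (d * r ^ 2) * Y * LL Y ^ B := by gcongr
      _ = d * (r * u) ^ 2 * (H * LL Y ^ B) := by rw [hYR, ← hu2]; ring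
      _ ≤ d * (r * u) ^ 2 * d ^ 2 := by gcongr
      _ = (r * u) ^ 2 * d ^ 3 := by ring
      _ ≤ (r * u) ^ 2 * d ^ 4 := by
          have : d ^ 3 ≤ d ^ 4 := pow_le_pow_right₀ (by linarith) (by norm_num)
          gcongr
      _ = (r * u * d ^ 2) ^ 2 := by ring
      _ ≤ ((P * n) ^ 2) ^ 2 := by gcongr
      _ = _ := by ring

end Pool.Agent.SEH.En
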