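import Pool.Agent.SEH.Mom

/-!
# Energies of the families `a k^2 + b k + c + w`
-/

open Complex Pool.Agent.ANT Pool.Agent.DEH

namespace Pool.Agent.SEH.En

section

variable {ι : Type*} {I : Finset ι} {N : ι → ℕ} {X : ℕ}

lemma rr_nonneg (I : Finset ι) (N : ι → ℕ) (h : ℤ) : 0 ≤ rr I N h := Nat.cast_nonneg _

lemma H1_nonneg : 0 ≤ H1 I N X :=
  Finset.sum_nonneg fun _ _ => mul_nonneg (tauR_nonneg _) (sq_nonneg _)

lemma mem_Zs {X : ℕ} {h : ℤ} : h ∈ Zs X ↔ h ≠ 0 ∧ -(X:ℤ) ≤ h ∧ h ≤ X := by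
  simp [Zs]

lemma H1_le_H2 : H1 I N X ≤ H2 I N X := by
  unfold H1 H2
  refine Finset.sum_le_sum fun h hh => ?_
  have h0 : h.natAbs ≠ 0 := by have := (mem_Zs.mp hh).1; omega
  have h1 := one_le_tauR h0
  have h2 : tauR h.natAbs ≤ tauR h.natAbs ^ 2 := by nlinarith
  gcongr

lemma H3_le_T {T : ℝ} (hT0 : 0 ≤ T) (hT : ∀ h ∈ Zs X, tauR h.natAbs ≤ T) :
    H3 I N X ≤ T * rr I N 0 ^ 2 := by
  classical
  have h1 : (∑ h ∈ Zs X, ∑ x ∈ PP I N h, ((PP I N h).filter (fun y => N y.1 = N x.1)).card) ≤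
      (PP I N 0).card * (PP I N 0).card := by
    have e1 : ∀ h ∈ Zs X, ∑ x ∈ PP I N h, ((PP I N h).filter (fun y => N y.1 = N x.1)).card =
        ((PP I N h).sigma (fun x => (PP I N h).filter (fun y => N y.1 = N x.1))).card :=
      fun h _ => (Finset.card_sigma _ _).symm
    rw [Finset.sum_congr rfl e1, ← Finset.card_sigma, ← Finset.card_product]
    refine Finset.card_le_card_of_injOn (fun z => ((z.2.1.1, z.2.2.1), (z.2.1.2, z.2.2.2))) ?_ ?_
    · rintro ⟨h, x, y⟩ hz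
      have hz := Finset.mem_coe.mp hz
      obtain ⟨h2, h3⟩ := Finset.mem_sigma.mp hz
      obtain ⟨h4, h5⟩ := Finset.mem_sigma.mp h3
      obtain ⟨h6, h7⟩ := Finset.mem_filter.mp h5
      simp only [PP, Finset.mem_filter, Finset.mem_product] at h4 h6
      simp only at h7
      refine Finset.mem_coe.mpr (Finset.mem_product.mpr ⟨?_, ?_⟩)
      · simp only [PP, Finset.mem_filter, Finset.mem_product]
        exact ⟨⟨h4.1.1, h6.1.1⟩, by rw [h7]; ring⟩
      · simp only [PP, Finset.mem_filter, Finset.mem_product]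
        refine ⟨⟨h4.1.2, h6.1.2⟩, ?_⟩
        have := h4.2
        have := h6.2
        have h8 : (N y.1 : ℤ) = N x.1 := by exact_mod_cast h7
        linarith
    · rintro ⟨h, x, y⟩ hz ⟨h', x', y'⟩ hz' heq
      simp only [Prod.mk.injEq] at heq
      obtain ⟨⟨h2, h3⟩, h4, h5⟩ := heq
      have ex : x = x' := Prod.ext h2 h4
      have ey : y = y' := Prod.ext h3 h5
      subst ex ey
      have hz := Finset.mem_coe.mp hz
      have hz' := Finset.mem_coe.mp hz'
      have h6 := (Finset.mem_sigma.mp (Finset.mem_sigma.mp hz).2).1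
      have h7 := (Finset.mem_sigma.mp (Finset.mem_sigma.mp hz').2).1
      simp only [PP, Finset.mem_filter] at h6 h7
      have : h = h' := by rw [← h6.2, ← h7.2]
      subst this
      rfl
  unfold H3
  calc _ ≤ ∑ h ∈ Zs X, T * ∑ x ∈ PP I N h, (((PP I N h).filter (fun y => N y.1 = N x.1)).card : ℝ) := by
        refine Finset.sum_le_sum fun h hh => ?_
        exact mul_le_mul_of_nonneg_right (hT h hh) (Finset.sum_nonneg fun _ _ => Nat.cast_nonneg _)
    _ = T * ((∑ h ∈ Zs X, ∑ x ∈ PP I N h, ((PP I N h).filter (fun y => N y.1 = N x.1)).card : ℕ) : ℝ) := by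
        rw [← Finset.mul_sum]; push_cast; rfl
    _ ≤ T * (((PP I N 0).card * (PP I N 0).card : ℕ) : ℝ) := by
        have : ((∑ h ∈ Zs X, ∑ x ∈ PP I N h, ((PP I N h).filter (fun y => N y.1 = N x.1)).card : ℕ) : ℝ) ≤
          (((PP I N 0).card * (PP I N 0).card : ℕ) : ℝ) := by exact_mod_cast h1
        gcongr
    _ = _ := by unfold rr; push_cast; ring

lemma sum_rr_le (I : Finset ι) (N : ι → ℕ) (s : Finset ℤ) : ∑ h ∈ s, rr I N h ≤ (I.card : ℝ) ^ 2 := by
  classical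
  have h1 : ∑ h ∈ s, (PP I N h).card ≤ I.card * I.card := by
    rw [← Finset.card_product]
    have e : ∀ h ∈ s, (PP I N h).card = ((I ×ˢ I).filter (fun x => (N x.2 : ℤ) - N x.1 = h)).card :=
      fun _ _ => rfl
    rw [Finset.sum_congr rfl e]
    rw [← Finset.card_biUnion]
    · refine Finset.card_le_card ?_
      intro x hx
      obtain ⟨h, _, hx⟩ := Finset.mem_biUnion.mp hx
      exact (Finset.mem_filter.mp hx).1
    · intro h _ h' _ hne
      rw [Function.onFun, Finset.disjoint_left]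
      intro x hx hx'
      exact hne ((Finset.mem_filter.mp hx).2.symm.trans (Finset.mem_filter.mp hx').2)
  unfold rr
  have h2 : ((∑ h ∈ s, (PP I N h).card : ℕ) : ℝ) ≤ ((I.card * I.card : ℕ) : ℝ) := by exact_mod_cast h1
  push_cast at h2
  rw [sq]
  exact h2

/-- the number of pairs with a given difference, for a set -/
lemma rr_id_le (W : Finset ℕ) (h : ℤ) : rr W id h ≤ W.card := by
  unfold rr
  have : (PP W id h).card ≤ W.card := by
    refine Finset.card_le_card_of_injOn Prod.fst ?_ ?_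
    · intro x hx
      exact (Finset.mem_product.mp (Finset.mem_filter.mp hx).1).1
    · intro x hx y hy hxy
      have h1 := (Finset.mem_filter.mp (Finset.mem_coe.mp hx)).2
      have h2 := (Finset.mem_filter.mp (Finset.mem_coe.mp hy)).2
      simp only [id] at h1 h2
      refine Prod.ext hxy ?_
      have : (x.1 : ℤ) = y.1 := by exact_mod_cast hxy
      omega
  exact_mod_cast this

lemma sum_rr_id_sq (W : Finset ℕ) (s : Finset ℤ) : ∑ h ∈ s, rr W id h ^ 2 ≤ (W.card : ℝ) ^ 3 := by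
  calc ∑ h ∈ s, rr W id h ^ 2 ≤ ∑ h ∈ s, W.card * rr W id h := by
        refine Finset.sum_le_sum fun h _ => ?_
        have h1 := rr_id_le W h
        have h2 := rr_nonneg W id h
        rw [sq]
        gcongr
    _ = W.card * ∑ h ∈ s, rr W id h := by rw [Finset.mul_sum]
    _ ≤ W.card * (W.card : ℝ) ^ 2 := by
        have := sum_rr_le W id s
        gcongr
    _ = _ := by ring

end

/-! ### The quadratic polynomial -/

/-- the values of the polynomial -/
def Fv (a b c : ℤ) (k : ℕ) : ℤ := a * (k:ℤ) ^ 2 + b * k + c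

/-- the members of the family -/
def Nv (a b c : ℤ) (k w : ℕ) : ℕ := (Fv a b c k + w).toNat

/-- from here on the polynomial is at least `k^2 / 2 + 1` and increasing -/
def kz (b c : ℤ) : ℕ := 2 * (b.natAbs + c.natAbs + 1)

/-- the size of the family -/
def Hz (a b c : ℤ) : ℕ := a.natAbs + b.natAbs + c.natAbs + 1

lemma Fv_low {a b c : ℤ} (ha : 0 < a) {k : ℕ} (hk : kz b c < k) : (k:ℤ) ^ 2 + 2 ≤ 2 * Fv a b c k := by
  unfold Fv
  have h1 : 2 * (|b| + |c| + 1) < (k:ℤ) := by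
    unfold kz at hk
    have : ((2 * (b.natAbs + c.natAbs + 1) : ℕ) : ℤ) < k := by exact_mod_cast hk
    push_cast at this
    simpa using this
  have hb := neg_abs_le b
  have hc := neg_abs_le c
  have hb0 := abs_nonneg b
  have hc0 := abs_nonneg c
  have hk0 : (0:ℤ) < k := by linarith
  have h2 : (k:ℤ) ^ 2 ≤ a * (k:ℤ) ^ 2 := by
    have : (1:ℤ) ≤ a := ha
    nlinarith [sq_nonneg (k:ℤ)]
  have h3 : -(|b| * k) ≤ b * k := by nlinarith
  have h4 : (2 * (|b| + |c| + 1)) * k ≤ (k:ℤ) * k := by nlinarith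
  have h5 : |c| ≤ |c| * k := by nlinarith
  nlinarith

lemma slope_pos {a b c : ℤ} (ha : 0 < a) {k l : ℕ} (hk : kz b c < k) : 0 < a * ((k:ℤ) + l) + b := by
  have h1 : 2 * (|b| + |c| + 1) < (k:ℤ) := by
    unfold kz at hk
    have : ((2 * (b.natAbs + c.natAbs + 1) : ℕ) : ℤ) < k := by exact_mod_cast hk
    push_cast at this
    simpa using this
  have hb := neg_abs_le b
  have hb0 := abs_nonneg b
  have hc0 := abs_nonneg c
  have hl : (0:ℤ) ≤ l := Nat.cast_nonneg l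
  have h2 : (k:ℤ) + l ≤ a * ((k:ℤ) + l) := by
    have : (1:ℤ) ≤ a := ha
    nlinarith
  linarith

lemma Fv_sub (a b c : ℤ) (k l : ℕ) : Fv a b c l - Fv a b c k = ((l:ℤ) - k) * (a * ((k:ℤ) + l) + b) := by
  unfold Fv; ring

lemma Fv_up {a b c : ℤ} {k X : ℕ} (hk : k ^ 2 ≤ X) (hX : 1 ≤ X) :
    Fv a b c k + X ≤ Hz a b c * X := by
  unfold Fv Hz
  have hk' : (k:ℤ) ^ 2 ≤ X := by exact_mod_cast hk
  have hk1 : (k:ℤ) ≤ X := by
    have : k ≤ k ^ 2 := Nat.le_self_pow (by norm_num) k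
    exact_mod_cast this.trans hk
  have hk0 : (0:ℤ) ≤ k := Nat.cast_nonneg k
  have hX' : (1:ℤ) ≤ X := by exact_mod_cast hX
  have ha := le_abs_self a
  have hb := le_abs_self b
  have hc := le_abs_self c
  have ha0 := abs_nonneg a
  have hb0 := abs_nonneg b
  have hc0 := abs_nonneg c
  have h1 : a * (k:ℤ) ^ 2 ≤ |a| * X := by
    calc a * (k:ℤ) ^ 2 ≤ |a| * (k:ℤ) ^ 2 := by nlinarith [sq_nonneg (k:ℤ)]
      _ ≤ |a| * X := by nlinarith
  have h2 : b * (k:ℤ) ≤ |b| * X := by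
    calc b * (k:ℤ) ≤ |b| * k := by nlinarith
      _ ≤ |b| * X := by nlinarith
  have h3 : c ≤ |c| * X := by nlinarith
  push_cast
  nlinarith

lemma Nv_cast {a b c : ℤ} (ha : 0 < a) {k : ℕ} (hk : kz b c < k) (w : ℕ) :
    (Nv a b c k w : ℤ) = Fv a b c k + w := by
  unfold Nv
  refine Int.toNat_of_nonneg ?_
  have := Fv_low ha hk
  have := sq_nonneg (k:ℤ)
  omega

/-- number of representations of `j` as a difference of values -/
def rho (a b c : ℤ) (s : Finset ℕ) (j : ℤ) : ℕ :=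
  ((s ×ˢ s).filter (fun x => Fv a b c x.2 - Fv a b c x.1 = j)).card

lemma rho_zero {a b c : ℤ} (ha : 0 < a) {s : Finset ℕ} (hs : ∀ k ∈ s, kz b c < k) :
    rho a b c s 0 ≤ s.card := by
  unfold rho
  refine Finset.card_le_card_of_injOn Prod.fst ?_ ?_
  · intro x hx
    exact (Finset.mem_product.mp (Finset.mem_filter.mp hx).1).1
  · have key : ∀ x ∈ (s ×ˢ s).filter (fun x => Fv a b c x.2 - Fv a b c x.1 = 0), x.2 = x.1 := by
      intro x hx
      obtain ⟨h1, h2⟩ := Finset.mem_filter.mp hx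
      obtain ⟨h3, h4⟩ := Finset.mem_product.mp h1
      rw [Fv_sub] at h2
      have h5 := slope_pos (l := x.2) ha (hs _ h3)
      rcases mul_eq_zero.mp h2 with h6 | h6
      · omega
      · omega
    intro x hx y hy hxy
    have h1 := key x (Finset.mem_coe.mp hx)
    have h2 := key y (Finset.mem_coe.mp hy)
    exact Prod.ext hxy (by rw [h1, h2]; exact hxy)

lemma rho_le {a b c : ℤ} (ha : 0 < a) {s : Finset ℕ} (hs : ∀ k ∈ s, kz b c < k) {j : ℤ} (hj : j ≠ 0) :
    rho a b c s j ≤ j.natAbs.divisors.card := by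
  unfold rho
  refine Finset.card_le_card_of_injOn (fun x => ((x.2:ℤ) - x.1).natAbs) ?_ ?_
  · intro x hx
    obtain ⟨h1, h2⟩ := Finset.mem_filter.mp (Finset.mem_coe.mp hx)
    rw [Fv_sub] at h2
    refine Finset.mem_coe.mpr (Nat.mem_divisors.mpr ⟨Int.natAbs_dvd_natAbs.mpr ⟨_, h2.symm⟩, ?_⟩)
    exact fun h => hj (Int.natAbs_eq_zero.mp h)
  · have key : ∀ x ∈ (s ×ˢ s).filter (fun x => Fv a b c x.2 - Fv a b c x.1 = j),
        0 < a * ((x.1:ℤ) + x.2) + b ∧ ((x.2:ℤ) - x.1) * (a * ((x.1:ℤ) + x.2) + b) = j := by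
      intro x hx
      obtain ⟨h1, h2⟩ := Finset.mem_filter.mp hx
      obtain ⟨h3, h4⟩ := Finset.mem_product.mp h1
      rw [Fv_sub] at h2
      exact ⟨slope_pos (l := x.2) ha (hs _ h3), h2⟩
    intro x hx y hy hxy
    obtain ⟨h1, h2⟩ := key x (Finset.mem_coe.mp hx)
    obtain ⟨h3, h4⟩ := key y (Finset.mem_coe.mp hy)
    simp only at hxy
    have h5 : (x.2:ℤ) - x.1 = (y.2:ℤ) - y.1 := by
      rcases Int.natAbs_eq_natAbs_iff.mp hxy with h | h
      · exact h
      · exfalso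
        rw [h] at h2
        have h6 : ((y.2:ℤ) - y.1) * ((a * ((x.1:ℤ) + x.2) + b) + (a * ((y.1:ℤ) + y.2) + b)) = 0 := by
          linarith
        rcases mul_eq_zero.mp h6 with h7 | h7
        · rw [h7] at h4
          exact hj (by rw [← h4]; ring)
        · omega
    have h6 : (y.2:ℤ) - y.1 ≠ 0 := by
      intro h; rw [h] at h4; exact hj (by rw [← h4]; ring)
    have h7 : a * ((x.1:ℤ) + x.2) + b = a * ((y.1:ℤ) + y.2) + b := by
      rw [h5, ← h4] at h2
      exact mul_left_cancel₀ h6 h2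
    have h8 : (x.1:ℤ) + x.2 = (y.1:ℤ) + y.2 := mul_left_cancel₀ ha.ne' (by linarith)
    refine Prod.ext ?_ ?_
    · omega
    · omega

/-- the divisor function, `0` at `0` -/
noncomputable def uu (j : ℤ) : ℝ := if j = 0 then 0 else tauR j.natAbs

lemma uu_nonneg (j : ℤ) : 0 ≤ uu j := by
  unfold uu; split_ifs
  · exact le_rfl
  · exact tauR_nonneg _

/-- the off-diagonal part -/
noncomputable def tt (W : Finset ℕ) (h : ℤ) : ℝ := ∑ x ∈ W ×ˢ W, uu (h + x.1 - x.2)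

lemma tt_nonneg (W : Finset ℕ) (h : ℤ) : 0 ≤ tt W h := Finset.sum_nonneg fun _ _ => uu_nonneg _

/-- The differences of the family. -/
lemma rr_prod_le {a b c : ℤ} (ha : 0 < a) {s : Finset ℕ} (hs : ∀ k ∈ s, kz b c < k) (W : Finset ℕ) (h : ℤ) :
    rr (s ×ˢ W) (fun x => Nv a b c x.1 x.2) h ≤ s.card * rr W id h + tt W h := by
  classical
  unfold rr
  have h1 : (PP (s ×ˢ W) (fun x => Nv a b c x.1 x.2) h).card =
      ∑ v ∈ W ×ˢ W, ((PP (s ×ˢ W) (fun x => Nv a b c x.1 x.2) h).filter (fun z => (z.1.2, z.2.2) = v)).card := by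
    refine Finset.card_eq_sum_card_fiberwise fun z hz => ?_
    have h2 := (Finset.mem_filter.mp (Finset.mem_coe.mp hz)).1
    obtain ⟨h3, h4⟩ := Finset.mem_product.mp h2
    exact Finset.mem_coe.mpr (Finset.mem_product.mpr ⟨(Finset.mem_product.mp h3).2, (Finset.mem_product.mp h4).2⟩)
  have h2 : ∀ v ∈ W ×ˢ W, ((PP (s ×ˢ W) (fun x => Nv a b c x.1 x.2) h).filter (fun z => (z.1.2, z.2.2) = v)).card ≤
      rho a b c s (h + v.1 - v.2) := by
    intro v _
    unfold rho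
    refine Finset.card_le_card_of_injOn (fun z => (z.1.1, z.2.1)) ?_ ?_
    · intro z hz
      obtain ⟨h3, h4⟩ := Finset.mem_filter.mp (Finset.mem_coe.mp hz)
      obtain ⟨h5, h6⟩ := Finset.mem_filter.mp h3
      obtain ⟨h7, h8⟩ := Finset.mem_product.mp h5
      obtain ⟨h9, _⟩ := Finset.mem_product.mp h7
      obtain ⟨h10, _⟩ := Finset.mem_product.mp h8
      refine Finset.mem_coe.mpr (Finset.mem_filter.mpr ⟨Finset.mem_product.mpr ⟨h9, h10⟩, ?_⟩)
      simp only at h6 ⊢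
      rw [Nv_cast ha (hs _ h9), Nv_cast ha (hs _ h10)] at h6
      rw [← h4]
      linarith
    · intro z hz z' hz' heq
      have h3 := (Finset.mem_filter.mp (Finset.mem_coe.mp hz)).2
      have h4 := (Finset.mem_filter.mp (Finset.mem_coe.mp hz')).2
      simp only [Prod.mk.injEq] at heq
      rw [← h4] at h3
      simp only [Prod.mk.injEq] at h3
      exact Prod.ext (Prod.ext heq.1 h3.1) (Prod.ext heq.2 h3.2)
  have h3 : ∀ v ∈ W ×ˢ W, ((rho a b c s (h + v.1 - v.2) : ℕ) : ℝ) ≤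
      (if ((v.2 : ℕ) : ℤ) - v.1 = h then (s.card : ℝ) else 0) + uu (h + v.1 - v.2) := by
    intro v _
    by_cases h4 : ((v.2 : ℕ) : ℤ) - v.1 = h
    · rw [if_pos h4]
      have h5 : h + v.1 - v.2 = 0 := by rw [← h4]; ring
      rw [h5]
      have h6 : ((rho a b c s 0 : ℕ) : ℝ) ≤ s.card := by exact_mod_cast rho_zero ha hs
      have := uu_nonneg 0
      linarith
    · rw [if_neg h4, zero_add]
      have h5 : h + v.1 - v.2 ≠ 0 := fun h6 => h4 (by linarith)
      unfold uu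
      rw [if_neg h5]
      unfold tauR
      exact_mod_cast rho_le ha hs h5
  rw [h1]
  push_cast
  calc ∑ v ∈ W ×ˢ W, (((PP (s ×ˢ W) (fun x => Nv a b c x.1 x.2) h).filter (fun z => (z.1.2, z.2.2) = v)).card : ℝ)
      ≤ ∑ v ∈ W ×ˢ W, ((if ((v.2 : ℕ) : ℤ) - v.1 = h then (s.card : ℝ) else 0) + uu (h + v.1 - v.2)) := by
        refine Finset.sum_le_sum fun v hv => ?_
        refine le_trans ?_ (h3 v hv)
        exact_mod_cast h2 v hv
    _ = _ := by
        rw [Finset.sum_add_distrib, ← Finset.sum_filter, Finset.sum_const, nsmul_eq_mul]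
        unfold tt PP
        simp only [id]
        ring

/-- sum of the fourth powers of a shifted divisor function -/
lemma sum_uu_four {Y : ℕ} {j : ℤ} (hj : |j| ≤ Y) :
    ∑ h ∈ Zs Y, uu (h + j) ^ 4 ≤ 4 * Y * LL (2 * Y) ^ 15 := by
  classical
  have hj' := abs_le.mp hj
  have h1 : ∑ h ∈ Zs Y, uu (h + j) ^ 4 ≤ ∑ l ∈ Zs (2 * Y), tauR l.natAbs ^ 4 := by
    have h2 : ∑ h ∈ Zs Y, uu (h + j) ^ 4 = ∑ l ∈ (Zs Y).image (fun h => h + j), uu l ^ 4 := by
      rw [Finset.sum_image]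
      intro x _ y _ hxy
      simpa using hxy
    rw [h2]
    have h3 : ∑ l ∈ (Zs Y).image (fun h => h + j), uu l ^ 4 =
        ∑ l ∈ ((Zs Y).image (fun h => h + j)).filter (fun l => l ≠ 0), uu l ^ 4 := by
      rw [Finset.sum_filter]
      refine Finset.sum_congr rfl fun l _ => ?_
      by_cases h4 : l ≠ 0
      · rw [if_pos h4]
      · push Not at h4
        rw [if_neg (by simpa using h4), h4]
        simp [uu]
    rw [h3]
    calc ∑ l ∈ ((Zs Y).image (fun h => h + j)).filter (fun l => l ≠ 0), uu l ^ 4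
        = ∑ l ∈ ((Zs Y).image (fun h => h + j)).filter (fun l => l ≠ 0), tauR l.natAbs ^ 4 := by
          refine Finset.sum_congr rfl fun l hl => ?_
          unfold uu
          rw [if_neg (Finset.mem_filter.mp hl).2]
      _ ≤ _ := by
          refine Finset.sum_le_sum_of_subset_of_nonneg ?_ fun l _ _ => pow_nonneg (tauR_nonneg _) _
          intro l hl
          obtain ⟨h4, h5⟩ := Finset.mem_filter.mp hl
          obtain ⟨h, hh, rfl⟩ := Finset.mem_image.mp h4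
          have h6 := mem_Zs.mp hh
          refine mem_Zs.mpr ⟨h5, ?_, ?_⟩
          · push_cast; linarith [hj'.1]
          · push_cast; linarith [hj'.2]
  refine h1.trans ((sum_Zs_tau_pow 4 (2 * Y)).trans (le_of_eq ?_))
  push_cast
  ring

lemma LL_mono {X Y : ℕ} (hX : 1 ≤ X) (h : X ≤ Y) : LL X ≤ LL Y := by
  unfold LL
  have : Real.log X ≤ Real.log Y := Real.log_le_log (by exact_mod_cast hX) (by exact_mod_cast h)
  linarith

/-- the off-diagonal part in mean square -/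
lemma sum_tt_sq {W : Finset ℕ} {X Y : ℕ} (hY : 1 ≤ Y) (hXY : X ≤ Y) (hW : W ⊆ Finset.range (X + 1)) :
    ∑ h ∈ Zs Y, tauR h.natAbs ^ 2 * tt W h ^ 2 ≤ (W.card : ℝ) ^ 4 * (3 * Y * LL (2 * Y) ^ 15) := by
  have hL2 := LL_pos (2 * Y)
  have h1 : ∀ h ∈ Zs Y, tauR h.natAbs ^ 2 * tt W h ^ 2 ≤
      (W.card : ℝ) ^ 2 * ∑ x ∈ W ×ˢ W, (1 / 2 * tauR h.natAbs ^ 4 + 1 / 2 * uu (h + (x.1 - x.2)) ^ 4) := by
    intro h _
    have h2 : tt W h ^ 2 ≤ (W.card : ℝ) ^ 2 * ∑ x ∈ W ×ˢ W, uu (h + (x.1 - x.2)) ^ 2 := by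
      unfold tt
      have h3 := sq_sum_le_card_mul_sum_sq (s := W ×ˢ W) (f := fun x => uu (h + x.1 - x.2))
      rw [Finset.card_product] at h3
      push_cast at h3
      rw [sq (W.card : ℝ)]
      refine h3.trans (le_of_eq ?_)
      congr 1
      refine Finset.sum_congr rfl fun x _ => ?_
      rw [add_sub_assoc]
    calc tauR h.natAbs ^ 2 * tt W h ^ 2 ≤ tauR h.natAbs ^ 2 *
          ((W.card : ℝ) ^ 2 * ∑ x ∈ W ×ˢ W, uu (h + (x.1 - x.2)) ^ 2) := by gcongr
      _ = (W.card : ℝ) ^ 2 * ∑ x ∈ W ×ˢ W, tauR h.natAbs ^ 2 * uu (h + (x.1 - x.2)) ^ 2 := by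
          rw [← Finset.mul_sum]; ring
      _ ≤ _ := by
          refine mul_le_mul_of_nonneg_left (Finset.sum_le_sum fun x _ => ?_) (by positivity)
          nlinarith [sq_nonneg (tauR h.natAbs ^ 2 - uu (h + (x.1 - x.2)) ^ 2)]
  calc ∑ h ∈ Zs Y, tauR h.natAbs ^ 2 * tt W h ^ 2
      ≤ ∑ h ∈ Zs Y, (W.card : ℝ) ^ 2 * ∑ x ∈ W ×ˢ W,
          (1 / 2 * tauR h.natAbs ^ 4 + 1 / 2 * uu (h + (x.1 - x.2)) ^ 4) := Finset.sum_le_sum h1
    _ = (W.card : ℝ) ^ 2 * ∑ x ∈ W ×ˢ W, (1 / 2 * ∑ h ∈ Zs Y, tauR h.natAbs ^ 4 +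
          1 / 2 * ∑ h ∈ Zs Y, uu (h + (x.1 - x.2)) ^ 4) := by
        rw [← Finset.mul_sum, Finset.sum_comm]
        congr 1
        refine Finset.sum_congr rfl fun x _ => ?_
        rw [Finset.sum_add_distrib, Finset.mul_sum, Finset.mul_sum]
    _ ≤ (W.card : ℝ) ^ 2 * ∑ _x ∈ W ×ˢ W, (3 * Y * LL (2 * Y) ^ 15) := by
        refine mul_le_mul_of_nonneg_left (Finset.sum_le_sum fun x hx => ?_) (by positivity)
        obtain ⟨h3, h4⟩ := Finset.mem_product.mp hx
        have h5 := Finset.mem_range.mp (hW h3)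
        have h6 := Finset.mem_range.mp (hW h4)
        have h7 : |(x.1:ℤ) - x.2| ≤ Y := by rw [abs_le]; constructor <;> omega
        have h8 := sum_uu_four h7
        have h9 := sum_Zs_tau_pow 4 Y
        have h10 : LL Y ^ 15 ≤ LL (2 * Y) ^ 15 := by
          have := LL_mono hY (by omega : Y ≤ 2 * Y)
          have := LL_pos Y
          gcongr
        have h11 : (Y:ℝ) * LL Y ^ 15 ≤ Y * LL (2 * Y) ^ 15 := by gcongr
        norm_num at h9
        linarith
    _ = _ := by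
        rw [Finset.sum_const, nsmul_eq_mul, Finset.card_product]; push_cast; ring

/-- `H₂` of the family -/
lemma H2_prod_le {a b c : ℤ} (ha : 0 < a) {s : Finset ℕ} (hs : ∀ k ∈ s, kz b c < k) {W : Finset ℕ} {X Y : ℕ}
    (hY : 1 ≤ Y) (hXY : X ≤ Y) (hW : W ⊆ Finset.range (X + 1)) {T : ℝ}
    (hT : ∀ h ∈ Zs Y, tauR h.natAbs ≤ T) :
    H2 (s ×ˢ W) (fun x => Nv a b c x.1 x.2) Y ≤
      2 * (s.card : ℝ) ^ 2 * T ^ 2 * (W.card : ℝ) ^ 3 + 6 * (W.card : ℝ) ^ 4 * Y * LL (2 * Y) ^ 15 := by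
  unfold H2
  calc ∑ h ∈ Zs Y, tauR h.natAbs ^ 2 * rr (s ×ˢ W) (fun x => Nv a b c x.1 x.2) h ^ 2
      ≤ ∑ h ∈ Zs Y, (2 * (s.card : ℝ) ^ 2 * T ^ 2 * rr W id h ^ 2 + 2 * (tauR h.natAbs ^ 2 * tt W h ^ 2)) := by
        refine Finset.sum_le_sum fun h hh => ?_
        have h1 := rr_prod_le ha hs W h
        have h2 := rr_nonneg (s ×ˢ W) (fun x => Nv a b c x.1 x.2) h
        have h3 := hT h hh
        have h4 := tauR_nonneg h.natAbs
        have h5 : rr (s ×ˢ W) (fun x => Nv a b c x.1 x.2) h ^ 2 ≤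
            2 * (s.card : ℝ) ^ 2 * rr W id h ^ 2 + 2 * tt W h ^ 2 := by
          calc rr (s ×ˢ W) (fun x => Nv a b c x.1 x.2) h ^ 2 ≤ (s.card * rr W id h + tt W h) ^ 2 := by
                gcongr
            _ ≤ _ := by nlinarith [sq_nonneg (s.card * rr W id h - tt W h)]
        calc tauR h.natAbs ^ 2 * rr (s ×ˢ W) (fun x => Nv a b c x.1 x.2) h ^ 2
            ≤ tauR h.natAbs ^ 2 * (2 * (s.card : ℝ) ^ 2 * rr W id h ^ 2 + 2 * tt W h ^ 2) := by gcongr
          _ = 2 * (s.card : ℝ) ^ 2 * tauR h.natAbs ^ 2 * rr W id h ^ 2 +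
              2 * (tauR h.natAbs ^ 2 * tt W h ^ 2) := by ring
          _ ≤ _ := by gcongr
    _ = 2 * (s.card : ℝ) ^ 2 * T ^ 2 * ∑ h ∈ Zs Y, rr W id h ^ 2 +
        2 * ∑ h ∈ Zs Y, tauR h.natAbs ^ 2 * tt W h ^ 2 := by
        rw [Finset.sum_add_distrib, Finset.mul_sum, Finset.mul_sum]
    _ ≤ 2 * (s.card : ℝ) ^ 2 * T ^ 2 * (W.card : ℝ) ^ 3 +
        2 * ((W.card : ℝ) ^ 4 * (3 * Y * LL (2 * Y) ^ 15)) := by
        have h1 := sum_rr_id_sq W (Zs Y)
        have h2 := sum_tt_sq hY hXY hW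
        gcongr
    _ = _ := by ring

/-- `r(0)` of the family -/
lemma r0_prod_le {a b c : ℤ} (ha : 0 < a) {s : Finset ℕ} (hs : ∀ k ∈ s, kz b c < k) {W : Finset ℕ} {X Y : ℕ}
    (hXY : X ≤ Y) (hW : W ⊆ Finset.range (X + 1)) {T : ℝ} (hT0 : 0 ≤ T)
    (hT : ∀ h ∈ Zs Y, tauR h.natAbs ≤ T) :
    rr (s ×ˢ W) (fun x => Nv a b c x.1 x.2) 0 ≤ s.card * W.card + (W.card : ℝ) ^ 2 * T := by
  refine (rr_prod_le ha hs W 0).trans (add_le_add ?_ ?_)
  · have := rr_id_le W 0
    gcongr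
  · unfold tt
    calc ∑ x ∈ W ×ˢ W, uu (0 + x.1 - x.2) ≤ ∑ _x ∈ W ×ˢ W, T := by
          refine Finset.sum_le_sum fun x hx => ?_
          obtain ⟨h3, h4⟩ := Finset.mem_product.mp hx
          have h5 := Finset.mem_range.mp (hW h3)
          have h6 := Finset.mem_range.mp (hW h4)
          unfold uu
          split_ifs with h
          · exact hT0
          · exact hT _ (mem_Zs.mpr ⟨h, by omega, by omega⟩)
      _ = _ := by rw [Finset.sum_const, nsmul_eq_mul, Finset.card_product]; push_cast; ring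

/-- one shift only -/
lemma rr_single {a b c : ℤ} (ha : 0 < a) {s : Finset ℕ} (hs : ∀ k ∈ s, kz b c < k) (w : ℕ) :
    rr (s ×ˢ {w}) (fun x => Nv a b c x.1 x.2) 0 ≤ s.card ∧
    ∀ h : ℤ, h ≠ 0 → rr (s ×ˢ {w}) (fun x => Nv a b c x.1 x.2) h ≤ tauR h.natAbs := by
  constructor
  · refine (rr_prod_le ha hs {w} 0).trans ?_
    have h1 := rr_id_le {w} 0
    have h2 : tt {w} 0 = 0 := by simp [tt, uu]
    rw [h2, add_zero]
    simp only [Finset.card_singleton, Nat.cast_one] at h1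
    have : (0:ℝ) ≤ s.card := Nat.cast_nonneg _
    nlinarith
  · intro h hh
    refine (rr_prod_le ha hs {w} h).trans ?_
    have h1 : rr {w} id h = 0 := by
      unfold rr
      rw [Nat.cast_eq_zero, Finset.card_eq_zero, PP, Finset.filter_eq_empty_iff]
      intro x hx
      simp only [Finset.product_singleton, Finset.map_singleton, Finset.mem_singleton] at hx
      simp only [id]
      intro h2
      apply hh
      rw [← h2]
      obtain ⟨h3, h4⟩ : x.1 = w ∧ x.2 = w := by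
        have := hx
        rcases x with ⟨x1, x2⟩
        simpa using this
      rw [h3, h4]; ring
    have h2 : tt {w} h = tauR h.natAbs := by simp [tt, uu, hh]
    rw [h1, h2]
    simp

lemma H1_single {a b c : ℤ} (ha : 0 < a) {s : Finset ℕ} (hs : ∀ k ∈ s, kz b c < k) (w Y : ℕ) :
    H1 (s ×ˢ {w}) (fun x => Nv a b c x.1 x.2) Y ≤ 2 * (Y * LL Y ^ 7) := by
  unfold H1
  have h1 := sum_Zs_tau_pow 3 Y
  norm_num at h1
  refine le_trans (Finset.sum_le_sum fun h hh => ?_) h1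
  have h2 := (rr_single ha hs w).2 h (mem_Zs.mp hh).1
  have h3 := rr_nonneg (s ×ˢ {w}) (fun x => Nv a b c x.1 x.2) h
  have h4 := tauR_nonneg h.natAbs
  calc tauR h.natAbs * rr (s ×ˢ {w}) (fun x => Nv a b c x.1 x.2) h ^ 2 ≤ tauR h.natAbs * tauR h.natAbs ^ 2 := by
        gcongr
    _ = _ := by ring

end Pool.Agent.SEH.En
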