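import Pool.Agent.SEH.Key3

/-!
Energies, 1: differences of values of a quadratic polynomial.
-/

open Pool.Agent.ANT Pool.Agent.DEH

namespace Pool.Agent.SEH

/-- the quadratic polynomial -/
def Fv (a b c : ℤ) (k : ℕ) : ℤ := a * (k:ℤ) ^ 2 + b * k + c

/-- the number of pairs with given difference of the values -/
noncomputable def rho (a b c : ℤ) (Ks : Finset ℕ) (j : ℤ) : ℝ :=
  (((Ks ×ˢ Ks).filter (fun x => Fv a b c x.2 - Fv a b c x.1 = j)).card : ℝ)

section

variable {a b c : ℤ} {Ks : Finset ℕ}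

lemma Fv_sub (k l : ℕ) : Fv a b c l - Fv a b c k = ((l:ℤ) - k) * (a * (k + l) + b) := by
  unfold Fv; ring

lemma slope_pos (ha : 1 ≤ a) {k l : ℕ} (hk : b.natAbs < k) : 0 < a * ((k:ℤ) + l) + b := by
  have h1 : -(k:ℤ) < b := by omega
  have h2 : (k:ℤ) + l ≤ a * (k + l) := by nlinarith
  have h3 : (0:ℤ) ≤ l := Int.natCast_nonneg l
  linarith

lemma rho_zero (ha : 1 ≤ a) (hK : ∀ k ∈ Ks, b.natAbs < k) : rho a b c Ks 0 ≤ Ks.card := by
  unfold rho
  have h1 : ((Ks ×ˢ Ks).filter (fun x => Fv a b c x.2 - Fv a b c x.1 = 0)).card ≤ Ks.card := by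
    refine Finset.card_le_card_of_injOn (fun x => x.1) ?_ ?_
    · intro x hx
      exact (Finset.mem_product.mp (Finset.mem_filter.mp hx).1).1
    · intro x hx y hy hxy
      have e : ∀ z ∈ (Ks ×ˢ Ks).filter (fun x => Fv a b c x.2 - Fv a b c x.1 = 0), z.2 = z.1 := by
        intro z hz
        obtain ⟨h1, h2⟩ := Finset.mem_filter.mp hz
        obtain ⟨h3, h4⟩ := Finset.mem_product.mp h1
        rw [Fv_sub] at h2
        have h5 := slope_pos ha (hK _ h3) (l := z.2)
        rcases mul_eq_zero.mp h2 with h6 | h6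
        · omega
        · omega
      have h5 := e x hx
      have h6 := e y hy
      simp only at hxy
      exact Prod.ext hxy (by rw [h5, h6, hxy])
  exact_mod_cast h1

lemma rho_le (ha : 1 ≤ a) (hK : ∀ k ∈ Ks, b.natAbs < k) {j : ℤ} (hj : j ≠ 0) :
    rho a b c Ks j ≤ tauR j.natAbs := by
  unfold rho tauR
  have h1 : ((Ks ×ˢ Ks).filter (fun x => Fv a b c x.2 - Fv a b c x.1 = j)).card ≤ j.natAbs.divisors.card := by
    refine Finset.card_le_card_of_injOn (fun x => ((x.2:ℤ) - x.1).natAbs) ?_ ?_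
    · intro x hx
      obtain ⟨h2, h3⟩ := Finset.mem_filter.mp hx
      rw [Fv_sub] at h3
      refine Finset.mem_coe.mpr (Nat.mem_divisors.mpr ⟨?_, by omega⟩)
      exact Int.natAbs_dvd_natAbs.mpr ⟨_, h3.symm⟩
    · intro x hx y hy hxy
      obtain ⟨h2, h3⟩ := Finset.mem_filter.mp hx
      obtain ⟨h4, h5⟩ := Finset.mem_filter.mp hy
      obtain ⟨h6, h7⟩ := Finset.mem_product.mp h2
      obtain ⟨h8, h9⟩ := Finset.mem_product.mp h4
      rw [Fv_sub] at h3 h5
      have h10 := slope_pos ha (hK _ h6) (l := x.2)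
      have h11 := slope_pos ha (hK _ h8) (l := y.2)
      simp only at hxy
      set u := (x.2:ℤ) - x.1 with hu
      set v := (y.2:ℤ) - y.1 with hv
      set p := a * ((x.1:ℤ) + x.2) + b with hp
      set r := a * ((y.1:ℤ) + y.2) + b with hr
      have huv : u = v := by
        rcases Int.natAbs_eq_natAbs_iff.mp hxy with h | h
        · exact h
        · exfalso
          rw [h] at h3
          rcases lt_trichotomy v 0 with h12 | h12 | h12
          · have e1 : 0 < -v * p := mul_pos (by omega) h10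
            have e2 : v * r < 0 := mul_neg_of_neg_of_pos h12 h11
            omega
          · rw [h12] at h5; simp at h5; exact hj h5.symm
          · have e1 : -v * p < 0 := mul_neg_of_neg_of_pos (by omega) h10
            have e2 : 0 < v * r := mul_pos h12 h11
            omega
      have hv0 : v ≠ 0 := by
        intro h; rw [h] at h5; simp at h5; exact hj h5.symm
      have hpr : p = r := by
        have : v * p = v * r := by rw [← huv, h3, huv, h5]
        exact mul_left_cancel₀ hv0 this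
      have hsum : (x.1:ℤ) + x.2 = y.1 + y.2 := by
        have : a * ((x.1:ℤ) + x.2) = a * (y.1 + y.2) := by omega
        exact mul_left_cancel₀ (by omega : a ≠ 0) this
      exact Prod.ext (by omega) (by omega)
  exact_mod_cast h1

lemma rho_bound (ha : 1 ≤ a) (hK : ∀ k ∈ Ks, b.natAbs < k) (j : ℤ) :
    rho a b c Ks j ≤ (if j = 0 then (Ks.card : ℝ) else 0) + tauR j.natAbs := by
  split_ifs with h
  · rw [h]
    have := rho_zero (c := c) ha hK
    have h2 := tauR_nonneg (0:ℤ).natAbs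
    linarith
  · rw [zero_add]
    exact rho_le ha hK h

/-- the values of the family -/
noncomputable def NF (a b c : ℤ) (x : ℕ × ℕ) : ℕ := (Fv a b c x.1 + x.2).toNat

/-- the sum over the pairs of shifts -/
noncomputable def tW (W : Finset ℕ) (h : ℤ) : ℝ :=
  ∑ y ∈ W ×ˢ W, tauR (h - ((y.2:ℤ) - y.1)).natAbs

lemma tW_nonneg (W : Finset ℕ) (h : ℤ) : 0 ≤ tW W h := Finset.sum_nonneg fun _ _ => tauR_nonneg _

/-- the number of pairs of shifts with difference `h` -/
noncomputable def rW (W : Finset ℕ) (h : ℤ) : ℝ :=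
  (((W ×ˢ W).filter (fun y => (y.2:ℤ) - y.1 = h)).card : ℝ)

lemma rW_nonneg (W : Finset ℕ) (h : ℤ) : 0 ≤ rW W h := Nat.cast_nonneg _

lemma rr_eq (W : Finset ℕ) (hpos : ∀ k ∈ Ks, 0 ≤ Fv a b c k) (h : ℤ) :
    rr (Ks ×ˢ W) (NF a b c) h = ∑ y ∈ W ×ˢ W, rho a b c Ks (h - ((y.2:ℤ) - y.1)) := by
  have e0 : ∀ k ∈ Ks, ∀ w : ℕ, ((NF a b c (k, w) : ℕ) : ℤ) = Fv a b c k + w := by
    intro k hk w
    unfold NF
    exact Int.toNat_of_nonneg (by have := hpos k hk; positivity)
  have e1 : rr (Ks ×ˢ W) (NF a b c) h = ∑ k ∈ Ks, ∑ w ∈ W, ∑ l ∈ Ks, ∑ v ∈ W,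
      (if Fv a b c l - Fv a b c k = h - ((v:ℤ) - w) then (1:ℝ) else 0) := by
    unfold rr PP
    rw [Finset.card_filter]
    push_cast
    rw [Finset.sum_product, Finset.sum_product]
    refine Finset.sum_congr rfl fun k hk => Finset.sum_congr rfl fun w _ => ?_
    rw [Finset.sum_product]
    refine Finset.sum_congr rfl fun l hl => Finset.sum_congr rfl fun v _ => ?_
    simp only
    rw [e0 k hk w, e0 l hl v]
    refine if_congr ?_ rfl rfl
    constructor <;> intro h1 <;> linarith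
  have e2 : ∑ y ∈ W ×ˢ W, rho a b c Ks (h - ((y.2:ℤ) - y.1)) = ∑ w ∈ W, ∑ v ∈ W, ∑ k ∈ Ks, ∑ l ∈ Ks,
      (if Fv a b c l - Fv a b c k = h - ((v:ℤ) - w) then (1:ℝ) else 0) := by
    rw [Finset.sum_product]
    refine Finset.sum_congr rfl fun w _ => Finset.sum_congr rfl fun v _ => ?_
    unfold rho
    rw [Finset.card_filter]
    push_cast
    rw [Finset.sum_product]
  rw [e1, e2, Finset.sum_comm]
  refine Finset.sum_congr rfl fun w _ => ?_
  exact (Finset.sum_congr rfl fun k _ => Finset.sum_comm).trans Finset.sum_comm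

lemma rr_le (ha : 1 ≤ a) (hK : ∀ k ∈ Ks, b.natAbs < k) (W : Finset ℕ) (hpos : ∀ k ∈ Ks, 0 ≤ Fv a b c k) (h : ℤ) :
    rr (Ks ×ˢ W) (NF a b c) h ≤ Ks.card * rW W h + tW W h := by
  rw [rr_eq W hpos]
  calc _ ≤ ∑ y ∈ W ×ˢ W, ((if h - ((y.2:ℤ) - y.1) = 0 then (Ks.card : ℝ) else 0) + tauR (h - ((y.2:ℤ) - y.1)).natAbs) :=
        Finset.sum_le_sum fun y _ => rho_bound ha hK _
    _ = _ := by
        rw [Finset.sum_add_distrib, ← Finset.sum_filter, Finset.sum_const, nsmul_eq_mul, mul_comm]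
        unfold rW tW
        congr 4
        refine Finset.filter_congr fun y _ => ?_
        constructor <;> intro h1 <;> linarith

end

end Pool.Agent.SEH
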