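import Pool.Agent.SEH.Energy1

/-!
Energies, 2: bounds for `r(0)`, `H1`, `H2`, `H3`.
-/

open Pool.Agent.ANT Pool.Agent.DEH

namespace Pool.Agent.SEH

/-- correlation of two values of the divisor function -/
lemma corr4 {X : ℕ} {j : ℤ} (hj : |j| ≤ X) :
    ∑ h ∈ Zs X, tauR h.natAbs ^ 2 * tauR (h - j).natAbs ^ 2 ≤ 2 * ((2 * X : ℕ) * LL (2 * X) ^ 15) := by
  have hS := sum_Zs_tau_pow 4 (2 * X)
  norm_num at hS
  have h1 : ∑ h ∈ Zs X, tauR h.natAbs ^ 4 ≤ ∑ h ∈ Zs (2 * X), tauR h.natAbs ^ 4 := by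
    refine Finset.sum_le_sum_of_subset_of_nonneg ?_ fun _ _ _ => pow_nonneg (tauR_nonneg _) _
    intro h hh
    unfold Zs at hh ⊢
    rw [Finset.mem_erase, Finset.mem_Icc] at hh ⊢
    push_cast
    exact ⟨hh.1, by omega, by omega⟩
  have h2 : ∑ h ∈ Zs X, tauR (h - j).natAbs ^ 4 ≤ ∑ h ∈ Zs (2 * X), tauR h.natAbs ^ 4 := by
    calc ∑ h ∈ Zs X, tauR (h - j).natAbs ^ 4 = ∑ h ∈ (Zs X).filter (fun h => h ≠ j), tauR (h - j).natAbs ^ 4 := by
          rw [Finset.sum_filter]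
          refine Finset.sum_congr rfl fun h _ => ?_
          split_ifs with h3
          · rfl
          · have : h = j := by simpa using h3
            rw [this, sub_self]
            simp [tauR]
      _ = ∑ z ∈ ((Zs X).filter (fun h => h ≠ j)).image (fun h => h - j), tauR z.natAbs ^ 4 := by
          rw [Finset.sum_image]
          intro x _ y _ hxy
          simpa using hxy
      _ ≤ _ := by
          refine Finset.sum_le_sum_of_subset_of_nonneg ?_ fun _ _ _ => pow_nonneg (tauR_nonneg _) _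
          intro z hz
          obtain ⟨h, hh, rfl⟩ := Finset.mem_image.mp hz
          obtain ⟨h3, h4⟩ := Finset.mem_filter.mp hh
          unfold Zs at h3 ⊢
          rw [Finset.mem_erase, Finset.mem_Icc] at h3 ⊢
          have h5 := abs_le.mp hj
          push_cast
          exact ⟨by omega, by omega, by omega⟩
  have h3 : ∑ h ∈ Zs X, tauR h.natAbs ^ 2 * tauR (h - j).natAbs ^ 2 ≤
      ∑ h ∈ Zs X, (tauR h.natAbs ^ 4 / 2 + tauR (h - j).natAbs ^ 4 / 2) := by
    refine Finset.sum_le_sum fun h _ => ?_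
    nlinarith [sq_nonneg (tauR h.natAbs ^ 2 - tauR (h - j).natAbs ^ 2)]
  rw [Finset.sum_add_distrib, ← Finset.sum_div, ← Finset.sum_div] at h3
  have h4 : ∑ h ∈ Zs (2 * X), tauR h.natAbs ^ 4 ≤ 2 * ((2 * X : ℕ) * LL (2 * X) ^ 15) := by
    push_cast at hS ⊢
    exact hS
  linarith

section

variable {W : Finset ℕ}

lemma rW_le (h : ℤ) : rW W h ≤ W.card := by
  unfold rW
  have : ((W ×ˢ W).filter (fun y => (y.2:ℤ) - y.1 = h)).card ≤ W.card := by
    refine Finset.card_le_card_of_injOn (fun x => x.1) ?_ ?_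
    · intro x hx
      exact (Finset.mem_product.mp (Finset.mem_filter.mp hx).1).1
    · intro x hx y hy hxy
      have h1 := (Finset.mem_filter.mp hx).2
      have h2 := (Finset.mem_filter.mp hy).2
      simp only at hxy
      exact Prod.ext hxy (by omega)
  exact_mod_cast this

lemma sum_rW_le (s : Finset ℤ) : ∑ h ∈ s, rW W h ≤ (W.card : ℝ) ^ 2 := by
  unfold rW
  calc ∑ h ∈ s, (((W ×ˢ W).filter (fun y => (y.2:ℤ) - y.1 = h)).card : ℝ)
      = ∑ h ∈ s, ∑ y ∈ W ×ˢ W, (if (y.2:ℤ) - y.1 = h then (1:ℝ) else 0) := by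
        refine Finset.sum_congr rfl fun h _ => ?_
        rw [Finset.card_filter]
        push_cast
        rfl
    _ = ∑ y ∈ W ×ˢ W, ∑ h ∈ s, (if (y.2:ℤ) - y.1 = h then (1:ℝ) else 0) := Finset.sum_comm
    _ ≤ ∑ y ∈ W ×ˢ W, (1:ℝ) := by
        refine Finset.sum_le_sum fun y _ => ?_
        rw [Finset.sum_ite_eq]
        split_ifs <;> norm_num
    _ = _ := by
        rw [Finset.sum_const, Finset.card_product, nsmul_eq_mul, mul_one]
        push_cast; ring

lemma sum_rW_sq (s : Finset ℤ) : ∑ h ∈ s, rW W h ^ 2 ≤ (W.card : ℝ) ^ 3 := by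
  calc ∑ h ∈ s, rW W h ^ 2 ≤ ∑ h ∈ s, W.card * rW W h := by
        refine Finset.sum_le_sum fun h _ => ?_
        have := rW_le (W := W) h
        have := rW_nonneg W h
        rw [sq]; gcongr
    _ = W.card * ∑ h ∈ s, rW W h := by rw [Finset.mul_sum]
    _ ≤ W.card * (W.card : ℝ) ^ 2 := by
        have := sum_rW_le (W := W) s
        gcongr
    _ = _ := by ring

lemma tW_zero_le {X : ℕ} (hW : ∀ w ∈ W, w ≤ X) {T : ℝ} (hT : ∀ n ≤ X, tauR n ≤ T) :
    tW W 0 ≤ (W.card : ℝ) ^ 2 * T := by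
  unfold tW
  calc _ ≤ ∑ y ∈ W ×ˢ W, T := by
        refine Finset.sum_le_sum fun y hy => hT _ ?_
        obtain ⟨h1, h2⟩ := Finset.mem_product.mp hy
        have := hW _ h1
        have := hW _ h2
        omega
    _ = _ := by
        rw [Finset.sum_const, Finset.card_product, nsmul_eq_mul]
        push_cast; ring

lemma sum_tau_tW {X : ℕ} (hW : ∀ w ∈ W, w ≤ X) :
    ∑ h ∈ Zs X, tauR h.natAbs ^ 2 * tW W h ^ 2 ≤ (W.card : ℝ) ^ 4 * (2 * ((2 * X : ℕ) * LL (2 * X) ^ 15)) := by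
  have hc : (((W ×ˢ W).card : ℕ) : ℝ) = (W.card : ℝ) ^ 2 := by
    rw [Finset.card_product]; push_cast; ring
  calc ∑ h ∈ Zs X, tauR h.natAbs ^ 2 * tW W h ^ 2
      ≤ ∑ h ∈ Zs X, tauR h.natAbs ^ 2 * ((W.card : ℝ) ^ 2 * ∑ y ∈ W ×ˢ W, tauR (h - ((y.2:ℤ) - y.1)).natAbs ^ 2) := by
        refine Finset.sum_le_sum fun h _ => mul_le_mul_of_nonneg_left ?_ (sq_nonneg _)
        unfold tW
        rw [← hc]
        exact sq_sum_le_card_mul_sum_sq
    _ = (W.card : ℝ) ^ 2 * ∑ y ∈ W ×ˢ W, ∑ h ∈ Zs X, tauR h.natAbs ^ 2 * tauR (h - ((y.2:ℤ) - y.1)).natAbs ^ 2 := by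
        rw [Finset.sum_comm, Finset.mul_sum]
        refine Finset.sum_congr rfl fun h _ => ?_
        rw [Finset.mul_sum, Finset.mul_sum, Finset.mul_sum]
        exact Finset.sum_congr rfl fun y _ => by ring
    _ ≤ (W.card : ℝ) ^ 2 * ∑ y ∈ W ×ˢ W, (2 * ((2 * X : ℕ) * LL (2 * X) ^ 15)) := by
        refine mul_le_mul_of_nonneg_left (Finset.sum_le_sum fun y hy => corr4 ?_) (sq_nonneg _)
        obtain ⟨h1, h2⟩ := Finset.mem_product.mp hy
        have := hW _ h1
        have := hW _ h2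
        rw [abs_le]
        constructor <;> omega
    _ = _ := by
        rw [Finset.sum_const, nsmul_eq_mul, hc]
        ring

end

section

variable {ι : Type*} {I : Finset ι} {N : ι → ℕ}

lemma rr0_eq : rr I N 0 = ∑ i ∈ I, ∑ j ∈ I, if N j = N i then (1:ℝ) else 0 := by
  unfold rr PP
  rw [Finset.card_filter]
  push_cast
  rw [Finset.sum_product]
  refine Finset.sum_congr rfl fun i _ => Finset.sum_congr rfl fun j _ => ?_
  refine if_congr ?_ rfl rfl
  simp only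
  omega

/-- `H3` against the maximum of the divisor function -/
lemma H3_le {X : ℕ} {T : ℝ} (hT : ∀ n ≤ X, tauR n ≤ T) : H3 I N X ≤ T * rr I N 0 ^ 2 := by
  have hT0 : 0 ≤ T := (tauR_nonneg 0).trans (hT 0 (Nat.zero_le _))
  set G : ι × ι → ℝ := fun x => ∑ y ∈ I ×ˢ I, if N y.1 = N x.1 ∧ N y.2 = N x.2 then (1:ℝ) else 0 with hG
  have hG0 : ∀ x, 0 ≤ G x := fun x => Finset.sum_nonneg fun _ _ => by split_ifs <;> norm_num
  have h1 : ∀ h : ℤ, ∀ x ∈ PP I N h, (((PP I N h).filter (fun y => N y.1 = N x.1)).card : ℝ) ≤ G x := by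
    intro h x hx
    obtain ⟨_, h2⟩ := mem_PP.mp hx
    simp only [hG]
    rw [← Finset.sum_filter, Finset.sum_const, nsmul_eq_mul, mul_one]
    have : (PP I N h).filter (fun y => N y.1 = N x.1) ⊆ (I ×ˢ I).filter (fun y => N y.1 = N x.1 ∧ N y.2 = N x.2) := by
      intro y hy
      obtain ⟨h3, h4⟩ := Finset.mem_filter.mp hy
      obtain ⟨h5, h6⟩ := mem_PP.mp h3
      exact Finset.mem_filter.mpr ⟨Finset.mem_product.mpr h5, h4, by omega⟩
    exact_mod_cast Finset.card_le_card this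
  have h2 : ∑ h ∈ Zs X, ∑ x ∈ PP I N h, G x ≤ ∑ x ∈ I ×ˢ I, G x := by
    calc ∑ h ∈ Zs X, ∑ x ∈ PP I N h, G x
        = ∑ h ∈ Zs X, ∑ x ∈ I ×ˢ I, (if (N x.2 : ℤ) - N x.1 = h then G x else 0) := by
          refine Finset.sum_congr rfl fun h _ => ?_
          unfold PP
          rw [Finset.sum_filter]
      _ = ∑ x ∈ I ×ˢ I, ∑ h ∈ Zs X, (if (N x.2 : ℤ) - N x.1 = h then G x else 0) := Finset.sum_comm
      _ ≤ _ := by
          refine Finset.sum_le_sum fun x _ => ?_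
          rw [Finset.sum_ite_eq]
          split_ifs
          · exact le_refl _
          · exact hG0 x
  have h3 : ∑ x ∈ I ×ˢ I, G x = rr I N 0 ^ 2 := by
    rw [rr0_eq, sq, Finset.sum_mul_sum]
    rw [Finset.sum_product]
    refine Finset.sum_congr rfl fun i _ => Finset.sum_congr rfl fun i' _ => ?_
    simp only [hG]
    rw [Finset.sum_product, Finset.sum_mul_sum]
    refine Finset.sum_congr rfl fun j _ => Finset.sum_congr rfl fun j' _ => ?_
    simp only
    by_cases h4 : N j = N i <;> by_cases h5 : N j' = N i' <;> simp [h4, h5]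
  unfold H3
  calc _ ≤ ∑ h ∈ Zs X, T * ∑ x ∈ PP I N h, G x := by
        refine Finset.sum_le_sum fun h hh => ?_
        have h4 : tauR h.natAbs ≤ T := by
          refine hT _ ?_
          unfold Zs at hh
          rw [Finset.mem_erase, Finset.mem_Icc] at hh
          omega
        refine mul_le_mul h4 (Finset.sum_le_sum fun x hx => h1 h x hx) ?_ hT0
        exact Finset.sum_nonneg fun _ _ => Nat.cast_nonneg _
    _ = T * ∑ h ∈ Zs X, ∑ x ∈ PP I N h, G x := by rw [Finset.mul_sum]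
    _ ≤ T * rr I N 0 ^ 2 := by
        rw [← h3]
        gcongr

end

section

variable {a b c : ℤ} {Ks W : Finset ℕ} {X : ℕ}

lemma rr0_family (ha : 1 ≤ a) (hK : ∀ k ∈ Ks, b.natAbs < k) (hpos : ∀ k ∈ Ks, 0 ≤ Fv a b c k)
    (hW : ∀ w ∈ W, w ≤ X) {T : ℝ} (hT : ∀ n ≤ X, tauR n ≤ T) :
    rr (Ks ×ˢ W) (NF a b c) 0 ≤ Ks.card * W.card + (W.card : ℝ) ^ 2 * T := by
  refine (rr_le ha hK W hpos 0).trans ?_
  have h1 := rW_le (W := W) 0
  have h2 := tW_zero_le hW hT
  gcongr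

lemma H2_family (ha : 1 ≤ a) (hK : ∀ k ∈ Ks, b.natAbs < k) (hpos : ∀ k ∈ Ks, 0 ≤ Fv a b c k)
    (hW : ∀ w ∈ W, w ≤ X) {T : ℝ} (hT : ∀ n ≤ X, tauR n ≤ T) :
    H2 (Ks ×ˢ W) (NF a b c) X ≤ 2 * ((Ks.card : ℝ) ^ 2 * T ^ 2 * (W.card : ℝ) ^ 3) +
      2 * ((W.card : ℝ) ^ 4 * (2 * ((2 * X : ℕ) * LL (2 * X) ^ 15))) := by
  unfold H2
  have hT0 : 0 ≤ T := (tauR_nonneg 0).trans (hT 0 (Nat.zero_le _))
  calc _ ≤ ∑ h ∈ Zs X, (2 * ((Ks.card : ℝ) ^ 2 * T ^ 2 * rW W h ^ 2) + 2 * (tauR h.natAbs ^ 2 * tW W h ^ 2)) := by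
        refine Finset.sum_le_sum fun h hh => ?_
        have h1 := rr_le (c := c) ha hK W hpos h
        have h2 : 0 ≤ rr (Ks ×ˢ W) (NF a b c) h := Nat.cast_nonneg _
        have h3 := rW_nonneg W h
        have h4 := tW_nonneg W h
        have h5 : tauR h.natAbs ≤ T := by
          refine hT _ ?_
          unfold Zs at hh
          rw [Finset.mem_erase, Finset.mem_Icc] at hh
          omega
        have h6 := tauR_nonneg h.natAbs
        calc tauR h.natAbs ^ 2 * rr (Ks ×ˢ W) (NF a b c) h ^ 2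
            ≤ tauR h.natAbs ^ 2 * (Ks.card * rW W h + tW W h) ^ 2 := by gcongr
          _ ≤ tauR h.natAbs ^ 2 * (2 * (Ks.card * rW W h) ^ 2 + 2 * tW W h ^ 2) := by
              gcongr
              nlinarith [sq_nonneg (Ks.card * rW W h - tW W h)]
          _ = 2 * ((Ks.card : ℝ) ^ 2 * tauR h.natAbs ^ 2 * rW W h ^ 2) + 2 * (tauR h.natAbs ^ 2 * tW W h ^ 2) := by ring
          _ ≤ _ := by gcongr
    _ = 2 * ((Ks.card : ℝ) ^ 2 * T ^ 2 * ∑ h ∈ Zs X, rW W h ^ 2) + 2 * ∑ h ∈ Zs X, tauR h.natAbs ^ 2 * tW W h ^ 2 := by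
        rw [Finset.sum_add_distrib, ← Finset.mul_sum, ← Finset.mul_sum, ← Finset.mul_sum]
    _ ≤ _ := by
        have h1 := sum_rW_sq (W := W) (Zs X)
        have h2 := sum_tau_tW hW
        gcongr

/-- one shift: the values of the polynomial themselves -/
lemma H1_single (ha : 1 ≤ a) (hK : ∀ k ∈ Ks, b.natAbs < k) (hpos : ∀ k ∈ Ks, 0 ≤ Fv a b c k) (w : ℕ) :
    H1 (Ks ×ˢ {w}) (NF a b c) X ≤ 2 * (X * LL X ^ 7) := by
  have hS := sum_Zs_tau_pow 3 X
  norm_num at hS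
  refine le_trans ?_ hS
  unfold H1
  refine Finset.sum_le_sum fun h hh => ?_
  have hh0 : h ≠ 0 := by
    unfold Zs at hh
    exact (Finset.mem_erase.mp hh).1
  have h1 := rr_le (c := c) ha hK {w} hpos h
  have h2 : rW {w} h = 0 := by
    unfold rW
    have : (({w} : Finset ℕ) ×ˢ {w}).filter (fun y => (y.2:ℤ) - y.1 = h) = ∅ := by
      rw [Finset.eq_empty_iff_forall_notMem]
      intro y hy
      obtain ⟨h3, h4⟩ := Finset.mem_filter.mp hy
      obtain ⟨h5, h6⟩ := Finset.mem_product.mp h3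
      rw [Finset.mem_singleton] at h5 h6
      rw [h5, h6] at h4
      exact hh0 (by omega)
    rw [this]; simp
  have h3 : tW {w} h = tauR h.natAbs := by
    unfold tW
    rw [Finset.singleton_product_singleton, Finset.sum_singleton]
    simp
  rw [h2, h3, mul_zero, zero_add] at h1
  have h4 : 0 ≤ rr (Ks ×ˢ {w}) (NF a b c) h := Nat.cast_nonneg _
  have h5 := tauR_nonneg h.natAbs
  calc tauR h.natAbs * rr (Ks ×ˢ {w}) (NF a b c) h ^ 2 ≤ tauR h.natAbs * tauR h.natAbs ^ 2 := by gcongr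
    _ = tauR h.natAbs ^ 3 := by ring

end

section

variable {S : Finset ℕ} {X : ℕ}

lemma rr0_set : rr S id 0 = S.card := by
  rw [rr0_eq]
  simp only [id]
  calc ∑ i ∈ S, ∑ j ∈ S, (if j = i then (1:ℝ) else 0) = ∑ i ∈ S, (1:ℝ) := by
        refine Finset.sum_congr rfl fun i hi => ?_
        rw [Finset.sum_ite_eq' S i, if_pos hi]
    _ = _ := by simp

/-- `H3` of a set -/
lemma H3_set : H3 S id X ≤ √(2 * X) * √(H2 S id X) := by
  have h1 : H3 S id X = ∑ h ∈ Zs X, 1 * (tauR h.natAbs * rr S id h) := by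
    unfold H3 rr
    refine Finset.sum_congr rfl fun h _ => ?_
    rw [one_mul]
    congr 1
    rw [← nsmul_one, ← Finset.sum_const]
    refine Finset.sum_congr rfl fun x hx => ?_
    have : (PP S id h).filter (fun y => id y.1 = id x.1) = {x} := by
      ext y
      rw [Finset.mem_filter, Finset.mem_singleton]
      simp only [id]
      constructor
      · rintro ⟨h2, h3⟩
        have h4 := (mem_PP.mp h2).2
        have h5 := (mem_PP.mp hx).2
        simp only [id] at h4 h5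
        exact Prod.ext h3 (by omega)
      · rintro rfl
        exact ⟨hx, rfl⟩
    rw [this]; simp
  have h2 : ∑ h ∈ Zs X, (1:ℝ) ^ 2 = 2 * X := by
    have := sum_Zs (X := X) (fun _ => (1:ℝ))
    simp only [one_pow]
    rw [this]
    simp
  have h3 : ∑ h ∈ Zs X, (tauR h.natAbs * rr S id h) ^ 2 = H2 S id X := by
    unfold H2
    exact Finset.sum_congr rfl fun h _ => by rw [mul_pow]
  rw [h1, ← h2, ← h3]
  exact Real.sum_mul_le_sqrt_mul_sqrt _ _ _

end

end Pool.Agent.SEH
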