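import Pool.Agent.SEH.Energy2
import Pool.Agent.DEH.Count

/-!
Energies, 3: the three hypotheses for the families.
-/

open Pool.Agent.ANT Pool.Agent.DEH Filter

namespace Pool.Agent.SEH

lemma LL_double {X : ℕ} (hX : 1 ≤ X) : LL (2 * X) ≤ 2 * LL X := by
  unfold LL
  have hX0 : (0:ℝ) < X := by exact_mod_cast hX
  have h1 := Real.log_natCast_nonneg X
  push_cast
  rw [Real.log_mul (by norm_num) hX0.ne']
  have := Real.log_two_lt_d9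
  linarith

lemma LL_mul_le {D : ℕ} (hD : 1 ≤ D) : ∀ᶠ X : ℕ in atTop, LL (D * X) ≤ 2 * Real.log X := by
  have hlog : Tendsto (fun n : ℕ => Real.log (n:ℝ)) atTop atTop :=
    Real.tendsto_log_atTop.comp tendsto_natCast_atTop_atTop
  filter_upwards [hlog.eventually_ge_atTop (1 + Real.log D), eventually_ge_atTop 1] with X hX hX1
  have hX0 : (0:ℝ) < X := by exact_mod_cast hX1
  have hD0 : (0:ℝ) < D := by exact_mod_cast hD
  unfold LL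
  push_cast
  rw [Real.log_mul hD0.ne' hX0.ne']
  linarith

lemma LL_pow_le (B : ℕ) {η : ℝ} (hη : 0 < η) {D : ℕ} (hD : 1 ≤ D) :
    ∀ᶠ X : ℕ in atTop, LL (D * X) ^ B ≤ (X:ℝ) ^ η := by
  have h1 := eventually_log_pow_le B (show (0:ℝ) < η / 2 by positivity)
  have h2 : Tendsto (fun n : ℕ => (n:ℝ) ^ (η / 2)) atTop atTop :=
    (tendsto_rpow_atTop (by positivity)).comp tendsto_natCast_atTop_atTop
  filter_upwards [h1, h2.eventually_ge_atTop (2 ^ B), LL_mul_le hD, eventually_ge_atTop 1] with X h3 h4 h5 h6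
  have hX0 : (0:ℝ) < X := by exact_mod_cast h6
  have h7 := LL_pos (D * X)
  have h8 := Real.log_natCast_nonneg X
  calc LL (D * X) ^ B ≤ (2 * Real.log X) ^ B := by gcongr
    _ = 2 ^ B * Real.log X ^ B := by rw [mul_pow]
    _ ≤ (X:ℝ) ^ (η / 2) * (X:ℝ) ^ (η / 2) := by gcongr
    _ = (X:ℝ) ^ η := by rw [← Real.rpow_add hX0]; congr 1; ring

lemma tau_le_pow {η : ℝ} (hη : 0 < η) {D : ℕ} (hD : 1 ≤ D) :
    ∀ᶠ X : ℕ in atTop, ∀ n ≤ D * X, tauR n ≤ (X:ℝ) ^ η := by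
  obtain ⟨C, hC, h⟩ := tauR_le_rpow (ε := η / 2) (by positivity)
  have h2 : Tendsto (fun n : ℕ => (n:ℝ) ^ (η / 2)) atTop atTop :=
    (tendsto_rpow_atTop (by positivity)).comp tendsto_natCast_atTop_atTop
  filter_upwards [h2.eventually_ge_atTop (C * (D:ℝ) ^ (η / 2)), eventually_ge_atTop 1] with X h3 h4
  intro n hn
  have hX0 : (0:ℝ) < X := by exact_mod_cast h4
  have hD0 : (0:ℝ) < D := by exact_mod_cast hD
  rcases Nat.eq_zero_or_pos n with rfl | hn0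
  · have : tauR 0 = 0 := by simp [tauR]
    rw [this]; positivity
  have h5 : (n:ℝ) ^ (η / 2) ≤ ((D:ℝ) * X) ^ (η / 2) :=
    Real.rpow_le_rpow (Nat.cast_nonneg _) (by exact_mod_cast hn) (by positivity)
  calc tauR n ≤ C * (n:ℝ) ^ (η / 2) := h n hn0.ne'
    _ ≤ C * ((D:ℝ) * X) ^ (η / 2) := by gcongr
    _ = (C * (D:ℝ) ^ (η / 2)) * (X:ℝ) ^ (η / 2) := by rw [Real.mul_rpow hD0.le hX0.le]; ring
    _ ≤ (X:ℝ) ^ (η / 2) * (X:ℝ) ^ (η / 2) := by gcongr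
    _ = (X:ℝ) ^ η := by rw [← Real.rpow_add hX0]; congr 1; ring

/-- the strong form of the first hypothesis -/
lemma num1 {s w κ P D r0 : ℝ} (hs : 0 < s) (hw : 0 < w) (hκ1 : s / 2 ≤ κ) (hκ2 : κ ≤ s) (hP : 1 ≤ P)
    (hD : 1 ≤ D) (hDP : 64 * D ≤ P) (hPw : P ^ 8 ≤ w) (hPs : P ^ 8 ≤ s) (hr : r0 ≤ κ * w + w ^ 2 * P) :
    r0 * (D * s) * P ≤ (κ * w) ^ 2 := by
  have hP0 : 0 < P := by linarith
  have hP2 : P ^ 2 ≤ P ^ 8 := pow_le_pow_right₀ hP (by norm_num)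
  have hP3 : P ^ 3 ≤ P ^ 8 := pow_le_pow_right₀ hP (by norm_num)
  have h1 : 8 * D * P ≤ w := by nlinarith
  have h2 : 8 * D * P ^ 2 ≤ s := by
    have : 8 * D * P ^ 2 ≤ P * P ^ 2 := by
      have : 8 * D ≤ P := by linarith
      gcongr
    linarith [pow_succ' P 2]
  have e1 : κ * w * (D * s) * P ≤ s ^ 2 * w ^ 2 / 8 := by
    calc κ * w * (D * s) * P ≤ s * w * (D * s) * P := by gcongr
      _ = s ^ 2 * w * (8 * D * P) / 8 := by ring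
      _ ≤ s ^ 2 * w * w / 8 := by gcongr
      _ = _ := by ring
  have e2 : w ^ 2 * P * (D * s) * P ≤ s ^ 2 * w ^ 2 / 8 := by
    calc w ^ 2 * P * (D * s) * P = w ^ 2 * s * (8 * D * P ^ 2) / 8 := by ring
      _ ≤ w ^ 2 * s * s / 8 := by gcongr
      _ = _ := by ring
  calc r0 * (D * s) * P ≤ (κ * w + w ^ 2 * P) * (D * s) * P := by gcongr
    _ = κ * w * (D * s) * P + w ^ 2 * P * (D * s) * P := by ring
    _ ≤ s ^ 2 * w ^ 2 / 8 + s ^ 2 * w ^ 2 / 8 := add_le_add e1 e2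
    _ = (s / 2 * w) ^ 2 := by ring
    _ ≤ (κ * w) ^ 2 := by gcongr

/-- the second hypothesis -/
lemma num2 {s w κ P D h2 L L2 : ℝ} (hs : 0 < s) (hw : 0 < w) (hκ1 : s / 2 ≤ κ) (hκ2 : κ ≤ s) (hP : 1 ≤ P)
    (hD : 1 ≤ D) (hDP : 64 * D ≤ P) (hPw : P ^ 8 ≤ w) (hL : 1 ≤ L) (hL2 : 0 ≤ L2) (hLL : L2 ≤ 2 * L)
    (hLD : 2 ^ 23 * D ^ 2 ≤ L ^ 2)
    (hh : h2 ≤ 2 * (κ ^ 2 * P ^ 2 * w ^ 3) + 2 * (w ^ 4 * (2 * ((2 * (D * s ^ 2)) * L2 ^ 15)))) :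
    h2 * (D * s ^ 2) ≤ (κ * w) ^ 4 * L ^ 17 := by
  have hP0 : 0 < P := by linarith
  have hκ0 : 0 < κ := by linarith
  have h1 : 64 * D * P ^ 2 ≤ w := by
    have hP3 : P ^ 3 ≤ P ^ 8 := pow_le_pow_right₀ hP (by norm_num)
    calc 64 * D * P ^ 2 ≤ P * P ^ 2 := by gcongr
      _ = P ^ 3 := by ring
      _ ≤ w := by linarith
  have e1 : 2 * (κ ^ 2 * P ^ 2 * w ^ 3) * (D * s ^ 2) ≤ s ^ 4 * w ^ 4 / 32 := by
    calc 2 * (κ ^ 2 * P ^ 2 * w ^ 3) * (D * s ^ 2) ≤ 2 * (s ^ 2 * P ^ 2 * w ^ 3) * (D * s ^ 2) := by gcongr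
      _ = s ^ 4 * w ^ 3 * (64 * D * P ^ 2) / 32 := by ring
      _ ≤ s ^ 4 * w ^ 3 * w / 32 := by gcongr
      _ = _ := by ring
  have e2 : 2 * (w ^ 4 * (2 * ((2 * (D * s ^ 2)) * L2 ^ 15))) * (D * s ^ 2) ≤ s ^ 4 * w ^ 4 / 32 * L ^ 17 := by
    calc 2 * (w ^ 4 * (2 * ((2 * (D * s ^ 2)) * L2 ^ 15))) * (D * s ^ 2)
        ≤ 2 * (w ^ 4 * (2 * ((2 * (D * s ^ 2)) * (2 * L) ^ 15))) * (D * s ^ 2) := by gcongr
      _ = s ^ 4 * w ^ 4 / 32 * (2 ^ 23 * D ^ 2 * L ^ 15) := by ring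
      _ ≤ s ^ 4 * w ^ 4 / 32 * (L ^ 2 * L ^ 15) := by gcongr
      _ = _ := by ring
  have hL17 : 1 ≤ L ^ 17 := one_le_pow₀ hL
  calc h2 * (D * s ^ 2) ≤ (2 * (κ ^ 2 * P ^ 2 * w ^ 3) + 2 * (w ^ 4 * (2 * ((2 * (D * s ^ 2)) * L2 ^ 15)))) * (D * s ^ 2) := by
        gcongr
    _ = 2 * (κ ^ 2 * P ^ 2 * w ^ 3) * (D * s ^ 2) + 2 * (w ^ 4 * (2 * ((2 * (D * s ^ 2)) * L2 ^ 15))) * (D * s ^ 2) := by ring
    _ ≤ s ^ 4 * w ^ 4 / 32 + s ^ 4 * w ^ 4 / 32 * L ^ 17 := add_le_add e1 e2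
    _ ≤ s ^ 4 * w ^ 4 / 32 * L ^ 17 + s ^ 4 * w ^ 4 / 32 * L ^ 17 := by
        have : 0 ≤ s ^ 4 * w ^ 4 / 32 := by positivity
        nlinarith
    _ = (s / 2 * w) ^ 4 * L ^ 17 := by ring
    _ ≤ (κ * w) ^ 4 * L ^ 17 := by gcongr

/-- **the three hypotheses for the family `F(k) + w`** -/
theorem energyB {a : ℤ} (b c : ℤ) (ha : 1 ≤ a) {δ : ℝ} (hδ : 0 < δ) {D : ℕ} (hD : 1 ≤ D) (B : ℕ) :
    ∀ᶠ X : ℕ in atTop, ∀ Ks W : Finset ℕ, (∀ k ∈ Ks, b.natAbs < k) → (∀ k ∈ Ks, 0 ≤ Fv a b c k) →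
      √X / 2 ≤ Ks.card → (Ks.card : ℝ) ≤ √X → (∀ w ∈ W, w ≤ X) → (X:ℝ) ^ δ ≤ W.card →
      rr (Ks ×ˢ W) (NF a b c) 0 * √(D * X : ℕ) * LL (D * X) ^ B ≤ ((Ks ×ˢ W).card : ℝ) ^ 2 ∧
      H2 (Ks ×ˢ W) (NF a b c) (D * X) * (D * X : ℕ) ≤ ((Ks ×ˢ W).card : ℝ) ^ 4 * LL (D * X) ^ 17 ∧
      H3 (Ks ×ˢ W) (NF a b c) (D * X) * (D * X : ℕ) * LL (D * X) ^ B ≤ ((Ks ×ˢ W).card : ℝ) ^ 4 := by
  set η := min δ (1 / 2) / 8 with hη
  have hη0 : 0 < η := by rw [hη]; positivity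
  have hPt : Tendsto (fun n : ℕ => (n:ℝ) ^ η) atTop atTop :=
    (tendsto_rpow_atTop hη0).comp tendsto_natCast_atTop_atTop
  have hLt : Tendsto (fun n : ℕ => Real.log (n:ℝ)) atTop atTop :=
    Real.tendsto_log_atTop.comp tendsto_natCast_atTop_atTop
  filter_upwards [hPt.eventually_ge_atTop (64 * D), LL_pow_le B hη0 hD, tau_le_pow hη0 hD,
    hLt.eventually_ge_atTop (2 ^ 12 * D), eventually_ge_atTop 1] with X hP64 hLP hτ hlog hX1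
  intro Ks W hK hpos hκ1 hκ2 hW hWδ
  have hX0 : (0:ℝ) < X := by exact_mod_cast hX1
  have hX1' : (1:ℝ) ≤ X := by exact_mod_cast hX1
  have hDR : (1:ℝ) ≤ D := by exact_mod_cast hD
  set P := (X:ℝ) ^ η with hPdef
  set s := √(X:ℝ) with hs
  have hs0 : 0 < s := Real.sqrt_pos.mpr hX0
  have hss : s ^ 2 = X := Real.sq_sqrt hX0.le
  have hP1 : 1 ≤ P := by linarith
  have hP8 : P ^ 8 = (X:ℝ) ^ (min δ (1 / 2)) := by
    rw [hPdef, ← Real.rpow_natCast, ← Real.rpow_mul hX0.le, hη]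
    congr 1
    push_cast
    ring
  have hPw : P ^ 8 ≤ (W.card : ℝ) := by
    rw [hP8]
    exact (Real.rpow_le_rpow_of_exponent_le hX1' (min_le_left _ _)).trans hWδ
  have hPs : P ^ 8 ≤ s := by
    rw [hP8, hs, Real.sqrt_eq_rpow]
    exact Real.rpow_le_rpow_of_exponent_le hX1' (min_le_right _ _)
  have hw0 : (0:ℝ) < W.card := lt_of_lt_of_le (by positivity) hPw
  have hcard : (((Ks ×ˢ W).card : ℕ) : ℝ) = Ks.card * W.card := by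
    rw [Finset.card_product]; push_cast; ring
  have hWD : ∀ w ∈ W, w ≤ D * X := fun w hw => (hW w hw).trans (Nat.le_mul_of_pos_left _ hD)
  have hr0 := rr0_family (c := c) ha hK hpos hWD hτ
  have hH2 := H2_family (c := c) ha hK hpos hWD hτ
  have hH3 := H3_le (I := Ks ×ˢ W) (N := NF a b c) hτ
  have hr00 : 0 ≤ rr (Ks ×ˢ W) (NF a b c) 0 := Nat.cast_nonneg _
  have hsq : √((D * X : ℕ) : ℝ) ≤ D * s := by
    refine Real.sqrt_le_iff.mpr ⟨by positivity, ?_⟩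
    push_cast
    rw [mul_pow, hss]
    have : (D:ℝ) ≤ D ^ 2 := le_self_pow₀ hDR (by norm_num)
    gcongr
  have hs1 := num1 hs0 hw0 hκ1 hκ2 hP1 hDR hP64 hPw hPs hr0
  have hLpos := LL_pos (D * X)
  rw [hcard]
  refine ⟨?_, ?_, ?_⟩
  · calc _ ≤ rr (Ks ×ˢ W) (NF a b c) 0 * (D * s) * P := by gcongr
      _ ≤ _ := hs1
  · have hDX1 : 1 ≤ D * X := Nat.mul_pos hD hX1
    have hL1 := LL_one_le (D * X)
    have hLlog : 2 ^ 12 * (D:ℝ) ≤ LL (D * X) := by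
      have e1 : Real.log X ≤ Real.log ((D * X : ℕ) : ℝ) :=
        Real.log_le_log hX0 (by exact_mod_cast Nat.le_mul_of_pos_left _ hD)
      unfold LL
      linarith
    have hLD : 2 ^ 23 * (D:ℝ) ^ 2 ≤ LL (D * X) ^ 2 := by
      calc 2 ^ 23 * (D:ℝ) ^ 2 ≤ (2 ^ 12 * (D:ℝ)) ^ 2 := by
            rw [mul_pow]
            gcongr
            norm_num
        _ ≤ _ := by gcongr
    have e2 : ((D * X : ℕ) : ℝ) = D * s ^ 2 := by rw [hss]; push_cast; ring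
    rw [e2]
    refine num2 hs0 hw0 hκ1 hκ2 hP1 hDR hP64 hPw hL1 (LL_pos (2 * (D * X))).le (LL_double hDX1) hLD ?_
    refine hH2.trans (le_of_eq ?_)
    push_cast
    rw [hss]
  · have e1 : ((D * X : ℕ) : ℝ) = √((D * X : ℕ) : ℝ) ^ 2 := (Real.sq_sqrt (Nat.cast_nonneg _)).symm
    calc H3 (Ks ×ˢ W) (NF a b c) (D * X) * (D * X : ℕ) * LL (D * X) ^ B
        ≤ (P * rr (Ks ×ˢ W) (NF a b c) 0 ^ 2) * (D * X : ℕ) * P := by gcongr
      _ = (rr (Ks ×ˢ W) (NF a b c) 0 * √((D * X : ℕ) : ℝ) * P) ^ 2 := by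
          rw [mul_pow, mul_pow, ← e1]; ring
      _ ≤ (rr (Ks ×ˢ W) (NF a b c) 0 * (D * s) * P) ^ 2 := by gcongr
      _ ≤ ((Ks.card * W.card : ℝ) ^ 2) ^ 2 := by gcongr
      _ = _ := by ring

/-- **the hypotheses for the values of the polynomial themselves** -/
theorem energyA {a : ℤ} (b c : ℤ) (ha : 1 ≤ a) {D : ℕ} (hD : 1 ≤ D) :
    ∀ᶠ X : ℕ in atTop, ∀ Ks : Finset ℕ, ∀ w : ℕ, (∀ k ∈ Ks, b.natAbs < k) → (∀ k ∈ Ks, 0 ≤ Fv a b c k) →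
      √X / 2 ≤ Ks.card → (Ks.card : ℝ) ≤ √X →
      rr (Ks ×ˢ {w}) (NF a b c) 0 * √(D * X : ℕ) ≤ ((Ks ×ˢ {w}).card : ℝ) ^ 2 * LL (D * X) ∧
      H1 (Ks ×ˢ {w}) (NF a b c) (D * X) * (D * X : ℕ) ≤ ((Ks ×ˢ {w}).card : ℝ) ^ 4 * LL (D * X) ^ 8 := by
  have hLt : Tendsto (fun n : ℕ => Real.log (n:ℝ)) atTop atTop :=
    Real.tendsto_log_atTop.comp tendsto_natCast_atTop_atTop
  filter_upwards [hLt.eventually_ge_atTop (32 * D ^ 2), eventually_ge_atTop 1] with X hlog hX1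
  intro Ks w hK hpos hκ1 hκ2
  have hX0 : (0:ℝ) < X := by exact_mod_cast hX1
  have hDR : (1:ℝ) ≤ D := by exact_mod_cast hD
  set s := √(X:ℝ) with hs
  have hs0 : 0 < s := Real.sqrt_pos.mpr hX0
  have hss : s ^ 2 = X := Real.sq_sqrt hX0.le
  have hcard : (((Ks ×ˢ {w}).card : ℕ) : ℝ) = Ks.card := by
    rw [Finset.card_product, Finset.card_singleton, mul_one]
  have hsq : √((D * X : ℕ) : ℝ) ≤ D * s := by
    refine Real.sqrt_le_iff.mpr ⟨by positivity, ?_⟩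
    push_cast
    rw [mul_pow, hss]
    have : (D:ℝ) ≤ D ^ 2 := le_self_pow₀ hDR (by norm_num)
    gcongr
  have hL0 := LL_pos (D * X)
  have hLlog : 32 * (D:ℝ) ^ 2 ≤ LL (D * X) := by
    have e1 : Real.log X ≤ Real.log ((D * X : ℕ) : ℝ) :=
      Real.log_le_log hX0 (by exact_mod_cast Nat.le_mul_of_pos_left _ hD)
    unfold LL
    linarith
  have hκ0 : (0:ℝ) < Ks.card := lt_of_lt_of_le (by positivity) hκ1
  have hκ2' : s ^ 2 ≤ 4 * (Ks.card : ℝ) ^ 2 := by nlinarith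
  rw [hcard]
  constructor
  · have h1 := rr_le (c := c) ha hK {w} hpos 0
    have h2 : rW {w} 0 = 1 := by
      unfold rW
      rw [Finset.singleton_product_singleton, Finset.filter_singleton]
      simp
    have h3 : tW {w} 0 = 0 := by
      unfold tW
      rw [Finset.singleton_product_singleton, Finset.sum_singleton]
      simp [tauR]
    rw [h2, h3, mul_one, add_zero] at h1
    calc _ ≤ (Ks.card : ℝ) * (D * s) := by gcongr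
      _ ≤ s * (D * s) := by gcongr
      _ = D * s ^ 2 := by ring
      _ ≤ D * (4 * (Ks.card : ℝ) ^ 2) := by gcongr
      _ = (Ks.card : ℝ) ^ 2 * (4 * D) := by ring
      _ ≤ (Ks.card : ℝ) ^ 2 * LL (D * X) := by
          have : 4 * (D:ℝ) ≤ 32 * D ^ 2 := by nlinarith
          gcongr
          linarith
  · have h1 := H1_single (X := D * X) (c := c) ha hK hpos w
    have e2 : ((D * X : ℕ) : ℝ) = D * s ^ 2 := by rw [hss]; push_cast; ring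
    calc _ ≤ 2 * (((D * X : ℕ) : ℝ) * LL (D * X) ^ 7) * (D * X : ℕ) := by gcongr
      _ = 2 * D ^ 2 * (s ^ 2) ^ 2 * LL (D * X) ^ 7 := by rw [e2]; ring
      _ ≤ 2 * D ^ 2 * (4 * (Ks.card : ℝ) ^ 2) ^ 2 * LL (D * X) ^ 7 := by gcongr
      _ = (Ks.card : ℝ) ^ 4 * ((32 * D ^ 2) * LL (D * X) ^ 7) := by ring
      _ ≤ (Ks.card : ℝ) ^ 4 * (LL (D * X) * LL (D * X) ^ 7) := by gcongr
      _ = _ := by ring

end Pool.Agent.SEH
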