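import Pool.Agent.SEH.Energy3

/-!
Energies, 4: the three hypotheses for sets of shifts as small as a power of the logarithm.
-/

open Pool.Agent.ANT Pool.Agent.DEH Filter

namespace Pool.Agent.SEH

/-- the mean square of the divisor function over the differences of `W` -/
noncomputable def dW (W : Finset ℕ) : ℝ :=
  ∑ y ∈ (W ×ˢ W).filter (fun y => y.1 ≠ y.2), tauR ((y.2:ℤ) - y.1).natAbs ^ 2

lemma dW_nonneg (W : Finset ℕ) : 0 ≤ dW W := Finset.sum_nonneg fun _ _ => sq_nonneg _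

lemma sum_tau_rW {W : Finset ℕ} (X : ℕ) :
    ∑ h ∈ Zs X, tauR h.natAbs ^ 2 * rW W h ^ 2 ≤ W.card * dW W := by
  calc ∑ h ∈ Zs X, tauR h.natAbs ^ 2 * rW W h ^ 2
      ≤ ∑ h ∈ Zs X, W.card * (tauR h.natAbs ^ 2 * rW W h) := by
        refine Finset.sum_le_sum fun h _ => ?_
        have h1 := rW_le (W := W) h
        have h2 := rW_nonneg W h
        calc tauR h.natAbs ^ 2 * rW W h ^ 2 = rW W h * (tauR h.natAbs ^ 2 * rW W h) := by ring
          _ ≤ _ := by gcongr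
    _ = W.card * ∑ h ∈ Zs X, tauR h.natAbs ^ 2 * rW W h := by rw [Finset.mul_sum]
    _ ≤ _ := by
        refine mul_le_mul_of_nonneg_left ?_ (Nat.cast_nonneg _)
        calc ∑ h ∈ Zs X, tauR h.natAbs ^ 2 * rW W h
            = ∑ h ∈ Zs X, ∑ y ∈ W ×ˢ W, (if (y.2:ℤ) - y.1 = h then tauR h.natAbs ^ 2 else 0) := by
              refine Finset.sum_congr rfl fun h _ => ?_
              unfold rW
              rw [← Finset.sum_filter, Finset.sum_const, nsmul_eq_mul, mul_comm]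
          _ = ∑ y ∈ W ×ˢ W, ∑ h ∈ Zs X, (if (y.2:ℤ) - y.1 = h then tauR h.natAbs ^ 2 else 0) := Finset.sum_comm
          _ ≤ ∑ y ∈ W ×ˢ W, (if y.1 ≠ y.2 then tauR ((y.2:ℤ) - y.1).natAbs ^ 2 else 0) := by
              refine Finset.sum_le_sum fun y _ => ?_
              rw [Finset.sum_ite_eq]
              split_ifs with h1 h2 h2
              · exact le_refl _
              · exfalso
                unfold Zs at h1
                have h3 := (Finset.mem_erase.mp h1).1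
                have h4 : y.1 = y.2 := by simpa using h2
                exact h3 (by omega)
              · positivity
              · exact le_refl _
          _ = dW W := by
              unfold dW
              rw [Finset.sum_filter]

section

variable {ι : Type*} {I : Finset ι} {N : ι → ℕ}

/-- `H3`, the diagonal separated -/
lemma H3_le' {X : ℕ} {T : ℝ} (hT : ∀ n ≤ X, tauR n ≤ T) :
    H3 I N X ≤ √(2 * X) * √(H2 I N X) + T * (rr I N 0 ^ 2 - (I.card : ℝ) ^ 2) := by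
  have hT0 : 0 ≤ T := (tauR_nonneg 0).trans (hT 0 (Nat.zero_le _))
  set G : ι × ι → ℝ := fun x => ∑ y ∈ I ×ˢ I, if N y.1 = N x.1 ∧ N y.2 = N x.2 then (1:ℝ) else 0 with hG
  have hG1 : ∀ x ∈ I ×ˢ I, 1 ≤ G x := by
    intro x hx
    simp only [hG]
    calc (1:ℝ) = (if N x.1 = N x.1 ∧ N x.2 = N x.2 then (1:ℝ) else 0) := by simp
      _ ≤ _ := Finset.single_le_sum (f := fun y : ι × ι => if N y.1 = N x.1 ∧ N y.2 = N x.2 then (1:ℝ) else 0)
          (fun y _ => by positivity) hx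
  have h1 : ∀ h : ℤ, ∀ x ∈ PP I N h, (((PP I N h).filter (fun y => N y.1 = N x.1)).card : ℝ) ≤ G x := by
    intro h x hx
    obtain ⟨_, h2⟩ := mem_PP.mp hx
    simp only [hG]
    rw [← Finset.sum_filter, Finset.sum_const, nsmul_eq_mul, mul_one]
    have : (PP I N h).filter (fun y => N y.1 = N x.1) ⊆ (I ×ˢ I).filter (fun y => N y.1 = N x.1 ∧ N y.2 = N x.2) := by
      intro y hy
      obtain ⟨h3, h4⟩ := Finset.mem_filter.mp hy
      obtain ⟨h5, h6⟩ := mem_PP.mp h3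
      exact Finset.mem_filter.mpr ⟨Finset.mem_product.mpr h5, h4, by omega⟩
    exact_mod_cast Finset.card_le_card this
  have h2 : ∑ h ∈ Zs X, ∑ x ∈ PP I N h, (G x - 1) ≤ ∑ x ∈ I ×ˢ I, (G x - 1) := by
    calc ∑ h ∈ Zs X, ∑ x ∈ PP I N h, (G x - 1)
        = ∑ h ∈ Zs X, ∑ x ∈ I ×ˢ I, (if (N x.2 : ℤ) - N x.1 = h then (G x - 1) else 0) := by
          refine Finset.sum_congr rfl fun h _ => ?_
          unfold PP
          rw [Finset.sum_filter]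
      _ = ∑ x ∈ I ×ˢ I, ∑ h ∈ Zs X, (if (N x.2 : ℤ) - N x.1 = h then (G x - 1) else 0) := Finset.sum_comm
      _ ≤ _ := by
          refine Finset.sum_le_sum fun x hx => ?_
          rw [Finset.sum_ite_eq]
          have := hG1 x hx
          split_ifs
          · exact le_refl _
          · linarith
  have h3 : ∑ x ∈ I ×ˢ I, G x = rr I N 0 ^ 2 := by
    rw [rr0_eq, sq, Finset.sum_mul_sum]
    rw [Finset.sum_product]
    refine Finset.sum_congr rfl fun i _ => Finset.sum_congr rfl fun i' _ => ?_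
    simp only [hG]
    rw [Finset.sum_product, Finset.sum_mul_sum]
    refine Finset.sum_congr rfl fun j _ => Finset.sum_congr rfl fun j' _ => ?_
    simp only
    by_cases h4 : N j = N i <;> by_cases h5 : N j' = N i' <;> simp [h4, h5]
  have h3' : ∑ x ∈ I ×ˢ I, (G x - 1) = rr I N 0 ^ 2 - (I.card : ℝ) ^ 2 := by
    rw [Finset.sum_sub_distrib, h3, Finset.sum_const, Finset.card_product, nsmul_eq_mul, mul_one]
    push_cast; ring
  have hdiag : ∑ h ∈ Zs X, tauR h.natAbs * rr I N h ≤ √(2 * X) * √(H2 I N X) := by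
    have e1 : ∑ h ∈ Zs X, tauR h.natAbs * rr I N h = ∑ h ∈ Zs X, 1 * (tauR h.natAbs * rr I N h) := by
      simp only [one_mul]
    have e2 : ∑ h ∈ Zs X, (1:ℝ) ^ 2 = 2 * X := by
      have := sum_Zs (X := X) (fun _ => (1:ℝ))
      simp only [one_pow]
      rw [this]
      simp
    have e3 : ∑ h ∈ Zs X, (tauR h.natAbs * rr I N h) ^ 2 = H2 I N X := by
      unfold H2
      exact Finset.sum_congr rfl fun h _ => by rw [mul_pow]
    rw [e1, ← e2, ← e3]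
    exact Real.sum_mul_le_sqrt_mul_sqrt _ _ _
  unfold H3
  calc _ ≤ ∑ h ∈ Zs X, (tauR h.natAbs * rr I N h + T * ∑ x ∈ PP I N h, (G x - 1)) := by
        refine Finset.sum_le_sum fun h hh => ?_
        have h4 : tauR h.natAbs ≤ T := by
          refine hT _ ?_
          unfold Zs at hh
          rw [Finset.mem_erase, Finset.mem_Icc] at hh
          omega
        have h5 : ∑ x ∈ PP I N h, (((PP I N h).filter (fun y => N y.1 = N x.1)).card : ℝ) ≤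
            rr I N h + ∑ x ∈ PP I N h, (G x - 1) := by
          calc _ ≤ ∑ x ∈ PP I N h, G x := Finset.sum_le_sum fun x hx => h1 h x hx
            _ = _ := by
                rw [Finset.sum_sub_distrib, Finset.sum_const, nsmul_eq_mul, mul_one]
                unfold rr; ring
        have h6 : 0 ≤ ∑ x ∈ PP I N h, (G x - 1) := Finset.sum_nonneg fun x hx => by
          have := hG1 x (Finset.mem_product.mpr (mem_PP.mp hx).1)
          linarith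
        have h7 := tauR_nonneg h.natAbs
        calc _ ≤ tauR h.natAbs * (rr I N h + ∑ x ∈ PP I N h, (G x - 1)) := mul_le_mul_of_nonneg_left h5 h7
          _ = tauR h.natAbs * rr I N h + tauR h.natAbs * ∑ x ∈ PP I N h, (G x - 1) := by ring
          _ ≤ _ := by gcongr
    _ = ∑ h ∈ Zs X, tauR h.natAbs * rr I N h + T * ∑ h ∈ Zs X, ∑ x ∈ PP I N h, (G x - 1) := by
        rw [Finset.sum_add_distrib, Finset.mul_sum]
    _ ≤ _ := by
        rw [h3'] at h2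
        gcongr

end

section

variable {a b c : ℤ} {Ks W : Finset ℕ} {X : ℕ}

lemma H2_family' (ha : 1 ≤ a) (hK : ∀ k ∈ Ks, b.natAbs < k) (hpos : ∀ k ∈ Ks, 0 ≤ Fv a b c k)
    (hW : ∀ w ∈ W, w ≤ X) :
    H2 (Ks ×ˢ W) (NF a b c) X ≤ 2 * ((Ks.card : ℝ) ^ 2 * (W.card * dW W)) +
      2 * ((W.card : ℝ) ^ 4 * (2 * ((2 * X : ℕ) * LL (2 * X) ^ 15))) := by
  unfold H2
  calc _ ≤ ∑ h ∈ Zs X, (2 * ((Ks.card : ℝ) ^ 2 * (tauR h.natAbs ^ 2 * rW W h ^ 2)) +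
        2 * (tauR h.natAbs ^ 2 * tW W h ^ 2)) := by
        refine Finset.sum_le_sum fun h hh => ?_
        have h1 := rr_le (c := c) ha hK W hpos h
        have h2 : 0 ≤ rr (Ks ×ˢ W) (NF a b c) h := Nat.cast_nonneg _
        have h3 := rW_nonneg W h
        have h4 := tW_nonneg W h
        calc tauR h.natAbs ^ 2 * rr (Ks ×ˢ W) (NF a b c) h ^ 2
            ≤ tauR h.natAbs ^ 2 * (Ks.card * rW W h + tW W h) ^ 2 := by gcongr
          _ ≤ tauR h.natAbs ^ 2 * (2 * (Ks.card * rW W h) ^ 2 + 2 * tW W h ^ 2) := by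
              gcongr
              nlinarith [sq_nonneg (Ks.card * rW W h - tW W h)]
          _ = _ := by ring
    _ = 2 * ((Ks.card : ℝ) ^ 2 * ∑ h ∈ Zs X, tauR h.natAbs ^ 2 * rW W h ^ 2) +
        2 * ∑ h ∈ Zs X, tauR h.natAbs ^ 2 * tW W h ^ 2 := by
        rw [Finset.sum_add_distrib, ← Finset.mul_sum, ← Finset.mul_sum, ← Finset.mul_sum]
    _ ≤ _ := by
        have h1 := sum_tau_rW (W := W) X
        have h2 := sum_tau_tW hW
        gcongr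

end

/-- numbers, first hypothesis -/
lemma num1' {s w κ P D r0 LB : ℝ} (hs : 0 < s) (hw : 0 < w) (hκ1 : s / 2 ≤ κ) (hP : 1 ≤ P)
    (hD : 1 ≤ D) (hLB : 0 ≤ LB) (hLP : LB ≤ P) (hPs : 8 * D * P ^ 2 ≤ s) (hLw : 4 * D * LB ≤ w) (hr : r0 ≤ κ * w + w ^ 2 * P) :
    r0 * (D * s) * LB ≤ (κ * w) ^ 2 := by
  have hP0 : 0 < P := by linarith
  have hκ0 : 0 < κ := by linarith
  have e1 : κ * w * (D * s) * LB ≤ (κ * w) ^ 2 / 2 := by
    calc κ * w * (D * s) * LB ≤ κ * w * (D * (2 * κ)) * LB := by gcongr; linarith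
      _ = κ ^ 2 * w * (4 * D * LB) / 2 := by ring
      _ ≤ κ ^ 2 * w * w / 2 := by gcongr
      _ = _ := by ring
  have e2 : w ^ 2 * P * (D * s) * LB ≤ (κ * w) ^ 2 / 2 := by
    calc w ^ 2 * P * (D * s) * LB ≤ w ^ 2 * P * (D * s) * P := by gcongr
      _ = w ^ 2 * s * (8 * D * P ^ 2) / 8 := by ring
      _ ≤ w ^ 2 * s * s / 8 := by gcongr
      _ = (s / 2 * w) ^ 2 / 2 := by ring
      _ ≤ _ := by gcongr
  calc r0 * (D * s) * LB ≤ (κ * w + w ^ 2 * P) * (D * s) * LB := by gcongr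
    _ = κ * w * (D * s) * LB + w ^ 2 * P * (D * s) * LB := by ring
    _ ≤ (κ * w) ^ 2 / 2 + (κ * w) ^ 2 / 2 := add_le_add e1 e2
    _ = _ := by ring

/-- numbers, second hypothesis -/
lemma num2' {s w κ D h2 L L2 d : ℝ} {C : ℕ} (hs : 0 < s) (hw : 0 < w) (hκ1 : s / 2 ≤ κ) (hκ2 : κ ≤ s)
    (hd0 : 0 ≤ d) (hD : 1 ≤ D) (hL : 1 ≤ L) (hL2 : 0 ≤ L2) (hLL : L2 ≤ 2 * L)
    (hLD : 2 ^ 23 * D ^ 2 ≤ L ^ 2) (hd : d ≤ w ^ 3 * L ^ C)
    (hh : h2 ≤ 2 * (κ ^ 2 * (w * d)) + 2 * (w ^ 4 * (2 * ((2 * (D * s ^ 2)) * L2 ^ 15)))) :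
    h2 * (D * s ^ 2) ≤ (κ * w) ^ 4 * L ^ (C + 17) := by
  have hκ0 : 0 < κ := by linarith
  have hDL : 64 * D ≤ L ^ 2 := by nlinarith
  have e1 : 2 * (κ ^ 2 * (w * d)) * (D * s ^ 2) ≤ s ^ 4 * w ^ 4 / 32 * L ^ (C + 17) := by
    calc 2 * (κ ^ 2 * (w * d)) * (D * s ^ 2) ≤ 2 * (s ^ 2 * (w * (w ^ 3 * L ^ C))) * (D * s ^ 2) := by gcongr
      _ = s ^ 4 * w ^ 4 * (L ^ C * (64 * D)) / 32 := by ring
      _ ≤ s ^ 4 * w ^ 4 * (L ^ C * L ^ 2) / 32 := by gcongr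
      _ ≤ s ^ 4 * w ^ 4 * L ^ (C + 17) / 32 := by
          rw [← pow_add]
          have : L ^ (C + 2) ≤ L ^ (C + 17) := pow_le_pow_right₀ hL (by omega)
          gcongr
      _ = _ := by ring
  have e2 : 2 * (w ^ 4 * (2 * ((2 * (D * s ^ 2)) * L2 ^ 15))) * (D * s ^ 2) ≤ s ^ 4 * w ^ 4 / 32 * L ^ (C + 17) := by
    calc 2 * (w ^ 4 * (2 * ((2 * (D * s ^ 2)) * L2 ^ 15))) * (D * s ^ 2)
        ≤ 2 * (w ^ 4 * (2 * ((2 * (D * s ^ 2)) * (2 * L) ^ 15))) * (D * s ^ 2) := by gcongr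
      _ = s ^ 4 * w ^ 4 / 32 * (2 ^ 23 * D ^ 2 * L ^ 15) := by ring
      _ ≤ s ^ 4 * w ^ 4 / 32 * (L ^ 2 * L ^ 15) := by gcongr
      _ = s ^ 4 * w ^ 4 / 32 * L ^ 17 := by rw [← pow_add]
      _ ≤ _ := by
          have : L ^ 17 ≤ L ^ (C + 17) := pow_le_pow_right₀ hL (by omega)
          gcongr
  calc h2 * (D * s ^ 2) ≤ (2 * (κ ^ 2 * (w * d)) + 2 * (w ^ 4 * (2 * ((2 * (D * s ^ 2)) * L2 ^ 15)))) * (D * s ^ 2) := by
        gcongr
    _ = 2 * (κ ^ 2 * (w * d)) * (D * s ^ 2) + 2 * (w ^ 4 * (2 * ((2 * (D * s ^ 2)) * L2 ^ 15))) * (D * s ^ 2) := by ring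
    _ ≤ s ^ 4 * w ^ 4 / 32 * L ^ (C + 17) + s ^ 4 * w ^ 4 / 32 * L ^ (C + 17) := add_le_add e1 e2
    _ = (s / 2 * w) ^ 4 * L ^ (C + 17) := by ring
    _ ≤ (κ * w) ^ 4 * L ^ (C + 17) := by gcongr

/-- numbers, third hypothesis -/
lemma num3' {s w κ P D r0 h2 h3 L LB Xp : ℝ} {C : ℕ} (hs : 0 < s) (hw : 0 < w) (hκ1 : s / 2 ≤ κ) (hP : 1 ≤ P)
    (hD : 1 ≤ D) (hL : 1 ≤ L) (hLB : 0 ≤ LB) (hLP : LB ≤ P) (hPs : 16 * D * P ^ 3 * 2 ≤ s)
    (hLw : 16 * D * LB * L ^ C ≤ w) (hw1 : 1 ≤ w)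
    (hXp : Xp = D * s ^ 2) (hh2 : h2 * Xp ≤ (κ * w) ^ 4 * L ^ C) (hh20 : 0 ≤ h2)
    (hr : r0 ≤ κ * w + w ^ 2 * P) (hr0 : κ * w ≤ r0) (hr1 : r0 * √Xp ≤ (κ * w) ^ 2)
    (hh3 : h3 ≤ √(2 * Xp) * √h2 + P * (r0 ^ 2 - (κ * w) ^ 2)) :
    h3 * Xp * LB ≤ (κ * w) ^ 4 := by
  have hP0 : 0 < P := by linarith
  have hκ0 : 0 < κ := by linarith
  have hXp0 : 0 < Xp := by rw [hXp]; positivity
  have hκw : 0 < κ * w := by positivity
  have e1 : √(2 * Xp) * √h2 ≤ 2 * (κ * w) ^ 2 * L ^ C := by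
    rw [← Real.sqrt_mul (by positivity)]
    refine Real.sqrt_le_iff.mpr ⟨by positivity, ?_⟩
    have hLC : 1 ≤ L ^ C := one_le_pow₀ hL
    calc 2 * Xp * h2 = 2 * (h2 * Xp) := by ring
      _ ≤ 2 * ((κ * w) ^ 4 * L ^ C) := by gcongr
      _ ≤ 2 * ((κ * w) ^ 4 * L ^ C) * (2 * L ^ C) := by
          refine le_mul_of_one_le_right (by positivity) (by linarith)
      _ = _ := by ring
  have e2 : 2 * (κ * w) ^ 2 * L ^ C * Xp * LB ≤ (κ * w) ^ 4 / 2 := by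
    have e3 : Xp ≤ 4 * D * κ ^ 2 := by
      rw [hXp]
      calc D * s ^ 2 ≤ D * (2 * κ) ^ 2 := by gcongr; linarith
        _ = _ := by ring
    calc 2 * (κ * w) ^ 2 * L ^ C * Xp * LB ≤ 2 * (κ * w) ^ 2 * L ^ C * (4 * D * κ ^ 2) * LB := by gcongr
      _ = (κ * w) ^ 2 * κ ^ 2 * (16 * D * LB * L ^ C) / 2 := by ring
      _ ≤ (κ * w) ^ 2 * κ ^ 2 * w / 2 := by gcongr
      _ ≤ (κ * w) ^ 2 * κ ^ 2 * w ^ 2 / 2 := by
          have : w ≤ w ^ 2 := le_self_pow₀ hw1 (by norm_num)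
          gcongr
      _ = _ := by ring
  have hsX : √Xp ≤ D * s := by
    rw [hXp]
    refine Real.sqrt_le_iff.mpr ⟨by positivity, ?_⟩
    rw [mul_pow]
    have : D ≤ D ^ 2 := le_self_pow₀ hD (by norm_num)
    gcongr
  have hr00 : 0 < r0 := lt_of_lt_of_le hκw hr0
  have e4 : P * (r0 ^ 2 - (κ * w) ^ 2) * Xp * LB ≤ (κ * w) ^ 4 / 2 := by
    have e5 : r0 ^ 2 - (κ * w) ^ 2 ≤ 2 * r0 * (w ^ 2 * P) := by
      have e6 : r0 - κ * w ≤ w ^ 2 * P := by linarith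
      have e7 : 0 ≤ r0 - κ * w := by linarith
      have e8 : r0 + κ * w ≤ 2 * r0 := by linarith
      have e9 : 0 ≤ w ^ 2 * P := by positivity
      calc r0 ^ 2 - (κ * w) ^ 2 = (r0 + κ * w) * (r0 - κ * w) := by ring
        _ ≤ (2 * r0) * (w ^ 2 * P) := by gcongr
        _ = _ := by ring
    have e6 : Xp = √Xp * √Xp := (Real.mul_self_sqrt hXp0.le).symm
    calc P * (r0 ^ 2 - (κ * w) ^ 2) * Xp * LB ≤ P * (2 * r0 * (w ^ 2 * P)) * Xp * P := by gcongr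
      _ = 2 * P ^ 3 * w ^ 2 * (r0 * √Xp) * √Xp := by
          nth_rw 1 [e6]; ring
      _ ≤ 2 * P ^ 3 * w ^ 2 * (κ * w) ^ 2 * (D * s) := by gcongr
      _ = (κ * w) ^ 2 * w ^ 2 * s * (16 * D * P ^ 3 * 2) / 16 := by ring
      _ ≤ (κ * w) ^ 2 * w ^ 2 * s * s / 16 := by gcongr
      _ = (κ * w) ^ 2 * w ^ 2 * (s / 2) ^ 2 / 4 := by ring
      _ ≤ (κ * w) ^ 2 * w ^ 2 * κ ^ 2 / 4 := by gcongr
      _ ≤ (κ * w) ^ 2 * w ^ 2 * κ ^ 2 / 2 := by
          have : 0 ≤ (κ * w) ^ 2 * w ^ 2 * κ ^ 2 := by positivity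
          linarith
      _ = _ := by ring
  calc h3 * Xp * LB ≤ (√(2 * Xp) * √h2 + P * (r0 ^ 2 - (κ * w) ^ 2)) * Xp * LB := by gcongr
    _ ≤ (2 * (κ * w) ^ 2 * L ^ C + P * (r0 ^ 2 - (κ * w) ^ 2)) * Xp * LB := by gcongr
    _ = 2 * (κ * w) ^ 2 * L ^ C * Xp * LB + P * (r0 ^ 2 - (κ * w) ^ 2) * Xp * LB := by ring
    _ ≤ (κ * w) ^ 4 / 2 + (κ * w) ^ 4 / 2 := add_le_add e2 e4
    _ = _ := by ring

lemma rr0_ge_card {ι : Type*} {I : Finset ι} {N : ι → ℕ} : (I.card : ℝ) ≤ rr I N 0 := by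
  rw [rr0_eq]
  calc (I.card : ℝ) = ∑ i ∈ I, (1:ℝ) := by simp
    _ ≤ _ := by
        refine Finset.sum_le_sum fun i hi => ?_
        calc (1:ℝ) = (if N i = N i then (1:ℝ) else 0) := by simp
          _ ≤ _ := Finset.single_le_sum (f := fun j => if N j = N i then (1:ℝ) else 0) (fun j _ => by positivity) hi

/-- **the three hypotheses for the family `F(k) + w`, small sets of shifts** -/
theorem energyB' {a : ℤ} (b c : ℤ) (ha : 1 ≤ a) (C : ℕ) {D : ℕ} (hD : 1 ≤ D) (B : ℕ) :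
    ∀ᶠ X : ℕ in atTop, ∀ Ks W : Finset ℕ, (∀ k ∈ Ks, b.natAbs < k) → (∀ k ∈ Ks, 0 ≤ Fv a b c k) →
      √X / 2 ≤ Ks.card → (Ks.card : ℝ) ≤ √X → (∀ w ∈ W, w ≤ X) → LL (D * X) ^ (B + C + 18) ≤ W.card →
      dW W ≤ (W.card : ℝ) ^ 3 * LL (D * X) ^ C →
      rr (Ks ×ˢ W) (NF a b c) 0 * √(D * X : ℕ) * LL (D * X) ^ B ≤ ((Ks ×ˢ W).card : ℝ) ^ 2 ∧
      H2 (Ks ×ˢ W) (NF a b c) (D * X) * (D * X : ℕ) ≤ ((Ks ×ˢ W).card : ℝ) ^ 4 * LL (D * X) ^ (C + 17) ∧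
      H3 (Ks ×ˢ W) (NF a b c) (D * X) * (D * X : ℕ) * LL (D * X) ^ B ≤ ((Ks ×ˢ W).card : ℝ) ^ 4 := by
  have hη0 : (0:ℝ) < 1 / 16 := by norm_num
  have hPt : Tendsto (fun n : ℕ => (n:ℝ) ^ (1 / 16 : ℝ)) atTop atTop :=
    (tendsto_rpow_atTop hη0).comp tendsto_natCast_atTop_atTop
  have hLt : Tendsto (fun n : ℕ => Real.log (n:ℝ)) atTop atTop :=
    Real.tendsto_log_atTop.comp tendsto_natCast_atTop_atTop
  filter_upwards [hPt.eventually_ge_atTop (64 * D), LL_pow_le B hη0 hD, tau_le_pow hη0 hD,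
    hLt.eventually_ge_atTop (2 ^ 12 * D), eventually_ge_atTop 1] with X hP64 hLP hτ hlog hX1
  intro Ks W hK hpos hκ1 hκ2 hW hWL hdW
  have hX0 : (0:ℝ) < X := by exact_mod_cast hX1
  have hX1' : (1:ℝ) ≤ X := by exact_mod_cast hX1
  have hDR : (1:ℝ) ≤ D := by exact_mod_cast hD
  set P := (X:ℝ) ^ (1 / 16 : ℝ) with hPdef
  set s := √(X:ℝ) with hs
  have hs0 : 0 < s := Real.sqrt_pos.mpr hX0
  have hss : s ^ 2 = X := Real.sq_sqrt hX0.le
  have hP1 : 1 ≤ P := by linarith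
  have hP0 : 0 < P := by linarith
  have hP8 : P ^ 8 = s := by
    rw [hPdef, ← Real.rpow_natCast, ← Real.rpow_mul hX0.le, hs, Real.sqrt_eq_rpow]
    congr 1
    push_cast
    norm_num
  have hP4 : P * P ^ 3 ≤ P ^ 8 := by
    rw [← pow_succ']
    exact pow_le_pow_right₀ hP1 (by norm_num)
  have hPs3 : 16 * D * P ^ 3 * 2 ≤ s := by
    rw [← hP8]
    calc 16 * D * P ^ 3 * 2 = (32 * D) * P ^ 3 := by ring
      _ ≤ P * P ^ 3 := by gcongr; linarith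
      _ ≤ _ := hP4
  have hPs2 : 8 * D * P ^ 2 ≤ s := by
    have : P ^ 2 ≤ P ^ 3 := pow_le_pow_right₀ hP1 (by norm_num)
    calc 8 * D * P ^ 2 ≤ 8 * D * P ^ 3 := by gcongr
      _ ≤ 16 * D * P ^ 3 * 2 := by
          have : 0 ≤ D * P ^ 3 := by positivity
          linarith
      _ ≤ s := hPs3
  have hL1 := LL_one_le (D * X)
  have hL0 := LL_pos (D * X)
  have hDX1 : 1 ≤ D * X := Nat.mul_pos hD hX1
  have hLlog : 2 ^ 12 * (D:ℝ) ≤ LL (D * X) := by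
    have e1 : Real.log X ≤ Real.log ((D * X : ℕ) : ℝ) :=
      Real.log_le_log hX0 (by exact_mod_cast Nat.le_mul_of_pos_left _ hD)
    unfold LL
    linarith
  have hLD : 2 ^ 23 * (D:ℝ) ^ 2 ≤ LL (D * X) ^ 2 := by
    calc 2 ^ 23 * (D:ℝ) ^ 2 ≤ (2 ^ 12 * (D:ℝ)) ^ 2 := by
          rw [mul_pow]
          gcongr
          norm_num
      _ ≤ _ := by gcongr
  set L := LL (D * X) with hLdef
  have hLwB : 16 * D * L ^ B * L ^ (C + 17) ≤ (W.card : ℝ) := by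
    refine le_trans ?_ hWL
    calc 16 * D * L ^ B * L ^ (C + 17) = (16 * D) * (L ^ B * L ^ (C + 17)) := by ring
      _ ≤ L * (L ^ B * L ^ (C + 17)) := by gcongr; linarith
      _ = L ^ (B + C + 18) := by rw [← pow_add, ← pow_succ']; congr 1
  have hw1 : (1:ℝ) ≤ W.card := (one_le_pow₀ hL1).trans hWL
  have hw0 : (0:ℝ) < W.card := by linarith
  have hLw1 : 4 * D * L ^ B ≤ (W.card : ℝ) := by
    refine le_trans ?_ hLwB
    have : 1 ≤ L ^ (C + 17) := one_le_pow₀ hL1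
    have h0 : 0 ≤ D * L ^ B := by positivity
    calc 4 * D * L ^ B ≤ 16 * D * L ^ B := by linarith
      _ ≤ _ := le_mul_of_one_le_right (by positivity) this
  have hcard : (((Ks ×ˢ W).card : ℕ) : ℝ) = Ks.card * W.card := by
    rw [Finset.card_product]; push_cast; ring
  have hWD : ∀ w ∈ W, w ≤ D * X := fun w hw => (hW w hw).trans (Nat.le_mul_of_pos_left _ hD)
  have hr0 := rr0_family (c := c) ha hK hpos hWD hτ
  have hH2 := H2_family' (c := c) ha hK hpos hWD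
  have hH3 := H3_le' (I := Ks ×ˢ W) (N := NF a b c) hτ
  have hr1 := rr0_ge_card (I := Ks ×ˢ W) (N := NF a b c)
  have hr00 : 0 ≤ rr (Ks ×ˢ W) (NF a b c) 0 := Nat.cast_nonneg _
  have hH20 : 0 ≤ H2 (Ks ×ˢ W) (NF a b c) (D * X) :=
    Finset.sum_nonneg fun _ _ => mul_nonneg (sq_nonneg _) (sq_nonneg _)
  have hsq : √((D * X : ℕ) : ℝ) ≤ D * s := by
    refine Real.sqrt_le_iff.mpr ⟨by positivity, ?_⟩
    push_cast
    rw [mul_pow, hss]
    have : (D:ℝ) ≤ D ^ 2 := le_self_pow₀ hDR (by norm_num)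
    gcongr
  have hs1 := num1' hs0 hw0 hκ1 hP1 hDR (by positivity) hLP hPs2 hLw1 hr0
  rw [hcard] at hr1 hH3 ⊢
  have eX : ((D * X : ℕ) : ℝ) = D * s ^ 2 := by rw [hss]; push_cast; ring
  have hc1 : rr (Ks ×ˢ W) (NF a b c) 0 * √(D * X : ℕ) * L ^ B ≤ (Ks.card * W.card : ℝ) ^ 2 := by
    calc _ ≤ rr (Ks ×ˢ W) (NF a b c) 0 * (D * s) * L ^ B := by gcongr
      _ ≤ _ := hs1
  have hc2 : H2 (Ks ×ˢ W) (NF a b c) (D * X) * (D * X : ℕ) ≤ (Ks.card * W.card : ℝ) ^ 4 * L ^ (C + 17) := by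
    rw [eX]
    refine num2' hs0 hw0 hκ1 hκ2 (dW_nonneg W) hDR hL1 (LL_pos (2 * (D * X))).le (LL_double hDX1) hLD hdW ?_
    refine hH2.trans (le_of_eq ?_)
    push_cast
    rw [hss]
  refine ⟨hc1, hc2, ?_⟩
  have hrX : rr (Ks ×ˢ W) (NF a b c) 0 * √((D * X : ℕ) : ℝ) ≤ (Ks.card * W.card : ℝ) ^ 2 := by
    refine le_trans ?_ hc1
    exact le_mul_of_one_le_right (by positivity) (one_le_pow₀ hL1)
  exact num3' hs0 hw0 hκ1 hP1 hDR hL1 (by positivity) hLP hPs3 hLwB hw1 eX hc2 hH20 hr0 hr1 hrX hH3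

end Pool.Agent.SEH
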