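import Pool.Agent.SEH.Key1
import Pool.Agent.Lib.ANT.LSieve

/-!
Key lemma, part 2: mean squares of the twisted autocorrelations.
-/

open Complex Pool.Agent.ANT Pool.Agent.DEH

namespace Pool.Agent.SEH

section

variable {f : ℤ → ℝ} {X : ℕ}

/-- Parseval for the twisted autocorrelation. -/
lemma corr_l2 (hs : Supp f X) {S : ℝ}
    (hS : ∀ α : ℝ, ‖∑ n ∈ Finset.Ioc 0 X, (f n : ℂ) * ee (n * α)‖ ≤ S) (α : ℝ) :
    ∑ u ∈ Finset.Icc (-(X:ℤ)) X, ‖FF f X u α‖ ^ 2 ≤ S ^ 2 * ∑ n ∈ Finset.Ioc 0 X, f n ^ 2 := by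
  classical
  set Y := 2 * X + 1 with hY
  set a : ℕ → ℂ := fun n => if n ≤ X then (f n : ℂ) * ee (n * α) else 0 with ha
  set b : ℕ → ℂ := fun k => if k ≤ X then (f ((X:ℤ) + 1 - k) : ℂ) else 0 with hb
  have hsubX : Finset.Ioc 0 X ⊆ Finset.Ioc 0 Y := Finset.Ioc_subset_Ioc_right (by omega)
  -- the exponential sum of b
  have hbS : ∀ β : ℝ, ‖∑ k ∈ Finset.Ioc 0 Y, b k * ee (k * β)‖ ≤ S := by
    intro β
    have e1 : ∑ k ∈ Finset.Ioc 0 Y, b k * ee (k * β) = ∑ k ∈ Finset.Ioc 0 X, (f ((X:ℤ) + 1 - k) : ℂ) * ee (k * β) := by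
      symm
      rw [← Finset.sum_subset hsubX]
      · refine Finset.sum_congr rfl fun k hk => ?_
        simp only [hb]
        rw [if_pos (Finset.mem_Ioc.mp hk).2]
      · intro k _ hk'
        simp only [hb]
        by_cases h : k ≤ X
        · rw [if_pos h]
          have h0 : k = 0 := by
            by_contra h0
            exact hk' (Finset.mem_Ioc.mpr ⟨by omega, h⟩)
          subst h0
          have : f ((X:ℤ) + 1 - (0:ℕ)) = 0 := hs.zero (by push_cast; omega)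
          rw [this]; simp
        · rw [if_neg h, zero_mul]
    have e2 : ∑ k ∈ Finset.Ioc 0 X, (f ((X:ℤ) + 1 - k) : ℂ) * ee (k * β) =
        ee (((X:ℝ) + 1) * β) * ∑ n ∈ Finset.Ioc 0 X, (f n : ℂ) * ee (n * (-β)) := by
      rw [Finset.mul_sum]
      refine Finset.sum_bij' (fun k _ => X + 1 - k) (fun n _ => X + 1 - n) ?_ ?_ ?_ ?_ ?_
      · intro k hk; have := Finset.mem_Ioc.mp hk; exact Finset.mem_Ioc.mpr ⟨by omega, by omega⟩
      · intro k hk; have := Finset.mem_Ioc.mp hk; exact Finset.mem_Ioc.mpr ⟨by omega, by omega⟩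
      · intro k hk; have := Finset.mem_Ioc.mp hk; omega
      · intro k hk; have := Finset.mem_Ioc.mp hk; omega
      · intro k hk
        have hk := Finset.mem_Ioc.mp hk
        have e3 : ((X + 1 - k : ℕ) : ℤ) = (X:ℤ) + 1 - k := by omega
        have e4 : ((X + 1 - k : ℕ) : ℝ) = (X:ℝ) + 1 - k := by
          have := congrArg (fun z : ℤ => (z:ℝ)) e3
          push_cast at this
          exact this
        rw [e3, e4, mul_left_comm, ← ee_add]
        congr 2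
        ring
    rw [e1, e2, norm_mul, norm_ee, one_mul]
    exact hS (-β)
  have h1 := conv_l2 (f := a) (g := b) (X := Y) hbS
  have h2 : ∑ n ∈ Finset.Ioc 0 Y, ‖a n‖ ^ 2 = ∑ n ∈ Finset.Ioc 0 X, f n ^ 2 := by
    symm
    rw [← Finset.sum_subset hsubX]
    · refine Finset.sum_congr rfl fun n hn => ?_
      simp only [ha]
      rw [if_pos (Finset.mem_Ioc.mp hn).2, norm_mul, norm_ee, mul_one, Complex.norm_real, Real.norm_eq_abs, sq_abs]
    · intro n hn hn'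
      simp only [ha]
      rw [if_neg (by intro h; exact hn' (Finset.mem_Ioc.mpr ⟨(Finset.mem_Ioc.mp hn).1, h⟩))]
      simp
  rw [h2] at h1
  refine le_trans (le_of_eq ?_) h1
  refine Finset.sum_bij' (fun u _ => ((X:ℤ) + 1 + u).toNat) (fun N _ => (N:ℤ) - X - 1) ?_ ?_ ?_ ?_ ?_
  · intro u hu; have := Finset.mem_Icc.mp hu; exact Finset.mem_Ioc.mpr ⟨by omega, by omega⟩
  · intro N hN; have := Finset.mem_Ioc.mp hN; exact Finset.mem_Icc.mpr ⟨by omega, by omega⟩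
  · intro u hu; have := Finset.mem_Icc.mp hu; omega
  · intro N hN; have := Finset.mem_Ioc.mp hN; omega
  · intro u hu
    have hu := Finset.mem_Icc.mp hu
    congr 2
    set N := ((X:ℤ) + 1 + u).toNat with hN
    have hNu : (N:ℤ) = X + 1 + u := Int.toNat_of_nonneg (by omega)
    unfold FF
    -- terms of the two sums
    have e1 : ∀ n ∈ Finset.Ioc 0 X, ((f n * f (n - u) : ℝ) : ℂ) * ee (n * α) =
        if n ∈ Finset.Ico 1 N then a n * b (N - n) else 0 := by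
      intro n hn
      have hn' := Finset.mem_Ioc.mp hn
      by_cases h : n ∈ Finset.Ico 1 N
      · rw [if_pos h]
        have h' := Finset.mem_Ico.mp h
        simp only [ha, hb]
        rw [if_pos hn'.2]
        by_cases h3 : N - n ≤ X
        · rw [if_pos h3]
          have e2 : (X:ℤ) + 1 - ((N - n : ℕ) : ℤ) = n - u := by omega
          rw [e2]
          push_cast; ring
        · rw [if_neg h3]
          have : f (n - u) = 0 := hs.zero (by omega)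
          rw [this]; simp
      · rw [if_neg h]
        have h' : ¬ (1 ≤ n ∧ n < N) := fun hh => h (Finset.mem_Ico.mpr hh)
        have : f (n - u) = 0 := hs.zero (by omega)
        rw [this]; simp
    rw [Finset.sum_congr rfl e1, ← Finset.sum_filter]
    have e3 : (Finset.Ioc 0 X).filter (fun n => n ∈ Finset.Ico 1 N) ⊆ Finset.Ico 1 N := by
      intro n hn; exact (Finset.mem_filter.mp hn).2
    rw [← Finset.sum_subset e3]
    intro n hn hn'
    have hn'' := Finset.mem_Ico.mp hn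
    have : ¬ n ≤ X := fun h => hn' (Finset.mem_filter.mpr ⟨Finset.mem_Ioc.mpr ⟨by omega, h⟩, hn⟩)
    simp only [ha]
    rw [if_neg this, zero_mul]

lemma shift_sum_le (hs : Supp f X) (u : ℤ) (k : ℕ) (hk : k ≠ 0) (hk2 : Even k) :
    ∑ n ∈ Finset.Ioc 0 X, f (n - u) ^ k ≤ ∑ n ∈ Finset.Ioc 0 X, f n ^ k := by
  classical
  have h1 : ∑ n ∈ Finset.Ioc 0 X, f (n - u) ^ k =
      ∑ n ∈ (Finset.Ioc 0 X).filter (fun n : ℕ => 1 ≤ (n:ℤ) - u ∧ (n:ℤ) - u ≤ X), f (n - u) ^ k := by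
    rw [Finset.sum_filter]
    refine Finset.sum_congr rfl fun n _ => ?_
    split_ifs with h
    · rfl
    · rw [hs.zero h, zero_pow hk]
  have h2 : ∑ n ∈ (Finset.Ioc 0 X).filter (fun n : ℕ => 1 ≤ (n:ℤ) - u ∧ (n:ℤ) - u ≤ X), f (n - u) ^ k =
      ∑ m ∈ ((Finset.Ioc 0 X).filter (fun n : ℕ => 1 ≤ (n:ℤ) - u ∧ (n:ℤ) - u ≤ X)).image
        (fun n : ℕ => ((n:ℤ) - u).toNat), f m ^ k := by
    rw [Finset.sum_image]
    · refine Finset.sum_congr rfl fun n hn => ?_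
      obtain ⟨_, h3, h4⟩ := Finset.mem_filter.mp hn
      rw [Int.toNat_of_nonneg (by omega)]
    · intro a ha b hb hab
      obtain ⟨_, h3, h4⟩ := Finset.mem_filter.mp (Finset.mem_coe.mp ha)
      obtain ⟨_, h5, h6⟩ := Finset.mem_filter.mp (Finset.mem_coe.mp hb)
      simp only at hab
      omega
  rw [h1, h2]
  refine Finset.sum_le_sum_of_subset_of_nonneg ?_ fun n _ _ => hk2.pow_nonneg _
  intro m hm
  obtain ⟨n, hn, rfl⟩ := Finset.mem_image.mp hm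
  obtain ⟨_, h3, h4⟩ := Finset.mem_filter.mp hn
  exact Finset.mem_Ioc.mpr ⟨by omega, by omega⟩

lemma FF_norm_le (hs : Supp f X) (u : ℤ) (α : ℝ) : ‖FF f X u α‖ ≤ ∑ n ∈ Finset.Ioc 0 X, f n ^ 2 := by
  unfold FF
  have h2 := shift_sum_le hs u 2 two_ne_zero even_two
  calc _ ≤ ∑ n ∈ Finset.Ioc 0 X, (1 / 2 * f n ^ 2 + 1 / 2 * f (n - u) ^ 2) := by
        refine (norm_sum_le _ _).trans (Finset.sum_le_sum fun n _ => ?_)
        rw [norm_mul, norm_ee, mul_one, Complex.norm_real, Real.norm_eq_abs, abs_mul]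
        nlinarith [sq_nonneg (|f n| - |f (n - u)|), sq_abs (f n), sq_abs (f (n - u))]
    _ = 1 / 2 * ∑ n ∈ Finset.Ioc 0 X, f n ^ 2 + 1 / 2 * ∑ n ∈ Finset.Ioc 0 X, f (n - u) ^ 2 := by
        rw [Finset.sum_add_distrib, Finset.mul_sum, Finset.mul_sum]
    _ ≤ _ := by linarith

/-- the mean square at one point, with the divisor weight -/
lemma gamF_point (hs : Supp f X) (hf : ∀ n : ℕ, |f n| ≤ LL X ^ 4 * tauR n) {S : ℝ}
    (hS : ∀ α : ℝ, ‖∑ n ∈ Finset.Ioc 0 X, (f n : ℂ) * ee (n * α)‖ ≤ S) (α : ℝ) :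
    ∑ u ∈ Zs X, tauR u.natAbs * ‖FF f X u α‖ ^ 2 ≤ 2 * (X:ℝ) ^ 2 * LL X ^ 18 * S := by
  have hL := LL_pos X
  have hS0 : 0 ≤ S := (norm_nonneg _).trans (hS 0)
  have hf2 := f_sq_le hf
  have h1 := corr_l2 hs hS α
  have h2 : ∑ u ∈ Zs X, ‖FF f X u α‖ ^ 2 ≤ S ^ 2 * (X * LL X ^ 11) := by
    refine le_trans (Finset.sum_le_sum_of_subset_of_nonneg (Finset.erase_subset _ _) fun _ _ _ => by positivity)
      (h1.trans ?_)
    gcongr
  have h3 : ∑ u ∈ Zs X, (tauR u.natAbs * ‖FF f X u α‖) ^ 2 ≤ (X * LL X ^ 11) ^ 2 * (2 * (X * LL X ^ 3)) := by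
    have h4 := sum_Zs_tau_pow 2 X
    norm_num at h4
    calc _ ≤ ∑ u ∈ Zs X, tauR u.natAbs ^ 2 * (X * LL X ^ 11) ^ 2 := by
          refine Finset.sum_le_sum fun u _ => ?_
          rw [mul_pow]
          have := (FF_norm_le hs u α).trans hf2
          gcongr
      _ = (∑ u ∈ Zs X, tauR u.natAbs ^ 2) * (X * LL X ^ 11) ^ 2 := by rw [Finset.sum_mul]
      _ ≤ (2 * (X * LL X ^ 3)) * (X * LL X ^ 11) ^ 2 := by gcongr
      _ = _ := by ring
  have h5 := Finset.sum_mul_sq_le_sq_mul_sq (Zs X) (fun u : ℤ => tauR u.natAbs * ‖FF f X u α‖)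
    (fun u : ℤ => ‖FF f X u α‖)
  have h6 : (∑ u ∈ Zs X, tauR u.natAbs * ‖FF f X u α‖ ^ 2) ^ 2 ≤ (2 * (X:ℝ) ^ 2 * LL X ^ 18 * S) ^ 2 := by
    have e : ∑ u ∈ Zs X, tauR u.natAbs * ‖FF f X u α‖ ^ 2 =
        ∑ u ∈ Zs X, (tauR u.natAbs * ‖FF f X u α‖) * ‖FF f X u α‖ :=
      Finset.sum_congr rfl fun u _ => by ring
    rw [e]
    have h7 : 0 ≤ ∑ u ∈ Zs X, ‖FF f X u α‖ ^ 2 := Finset.sum_nonneg fun _ _ => by positivity
    calc _ ≤ _ := h5
      _ ≤ ((X * LL X ^ 11) ^ 2 * (2 * (X * LL X ^ 3))) * (S ^ 2 * (X * LL X ^ 11)) := by gcongr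
      _ = 2 * ((X:ℝ) ^ 2 * LL X ^ 18 * S) ^ 2 := by ring
      _ ≤ 4 * ((X:ℝ) ^ 2 * LL X ^ 18 * S) ^ 2 := by
          have : 0 ≤ ((X:ℝ) ^ 2 * LL X ^ 18 * S) ^ 2 := by positivity
          linarith
      _ = _ := by ring
  exact (abs_le_of_sq_le_sq' h6 (by positivity)).2

/-- fourth moments -/
lemma G4_le (hs : Supp f X) (hf : ∀ n : ℕ, |f n| ≤ LL X ^ 4 * tauR n) :
    ∑ u ∈ Zs X, tauR u.natAbs * ∑ n ∈ Finset.Ioc 0 X, (f n * f (n - u)) ^ 2 ≤ 2 * (X:ℝ) ^ 2 * LL X ^ 34 := by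
  have hL := LL_one_le X
  have hf4 := f_four_le hf
  have hτ := sum_Zs_tau_pow 2 X
  norm_num at hτ
  have hc := sum_Zs_tau_pow 0 X
  norm_num at hc
  have h1 : ∀ u ∈ Zs X, tauR u.natAbs * ∑ n ∈ Finset.Ioc 0 X, (f n * f (n - u)) ^ 2 ≤
      1 / 2 * (tauR u.natAbs ^ 2 * (X * LL X ^ 31)) + 1 / 2 * (X * LL X ^ 31) := by
    intro u _
    have h2 := shift_sum_le hs u 4 (by norm_num) (by decide)
    rw [Finset.mul_sum]
    calc ∑ n ∈ Finset.Ioc 0 X, tauR u.natAbs * (f n * f (n - u)) ^ 2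
        ≤ ∑ n ∈ Finset.Ioc 0 X, (1 / 2 * (tauR u.natAbs ^ 2 * f n ^ 4) + 1 / 2 * f (n - u) ^ 4) := by
          refine Finset.sum_le_sum fun n _ => ?_
          nlinarith [sq_nonneg (tauR u.natAbs * f n ^ 2 - f (n - u) ^ 2)]
      _ = 1 / 2 * (tauR u.natAbs ^ 2 * ∑ n ∈ Finset.Ioc 0 X, f n ^ 4) +
          1 / 2 * ∑ n ∈ Finset.Ioc 0 X, f (n - u) ^ 4 := by
          rw [Finset.sum_add_distrib, Finset.mul_sum, Finset.mul_sum, Finset.mul_sum]
      _ ≤ _ := by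
          have h3 : ∑ n ∈ Finset.Ioc 0 X, f (n - u) ^ 4 ≤ X * LL X ^ 31 := h2.trans hf4
          gcongr
  have hXL : 0 ≤ (X:ℝ) * LL X ^ 31 := by have := LL_pos X; positivity
  calc _ ≤ ∑ u ∈ Zs X, (1 / 2 * (tauR u.natAbs ^ 2 * (X * LL X ^ 31)) + 1 / 2 * (X * LL X ^ 31)) :=
        Finset.sum_le_sum h1
    _ = 1 / 2 * ((∑ u ∈ Zs X, tauR u.natAbs ^ 2) * (X * LL X ^ 31)) + 1 / 2 * ((Zs X).card * (X * LL X ^ 31)) := by
        rw [Finset.sum_add_distrib, ← Finset.mul_sum, ← Finset.sum_mul, Finset.sum_const, nsmul_eq_mul]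
        ring
    _ ≤ 1 / 2 * ((2 * (X * LL X ^ 3)) * (X * LL X ^ 31)) + 1 / 2 * ((2 * X) * (X * LL X ^ 31)) := by
        gcongr
    _ = (X:ℝ) ^ 2 * LL X ^ 34 + (X:ℝ) ^ 2 * LL X ^ 31 := by ring
    _ ≤ (X:ℝ) ^ 2 * LL X ^ 34 + (X:ℝ) ^ 2 * LL X ^ 34 := by
        have : LL X ^ 31 ≤ LL X ^ 34 := pow_le_pow_right₀ hL (by norm_num)
        gcongr
    _ = _ := by ring

/-- large sieve for the dyadic block -/
lemma gamF_sieve (hs : Supp f X) (hf : ∀ n : ℕ, |f n| ≤ LL X ^ 4 * tauR n) (R : ℕ) :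
    ∑ r ∈ Finset.Ico R (2 * R), ∑ b ∈ rd r, ∑ u ∈ Zs X, tauR u.natAbs * ‖FF f X u ((b:ℝ) / r)‖ ^ 2 ≤
      24 * (2 * X + 4 * (R:ℝ) ^ 2) * ((X:ℝ) ^ 2 * LL X ^ 34) := by
  rcases Nat.eq_zero_or_pos R with rfl | hR
  · simp; have := LL_pos X; positivity
  have h1 : ∑ r ∈ Finset.Ico R (2 * R), ∑ b ∈ rd r, ∑ u ∈ Zs X, tauR u.natAbs * ‖FF f X u ((b:ℝ) / r)‖ ^ 2 =
      ∑ u ∈ Zs X, tauR u.natAbs * ∑ r ∈ Finset.Ico R (2 * R), ∑ b ∈ rd r, ‖FF f X u ((b:ℝ) / r)‖ ^ 2 := by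
    simp_rw [Finset.mul_sum]
    rw [Finset.sum_comm' (s := Finset.Ico R (2 * R)) (t := fun _ => Zs X) (t' := Zs X) (s' := fun _ => Finset.Ico R (2 * R))
      (f := fun r u => ∑ b ∈ rd r, tauR u.natAbs * ‖FF f X u ((b:ℝ) / r)‖ ^ 2) (by intro x y; tauto) |>.symm]
    refine Finset.sum_congr rfl fun r _ => ?_
    rw [Finset.sum_comm]
  rw [h1]
  have hG := G4_le hs hf
  calc _ ≤ ∑ u ∈ Zs X, tauR u.natAbs * (12 * (2 * X + 4 * (R:ℝ) ^ 2) * ∑ n ∈ Finset.Ioc 0 X, (f n * f (n - u)) ^ 2) := by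
        refine Finset.sum_le_sum fun u _ => mul_le_mul_of_nonneg_left ?_ (tauR_nonneg _)
        have h2 := large_sieve_farey (2 * R) X (fun n => ((f n * f (n - u) : ℝ) : ℂ))
        have h3 : ∑ r ∈ Finset.Ico R (2 * R), ∑ b ∈ rd r, ‖FF f X u ((b:ℝ) / r)‖ ^ 2 ≤
            ∑ q ∈ Finset.Ioc 0 (2 * R), ∑ b ∈ (Finset.range q).filter (fun b => Nat.Coprime b q),
              ‖∑ n ∈ Finset.Ioc 0 X, ((f n * f (n - u) : ℝ) : ℂ) * ee (n * ((b:ℝ) / q))‖ ^ 2 := by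
          refine Finset.sum_le_sum_of_subset_of_nonneg ?_ fun _ _ _ =>
            Finset.sum_nonneg fun _ _ => by positivity
          intro r hr
          have := Finset.mem_Ico.mp hr
          exact Finset.mem_Ioc.mpr ⟨by omega, by omega⟩
        refine h3.trans (h2.trans (le_of_eq ?_))
        have e1 : ∀ n : ℕ, ‖((f n * f (n - u) : ℝ) : ℂ)‖ ^ 2 = (f n * f (n - u)) ^ 2 := by
          intro n
          rw [Complex.norm_real, Real.norm_eq_abs, sq_abs]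
        simp_rw [e1]
        push_cast
        ring
    _ = 12 * (2 * X + 4 * (R:ℝ) ^ 2) * ∑ u ∈ Zs X, tauR u.natAbs * ∑ n ∈ Finset.Ioc 0 X, (f n * f (n - u)) ^ 2 := by
        rw [Finset.mul_sum]
        exact Finset.sum_congr rfl fun u _ => by ring
    _ ≤ 12 * (2 * X + 4 * (R:ℝ) ^ 2) * (2 * (X:ℝ) ^ 2 * LL X ^ 34) := by gcongr
    _ = _ := by ring

/-- trivial count of fractions with the bound at one point -/
lemma gamF_small (hs : Supp f X) (hf : ∀ n : ℕ, |f n| ≤ LL X ^ 4 * tauR n) {S : ℝ}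
    (hS : ∀ α : ℝ, ‖∑ n ∈ Finset.Ioc 0 X, (f n : ℂ) * ee (n * α)‖ ≤ S) (R : ℕ) :
    ∑ r ∈ Finset.Ico R (2 * R), ∑ b ∈ rd r, ∑ u ∈ Zs X, tauR u.natAbs * ‖FF f X u ((b:ℝ) / r)‖ ^ 2 ≤
      4 * (R:ℝ) ^ 2 * ((X:ℝ) ^ 2 * LL X ^ 18 * S) := by
  have hL := LL_pos X
  have hS0 : 0 ≤ S := (norm_nonneg _).trans (hS 0)
  calc _ ≤ ∑ r ∈ Finset.Ico R (2 * R), ∑ b ∈ rd r, 2 * (X:ℝ) ^ 2 * LL X ^ 18 * S :=
        Finset.sum_le_sum fun r _ => Finset.sum_le_sum fun b _ => gamF_point hs hf hS _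
    _ = ∑ r ∈ Finset.Ico R (2 * R), (rd r).card * (2 * (X:ℝ) ^ 2 * LL X ^ 18 * S) := by
        refine Finset.sum_congr rfl fun r _ => ?_
        rw [Finset.sum_const, nsmul_eq_mul]
    _ ≤ ∑ r ∈ Finset.Ico R (2 * R), (2 * R) * (2 * (X:ℝ) ^ 2 * LL X ^ 18 * S) := by
        refine Finset.sum_le_sum fun r hr => ?_
        have h1 : (rd r).card ≤ r := by
          unfold rd
          exact (Finset.card_filter_le _ _).trans (by simp)
        have h2 : ((rd r).card : ℝ) ≤ 2 * R := by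
          have := Finset.mem_Ico.mp hr
          have h3 : (rd r).card ≤ 2 * R := by omega
          exact_mod_cast h3
        gcongr
    _ = _ := by
        rw [Finset.sum_const, Nat.card_Ico, nsmul_eq_mul]
        have : ((2 * R - R : ℕ) : ℝ) = R := by
          have : 2 * R - R = R := by omega
          rw [this]
        rw [this]
        ring

end

end Pool.Agent.SEH
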