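import Pool.Agent.SEH.Key3
import Pool.Agent.SEH.Key2
import Pool.Agent.DEH.Count

/-!
Module S of the theorem on sparse families (doc `proof/MP_e9eb55_nt_SE`): the moduli `q ≤ √X`.
-/

open Complex Pool.Agent.ANT Pool.Agent.DEH

namespace Pool.Agent.SEH

/-- the weight on the multiples of `q` in `[1, X]` -/
noncomputable def gz (g : ℕ → ℝ) (q X : ℕ) (k : ℤ) : ℝ :=
  if 1 ≤ k ∧ k ≤ X ∧ (q:ℤ) ∣ k then g k.toNat else 0

section

variable {g : ℕ → ℝ} {q X : ℕ}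

lemma gz_supp : Supp (gz g q X) X := by
  intro n hn
  unfold gz at hn
  by_contra h
  apply hn
  rw [if_neg]
  rintro ⟨h1, h2, _⟩
  exact h ⟨h1, h2⟩

lemma gz_not_dvd {k : ℤ} (h : ¬ (q:ℤ) ∣ k) : gz g q X k = 0 := by
  unfold gz
  rw [if_neg]
  rintro ⟨_, _, h3⟩
  exact h h3

lemma gz_nat {n : ℕ} (hn : n ∈ Finset.Ioc 0 X) : gz g q X n = if q ∣ n then g n else 0 := by
  obtain ⟨h1, h2⟩ := Finset.mem_Ioc.mp hn
  unfold gz
  by_cases h : q ∣ n
  · rw [if_pos h, if_pos ⟨by omega, by omega, by exact_mod_cast h⟩, Int.toNat_natCast]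
  · rw [if_neg h, if_neg]
    rintro ⟨_, _, h3⟩
    exact h (by exact_mod_cast h3)

lemma gz_sup {B : ℝ}
    (hB : ∀ α : ℝ, ‖∑ n ∈ Finset.Ioc 0 X, (if q ∣ n then (g n : ℂ) else 0) * ee (n * α)‖ ≤ B) (α : ℝ) :
    ‖∑ n ∈ Finset.Ioc 0 X, (gz g q X n : ℂ) * ee (n * α)‖ ≤ B := by
  have e : ∑ n ∈ Finset.Ioc 0 X, (gz g q X n : ℂ) * ee (n * α) =
      ∑ n ∈ Finset.Ioc 0 X, (if q ∣ n then (g n : ℂ) else 0) * ee (n * α) := by
    refine Finset.sum_congr rfl fun n hn => ?_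
    rw [gz_nat hn]
    split_ifs <;> simp
  rw [e]
  exact hB α

lemma gz_abs_le (hb : ∀ n, |g n| ≤ 1 + Real.log n) (k : ℤ) : |gz g q X k| ≤ LL X := by
  unfold gz
  split_ifs with h
  · refine (hb _).trans ?_
    unfold LL
    have h1 : (0:ℝ) < (k.toNat : ℝ) := by exact_mod_cast (by omega : 0 < k.toNat)
    have h2 : ((k.toNat : ℕ) : ℝ) ≤ X := by exact_mod_cast (by omega : k.toNat ≤ X)
    have := Real.log_le_log h1 h2
    linarith
  · rw [abs_zero]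
    exact (LL_pos X).le

lemma card_mult : (((Finset.Ioc 0 X).filter (fun n => q ∣ n)).card : ℝ) ≤ X / q := by
  have h1 : ((Finset.Ioc 0 X).filter (fun n => q ∣ n)).card = X / q := by
    have := Nat.Ioc_filter_dvd_card_eq_div X q
    exact this
  rw [h1]
  exact Nat.cast_div_le

lemma sum_gz_le (hb : ∀ n, |g n| ≤ 1 + Real.log n) (k : ℕ) (hk : k ≠ 0) :
    ∑ n ∈ Finset.Ioc 0 X, |gz g q X n| ^ k ≤ LL X ^ k * (X / q) := by
  have hL := LL_pos X
  have h1 : ∑ n ∈ Finset.Ioc 0 X, |gz g q X n| ^ k ≤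
      ∑ n ∈ Finset.Ioc 0 X, if q ∣ n then LL X ^ k else 0 := by
    refine Finset.sum_le_sum fun n hn => ?_
    have h2 := gz_abs_le (X := X) (q := q) hb n
    by_cases h : q ∣ n
    · rw [if_pos h]
      exact pow_le_pow_left₀ (abs_nonneg _) h2 k
    · rw [if_neg h, gz_not_dvd (by exact_mod_cast h), abs_zero, zero_pow hk]
  refine h1.trans ?_
  rw [← Finset.sum_filter, Finset.sum_const, nsmul_eq_mul, mul_comm]
  have := card_mult (q := q) (X := X)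
  gcongr

/-- the discrepancy as a convolution -/
lemma E_eq_gz {N : ℕ} (hNX : N ≤ X) :
    E g N q = ∑ n ∈ Finset.Ioc 0 X, ArithmeticFunction.vonMangoldt n * gz g q X (N - n) := by
  unfold E
  have hsub : (Finset.Ico 1 N).filter (fun n => n ≡ N [MOD q]) ⊆ Finset.Ioc 0 X := by
    intro n hn
    have := Finset.mem_Ico.mp (Finset.mem_filter.mp hn).1
    exact Finset.mem_Ioc.mpr ⟨by omega, by omega⟩
  symm
  rw [← Finset.sum_subset hsub]
  · refine Finset.sum_congr rfl fun n hn => ?_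
    obtain ⟨h1, h2⟩ := Finset.mem_filter.mp hn
    have h3 := Finset.mem_Ico.mp h1
    have h4 : q ∣ N - n := (Nat.modEq_iff_dvd' h3.2.le).mp h2
    have h5 : (N:ℤ) - n = ((N - n : ℕ) : ℤ) := by omega
    rw [h5, gz_nat (Finset.mem_Ioc.mpr ⟨by omega, by omega⟩), if_pos h4]
  · intro n hn hn'
    have h1 := Finset.mem_Ioc.mp hn
    have : gz g q X (N - n) = 0 := by
      unfold gz
      rw [if_neg]
      rintro ⟨h2, h3, h4⟩
      apply hn'
      refine Finset.mem_filter.mpr ⟨Finset.mem_Ico.mpr ⟨by omega, by omega⟩, ?_⟩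
      have h5 : (N:ℤ) - n = ((N - n : ℕ) : ℤ) := by omega
      rw [h5] at h4
      exact (Nat.modEq_iff_dvd' (by omega)).mpr (by exact_mod_cast h4)
    rw [this, mul_zero]

lemma abs_E_le (hb : ∀ n, |g n| ≤ 1 + Real.log n) {N : ℕ} (hN1 : 1 ≤ N) (hNX : N ≤ X) :
    |E g N q| ≤ LL X ^ 2 * (X / q) := by
  have hL := LL_pos X
  rw [E_eq_gz hNX]
  have h1 : ∑ n ∈ Finset.Ioc 0 X, |gz g q X (N - n)| ≤ LL X * (X / q) := by
    have h2 := sum_gz_le (q := q) (X := X) hb 1 one_ne_zero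
    simp only [pow_one] at h2
    have h3 := reindex (φ := fun k => |gz g q X k|) (X := X) (m := 1) (N := N)
      (fun n hn => by rw [gz_supp.zero hn, abs_zero]) le_rfl (by exact_mod_cast hN1) (by exact_mod_cast hNX)
    have h4 : ∑ n ∈ Finset.Ioc 0 X, |gz g q X (N - n)| ≤
        ∑ k ∈ Finset.Icc (-(X:ℤ)) X, |gz g q X (N - k * (1:ℕ))| := by
      have e : ∑ n ∈ Finset.Ioc 0 X, |gz g q X (N - n)| =
          ∑ k ∈ (Finset.Ioc 0 X).image (fun n : ℕ => (n:ℤ)), |gz g q X (N - k * (1:ℕ))| := by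
        rw [Finset.sum_image (fun a _ b _ h => by simpa using h)]
        simp
      rw [e]
      refine Finset.sum_le_sum_of_subset_of_nonneg ?_ fun _ _ _ => abs_nonneg _
      intro k hk
      obtain ⟨n, hn, rfl⟩ := Finset.mem_image.mp hk
      have := Finset.mem_Ioc.mp hn
      exact Finset.mem_Icc.mpr ⟨by omega, by omega⟩
    refine h4.trans ?_
    rw [h3]
    simpa using h2
  calc |∑ n ∈ Finset.Ioc 0 X, ArithmeticFunction.vonMangoldt n * gz g q X (N - n)|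
      ≤ ∑ n ∈ Finset.Ioc 0 X, LL X * |gz g q X (N - n)| := by
        refine (Finset.abs_sum_le_sum_abs _ _).trans (Finset.sum_le_sum fun n hn => ?_)
        obtain ⟨hn1, hn2⟩ := Finset.mem_Ioc.mp hn
        have h0 : 0 ≤ ArithmeticFunction.vonMangoldt n := ArithmeticFunction.vonMangoldt_nonneg
        rw [abs_mul, abs_of_nonneg h0]
        have h2 : ArithmeticFunction.vonMangoldt n ≤ Real.log n := ArithmeticFunction.vonMangoldt_le_log
        have h3 : Real.log n ≤ Real.log X :=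
          Real.log_le_log (by exact_mod_cast hn1) (by exact_mod_cast hn2)
        have h4 : ArithmeticFunction.vonMangoldt n ≤ LL X := by unfold LL; linarith
        gcongr
    _ = LL X * ∑ n ∈ Finset.Ioc 0 X, |gz g q X (N - n)| := by rw [Finset.mul_sum]
    _ ≤ LL X * (LL X * (X / q)) := by gcongr
    _ = _ := by ring

/-- the autocorrelation -/
noncomputable def CC (g : ℕ → ℝ) (q X : ℕ) (h : ℤ) : ℝ :=
  ∑ n ∈ Finset.Ioc 0 X, gz g q X n * gz g q X (n - h)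

lemma CC_norm (h : ℤ) : ‖FF (gz g q X) X h 0‖ ^ 2 = CC g q X h ^ 2 := by
  have e : FF (gz g q X) X h 0 = ((CC g q X h : ℝ) : ℂ) := by
    unfold FF CC
    rw [Complex.ofReal_sum]
    refine Finset.sum_congr rfl fun n _ => ?_
    rw [mul_zero, ee_zero, mul_one]
  rw [e, Complex.norm_real, Real.norm_eq_abs, sq_abs]

lemma CC_not_dvd {h : ℤ} (hh : ¬ (q:ℤ) ∣ h) : CC g q X h = 0 := by
  unfold CC
  refine Finset.sum_eq_zero fun n _ => ?_
  by_cases h1 : (q:ℤ) ∣ n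
  · rw [gz_not_dvd (k := (n:ℤ) - h) (fun h2 => hh ?_), mul_zero]
    have := dvd_sub h1 h2
    simpa using this
  · rw [gz_not_dvd h1, zero_mul]

lemma CC_zero_le (hb : ∀ n, |g n| ≤ 1 + Real.log n) : |CC g q X 0| ≤ LL X ^ 2 * (X / q) := by
  have h1 := sum_gz_le (q := q) (X := X) hb 2 two_ne_zero
  have e : CC g q X 0 = ∑ n ∈ Finset.Ioc 0 X, |gz g q X n| ^ 2 := by
    unfold CC
    refine Finset.sum_congr rfl fun n _ => ?_
    rw [sub_zero, sq_abs, sq]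
  rw [e, abs_of_nonneg (Finset.sum_nonneg fun _ _ => by positivity)]
  exact h1

lemma sum_CC_sq (hb : ∀ n, |g n| ≤ 1 + Real.log n) {B : ℝ}
    (hB : ∀ α : ℝ, ‖∑ n ∈ Finset.Ioc 0 X, (if q ∣ n then (g n : ℂ) else 0) * ee (n * α)‖ ≤ B) :
    ∑ h ∈ Zs X, CC g q X h ^ 2 ≤ B ^ 2 * (LL X ^ 2 * (X / q)) := by
  have h1 := corr_l2 (f := gz g q X) gz_supp (gz_sup hB) 0
  have h2 := sum_gz_le (q := q) (X := X) hb 2 two_ne_zero
  simp_rw [sq_abs] at h2
  calc ∑ h ∈ Zs X, CC g q X h ^ 2 ≤ ∑ h ∈ Finset.Icc (-(X:ℤ)) X, CC g q X h ^ 2 :=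
        Finset.sum_le_sum_of_subset_of_nonneg (Finset.erase_subset _ _) fun _ _ _ => by positivity
    _ = ∑ h ∈ Finset.Icc (-(X:ℤ)) X, ‖FF (gz g q X) X h 0‖ ^ 2 :=
        Finset.sum_congr rfl fun h _ => (CC_norm h).symm
    _ ≤ _ := h1
    _ ≤ _ := by gcongr

end

section

variable {ι : Type} {I : Finset ι} {N : ι → ℕ} {g : ℕ → ℝ} {q X : ℕ}

/-- sorting pairs by their difference -/
lemma sum_pairs (hN : ∀ i ∈ I, 1 ≤ N i ∧ N i ≤ X) (φ : ℤ → ℝ) :
    ∑ i ∈ I, ∑ j ∈ I, φ ((N j : ℤ) - N i) = rr I N 0 * φ 0 + ∑ h ∈ Zs X, rr I N h * φ h := by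
  classical
  rw [← Finset.sum_product']
  have h1 : ∑ x ∈ I ×ˢ I, φ ((N x.2 : ℤ) - N x.1) = ∑ h ∈ Finset.Icc (-(X:ℤ)) X, rr I N h * φ h := by
    rw [← Finset.sum_fiberwise_of_maps_to (t := Finset.Icc (-(X:ℤ)) X)
      (g := fun x : ι × ι => (N x.2 : ℤ) - N x.1)]
    · refine Finset.sum_congr rfl fun h _ => ?_
      have : ∀ x ∈ (I ×ˢ I).filter (fun x : ι × ι => (N x.2 : ℤ) - N x.1 = h),
          φ ((N x.2 : ℤ) - N x.1) = φ h := fun x hx => by rw [(Finset.mem_filter.mp hx).2]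
      rw [Finset.sum_congr rfl this, Finset.sum_const, nsmul_eq_mul]
      rfl
    · intro x hx
      obtain ⟨h2, h3⟩ := Finset.mem_product.mp hx
      have := hN _ h2
      have := hN _ h3
      exact Finset.mem_Icc.mpr ⟨by omega, by omega⟩
  rw [h1]
  have h0 : (0:ℤ) ∈ Finset.Icc (-(X:ℤ)) X := Finset.mem_Icc.mpr ⟨by omega, by omega⟩
  rw [← Finset.add_sum_erase _ _ h0]
  rfl

/-- the sum of squares of the values at the family -/
noncomputable def Uq (g : ℕ → ℝ) (I : Finset ι) (N : ι → ℕ) (q : ℕ) : ℝ := ∑ i ∈ I, E g (N i) q ^ 2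

/-- the sum of the autocorrelations -/
noncomputable def Gq (g : ℕ → ℝ) (I : Finset ι) (N : ι → ℕ) (X q : ℕ) : ℝ :=
  rr I N 0 * |CC g q X 0| + ∑ h ∈ Zs X, rr I N h * |CC g q X h|

lemma Gq_nonneg : 0 ≤ Gq g I N X q := by
  unfold Gq rr
  refine add_nonneg (by positivity) (Finset.sum_nonneg fun _ _ => by positivity)

lemma Uq_sq_le (hb : ∀ n, |g n| ≤ 1 + Real.log n) (hN : ∀ i ∈ I, 1 ≤ N i ∧ N i ≤ X) :
    Uq g I N q ^ 2 ≤ 6 * X * LL X * ((LL X ^ 2 * (X / q)) ^ 2 * Gq g I N X q) := by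
  have hL := LL_pos X
  set e : ι → ℝ := fun i => E g (N i) q with he
  set T : ℝ := LL X ^ 2 * (X / q) with hT
  have hT0 : 0 ≤ T := by positivity
  have heT : ∀ i ∈ I, |e i| ≤ T := fun i hi => abs_E_le hb (hN i hi).1 (hN i hi).2
  set G : ℤ → ℝ := fun n => ∑ i ∈ I, e i * gz g q X (N i - n) with hG
  have h1 : Uq g I N q = ∑ n ∈ Finset.Ioc 0 X, ArithmeticFunction.vonMangoldt n * G n := by
    unfold Uq
    have h2 : ∀ i ∈ I, E g (N i) q ^ 2 =
        ∑ n ∈ Finset.Ioc 0 X, ArithmeticFunction.vonMangoldt n * (e i * gz g q X (N i - n)) := by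
      intro i hi
      rw [sq]
      nth_rw 2 [E_eq_gz (hN i hi).2]
      rw [Finset.mul_sum]
      refine Finset.sum_congr rfl fun n _ => ?_
      simp only [he]
      ring
    rw [Finset.sum_congr rfl h2, Finset.sum_comm]
    refine Finset.sum_congr rfl fun n _ => ?_
    simp only [hG]
    rw [Finset.mul_sum]
  have h2 : ∑ n ∈ Finset.Ioc 0 X, (ArithmeticFunction.vonMangoldt n : ℝ) ^ 2 ≤ 6 * X * LL X := by
    have := sum_Lambda_sq_le X
    simp only [Complex.norm_real, Real.norm_eq_abs, sq_abs] at this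
    exact this
  have h3 : ∑ n ∈ Finset.Ioc 0 X, G n ^ 2 ≤ ∑ n ∈ Finset.Icc (-(X:ℤ)) X, G n ^ 2 := by
    have e1 : ∑ n ∈ Finset.Ioc 0 X, G n ^ 2 =
        ∑ k ∈ (Finset.Ioc 0 X).image (fun n : ℕ => (n:ℤ)), G k ^ 2 := by
      rw [Finset.sum_image (fun a _ b _ h => by simpa using h)]
    rw [e1]
    refine Finset.sum_le_sum_of_subset_of_nonneg ?_ fun _ _ _ => by positivity
    intro k hk
    obtain ⟨n, hn, rfl⟩ := Finset.mem_image.mp hk
    have := Finset.mem_Ioc.mp hn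
    exact Finset.mem_Icc.mpr ⟨by omega, by omega⟩
  have h4 : ∑ n ∈ Finset.Icc (-(X:ℤ)) X, G n ^ 2 =
      ∑ i ∈ I, ∑ j ∈ I, e i * e j * CC g q X ((N j : ℤ) - N i) := by
    have h5 : ∀ n ∈ Finset.Icc (-(X:ℤ)) X, G n ^ 2 =
        ∑ i ∈ I, ∑ j ∈ I, e i * e j * (gz g q X (N j - n) * gz g q X (N i - n)) := by
      intro n _
      simp only [hG]
      rw [sq, Finset.sum_mul_sum]
      refine Finset.sum_congr rfl fun i _ => Finset.sum_congr rfl fun j _ => ?_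
      ring
    rw [Finset.sum_congr rfl h5, Finset.sum_comm]
    refine Finset.sum_congr rfl fun i hi => ?_
    rw [Finset.sum_comm]
    refine Finset.sum_congr rfl fun j hj => ?_
    rw [← Finset.mul_sum]
    congr 1
    have h6 := reindex (φ := fun k => gz g q X k * gz g q X (k - ((N j : ℤ) - N i))) (X := X) (m := 1)
      (N := (N j : ℤ)) (fun n hn => by rw [gz_supp.zero hn, zero_mul]) le_rfl
      (by exact_mod_cast (hN j hj).1) (by exact_mod_cast (hN j hj).2)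
    unfold CC
    have e1 : ∑ n ∈ Finset.Icc (-(X:ℤ)) X, gz g q X (N j - n) * gz g q X (N i - n) =
        ∑ n ∈ Finset.Icc (-(X:ℤ)) X, gz g q X ((N j : ℤ) - n * (1:ℕ)) *
          gz g q X ((N j : ℤ) - n * (1:ℕ) - ((N j : ℤ) - N i)) := by
      refine Finset.sum_congr rfl fun n _ => ?_
      have e2 : (N j : ℤ) - n * (1:ℕ) = N j - n := by push_cast; ring
      rw [e2]
      congr 2
      ring
    rw [e1, h6]
    refine Finset.sum_congr rfl fun n _ => ?_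
    rw [if_pos (by simp)]
  have h5 : ∑ i ∈ I, ∑ j ∈ I, e i * e j * CC g q X ((N j : ℤ) - N i) ≤ T ^ 2 * Gq g I N X q := by
    have h6 := sum_pairs hN (fun h => |CC g q X h|)
    unfold Gq
    rw [← h6, Finset.mul_sum]
    refine Finset.sum_le_sum fun i hi => ?_
    rw [Finset.mul_sum]
    refine Finset.sum_le_sum fun j hj => ?_
    calc e i * e j * CC g q X ((N j : ℤ) - N i) ≤ |e i * e j * CC g q X ((N j : ℤ) - N i)| := le_abs_self _
      _ = |e i| * |e j| * |CC g q X ((N j : ℤ) - N i)| := by rw [abs_mul, abs_mul]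
      _ ≤ T * T * |CC g q X ((N j : ℤ) - N i)| := by
          have := heT i hi
          have := heT j hj
          gcongr
      _ = _ := by ring
  rw [h1]
  calc _ ≤ (∑ n ∈ Finset.Ioc 0 X, (ArithmeticFunction.vonMangoldt n : ℝ) ^ 2) * ∑ n ∈ Finset.Ioc 0 X, G n ^ 2 :=
        Finset.sum_mul_sq_le_sq_mul_sq _ _ _
    _ ≤ (6 * X * LL X) * (T ^ 2 * Gq g I N X q) := by
        have h6 : 0 ≤ ∑ n ∈ Finset.Ioc 0 X, G n ^ 2 := Finset.sum_nonneg fun _ _ => by positivity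
        exact mul_le_mul h2 (h3.trans (h4.le.trans h5)) h6 (by positivity)
    _ = _ := rfl

/-- the bound for one modulus -/
lemma Gq_le (hb : ∀ n, |g n| ≤ 1 + Real.log n) {B : ℝ}
    (hB : ∀ α : ℝ, ‖∑ n ∈ Finset.Ioc 0 X, (if q ∣ n then (g n : ℂ) else 0) * ee (n * α)‖ ≤ B) :
    Gq g I N X q ≤ rr I N 0 * (LL X ^ 2 * (X / q)) +
      √(∑ h ∈ Zs X, if (q:ℤ) ∣ h then rr I N h ^ 2 else 0) * (B * (LL X * √(X / q))) := by
  have hL := LL_pos X
  have hB0 : 0 ≤ B := (norm_nonneg _).trans (hB 0)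
  unfold Gq
  refine add_le_add ?_ ?_
  · have := CC_zero_le (q := q) (X := X) hb
    have : 0 ≤ rr I N 0 := Nat.cast_nonneg _
    gcongr
  · have h1 := Real.sum_mul_le_sqrt_mul_sqrt (Zs X) (fun h : ℤ => if (q:ℤ) ∣ h then rr I N h else 0)
      (fun h => |CC g q X h|)
    have e1 : ∑ h ∈ Zs X, (if (q:ℤ) ∣ h then rr I N h else 0) * |CC g q X h| =
        ∑ h ∈ Zs X, rr I N h * |CC g q X h| := by
      refine Finset.sum_congr rfl fun h _ => ?_
      by_cases hh : (q:ℤ) ∣ h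
      · rw [if_pos hh]
      · rw [if_neg hh, CC_not_dvd hh]; simp
    have e2 : ∑ h ∈ Zs X, (if (q:ℤ) ∣ h then rr I N h else 0) ^ 2 =
        ∑ h ∈ Zs X, if (q:ℤ) ∣ h then rr I N h ^ 2 else 0 := by
      refine Finset.sum_congr rfl fun h _ => ?_
      split_ifs <;> simp
    rw [e1, e2] at h1
    refine h1.trans (mul_le_mul_of_nonneg_left ?_ (Real.sqrt_nonneg _))
    refine Real.sqrt_le_iff.mpr ⟨by positivity, ?_⟩
    have h2 := sum_CC_sq (X := X) hb hB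
    simp_rw [sq_abs]
    refine h2.trans (le_of_eq ?_)
    rw [mul_pow, mul_pow, Real.sq_sqrt (by positivity)]

lemma sum_dvd_le (Q : ℕ) : ∑ q ∈ Finset.Ioc 0 Q, (∑ h ∈ Zs X, if (q:ℤ) ∣ h then rr I N h ^ 2 else 0) ≤
    H1 I N X := by
  classical
  rw [Finset.sum_comm]
  unfold H1
  refine Finset.sum_le_sum fun h hh => ?_
  have hh0 : h ≠ 0 := (Finset.mem_erase.mp hh).1
  rw [← Finset.sum_filter, Finset.sum_const, nsmul_eq_mul]
  have h1 : (Finset.Ioc 0 Q).filter (fun q : ℕ => (q:ℤ) ∣ h) ⊆ h.natAbs.divisors := by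
    intro q hq
    obtain ⟨_, h2⟩ := Finset.mem_filter.mp hq
    exact Nat.mem_divisors.mpr ⟨Int.natCast_dvd.mp h2, by omega⟩
  have h2 : (((Finset.Ioc 0 Q).filter (fun q : ℕ => (q:ℤ) ∣ h)).card : ℝ) ≤ tauR h.natAbs := by
    unfold tauR
    exact_mod_cast Finset.card_le_card h1
  gcongr

end

theorem partS {g : ℕ → ℝ} (hg : Good g) (hb : ∀ n, |g n| ≤ 1 + Real.log n) (m : ℕ) :
    ∃ K : ℝ, 0 < K ∧ ∀ X : ℕ, 3 ≤ X → ∀ (ι : Type) (I : Finset ι) (N : ι → ℕ),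
      (∀ i ∈ I, 1 ≤ N i ∧ N i ≤ X) → ∀ Q₁ : ℕ, Q₁ ^ 2 ≤ X →
      (∑ i ∈ I, ∑ q ∈ Finset.Ioc 0 Q₁, |E g (N i) q|) ^ 4 ≤
        K * (I.card : ℝ) ^ 2 * (X:ℝ) ^ 3 * LL X ^ 30 *
          (rr I N 0 * X * Q₁ + √(H1 I N X) * X * √X / Real.log X ^ m) := by
  obtain ⟨C, hC, hgood⟩ := hg m
  refine ⟨6 * (1 + C * 2 ^ m), by positivity, fun X hX ι I N hN Q₁ hQ => ?_⟩
  have hXR : (3:ℝ) ≤ X := by exact_mod_cast hX
  have hX0 : (0:ℝ) < X := by linarith
  have hl : 1 ≤ Real.log X := one_le_log hXR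
  have hl0 : 0 < Real.log X := by linarith
  have hL1 := LL_one_le X
  have hL0 := LL_pos X
  have hQX : Q₁ ≤ X := by nlinarith
  have hqX : ∀ q ∈ Finset.Ioc 0 Q₁, 1 ≤ q ∧ q ≤ X ∧ q ^ 2 ≤ X := by
    intro q hq
    obtain ⟨h1, h2⟩ := Finset.mem_Ioc.mp hq
    exact ⟨h1, h2.trans hQX, (Nat.pow_le_pow_left h2 2).trans hQ⟩
  set r0 : ℝ := rr I N 0 with hr0
  have hr00 : 0 ≤ r0 := Nat.cast_nonneg _
  set S : ℕ → ℝ := fun q => ∑ h ∈ Zs X, if (q:ℤ) ∣ h then rr I N h ^ 2 else 0 with hS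
  have hS0 : ∀ q, 0 ≤ S q := fun q => Finset.sum_nonneg fun _ _ => by split_ifs <;> positivity
  set b : ℝ := C * LL X * (2 ^ m / Real.log X ^ m) with hbdef
  have hb0 : 0 ≤ b := by positivity
  -- the uniform bound
  have hB : ∀ q ∈ Finset.Ioc 0 Q₁, ∀ α : ℝ,
      ‖∑ n ∈ Finset.Ioc 0 X, (if q ∣ n then (g n : ℂ) else 0) * ee (n * α)‖ ≤
        b * 4 ^ q.primeFactors.card * (X / q) := by
    intro q hq α
    obtain ⟨hq1, hq2, hq3⟩ := hqX q hq
    have hq0 : (0:ℝ) < q := by exact_mod_cast hq1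
    refine (hgood q X hq1 α).trans ?_
    have hdiv : 1 ≤ X / q := (Nat.le_div_iff_mul_le hq1).mpr (by omega)
    have hlq : Real.log X / 2 ≤ Real.log ((X:ℝ) / q) := by
      rw [Real.log_div hX0.ne' hq0.ne']
      have h1 : Real.log ((q:ℝ) ^ 2) ≤ Real.log X :=
        Real.log_le_log (by positivity) (by exact_mod_cast hq3)
      rw [Real.log_pow] at h1
      push_cast at h1
      linarith
    have h2 : phim m ((X / q : ℕ) : ℝ) ≤ (X / q) / (Real.log X / 2) ^ m := by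
      refine (phim_mono m (by exact_mod_cast hdiv) Nat.cast_div_le).trans ?_
      unfold phim
      gcongr
      have : (0:ℝ) ≤ m := Nat.cast_nonneg m
      linarith
    have h3 := phim_nat_nonneg m (X / q)
    calc C * (1 + Real.log X) * 4 ^ q.primeFactors.card * phim m ((X / q : ℕ) : ℝ)
        ≤ C * (1 + Real.log X) * 4 ^ q.primeFactors.card * ((X / q) / (Real.log X / 2) ^ m) := by gcongr
      _ = b * 4 ^ q.primeFactors.card * (X / q) := by
          rw [hbdef, div_pow]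
          unfold LL
          field_simp
  -- first Cauchy-Schwarz
  have hharm : ∑ q ∈ Finset.Ioc 0 Q₁, 1 / (q:ℝ) ≤ LL X := by
    calc _ ≤ ∑ q ∈ Finset.Ioc 0 X, 1 / (q:ℝ) :=
          Finset.sum_le_sum_of_subset_of_nonneg (Finset.Ioc_subset_Ioc_right hQX) fun _ _ _ => by positivity
      _ = ∑ q ∈ Finset.Ioc 0 X, tauR q ^ 0 / q := by simp
      _ ≤ _ := by
          have := sum_tau_pow_div_le_LL 0 X
          simpa using this
  have hharm0 : 0 ≤ ∑ q ∈ Finset.Ioc 0 Q₁, 1 / (q:ℝ) := Finset.sum_nonneg fun _ _ => by positivity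
  have hA : (∑ i ∈ I, ∑ q ∈ Finset.Ioc 0 Q₁, |E g (N i) q|) ^ 2 ≤
      (I.card * LL X) * ∑ q ∈ Finset.Ioc 0 Q₁, q * Uq g I N q := by
    rw [← Finset.sum_product']
    have h1 := Finset.sum_sq_le_sum_mul_sum_of_sq_le_mul (I ×ˢ Finset.Ioc 0 Q₁)
      (r := fun x : ι × ℕ => |E g (N x.1) x.2|) (f := fun x => 1 / (x.2:ℝ)) (g := fun x => x.2 * E g (N x.1) x.2 ^ 2)
      (fun x _ => by positivity) (fun x _ => by positivity) (fun x hx => by
        have h2 : 0 < x.2 := (Finset.mem_Ioc.mp (Finset.mem_product.mp hx).2).1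
        have h3 : (0:ℝ) < x.2 := by exact_mod_cast h2
        refine le_of_eq ?_
        rw [sq_abs]
        field_simp)
    refine h1.trans ?_
    rw [Finset.sum_product, Finset.sum_product_right]
    have e1 : ∑ q ∈ Finset.Ioc 0 Q₁, ∑ i ∈ I, (q:ℝ) * E g (N i) q ^ 2 = ∑ q ∈ Finset.Ioc 0 Q₁, q * Uq g I N q := by
      refine Finset.sum_congr rfl fun q _ => ?_
      unfold Uq
      rw [Finset.mul_sum]
    have e2 : ∑ x ∈ I, ∑ y ∈ Finset.Ioc 0 Q₁, 1 / (((x, y) : ι × ℕ).2 : ℝ) =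
        I.card * ∑ q ∈ Finset.Ioc 0 Q₁, 1 / (q:ℝ) := by
      simp only [Finset.sum_const, nsmul_eq_mul]
    rw [e1, e2]
    have : 0 ≤ ∑ q ∈ Finset.Ioc 0 Q₁, q * Uq g I N q :=
      Finset.sum_nonneg fun q _ => mul_nonneg (Nat.cast_nonneg _) (Finset.sum_nonneg fun _ _ => by positivity)
    gcongr
  -- second Cauchy-Schwarz
  have hBB : (∑ q ∈ Finset.Ioc 0 Q₁, q * Uq g I N q) ^ 2 ≤
      LL X * (6 * (X:ℝ) ^ 3 * LL X ^ 5 * ∑ q ∈ Finset.Ioc 0 Q₁, q * Gq g I N X q) := by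
    have h1 := Finset.sum_sq_le_sum_mul_sum_of_sq_le_mul (Finset.Ioc 0 Q₁)
      (r := fun q : ℕ => (q:ℝ) * Uq g I N q) (f := fun q => 1 / (q:ℝ)) (g := fun q => (q:ℝ) ^ 3 * Uq g I N q ^ 2)
      (fun x _ => by positivity) (fun x _ => by positivity) (fun x hx => by
        have h2 : 0 < x := (Finset.mem_Ioc.mp hx).1
        have h3 : (0:ℝ) < x := by exact_mod_cast h2
        refine le_of_eq ?_
        field_simp)
    refine h1.trans ?_
    have h2 : ∑ q ∈ Finset.Ioc 0 Q₁, (q:ℝ) ^ 3 * Uq g I N q ^ 2 ≤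
        6 * (X:ℝ) ^ 3 * LL X ^ 5 * ∑ q ∈ Finset.Ioc 0 Q₁, q * Gq g I N X q := by
      rw [Finset.mul_sum]
      refine Finset.sum_le_sum fun q hq => ?_
      obtain ⟨hq1, hq2, hq3⟩ := hqX q hq
      have hq0 : (0:ℝ) < q := by exact_mod_cast hq1
      calc (q:ℝ) ^ 3 * Uq g I N q ^ 2 ≤ q ^ 3 * (6 * X * LL X * ((LL X ^ 2 * (X / q)) ^ 2 * Gq g I N X q)) := by
            have := Uq_sq_le (q := q) hb hN
            gcongr
        _ = _ := by field_simp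
    have h3 : 0 ≤ ∑ q ∈ Finset.Ioc 0 Q₁, (q:ℝ) ^ 3 * Uq g I N q ^ 2 := Finset.sum_nonneg fun _ _ => by positivity
    exact mul_le_mul hharm h2 h3 hL0.le
  -- the sum over the moduli
  have hG : ∑ q ∈ Finset.Ioc 0 Q₁, q * Gq g I N X q ≤
      LL X ^ 2 * (r0 * X * Q₁) + b * LL X * X * √X * (√(H1 I N X) * LL X ^ 8) := by
    have h1 : ∀ q ∈ Finset.Ioc 0 Q₁, q * Gq g I N X q ≤ LL X ^ 2 * (r0 * X) +
        b * LL X * X * √X * (√(S q) * (4 ^ q.primeFactors.card / √q)) := by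
      intro q hq
      obtain ⟨hq1, hq2, hq3⟩ := hqX q hq
      have hq0 : (0:ℝ) < q := by exact_mod_cast hq1
      have h2 := Gq_le (I := I) (N := N) hb (hB q hq)
      calc q * Gq g I N X q ≤ q * (r0 * (LL X ^ 2 * (X / q)) +
            √(S q) * (b * 4 ^ q.primeFactors.card * (X / q) * (LL X * √(X / q)))) := by gcongr
        _ = _ := by
            rw [Real.sqrt_div hX0.le]
            have : 0 < √(q:ℝ) := Real.sqrt_pos.mpr hq0
            field_simp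
    refine (Finset.sum_le_sum h1).trans ?_
    rw [Finset.sum_add_distrib, Finset.sum_const, Nat.card_Ioc, Nat.sub_zero, nsmul_eq_mul, ← Finset.mul_sum]
    refine add_le_add (le_of_eq (by ring)) (mul_le_mul_of_nonneg_left ?_ (by positivity))
    have h2 := Real.sum_mul_le_sqrt_mul_sqrt (Finset.Ioc 0 Q₁) (fun q => √(S q))
      (fun q : ℕ => (4 ^ q.primeFactors.card / √(q:ℝ) : ℝ))
    refine h2.trans ?_
    have h3 : ∑ q ∈ Finset.Ioc 0 Q₁, √(S q) ^ 2 ≤ H1 I N X := by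
      have e : ∑ q ∈ Finset.Ioc 0 Q₁, √(S q) ^ 2 = ∑ q ∈ Finset.Ioc 0 Q₁, S q :=
        Finset.sum_congr rfl fun q _ => Real.sq_sqrt (hS0 q)
      rw [e]
      exact sum_dvd_le Q₁
    have h4 : ∑ q ∈ Finset.Ioc 0 Q₁, (4 ^ q.primeFactors.card / √(q:ℝ) : ℝ) ^ 2 ≤ (LL X ^ 8) ^ 2 := by
      calc _ ≤ ∑ q ∈ Finset.Ioc 0 Q₁, tauR q ^ 4 / q := by
            refine Finset.sum_le_sum fun q hq => ?_
            obtain ⟨hq1, hq2, hq3⟩ := hqX q hq
            rw [div_pow, Real.sq_sqrt (Nat.cast_nonneg _)]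
            have h5 := four_pow_omega_le_tau (q := q) (by omega)
            have h6 : ((4:ℝ) ^ q.primeFactors.card) ^ 2 ≤ tauR q ^ 4 := by
              calc _ ≤ (tauR q ^ 2) ^ 2 := by gcongr
                _ = _ := by ring
            gcongr
        _ ≤ ∑ q ∈ Finset.Ioc 0 X, tauR q ^ 4 / q :=
            Finset.sum_le_sum_of_subset_of_nonneg (Finset.Ioc_subset_Ioc_right hQX) fun q _ _ =>
              div_nonneg (pow_nonneg (tauR_nonneg q) 4) (Nat.cast_nonneg _)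
        _ ≤ LL X ^ (2 ^ 4) := sum_tau_pow_div_le_LL 4 X
        _ = _ := by rw [← pow_mul]; norm_num
    have h5 : √(∑ q ∈ Finset.Ioc 0 Q₁, (4 ^ q.primeFactors.card / √(q:ℝ) : ℝ) ^ 2) ≤ LL X ^ 8 :=
      Real.sqrt_le_iff.mpr ⟨by positivity, h4⟩
    have h6 := Real.sqrt_le_sqrt h3
    gcongr
  -- assembly
  set H := √(H1 I N X) with hH
  have hH0 : 0 ≤ H := Real.sqrt_nonneg _
  have hsX : 0 ≤ √(X:ℝ) := Real.sqrt_nonneg _
  have hUq0 : 0 ≤ ∑ q ∈ Finset.Ioc 0 Q₁, q * Uq g I N q :=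
    Finset.sum_nonneg fun q _ => mul_nonneg (Nat.cast_nonneg _) (Finset.sum_nonneg fun _ _ => by positivity)
  set V : ℝ := r0 * X * Q₁ + H * X * √X / Real.log X ^ m with hV
  have hV1 : LL X ^ 2 * (r0 * X * Q₁) + b * LL X * X * √X * (H * LL X ^ 8) ≤
      (1 + C * 2 ^ m) * LL X ^ 10 * V := by
    have e1 : b * LL X * X * √X * (H * LL X ^ 8) =
        C * 2 ^ m * LL X ^ 10 * (H * X * √X / Real.log X ^ m) := by
      rw [hbdef]
      field_simp
    have h2 : LL X ^ 2 ≤ LL X ^ 10 := pow_le_pow_right₀ hL1 (by norm_num)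
    have h3 : 0 ≤ r0 * X * Q₁ := by positivity
    have h4 : 0 ≤ H * X * √X / Real.log X ^ m := by positivity
    have h5 : 0 ≤ C * 2 ^ m * LL X ^ 10 := by positivity
    rw [e1, hV]
    calc _ ≤ LL X ^ 10 * (r0 * X * Q₁) + C * 2 ^ m * LL X ^ 10 * (H * X * √X / Real.log X ^ m) := by gcongr
      _ ≤ LL X ^ 10 * (r0 * X * Q₁) + C * 2 ^ m * LL X ^ 10 * (H * X * √X / Real.log X ^ m) +
          (C * 2 ^ m * LL X ^ 10 * (r0 * X * Q₁) + LL X ^ 10 * (H * X * √X / Real.log X ^ m)) := by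
          have : 0 ≤ C * 2 ^ m * LL X ^ 10 * (r0 * X * Q₁) + LL X ^ 10 * (H * X * √X / Real.log X ^ m) := by
            positivity
          linarith
      _ = _ := by ring
  have hV0 : 0 ≤ V := by positivity
  calc (∑ i ∈ I, ∑ q ∈ Finset.Ioc 0 Q₁, |E g (N i) q|) ^ 4
      = ((∑ i ∈ I, ∑ q ∈ Finset.Ioc 0 Q₁, |E g (N i) q|) ^ 2) ^ 2 := by ring
    _ ≤ ((I.card * LL X) * ∑ q ∈ Finset.Ioc 0 Q₁, q * Uq g I N q) ^ 2 := by gcongr
    _ = (I.card * LL X) ^ 2 * (∑ q ∈ Finset.Ioc 0 Q₁, q * Uq g I N q) ^ 2 := by rw [mul_pow]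
    _ ≤ (I.card * LL X) ^ 2 * (LL X * (6 * (X:ℝ) ^ 3 * LL X ^ 5 * ∑ q ∈ Finset.Ioc 0 Q₁, q * Gq g I N X q)) := by
        gcongr
    _ ≤ (I.card * LL X) ^ 2 * (LL X * (6 * (X:ℝ) ^ 3 * LL X ^ 5 * ((1 + C * 2 ^ m) * LL X ^ 10 * V))) := by
        have := hG.trans hV1
        gcongr
    _ = 6 * (1 + C * 2 ^ m) * (I.card : ℝ) ^ 2 * (X:ℝ) ^ 3 * LL X ^ 18 * V := by ring
    _ ≤ 6 * (1 + C * 2 ^ m) * (I.card : ℝ) ^ 2 * (X:ℝ) ^ 3 * LL X ^ 30 * V := by
        have : LL X ^ 18 ≤ LL X ^ 30 := pow_le_pow_right₀ hL1 (by norm_num)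
        gcongr

end Pool.Agent.SEH
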