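import Pool.Agent.SEH.Model2

/-!
The model of `Λ`: conclusion.
-/

open Complex Pool.Agent.ANT Pool.Agent.DEH Filter
open scoped ArithmeticFunction.Moebius ArithmeticFunction.vonMangoldt

namespace Pool.Agent.SEH

/-- the sum over a progression against a Ramanujan sum -/
lemma prog_cr {g : ℕ → ℝ} {N q : ℕ} {B : ℝ} (hN : 1 ≤ N)
    (hB : ∀ α : ℝ, ‖∑ n ∈ Finset.Ioc 0 (N - 1), (if q ∣ n then (g n : ℂ) else 0) * ee (n * α)‖ ≤ B) (r : ℕ) :
    |∑ n ∈ (Finset.Ico 1 N).filter (fun n => n ≡ N [MOD q]), cr r n * g (N - n)| ≤ r * B := by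
  have hB0 : 0 ≤ B := (norm_nonneg _).trans (hB 0)
  have h1 : ∑ n ∈ (Finset.Ico 1 N).filter (fun n => n ≡ N [MOD q]), cr r n * g (N - n) =
      (∑ n ∈ (Finset.Ico 1 N).filter (fun n => n ≡ N [MOD q]), crC r n * (g (N - n) : ℂ)).re := by
    rw [Complex.re_sum]
    refine Finset.sum_congr rfl fun n _ => ?_
    rw [Complex.re_mul_ofReal]
    rfl
  have h2 : ∑ n ∈ (Finset.Ico 1 N).filter (fun n => n ≡ N [MOD q]), crC r n * (g (N - n) : ℂ) =
      ∑ b ∈ rd r, ee (N * ((b:ℝ) / r)) *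
        ∑ n ∈ Finset.Ioc 0 (N - 1), (if q ∣ n then (g n : ℂ) else 0) * ee (n * (-((b:ℝ) / r))) := by
    have e1 : ∀ n ∈ (Finset.Ico 1 N).filter (fun n => n ≡ N [MOD q]), crC r n * (g (N - n) : ℂ) =
        ∑ b ∈ rd r, ee (n * ((b:ℝ) / r)) * (g (N - n) : ℂ) := by
      intro n _
      unfold crC
      rw [Finset.sum_mul]
      refine Finset.sum_congr rfl fun b _ => ?_
      push_cast
      rfl
    rw [Finset.sum_congr rfl e1, Finset.sum_comm]
    refine Finset.sum_congr rfl fun b _ => ?_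
    rw [Finset.mul_sum, Finset.sum_filter]
    refine Finset.sum_bij' (fun n _ => N - n) (fun k _ => N - k) ?_ ?_ ?_ ?_ ?_
    · intro n hn; have := Finset.mem_Ico.mp hn; exact Finset.mem_Ioc.mpr ⟨by omega, by omega⟩
    · intro n hn; have := Finset.mem_Ioc.mp hn; exact Finset.mem_Ico.mpr ⟨by omega, by omega⟩
    · intro n hn; have := Finset.mem_Ico.mp hn; omega
    · intro n hn; have := Finset.mem_Ioc.mp hn; omega
    · intro n hn
      have hn' := Finset.mem_Ico.mp hn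
      have hmod : n ≡ N [MOD q] ↔ q ∣ N - n := Nat.modEq_iff_dvd' hn'.2.le
      by_cases h : q ∣ N - n
      · rw [if_pos (hmod.mpr h), if_pos h, mul_left_comm, ← ee_add, mul_comm]
        congr 2
        rw [Nat.cast_sub hn'.2.le]
        ring
      · rw [if_neg (fun h' => h (hmod.mp h')), if_neg h]
        simp
  rw [h1]
  refine (Complex.abs_re_le_norm _).trans ?_
  rw [h2]
  calc _ ≤ ∑ b ∈ rd r, B := by
        refine (norm_sum_le _ _).trans (Finset.sum_le_sum fun b _ => ?_)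
        rw [norm_mul, norm_ee, one_mul]
        exact hB _
    _ = (rd r).card * B := by rw [Finset.sum_const, nsmul_eq_mul]
    _ ≤ r * B := by
        have : ((rd r).card : ℝ) ≤ r := by
          have : (rd r).card ≤ r := by
            unfold rd
            exact (Finset.card_filter_le _ _).trans (by simp)
          exact_mod_cast this
        gcongr

/-- **the model** -/
theorem model (A₀ : ℕ) : ∃ X₀ : ℕ, ∀ X : ℕ, X₀ ≤ X → ∃ f : ℤ → ℝ, Supp f X ∧
    (∀ n : ℕ, |f n| ≤ LL X ^ 4 * tauR n) ∧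
    (∀ α : ℝ, ‖∑ n ∈ Finset.Ioc 0 X, (f n : ℂ) * ee (n * α)‖ * LL X ^ A₀ ≤ X) ∧
    ∀ (g : ℕ → ℝ) (N q : ℕ) (B : ℝ), 1 ≤ N → N ≤ X →
      (∀ α : ℝ, ‖∑ n ∈ Finset.Ioc 0 (N - 1), (if q ∣ n then (g n : ℂ) else 0) * ee (n * α)‖ ≤ B) →
      |E g N q - ∑ n ∈ (Finset.Ico 1 N).filter (fun n => n ≡ N [MOD q]), f n * g (N - n)| ≤
        LL X ^ (A₀ + 10) * B := by
  obtain ⟨C, hC, hexp⟩ := LamD_exp (A₀ + 4)
  have hlog : Tendsto (fun n : ℕ => Real.log (n:ℝ)) atTop atTop :=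
    Real.tendsto_log_atTop.comp tendsto_natCast_atTop_atTop
  have h1 := eventually_log_pow_le (A₀ + 5) (show (0:ℝ) < 1 / 16 by norm_num)
  have h2 : Tendsto (fun n : ℕ => (n:ℝ) ^ (1 / 16 : ℝ)) atTop atTop :=
    (tendsto_rpow_atTop (by positivity)).comp tendsto_natCast_atTop_atTop
  obtain ⟨X₁, hX₁⟩ := eventually_atTop.mp (((h1.and (h2.eventually_ge_atTop ((2:ℝ) ^ (A₀ + 9)))).and
    (hlog.eventually_ge_atTop (max 40 (3 * C * 16 ^ (A₀ + 4))))).and (eventually_ge_atTop 3))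
  refine ⟨X₁, fun X hX => ?_⟩
  obtain ⟨⟨⟨ha, hb⟩, hc⟩, hX3⟩ := hX₁ X hX
  have hXR : (3:ℝ) ≤ X := by exact_mod_cast hX3
  have hX0 : (0:ℝ) < X := by linarith
  have hX1 : (1:ℝ) ≤ X := by linarith
  have hl40 : 40 ≤ Real.log X := (le_max_left _ _).trans hc
  have hlC : 3 * C * 16 ^ (A₀ + 4) ≤ Real.log X := (le_max_right _ _).trans hc
  have hL1 := LL_one_le X
  have hL0 := LL_pos X
  have hLl : LL X ≤ 2 * Real.log X := by unfold LL; linarith
  have hL41 : 41 ≤ LL X := by unfold LL; linarith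
  set L := LL X with hLdef
  set Y : ℝ := (X:ℝ) ^ (1 / 8 : ℝ) with hY
  set Z : ℝ := (X:ℝ) ^ (1 / 16 : ℝ) with hZ
  have hZZ : Z * Z = Y := by rw [hZ, hY, ← Real.rpow_add hX0]; norm_num
  have hZ0 : 0 < Z := Real.rpow_pos_of_pos hX0 _
  have hY8 : Y ^ 8 = X := by
    rw [hY, ← Real.rpow_natCast, ← Real.rpow_mul hX0.le]; norm_num
  have hLZ : 4 * L ^ (A₀ + 5) ≤ Y := by
    calc 4 * L ^ (A₀ + 5) ≤ 4 * (2 * Real.log X) ^ (A₀ + 5) := by gcongr
      _ = (2 ^ 2 * 2 ^ (A₀ + 5)) * Real.log X ^ (A₀ + 5) := by rw [mul_pow]; ring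
      _ ≤ Z * Z := by
          refine mul_le_mul ?_ ha (by positivity) hZ0.le
          refine le_trans ?_ hb
          rw [← pow_add]
          exact pow_le_pow_right₀ (by norm_num) (by omega)
      _ = Y := hZZ
  have hLA1 : 1 ≤ L ^ (A₀ + 5) := one_le_pow₀ hL1
  have hY4 : 4 ≤ Y := by linarith
  set D := ⌊Y⌋₊ with hD
  have hY0 : 0 < Y := by linarith
  have hDY : (D:ℝ) ≤ Y := Nat.floor_le hY0.le
  have hDY2 : Y / 2 ≤ D := by
    have := Nat.lt_floor_add_one Y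
    rw [← hD] at this
    linarith
  set P := ⌈L ^ (A₀ + 4)⌉₊ with hP
  have hPL : L ^ (A₀ + 4) ≤ P := Nat.le_ceil _
  have hPL2 : (P:ℝ) ≤ L ^ (A₀ + 5) := by
    have h5 := (Nat.ceil_lt_add_one (show 0 ≤ L ^ (A₀ + 4) by positivity)).le
    have h6 : 1 ≤ L ^ (A₀ + 4) := one_le_pow₀ hL1
    calc (P:ℝ) ≤ L ^ (A₀ + 4) + 1 := h5
      _ ≤ L ^ (A₀ + 4) * 2 := by linarith
      _ ≤ L ^ (A₀ + 4) * L := by gcongr; linarith
      _ = _ := by rw [← pow_succ]
  have hP1 : 1 ≤ P := by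
    have : (1:ℝ) ≤ P := (one_le_pow₀ hL1).trans hPL
    exact_mod_cast this
  have hPD : P ≤ D := by
    have : (P:ℝ) ≤ D := by linarith
    exact_mod_cast this
  have hYX : Y ≤ X := by
    rw [hY]
    calc (X:ℝ) ^ (1 / 8 : ℝ) ≤ (X:ℝ) ^ (1:ℝ) := Real.rpow_le_rpow_of_exponent_le hX1 (by norm_num)
      _ = X := Real.rpow_one _
  have hDX : D ≤ X := by
    have : (D:ℝ) ≤ X := hDY.trans hYX
    exact_mod_cast this
  have hPX : P ≤ X := hPD.trans hDX
  have hD2 : 2 ≤ D := by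
    have : (2:ℝ) ≤ D := by linarith
    exact_mod_cast this
  set f : ℤ → ℝ := fun n => if 1 ≤ n ∧ n ≤ X then Λ n.toNat - LamS D P n else 0 with hf
  have hfn : ∀ n : ℕ, 1 ≤ n → n ≤ X → f n = Λ n - LamS D P n := by
    intro n h3 h4
    simp only [hf]
    rw [if_pos ⟨by exact_mod_cast h3, by exact_mod_cast h4⟩, Int.toNat_natCast]
  refine ⟨f, ?_, ?_, ?_, ?_⟩
  · intro n hn
    by_contra hcon
    apply hn
    simp only [hf]
    rw [if_neg hcon]
  · intro n
    by_cases h : 1 ≤ n ∧ n ≤ X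
    · rw [hfn n h.1 h.2]
      have hn0 : (0:ℝ) < n := by exact_mod_cast h.1
      have h3 := LamS_abs_le (D := D) (P := P) hDX hPX h.1
      have h4 : |Λ n| ≤ L * tauR n := by
        rw [abs_of_nonneg ArithmeticFunction.vonMangoldt_nonneg]
        have h5 : Λ n ≤ Real.log n := ArithmeticFunction.vonMangoldt_le_log
        have h6 : Real.log n ≤ Real.log X := Real.log_le_log hn0 (by exact_mod_cast h.2)
        have h7 : Λ n ≤ L := by rw [hLdef, LL]; linarith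
        have h8 : 1 ≤ tauR n := one_le_tauR (by omega)
        nlinarith
      have hτ := tauR_nonneg n
      have h9 : L + L ^ 3 ≤ L ^ 4 := by
        have h10 : L ≤ L ^ 3 := le_self_pow₀ hL1 (by norm_num)
        have h11 : 2 * L ^ 3 ≤ L * L ^ 3 := by gcongr; linarith
        nlinarith
      calc |Λ n - LamS D P n| ≤ |Λ n| + |LamS D P n| := abs_sub _ _
        _ ≤ L * tauR n + L ^ 3 * tauR n := add_le_add h4 h3
        _ = (L + L ^ 3) * tauR n := by ring
        _ ≤ _ := by gcongr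
    · have : f n = 0 := by
        simp only [hf]
        rw [if_neg (fun h' => h ⟨by exact_mod_cast h'.1, by exact_mod_cast h'.2⟩)]
      rw [this, abs_zero]
      have := tauR_nonneg n
      positivity
  · intro α
    have e1 : ∑ n ∈ Finset.Ioc 0 X, (f n : ℂ) * ee (n * α) =
        ∑ n ∈ Finset.Ioc 0 X, ((Λ n - LamD D n : ℝ) : ℂ) * ee (n * α) +
        ∑ n ∈ Finset.Ioc 0 X, ((LamD D n - LamS D P n : ℝ) : ℂ) * ee (n * α) := by
      rw [← Finset.sum_add_distrib]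
      refine Finset.sum_congr rfl fun n hn => ?_
      have := Finset.mem_Ioc.mp hn
      rw [hfn n this.1 this.2]
      push_cast; ring
    have h3 := hexp X D hD2 α
    have h4 := LamS_exp hP1 hPD hDX (by omega) α
    have hlD : L / 16 ≤ Real.log D := by
      have h5 : Real.log (Y / 2) ≤ Real.log D := Real.log_le_log (by positivity) hDY2
      rw [Real.log_div hY0.ne' (by norm_num), hY, Real.log_rpow hX0] at h5
      have h6 := Real.log_two_lt_d9
      rw [hLdef, LL]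
      linarith
    have t1 : C * L ^ 2 * X / Real.log D ^ (A₀ + 4) * L ^ A₀ ≤ X / 3 := by
      have h5 : (L / 16) ^ (A₀ + 4) ≤ Real.log D ^ (A₀ + 4) := by gcongr
      have h6 : 0 < (L / 16) ^ (A₀ + 4) := by positivity
      calc C * L ^ 2 * X / Real.log D ^ (A₀ + 4) * L ^ A₀
          ≤ C * L ^ 2 * X / (L / 16) ^ (A₀ + 4) * L ^ A₀ := by gcongr
        _ = C * 16 ^ (A₀ + 4) * X / L ^ 2 := by
            rw [div_pow, pow_add L A₀ 4]
            field_simp
        _ ≤ X / 3 := by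
            rw [div_le_div_iff₀ (by positivity) (by norm_num)]
            have h7 : 3 * C * 16 ^ (A₀ + 4) ≤ L ^ 2 := by
              calc 3 * C * 16 ^ (A₀ + 4) ≤ Real.log X := hlC
                _ ≤ L := by rw [hLdef, LL]; linarith
                _ ≤ L ^ 2 := le_self_pow₀ hL1 (by norm_num)
            calc C * 16 ^ (A₀ + 4) * X * 3 = (3 * C * 16 ^ (A₀ + 4)) * X := by ring
              _ ≤ L ^ 2 * X := by gcongr
              _ = _ := by ring
    have t2 : L ^ 2 * X / P * L ^ A₀ ≤ X / 3 := by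
      have hPpos : (0:ℝ) < P := by exact_mod_cast hP1
      calc L ^ 2 * X / P * L ^ A₀ ≤ L ^ 2 * X / L ^ (A₀ + 4) * L ^ A₀ := by gcongr
        _ = X / L ^ 2 := by rw [pow_add L A₀ 4]; field_simp
        _ ≤ X / 3 := by
            have : (3:ℝ) ≤ L ^ 2 := by nlinarith
            gcongr
    have t3 : 2 * (D:ℝ) ^ 3 * L ^ 2 * L ^ A₀ ≤ X / 3 := by
      have h5 : L ^ 2 * L ^ A₀ ≤ L ^ (A₀ + 5) := by
        rw [← pow_add]; exact pow_le_pow_right₀ hL1 (by omega)
      have h6 : (4:ℝ) ^ 4 ≤ Y ^ 4 := by gcongr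
      calc 2 * (D:ℝ) ^ 3 * L ^ 2 * L ^ A₀ = 2 * (D:ℝ) ^ 3 * (L ^ 2 * L ^ A₀) := by ring
        _ ≤ 2 * Y ^ 3 * L ^ (A₀ + 5) := by gcongr
        _ ≤ 2 * Y ^ 3 * (Y / 4) := by gcongr; linarith
        _ = Y ^ 4 / 2 := by ring
        _ ≤ Y ^ 4 * Y ^ 4 / 3 := by
            have : 0 < Y ^ 4 := by positivity
            nlinarith
        _ = X / 3 := by rw [← pow_add, hY8]
    rw [e1]
    have h8 := norm_add_le (∑ n ∈ Finset.Ioc 0 X, ((Λ n - LamD D n : ℝ) : ℂ) * ee (n * α))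
      (∑ n ∈ Finset.Ioc 0 X, ((LamD D n - LamS D P n : ℝ) : ℂ) * ee (n * α))
    have hLA : 0 ≤ L ^ A₀ := by positivity
    calc _ ≤ (C * L ^ 2 * X / Real.log D ^ (A₀ + 4) + (L ^ 2 * X / P + 2 * (D:ℝ) ^ 3 * L ^ 2)) * L ^ A₀ :=
          mul_le_mul_of_nonneg_right (h8.trans (add_le_add h3 h4)) hLA
      _ = C * L ^ 2 * X / Real.log D ^ (A₀ + 4) * L ^ A₀ + L ^ 2 * X / P * L ^ A₀ + 2 * (D:ℝ) ^ 3 * L ^ 2 * L ^ A₀ := by ring
      _ ≤ X / 3 + X / 3 + X / 3 := add_le_add (add_le_add t1 t2) t3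
      _ = X := by ring
  · intro g N q B hN1 hNX hB
    have hB0 : 0 ≤ B := (norm_nonneg _).trans (hB 0)
    have e1 : E g N q - ∑ n ∈ (Finset.Ico 1 N).filter (fun n => n ≡ N [MOD q]), f n * g (N - n) =
        ∑ r ∈ Finset.Ioc 0 P, bet D r * ∑ n ∈ (Finset.Ico 1 N).filter (fun n => n ≡ N [MOD q]), cr r n * g (N - n) := by
      unfold E
      rw [← Finset.sum_sub_distrib]
      have e2 : ∀ n ∈ (Finset.Ico 1 N).filter (fun n => n ≡ N [MOD q]), Λ n * g (N - n) - f n * g (N - n) =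
          ∑ r ∈ Finset.Ioc 0 P, bet D r * (cr r n * g (N - n)) := by
        intro n hn
        have h3 := Finset.mem_Ico.mp (Finset.mem_filter.mp hn).1
        rw [hfn n h3.1 (by omega)]
        unfold LamS
        rw [← sub_mul, sub_sub_cancel, Finset.sum_mul]
        exact Finset.sum_congr rfl fun r _ => by ring
      rw [Finset.sum_congr rfl e2, Finset.sum_comm]
      exact Finset.sum_congr rfl fun r _ => by rw [Finset.mul_sum]
    rw [e1]
    calc _ ≤ ∑ r ∈ Finset.Ioc 0 P, L ^ 2 * B := by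
          refine (Finset.abs_sum_le_sum_abs _ _).trans (Finset.sum_le_sum fun r hr => ?_)
          have hr1 := (Finset.mem_Ioc.mp hr).1
          have hr0 : (0:ℝ) < r := by exact_mod_cast hr1
          rw [abs_mul]
          calc _ ≤ (L ^ 2 / r) * (r * B) :=
                mul_le_mul (bet_abs_le hr1 hDX) (prog_cr hN1 hB r) (abs_nonneg _) (by positivity)
            _ = _ := by field_simp
      _ = P * (L ^ 2 * B) := by rw [Finset.sum_const, Nat.card_Ioc, nsmul_eq_mul, Nat.sub_zero]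
      _ ≤ L ^ (A₀ + 5) * (L ^ 2 * B) := by gcongr
      _ = L ^ (A₀ + 7) * B := by rw [pow_add L A₀ 7, pow_add L A₀ 5]; ring
      _ ≤ L ^ (A₀ + 10) * B := by
          have : L ^ (A₀ + 7) ≤ L ^ (A₀ + 10) := pow_le_pow_right₀ hL1 (by omega)
          gcongr

end Pool.Agent.SEH
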