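import Pool.Agent.SEH.PartT3
import Pool.Agent.SEH.Model

/-!
Part T: the moduli `q > √X`.
-/

open Complex Pool.Agent.ANT Pool.Agent.DEH Filter

namespace Pool.Agent.SEH

lemma tendsto_LL : Tendsto LL atTop atTop := by
  unfold LL
  exact tendsto_atTop_add_const_left _ _ (Real.tendsto_log_atTop.comp tendsto_natCast_atTop_atTop)

/-- the sums `TC` -/
theorem TC_final (A C : ℕ) {ε : ℝ} (hε : 0 < ε) (hε1 : ε ≤ 1) : ∃ A₀ B X₀ : ℕ, ∀ X : ℕ, X₀ ≤ X →
    ∀ (ι : Type) (I : Finset ι) (N : ι → ℕ),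
    (∀ i ∈ I, 1 ≤ N i ∧ N i ≤ X) →
    rr I N 0 * √X * LL X ^ B ≤ (I.card : ℝ) ^ 2 →
    H2 I N X * X ≤ (I.card : ℝ) ^ 4 * LL X ^ C →
    H3 I N X * X * LL X ^ B ≤ (I.card : ℝ) ^ 4 →
    ∀ f : ℤ → ℝ, Supp f X → (∀ n : ℕ, |f n| ≤ LL X ^ 4 * tauR n) →
    (∀ α : ℝ, ‖∑ n ∈ Finset.Ioc 0 X, (f n : ℂ) * ee (n * α)‖ * LL X ^ A₀ ≤ X) →
    ∀ c : ℕ → ℝ, (∀ m, |c m| ≤ 1) →
    (∑ i ∈ I, ∑ q ∈ ST X ε, |TC f c X (N i) q|) * LL X ^ A ≤ I.card * X := by
  set B5 := 2 * (A + 43) with hB5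
  set A' := A + B5 + 3 with hA'
  obtain ⟨A₀, B, X₁, hkey⟩ := keyW (2 * A') C
  obtain ⟨X₂, hX₂⟩ := eventually_atTop.mp ((exp_big (B5 + B + 2) hε).and (tendsto_LL.eventually_ge_atTop 3))
  refine ⟨A₀, B, max X₁ (max X₂ 1), fun X hX ι I N hN h1 h2 h3 f hs hf hS c hc => ?_⟩
  have hXX1 : X₁ ≤ X := (le_max_left _ _).trans hX
  have hXX2 : X₂ ≤ X := (le_max_left _ _).trans ((le_max_right _ _).trans hX)
  have hXX3 : 1 ≤ X := (le_max_right _ _).trans ((le_max_right _ _).trans hX)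
  obtain ⟨ha, hL3⟩ := hX₂ X hXX2
  have hX0 : (0:ℝ) < X := by exact_mod_cast hXX3
  have hL1 := LL_one_le X
  have hL0 := LL_pos X
  set L := LL X with hLdef
  set E₀ := ⌈L ^ B5⌉₊ with hE₀
  have hE1 : L ^ B5 ≤ E₀ := Nat.le_ceil _
  have hE2 : (E₀:ℝ) ≤ 2 * L ^ B5 := by
    have h4 := (Nat.ceil_lt_add_one (show 0 ≤ L ^ B5 by positivity)).le
    have h5 : 1 ≤ L ^ B5 := one_le_pow₀ hL1
    rw [← hE₀] at h4
    linarith
  have hE3 : 1 ≤ E₀ := by
    have : (1:ℝ) ≤ E₀ := (one_le_pow₀ hL1).trans hE1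
    exact_mod_cast this
  have hE4 : (E₀:ℝ) * (L ^ B + 1) ≤ Real.exp (Real.log X ^ ε / 2) := by
    have h5 : 1 ≤ L ^ B := one_le_pow₀ hL1
    calc (E₀:ℝ) * (L ^ B + 1) ≤ (2 * L ^ B5) * (L ^ B + L ^ B) := by gcongr
      _ = 4 * L ^ (B5 + B) := by rw [pow_add]; ring
      _ ≤ L ^ 2 * L ^ (B5 + B) := by
          have : (4:ℝ) ≤ L ^ 2 := by nlinarith
          gcongr
      _ = L ^ (B5 + B + 2) := by rw [← pow_add]; congr 1; omega
      _ ≤ _ := ha
  have hE5 : E₀ ≤ X := by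
    have h5 : 0 ≤ L ^ B := by positivity
    have hlog1 : 1 ≤ Real.log X := by
      have : L = 1 + Real.log X := rfl
      linarith
    have h6 : Real.exp (Real.log X ^ ε / 2) ≤ X := by
      calc _ ≤ Real.exp (Real.log X) := by
            refine Real.exp_le_exp.mpr ?_
            have h7 : Real.log X ^ ε ≤ Real.log X ^ (1:ℝ) := Real.rpow_le_rpow_of_exponent_le hlog1 hε1
            rw [Real.rpow_one] at h7
            linarith
        _ = X := Real.exp_log hX0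
    have h7 : (E₀:ℝ) ≤ X := by
      calc (E₀:ℝ) = E₀ * 1 := (mul_one _).symm
        _ ≤ E₀ * (L ^ B + 1) := by gcongr; linarith
        _ ≤ X := hE4.trans h6
    exact_mod_cast h7
  have hW : ∀ M : ℕ, L ^ B ≤ M → M ^ 2 ≤ X → ∀ e : ℕ,
      WW I N X f (fun m => c (e * m)) M * L ^ (2 * A') ≤ I.card * X * M := by
    intro M hM1 hM2 e
    exact hkey X hXX1 ι I N hN h1 h2 h3 f hs hf hS (fun m => c (e * m)) (fun m => hc _) M hM1 hM2
  have h4 := TC_sum hXX3 hs hf hN hc hW hE3 hE5 hE4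
  rw [← hLdef] at h4
  set S := ∑ i ∈ I, ∑ q ∈ ST X ε, |TC f c X (N i) q| with hSdef
  have h5 : L ^ (A + 43) ≤ √E₀ := by
    refine Real.le_sqrt_of_sq_le ?_
    rw [← pow_mul, mul_comm (A + 43) 2]
    exact hE1
  have h6 : S ≤ 5 * (I.card * X / L ^ (A + 2)) := by
    refine h4.trans ?_
    have e1 : (E₀:ℝ) * (2 * L) * (I.card * X / L ^ A') ≤ 4 * (I.card * X / L ^ (A + 2)) := by
      calc _ ≤ (2 * L ^ B5) * (2 * L) * (I.card * X / L ^ A') := by gcongr
        _ = 4 * (I.card * X / L ^ (A + 2)) := by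
            have : L ^ A' = L ^ B5 * L * L ^ (A + 2) := by
              rw [← pow_succ, ← pow_add]; congr 1; omega
            rw [this]
            field_simp
            ring
    have e2 : (I.card : ℝ) * (X * L ^ 41 / √E₀) ≤ I.card * X / L ^ (A + 2) := by
      calc _ ≤ (I.card : ℝ) * (X * L ^ 41 / L ^ (A + 43)) := by gcongr
        _ = _ := by
            have : L ^ (A + 43) = L ^ 41 * L ^ (A + 2) := by rw [← pow_add]; congr 1; omega
            rw [this]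
            field_simp
    linarith
  calc S * L ^ A ≤ (5 * (I.card * X / L ^ (A + 2))) * L ^ A := by gcongr
    _ = (I.card * X) * (5 / L ^ 2) := by rw [pow_add]; field_simp
    _ ≤ (I.card * X) * 1 := by
        gcongr
        rw [div_le_one (by positivity)]
        nlinarith
    _ = _ := mul_one _

/-- the model part -/
lemma sharp_le {g : ℕ → ℝ} (hg : Good g) (D : ℕ) {ε : ℝ} (hε : 0 < ε) : ∃ X₀ : ℕ, ∀ X : ℕ, X₀ ≤ X →
    ∃ Bq : ℕ → ℝ, (∀ q ∈ ST X ε, ∀ N : ℕ, N ≤ X → ∀ α : ℝ,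
      ‖∑ n ∈ Finset.Ioc 0 (N - 1), (if q ∣ n then (g n : ℂ) else 0) * ee (n * α)‖ ≤ Bq q) ∧
      (∑ q ∈ ST X ε, Bq q) * LL X ^ D ≤ X := by
  set m := ⌈((D:ℝ) + 6) / ε⌉₊ with hm
  obtain ⟨C, hC, hgood⟩ := hg m
  have hlog : Tendsto (fun n : ℕ => Real.log (n:ℝ)) atTop atTop :=
    Real.tendsto_log_atTop.comp tendsto_natCast_atTop_atTop
  obtain ⟨X₀, hX₀⟩ := eventually_atTop.mp ((hlog.eventually_ge_atTop (max 1 (C * 2 ^ (D + 5 + m)))).and
    (eventually_ge_atTop 1))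
  refine ⟨X₀, fun X hX => ⟨fun q => C * LL X * 4 ^ q.primeFactors.card * phim m ((X / q : ℕ) : ℝ), ?_, ?_⟩⟩
  · intro q hq N hN α
    have hX1 := (hX₀ X hX).2
    obtain ⟨⟨hq1, hq2⟩, _, _⟩ := mem_ST hq
    refine (hgood q (N - 1) hq1 α).trans ?_
    have h1 : Real.log ((N - 1 : ℕ) : ℝ) ≤ Real.log X := by
      rcases Nat.eq_zero_or_pos (N - 1) with h | h
      · rw [h, Nat.cast_zero, Real.log_zero]; exact Real.log_natCast_nonneg X
      · exact Real.log_le_log (by exact_mod_cast h) (by exact_mod_cast (by omega : N - 1 ≤ X))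
    have h2 : phim m (((N - 1) / q : ℕ) : ℝ) ≤ phim m ((X / q : ℕ) : ℝ) :=
      phim_nat_mono m (Nat.div_le_div_right (by omega))
    have h3 := phim_nat_nonneg m ((N - 1) / q)
    have h4 : 1 + Real.log ((N - 1 : ℕ) : ℝ) ≤ LL X := by unfold LL; linarith
    have h5 : 0 ≤ 1 + Real.log ((N - 1 : ℕ) : ℝ) := by
      have := Real.log_natCast_nonneg (N - 1)
      linarith
    have h6 := LL_pos X
    beta_reduce
    gcongr
  · obtain ⟨hl, hX1⟩ := hX₀ X hX
    have hl1 : 1 ≤ Real.log X := (le_max_left _ _).trans hl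
    have hl2 : C * 2 ^ (D + 5 + m) ≤ Real.log X := (le_max_right _ _).trans hl
    have hX0 : (0:ℝ) < X := by exact_mod_cast hX1
    have hL0 := LL_pos X
    have hl0 : 0 < Real.log X := by linarith
    set L₀ := Real.log X ^ ε / 2 with hL₀
    have hL₀0 : 0 < L₀ := by positivity
    have hsub : ST X ε ⊆ Finset.Ioc 0 X := fun q hq => Finset.mem_Ioc.mpr (mem_ST hq).1
    have h1 : ∑ q ∈ ST X ε, C * LL X * 4 ^ q.primeFactors.card * phim m ((X / q : ℕ) : ℝ) ≤
        C * LL X * (X / L₀ ^ m) * LL X ^ 4 := by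
      calc _ ≤ ∑ q ∈ ST X ε, C * LL X * (X / L₀ ^ m) * (tauR q ^ 2 / q) := by
            refine Finset.sum_le_sum fun q hq => ?_
            obtain ⟨⟨hq1, hq2⟩, hq3, _⟩ := mem_ST hq
            have hq0 : (0:ℝ) < q := by exact_mod_cast hq1
            have hdiv : 1 ≤ X / q := (Nat.le_div_iff_mul_le hq1).mpr (by omega)
            have h2 : phim m ((X / q : ℕ) : ℝ) ≤ (X / q) / L₀ ^ m := by
              refine (phim_mono m (by exact_mod_cast hdiv) Nat.cast_div_le).trans ?_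
              unfold phim
              gcongr
              have : (0:ℝ) ≤ m := Nat.cast_nonneg m
              linarith
            have h3 := phim_nat_nonneg m (X / q)
            have h4 := four_pow_omega_le_tau (q := q) (by omega)
            calc _ ≤ C * LL X * tauR q ^ 2 * ((X / q) / L₀ ^ m) := by gcongr
              _ = _ := by ring
        _ = C * LL X * (X / L₀ ^ m) * ∑ q ∈ ST X ε, tauR q ^ 2 / q := by rw [Finset.mul_sum]
        _ ≤ _ := by
            have h5 : ∑ q ∈ ST X ε, tauR q ^ 2 / q ≤ LL X ^ 4 := by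
              calc _ ≤ ∑ q ∈ Finset.Ioc 0 X, tauR q ^ 2 / q :=
                    Finset.sum_le_sum_of_subset_of_nonneg hsub fun _ _ _ => by positivity
                _ ≤ LL X ^ (2 ^ 2) := sum_tau_pow_div_le_LL 2 X
                _ = _ := by norm_num
            gcongr
    have h2 : C * LL X ^ (D + 5) ≤ L₀ ^ m := by
      have e1 : LL X ≤ 2 * Real.log X := by unfold LL; linarith
      have e2 : L₀ ^ m = Real.log X ^ (ε * m) / 2 ^ m := by
        rw [hL₀, div_pow, ← Real.rpow_natCast (Real.log X ^ ε) m, ← Real.rpow_mul hl0.le]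
      have e3 : Real.log X ^ (D + 6) ≤ Real.log X ^ (ε * m) := by
        rw [← Real.rpow_natCast]
        refine Real.rpow_le_rpow_of_exponent_le hl1 ?_
        have e4 : ((D:ℝ) + 6) / ε ≤ m := Nat.le_ceil _
        rw [div_le_iff₀ hε] at e4
        push_cast
        linarith
      rw [e2, le_div_iff₀ (by positivity)]
      calc C * LL X ^ (D + 5) * 2 ^ m ≤ C * (2 * Real.log X) ^ (D + 5) * 2 ^ m := by gcongr
        _ = (C * 2 ^ (D + 5 + m)) * Real.log X ^ (D + 5) := by rw [mul_pow, pow_add 2 (D + 5) m]; ring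
        _ ≤ Real.log X * Real.log X ^ (D + 5) := by gcongr
        _ = Real.log X ^ (D + 6) := by rw [← pow_succ']
        _ ≤ _ := e3
    calc _ ≤ (C * LL X * (X / L₀ ^ m) * LL X ^ 4) * LL X ^ D := by gcongr
      _ = (C * LL X ^ (D + 5)) * (X / L₀ ^ m) := by rw [pow_add]; ring
      _ ≤ L₀ ^ m * (X / L₀ ^ m) := by gcongr
      _ = X := by field_simp

section

variable {f : ℤ → ℝ} {X : ℕ}

lemma Ef_eq (hs : Supp f X) (g : ℕ → ℝ) {N q : ℕ} (hN : N ≤ X) (hq : 0 < q) :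
    ∑ n ∈ (Finset.Ico 1 N).filter (fun n => n ≡ N [MOD q]), f n * g (N - n) =
      ∑ m ∈ Finset.Ioc 0 X, g (q * m) * f ((N:ℤ) - (q * m : ℕ)) := by
  have h1 : ∑ n ∈ (Finset.Ico 1 N).filter (fun n => n ≡ N [MOD q]), f n * g (N - n) =
      ∑ k ∈ (Finset.Ico 1 N).filter (fun k => q ∣ k), g k * f ((N:ℤ) - k) := by
    refine Finset.sum_bij' (fun n _ => N - n) (fun k _ => N - k) ?_ ?_ ?_ ?_ ?_
    · intro n hn
      obtain ⟨h2, h3⟩ := Finset.mem_filter.mp hn
      have h4 := Finset.mem_Ico.mp h2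
      exact Finset.mem_filter.mpr ⟨Finset.mem_Ico.mpr ⟨by omega, by omega⟩, (Nat.modEq_iff_dvd' h4.2.le).mp h3⟩
    · intro n hn
      obtain ⟨h2, h3⟩ := Finset.mem_filter.mp hn
      have h4 := Finset.mem_Ico.mp h2
      refine Finset.mem_filter.mpr ⟨Finset.mem_Ico.mpr ⟨by omega, by omega⟩, ?_⟩
      refine (Nat.modEq_iff_dvd' (by omega)).mpr ?_
      have : N - (N - n) = n := by omega
      rwa [this]
    · intro n hn; have := Finset.mem_Ico.mp (Finset.mem_filter.mp hn).1; omega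
    · intro n hn; have := Finset.mem_Ico.mp (Finset.mem_filter.mp hn).1; omega
    · intro n hn
      have := Finset.mem_Ico.mp (Finset.mem_filter.mp hn).1
      rw [Nat.cast_sub this.2.le, mul_comm]
      congr 2
      ring
  have h2 : ∑ k ∈ (Finset.Ico 1 N).filter (fun k => q ∣ k), g k * f ((N:ℤ) - k) =
      ∑ k ∈ (Finset.Ioc 0 X).filter (fun k => q ∣ k), g k * f ((N:ℤ) - k) := by
    refine Finset.sum_subset ?_ ?_
    · intro k hk
      obtain ⟨h3, h4⟩ := Finset.mem_filter.mp hk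
      have := Finset.mem_Ico.mp h3
      exact Finset.mem_filter.mpr ⟨Finset.mem_Ioc.mpr ⟨by omega, by omega⟩, h4⟩
    · intro k hk hk2
      obtain ⟨h3, h4⟩ := Finset.mem_filter.mp hk
      have h5 := Finset.mem_Ioc.mp h3
      have h6 : ¬ (1 ≤ k ∧ k < N) := fun h => hk2 (Finset.mem_filter.mpr ⟨Finset.mem_Ico.mpr h, h4⟩)
      rw [hs.zero (by omega), mul_zero]
  rw [h1, h2, sum_mult_real hq]
  refine Finset.sum_subset (Finset.Ioc_subset_Ioc_right (Nat.div_le_self _ _)) ?_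
  intro k hk hk2
  obtain ⟨hk3, hk4⟩ := Finset.mem_Ioc.mp hk
  have h4 : X / q < k := by
    by_contra hcon
    exact hk2 (Finset.mem_Ioc.mpr ⟨hk3, by omega⟩)
  have h5 : X < q * k := by
    rw [Nat.div_lt_iff_lt_mul hq] at h4
    rw [mul_comm]; exact h4
  rw [hs.zero (by omega), mul_zero]

lemma g1_mul {q k : ℕ} : g1 (q * k) = if k.Coprime q then g1 q * g1 k else 0 := by
  unfold g1
  split_ifs with h
  · rw [ArithmeticFunction.isMultiplicative_moebius.map_mul_of_coprime h.symm]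
    push_cast; ring
  · have : ¬ Squarefree (q * k) := fun hsq => h (Nat.coprime_of_squarefree_mul hsq).symm
    rw [ArithmeticFunction.moebius_eq_zero_of_not_squarefree this]
    simp

lemma g2_mul {q k : ℕ} (hq : 0 < q) (hk : 0 < k) :
    g2 (q * k) = if k.Coprime q then g1 q * Real.log q * g1 k + g1 q * g2 k else 0 := by
  have h1 : ∀ n, g2 n = g1 n * Real.log n := fun n => rfl
  rw [h1, g1_mul]
  split_ifs with h
  · have hq0 : (q:ℝ) ≠ 0 := by exact_mod_cast hq.ne'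
    have hk0 : (k:ℝ) ≠ 0 := by exact_mod_cast hk.ne'
    rw [h1, Nat.cast_mul, Real.log_mul hq0 hk0]
    ring
  · ring

/-- the weight of the second sum -/
noncomputable def c2 (X m : ℕ) : ℝ := if m ≤ X then g2 m / LL X else 0

lemma c2_le (X m : ℕ) : |c2 X m| ≤ 1 := by
  unfold c2
  have hL := LL_pos X
  split_ifs with h
  · rw [abs_div, abs_of_pos hL, div_le_one hL]
    refine (g2_abs_le m).trans ?_
    unfold LL
    rcases Nat.eq_zero_or_pos m with rfl | hm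
    · have := Real.log_natCast_nonneg X
      simp; linarith
    · have := Real.log_le_log (show (0:ℝ) < m by exact_mod_cast hm) (show (m:ℝ) ≤ X by exact_mod_cast h)
      linarith
  · rw [abs_zero]; exact zero_le_one

lemma Eg_le {g : ℕ → ℝ} (hg : g = g1 ∨ g = g2) {N q : ℕ} (hq : 0 < q) (hqX : q ≤ X) :
    |∑ m ∈ Finset.Ioc 0 X, g (q * m) * f ((N:ℤ) - (q * m : ℕ))| ≤
      LL X * (|TC f g1 X N q| + |TC f (c2 X) X N q|) := by
  have hL := LL_pos X
  have hL1 := LL_one_le X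
  have hm1 := abs_g1_le q
  have hq1 : (1:ℝ) ≤ q := by exact_mod_cast hq
  have hlq : 0 ≤ Real.log q := Real.log_nonneg hq1
  have hlq2 : Real.log q ≤ LL X := by
    have := Real.log_le_log (by linarith) (show (q:ℝ) ≤ X by exact_mod_cast hqX)
    unfold LL; linarith
  rcases hg with rfl | rfl
  · have h1 : ∑ m ∈ Finset.Ioc 0 X, g1 (q * m) * f ((N:ℤ) - (q * m : ℕ)) = g1 q * TC f g1 X N q := by
      unfold TC
      rw [Finset.mul_sum]
      refine Finset.sum_congr rfl fun m _ => ?_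
      rw [g1_mul]
      split_ifs <;> ring
    rw [h1, abs_mul]
    calc |g1 q| * |TC f g1 X N q| ≤ LL X * |TC f g1 X N q| := by gcongr; linarith
      _ ≤ _ := by gcongr; linarith [abs_nonneg (TC f (c2 X) X N q)]
  · have h1 : ∑ m ∈ Finset.Ioc 0 X, g2 (q * m) * f ((N:ℤ) - (q * m : ℕ)) =
        g1 q * Real.log q * TC f g1 X N q + g1 q * LL X * TC f (c2 X) X N q := by
      unfold TC
      rw [Finset.mul_sum, Finset.mul_sum, ← Finset.sum_add_distrib]
      refine Finset.sum_congr rfl fun m hm => ?_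
      obtain ⟨hm1, hm2⟩ := Finset.mem_Ioc.mp hm
      rw [g2_mul hq hm1]
      unfold c2
      rw [if_pos hm2]
      split_ifs
      · field_simp
      · ring
    rw [h1]
    refine (abs_add_le _ _).trans ?_
    rw [abs_mul, abs_mul, abs_mul, abs_mul, abs_of_nonneg hlq, abs_of_pos hL, mul_add]
    have h2 : |g1 q| * Real.log q ≤ 1 * LL X := by gcongr
    have h3 : |g1 q| * LL X ≤ 1 * LL X := by gcongr
    rw [one_mul] at h2 h3
    gcongr

end

/-- **Part T** -/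
theorem partT {g : ℕ → ℝ} (hg : g = g1 ∨ g = g2) (A C : ℕ) {ε : ℝ} (hε : 0 < ε) (hε1 : ε ≤ 1) :
    ∃ B X₀ : ℕ, ∀ X : ℕ, X₀ ≤ X →
    ∀ (ι : Type) (I : Finset ι) (N : ι → ℕ), (∀ i ∈ I, 1 ≤ N i ∧ N i ≤ X) →
    rr I N 0 * √X * LL X ^ B ≤ (I.card : ℝ) ^ 2 →
    H2 I N X * X ≤ (I.card : ℝ) ^ 4 * LL X ^ C →
    H3 I N X * X * LL X ^ B ≤ (I.card : ℝ) ^ 4 →
    (∑ i ∈ I, ∑ q ∈ (Sq X (Real.log X ^ ε / 2)).filter (fun q => X < q ^ 2), |E g (N i) q|) * LL X ^ A ≤ I.card * X := by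
  have hgood : Good g := by
    rcases hg with rfl | rfl
    · exact good_g1
    · exact good_g2
  obtain ⟨A₀, B, X₁, hTC⟩ := TC_final (A + 3) C hε hε1
  obtain ⟨X₂, hmod⟩ := model A₀
  obtain ⟨X₃, hsharp⟩ := sharp_le hgood (A₀ + 10 + A + 1) hε
  obtain ⟨X₄, hX₄⟩ := eventually_atTop.mp (tendsto_LL.eventually_ge_atTop 3)
  refine ⟨B, max (max X₁ X₂) (max X₃ X₄), fun X hX ι I N hN h1 h2 h3 => ?_⟩
  have hXX1 : X₁ ≤ X := (le_max_left _ _).trans ((le_max_left _ _).trans hX)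
  have hXX2 : X₂ ≤ X := (le_max_right _ _).trans ((le_max_left _ _).trans hX)
  have hXX3 : X₃ ≤ X := (le_max_left _ _).trans ((le_max_right _ _).trans hX)
  have hXX4 : X₄ ≤ X := (le_max_right _ _).trans ((le_max_right _ _).trans hX)
  obtain ⟨f, hs, hf, hS, hE⟩ := hmod X hXX2
  obtain ⟨Bq, hB1, hB2⟩ := hsharp X hXX3
  have hL3 := hX₄ X hXX4
  have hL0 := LL_pos X
  have hL1 := LL_one_le X
  have hT1 := hTC X hXX1 ι I N hN h1 h2 h3 f hs hf hS g1 abs_g1_le
  have hT2 := hTC X hXX1 ι I N hN h1 h2 h3 f hs hf hS (c2 X) (c2_le X)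
  set L := LL X with hLdef
  set T1 := ∑ i ∈ I, ∑ q ∈ ST X ε, |TC f g1 X (N i) q| with hT1d
  set T2 := ∑ i ∈ I, ∑ q ∈ ST X ε, |TC f (c2 X) X (N i) q| with hT2d
  set SB := ∑ q ∈ ST X ε, Bq q with hSB
  have hpt : ∀ i ∈ I, ∀ q ∈ ST X ε, |E g (N i) q| ≤
      L * (|TC f g1 X (N i) q| + |TC f (c2 X) X (N i) q|) + L ^ (A₀ + 10) * Bq q := by
    intro i hi q hq
    obtain ⟨⟨hq1, hq2⟩, _, _⟩ := mem_ST hq
    have e1 := hE g (N i) q (Bq q) (hN i hi).1 (hN i hi).2 (hB1 q hq (N i) (hN i hi).2)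
    rw [Ef_eq hs g (hN i hi).2 hq1] at e1
    have e2 := Eg_le (f := f) (X := X) hg (N := N i) hq1 hq2
    have e3 := abs_sub_abs_le_abs_sub (E g (N i) q) (∑ m ∈ Finset.Ioc 0 X, g (q * m) * f (((N i : ℕ):ℤ) - (q * m : ℕ)))
    linarith
  have hsum : ∑ i ∈ I, ∑ q ∈ ST X ε, |E g (N i) q| ≤ L * (T1 + T2) + I.card * (L ^ (A₀ + 10) * SB) := by
    calc _ ≤ ∑ i ∈ I, ∑ q ∈ ST X ε, (L * (|TC f g1 X (N i) q| + |TC f (c2 X) X (N i) q|) + L ^ (A₀ + 10) * Bq q) :=
          Finset.sum_le_sum fun i hi => Finset.sum_le_sum fun q hq => hpt i hi q hq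
      _ = _ := by
          simp only [Finset.sum_add_distrib, ← Finset.mul_sum, Finset.sum_const, nsmul_eq_mul]
          rw [hT1d, hT2d, hSB]
          ring
  have hX0 : (0:ℝ) ≤ X := Nat.cast_nonneg X
  have hT1' : T1 ≤ I.card * X / L ^ (A + 3) := by rw [le_div_iff₀ (by positivity)]; exact hT1
  have hT2' : T2 ≤ I.card * X / L ^ (A + 3) := by rw [le_div_iff₀ (by positivity)]; exact hT2
  have hSB' : SB ≤ X / L ^ (A₀ + 10 + A + 1) := by rw [le_div_iff₀ (by positivity)]; exact hB2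
  calc (∑ i ∈ I, ∑ q ∈ ST X ε, |E g (N i) q|) * L ^ A
      ≤ (L * (I.card * X / L ^ (A + 3) + I.card * X / L ^ (A + 3)) +
          I.card * (L ^ (A₀ + 10) * (X / L ^ (A₀ + 10 + A + 1)))) * L ^ A := by
        refine mul_le_mul_of_nonneg_right (hsum.trans ?_) (by positivity)
        gcongr
    _ = I.card * X * (2 / L ^ 2 + 1 / L) := by
        rw [pow_add L (A₀ + 10 + A) 1, pow_add L (A₀ + 10) A, pow_add L A 3]
        field_simp
        ring
    _ ≤ I.card * X * 1 := by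
        gcongr
        have e1 : 2 / L ^ 2 ≤ 2 / 9 := by
          have : (9:ℝ) ≤ L ^ 2 := by nlinarith
          gcongr
        have e2 : 1 / L ≤ 1 / 3 := by gcongr
        linarith
    _ = _ := mul_one _

end Pool.Agent.SEH
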