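import Pool.Agent.SEH.EnB
import Pool.Agent.SEH.PartS
import Pool.Agent.SEH.PartT

/-!
# Final part 1: all moduli together, and the count of the bad members of a family
-/

open Complex Pool.Agent.ANT Pool.Agent.DEH Filter

namespace Pool.Agent.SEH.En

lemma good_g {g : ℕ → ℝ} (hg : g = g1 ∨ g = g2) : Good g := by
  rcases hg with rfl | rfl
  · exact good_g1
  · exact good_g2

lemma bound_g {g : ℕ → ℝ} (hg : g = g1 ∨ g = g2) (n : ℕ) : |g n| ≤ 1 + Real.log n := by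
  have h1 : |((ArithmeticFunction.moebius n : ℤ) : ℝ)| ≤ 1 := by
    exact_mod_cast ArithmeticFunction.abs_moebius_le_one
  have h2 := Real.log_natCast_nonneg n
  rcases hg with rfl | rfl
  · unfold g1; linarith
  · unfold g2
    rw [abs_mul, abs_of_nonneg h2]
    nlinarith

/-- the small moduli -/
noncomputable def US (g : ℕ → ℝ) (Q N : ℕ) : ℝ := ∑ q ∈ Finset.Ioc 0 Q, |E g N q|

lemma US_nonneg (g : ℕ → ℝ) (Q N : ℕ) : 0 ≤ US g Q N := Finset.sum_nonneg fun _ _ => abs_nonneg _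

lemma S_le_US {g : ℕ → ℝ} {Q N : ℕ} (hQ : 1 ≤ Q) : |S g N| ≤ US g Q N := by
  rw [← E_one]
  unfold US
  exact Finset.single_le_sum (f := fun q => |E g N q|) (fun _ _ => abs_nonneg _)
    (Finset.mem_Ioc.mpr ⟨by norm_num, hQ⟩)

lemma sum_phi_le {X : ℕ} {s : Finset ℕ} (hs : s ⊆ Finset.Ioc 0 X) :
    ∑ q ∈ s, 1 / (q.totient : ℝ) ≤ LL X ^ 2 := by
  calc _ ≤ ∑ q ∈ s, tauR q / q := by
        refine Finset.sum_le_sum fun q hq => ?_
        have h1 := (Finset.mem_Ioc.mp (hs hq)).1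
        exact one_div_totient_le (by omega)
    _ ≤ ∑ q ∈ Finset.Ioc 0 X, tauR q / q :=
        Finset.sum_le_sum_of_subset_of_nonneg hs fun q _ _ =>
          div_nonneg (tauR_nonneg q) (Nat.cast_nonneg _)
    _ ≤ Hs X ^ 2 := sum_tau_div_le X
    _ ≤ LL X ^ 2 := by
        have := Hs_nonneg X
        have := Hs_le_LL X
        gcongr

lemma VV_le {g : ℕ → ℝ} {X N : ℕ} {L : ℝ} (hX : 1 ≤ X) : VV g X L N ≤
    ∑ q ∈ (Sq X L).filter (fun q => X < q ^ 2), |E g N q| + (1 + LL X ^ 2) * US g (Nat.sqrt X) N := by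
  have hs : Sq X L ⊆ Finset.Ioc 0 X := Finset.filter_subset _ _
  unfold VV
  rw [Finset.sum_add_distrib, ← Finset.sum_mul,
    ← Finset.sum_filter_add_sum_filter_not (Sq X L) (fun q => X < q ^ 2) (fun q => |E g N q|)]
  have h1 : ∑ q ∈ (Sq X L).filter (fun q => ¬ X < q ^ 2), |E g N q| ≤ US g (Nat.sqrt X) N := by
    unfold US
    refine Finset.sum_le_sum_of_subset_of_nonneg ?_ fun _ _ _ => abs_nonneg _
    intro q hq
    obtain ⟨h2, h3⟩ := Finset.mem_filter.mp hq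
    exact Finset.mem_Ioc.mpr ⟨(Finset.mem_Ioc.mp (hs h2)).1, Nat.le_sqrt'.mpr (by omega)⟩
  have h2 := sum_phi_le hs
  have h3 : |S g N| ≤ US g (Nat.sqrt X) N := S_le_US (Nat.le_sqrt'.mpr (by omega))
  have h4 : (∑ q ∈ Sq X L, 1 / (q.totient : ℝ)) * |S g N| ≤ LL X ^ 2 * US g (Nat.sqrt X) N := by
    have := US_nonneg g (Nat.sqrt X) N
    have := LL_pos X
    gcongr
  linarith

/-- **All moduli.** -/
theorem allT {g : ℕ → ℝ} (hg : g = g1 ∨ g = g2) (A C : ℕ) {ε : ℝ} (hε : 0 < ε) (hε1 : ε ≤ 1) :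
    ∃ B X₀ : ℕ, ∀ X : ℕ, X₀ ≤ X →
    ∀ (ι : Type) (I : Finset ι) (N : ι → ℕ), (∀ i ∈ I, 1 ≤ N i ∧ N i ≤ X) →
    rr I N 0 * √X * LL X ^ B ≤ (I.card : ℝ) ^ 2 →
    H2 I N X * X ≤ (I.card : ℝ) ^ 4 * LL X ^ C →
    H3 I N X * X * LL X ^ B ≤ (I.card : ℝ) ^ 4 →
    (∑ i ∈ I, VV g X (Real.log X ^ ε / 2) (N i)) * LL X ^ A ≤ I.card * X := by
  obtain ⟨B₁, X₁, h₁⟩ := partT hg (A + 1) C hε hε1
  set B := max B₁ (4 * A + 47) with hB
  obtain ⟨K, hK, h₂⟩ := partS (good_g hg) (bound_g hg) (C + B)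
  obtain ⟨X₂, hX₂⟩ := eventually_atTop.mp ((ev_LL_ge (K * (1 + 2 ^ (C + B)))).and (ev_LL_ge 4))
  refine ⟨B, max (max X₁ X₂) 3, fun X hX ι I N hN hr0 hH2 hH3 => ?_⟩
  have hX1 : X₁ ≤ X := ((le_max_left _ _).trans (le_max_left _ _)).trans hX
  have hX2 : X₂ ≤ X := ((le_max_right _ _).trans (le_max_left _ _)).trans hX
  have hX3 : 3 ≤ X := (le_max_right _ _).trans hX
  obtain ⟨e1, e2⟩ := hX₂ X hX2
  have hL := LL_pos X
  have hL1 := LL_one_le X
  have hX0 : (0:ℝ) < X := by exact_mod_cast (by omega : 0 < X)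
  have hr00 := rr_nonneg I N 0
  have hc0 : (0:ℝ) ≤ I.card := Nat.cast_nonneg _
  have hH30 : 0 ≤ H3 I N X := by
    unfold H3
    refine Finset.sum_nonneg fun _ _ => mul_nonneg (tauR_nonneg _) (Finset.sum_nonneg fun _ _ => Nat.cast_nonneg _)
  have hpow : LL X ^ B₁ ≤ LL X ^ B := pow_le_pow_right₀ hL1 (le_max_left _ _)
  have t1 := h₁ X hX1 ι I N hN (le_trans (by gcongr) hr0) hH2 (le_trans (by gcongr) hH3)
  have t2 := h₂ X hX3 ι I N hN (Nat.sqrt X) (Nat.sqrt_le' X)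
  set U := ∑ i ∈ I, ∑ q ∈ Finset.Ioc 0 (Nat.sqrt X), |E g (N i) q| with hU
  set TT := ∑ i ∈ I, ∑ q ∈ (Sq X (Real.log X ^ ε / 2)).filter (fun q => X < q ^ 2), |E g (N i) q| with hTT
  set n : ℝ := (I.card : ℝ) with hn
  have hU0 : 0 ≤ U := Finset.sum_nonneg fun _ _ => Finset.sum_nonneg fun _ _ => abs_nonneg _
  have hlog : LL X / 2 ≤ Real.log X := by unfold LL at e2 ⊢; linarith
  have hlog0 : 0 < Real.log X := by linarith
  -- the small moduli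
  have hs1 : rr I N 0 * X * (Nat.sqrt X : ℕ) ≤ n ^ 2 * X / LL X ^ B := by
    rw [le_div_iff₀ (by positivity)]
    have h3 : ((Nat.sqrt X : ℕ) : ℝ) ≤ √(X:ℝ) := Real.nat_sqrt_le_real_sqrt
    calc rr I N 0 * X * (Nat.sqrt X : ℕ) * LL X ^ B ≤ rr I N 0 * X * √(X:ℝ) * LL X ^ B := by gcongr
      _ = (rr I N 0 * √(X:ℝ) * LL X ^ B) * X := by ring
      _ ≤ n ^ 2 * X := by gcongr
  have hs2 : √(H1 I N X) * X * √(X:ℝ) / Real.log X ^ (C + B) ≤ n ^ 2 * X * 2 ^ (C + B) / LL X ^ B := by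
    have h3 : √(H1 I N X) * √(X:ℝ) ≤ n ^ 2 * LL X ^ C := by
      rw [← Real.sqrt_mul H1_nonneg]
      refine Real.sqrt_le_iff.mpr ⟨by positivity, ?_⟩
      calc H1 I N X * X ≤ H2 I N X * X := by
            have := H1_le_H2 (I := I) (N := N) (X := X)
            gcongr
        _ ≤ n ^ 4 * LL X ^ C := hH2
        _ ≤ n ^ 4 * LL X ^ (C + C) := by
            have : LL X ^ C ≤ LL X ^ (C + C) := pow_le_pow_right₀ hL1 (by omega)
            gcongr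
        _ = (n ^ 2 * LL X ^ C) ^ 2 := by rw [pow_add]; ring
    calc √(H1 I N X) * X * √(X:ℝ) / Real.log X ^ (C + B)
        = (√(H1 I N X) * √(X:ℝ)) * X / Real.log X ^ (C + B) := by ring
      _ ≤ (n ^ 2 * LL X ^ C) * X / (LL X / 2) ^ (C + B) := by gcongr
      _ = n ^ 2 * X * 2 ^ (C + B) / LL X ^ B := by
          rw [div_pow, pow_add (LL X)]
          field_simp
  have hU4 : U ^ 4 ≤ (n * X / LL X ^ (A + 4)) ^ 4 := by
    have h4A : LL X ^ 30 * (K * (1 + 2 ^ (C + B))) * LL X ^ (4 * (A + 4)) ≤ LL X ^ B := by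
      calc LL X ^ 30 * (K * (1 + 2 ^ (C + B))) * LL X ^ (4 * (A + 4))
          ≤ LL X ^ 30 * LL X * LL X ^ (4 * (A + 4)) := by gcongr
        _ = LL X ^ (4 * A + 47) := by ring
        _ ≤ LL X ^ B := pow_le_pow_right₀ hL1 (le_max_right _ _)
    calc U ^ 4 ≤ K * n ^ 2 * (X:ℝ) ^ 3 * LL X ^ 30 *
          (rr I N 0 * X * (Nat.sqrt X : ℕ) + √(H1 I N X) * X * √(X:ℝ) / Real.log X ^ (C + B)) := t2
      _ ≤ K * n ^ 2 * (X:ℝ) ^ 3 * LL X ^ 30 *
          (n ^ 2 * X / LL X ^ B + n ^ 2 * X * 2 ^ (C + B) / LL X ^ B) := by gcongr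
      _ = (n * X) ^ 4 * ((LL X ^ 30 * (K * (1 + 2 ^ (C + B)))) / LL X ^ B) := by ring
      _ ≤ (n * X) ^ 4 * (1 / LL X ^ (4 * (A + 4))) := by
          have : (LL X ^ 30 * (K * (1 + 2 ^ (C + B)))) / LL X ^ B ≤ 1 / LL X ^ (4 * (A + 4)) := by
            rw [div_le_div_iff₀ (by positivity) (by positivity), one_mul]
            exact h4A
          gcongr
      _ = _ := by rw [div_pow, ← pow_mul, mul_comm (A + 4) 4]; ring
  have hUb : U ≤ n * X / LL X ^ (A + 4) := le_of_pow_le_pow_left₀ (by norm_num) (by positivity) hU4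
  calc (∑ i ∈ I, VV g X (Real.log X ^ ε / 2) (N i)) * LL X ^ A
      ≤ (TT + (1 + LL X ^ 2) * U) * LL X ^ A := by
        refine mul_le_mul_of_nonneg_right ?_ (by positivity)
        rw [hTT, hU, Finset.mul_sum, ← Finset.sum_add_distrib]
        exact Finset.sum_le_sum fun i _ => VV_le (by omega)
    _ = TT * LL X ^ (A + 1) / LL X + (1 + LL X ^ 2) * U * LL X ^ A := by
        rw [pow_succ]; field_simp; ring
    _ ≤ n * X / LL X + (2 * LL X ^ 2) * (n * X / LL X ^ (A + 4)) * LL X ^ A := by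
        have h5 : 1 + LL X ^ 2 ≤ 2 * LL X ^ 2 := by nlinarith
        gcongr
    _ = n * X * (1 / LL X + 2 / LL X ^ 2) := by
        have : LL X ^ (A + 4) = LL X ^ A * LL X ^ 4 := by ring
        rw [this]
        field_simp
    _ ≤ n * X * 1 := by
        have h5 : 1 / LL X ≤ 1 / 4 := one_div_le_one_div_of_le (by norm_num) e2
        have h6 : 2 / LL X ^ 2 ≤ 1 / 2 := by
          rw [div_le_div_iff₀ (by positivity) (by norm_num)]
          nlinarith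
        have h7 : 1 / LL X + 2 / LL X ^ 2 ≤ 1 := by linarith
        gcongr
    _ = n * X := mul_one _

/-- the discrepancy at the level `N exp(-(log N)^ε)` -/
lemma D_lev_le {g : ℕ → ℝ} {ε : ℝ} (hε : 0 < ε) (hε1 : ε ≤ 1) {N Y : ℕ} (hN : 1 ≤ N) (hNY : N ≤ Y)
    (hlY : 0 < Real.log Y) (hl : Real.log Y / 2 ≤ Real.log N) :
    D g N (lev ε N) ≤ VV g Y (Real.log Y ^ ε / 2) N := by
  have hN0 : (0:ℝ) < N := by exact_mod_cast hN
  have hNY' : (N:ℝ) ≤ Y := by exact_mod_cast hNY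
  refine D_le_VV hN hNY (lev_le ε N) fun q hq1 hq2 => ?_
  have hq0 : (0:ℝ) < q := by exact_mod_cast (by omega : 0 < q)
  have h8 : Real.log N ^ ε ≤ Real.log ((N:ℝ) / q) := by
    have h9 : Real.log q ≤ Real.log (lev ε N) := Real.log_le_log hq0 hq2
    unfold lev at h9
    rw [Real.log_mul hN0.ne' (Real.exp_pos _).ne', Real.log_exp] at h9
    rw [Real.log_div hN0.ne' hq0.ne']
    linarith
  have h10 : Real.log ((N:ℝ) / q) ≤ Real.log ((Y:ℝ) / q) :=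
    Real.log_le_log (by positivity) (by gcongr)
  have h11 : Real.log Y ^ ε / 2 ≤ Real.log N ^ ε := by
    calc Real.log Y ^ ε / 2 = Real.log Y ^ ε * (1/2) := by ring
      _ ≤ Real.log Y ^ ε * (1/2:ℝ) ^ ε := by
          gcongr
          calc (1/2:ℝ) = (1/2:ℝ) ^ (1:ℝ) := (Real.rpow_one _).symm
            _ ≤ (1/2:ℝ) ^ ε := Real.rpow_le_rpow_of_exponent_ge (by norm_num) (by norm_num) hε1
      _ = (Real.log Y / 2) ^ ε := by
          rw [← Real.mul_rpow hlY.le (by norm_num)]; congr 1; ring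
      _ ≤ Real.log N ^ ε := Real.rpow_le_rpow (by positivity) hl hε.le
  linarith

/-- Markov -/
lemma markov {ι : Type*} {I J : Finset ι} (hJ : J ⊆ I) {v : ι → ℝ} (hv : ∀ i ∈ I, 0 ≤ v i) {T : ℝ}
    (hT : ∀ i ∈ J, T ≤ v i) : (J.card : ℝ) * T ≤ ∑ i ∈ I, v i := by
  calc (J.card : ℝ) * T = ∑ _i ∈ J, T := by rw [Finset.sum_const, nsmul_eq_mul]
    _ ≤ ∑ i ∈ J, v i := Finset.sum_le_sum hT
    _ ≤ _ := Finset.sum_le_sum_of_subset_of_nonneg hJ fun i hi _ => hv i hi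

lemma VV_nonneg (g : ℕ → ℝ) (X : ℕ) (L : ℝ) (N : ℕ) : 0 ≤ VV g X L N :=
  Finset.sum_nonneg fun _ _ => add_nonneg (abs_nonneg _) (mul_nonneg (by positivity) (abs_nonneg _))

/-- the bound for both weights at the level `N exp(-(log N)^ε)` -/
def OKl (A : ℕ) (ε : ℝ) (N : ℕ) : Prop :=
  D g1 N (lev ε N) ≤ N / Real.log N ^ A ∧ D g2 N (lev ε N) ≤ N / Real.log N ^ A

open Classical in
/-- **Count of the bad members which are not too small.** -/
theorem count_gen (A c A2 C : ℕ) {ε : ℝ} (hε : 0 < ε) (hε1 : ε ≤ 1) :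
    ∃ B X₀ : ℕ, ∀ Y : ℕ, X₀ ≤ Y →
    ∀ (ι : Type) (I : Finset ι) (N : ι → ℕ), (∀ i ∈ I, 1 ≤ N i ∧ N i ≤ Y) →
    rr I N 0 * √Y * LL Y ^ B ≤ (I.card : ℝ) ^ 2 →
    H2 I N Y * Y ≤ (I.card : ℝ) ^ 4 * LL Y ^ C →
    H3 I N Y * Y * LL Y ^ B ≤ (I.card : ℝ) ^ 4 →
    ((I.filter (fun i => (Y:ℝ) ≤ N i * LL Y ^ c ∧ ¬ OKl A ε (N i))).card : ℝ) * LL Y ^ A2 ≤ I.card := by
  obtain ⟨B₁, X₁, h₁⟩ := allT (g := g1) (Or.inl rfl) (A + c + A2 + 1) C hε hε1
  obtain ⟨B₂, X₂, h₂⟩ := allT (g := g2) (Or.inr rfl) (A + c + A2 + 1) C hε hε1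
  obtain ⟨X₃, hX₃⟩ := eventually_atTop.mp ((ev_LL_pow 1 c (show (0:ℝ) < 1 / 2 by norm_num)).and (ev_LL_ge 2))
  refine ⟨max B₁ B₂, max (max X₁ X₂) (max X₃ 3), fun Y hY ι I N hN hr0 hH2 hH3 => ?_⟩
  have hY1 : X₁ ≤ Y := ((le_max_left _ _).trans (le_max_left _ _)).trans hY
  have hY2 : X₂ ≤ Y := ((le_max_right _ _).trans (le_max_left _ _)).trans hY
  have hY3 : X₃ ≤ Y := ((le_max_left _ _).trans (le_max_right _ _)).trans hY
  have hY4 : 3 ≤ Y := ((le_max_right _ _).trans (le_max_right _ _)).trans hY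
  obtain ⟨e1, e2⟩ := hX₃ Y hY3
  rw [one_mul] at e1
  have hL := LL_pos Y
  have hL1 := LL_one_le Y
  have hY0 : (0:ℝ) < Y := by exact_mod_cast (by omega : 0 < Y)
  have hlY := one_le_log (show (3:ℝ) ≤ Y by exact_mod_cast hY4)
  have hr00 := rr_nonneg I N 0
  have hH30 : 0 ≤ H3 I N Y := by
    unfold H3
    refine Finset.sum_nonneg fun _ _ => mul_nonneg (tauR_nonneg _) (Finset.sum_nonneg fun _ _ => Nat.cast_nonneg _)
  have p1 : LL Y ^ B₁ ≤ LL Y ^ max B₁ B₂ := pow_le_pow_right₀ hL1 (le_max_left _ _)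
  have p2 : LL Y ^ B₂ ≤ LL Y ^ max B₁ B₂ := pow_le_pow_right₀ hL1 (le_max_right _ _)
  have t1 := h₁ Y hY1 ι I N hN (le_trans (by gcongr) hr0) hH2 (le_trans (by gcongr) hH3)
  have t2 := h₂ Y hY2 ι I N hN (le_trans (by gcongr) hr0) hH2 (le_trans (by gcongr) hH3)
  set J := I.filter (fun i => (Y:ℝ) ≤ N i * LL Y ^ c ∧ ¬ OKl A ε (N i)) with hJ
  set v : ι → ℝ := fun i => VV g1 Y (Real.log Y ^ ε / 2) (N i) + VV g2 Y (Real.log Y ^ ε / 2) (N i) with hv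
  have hT : ∀ i ∈ J, Y / LL Y ^ (A + c) ≤ v i := by
    intro i hi
    obtain ⟨h3, h4, h5⟩ := Finset.mem_filter.mp hi
    obtain ⟨h6, h7⟩ := hN i h3
    have hN0 : (0:ℝ) < N i := by exact_mod_cast h6
    have hNY : (N i:ℝ) ≤ Y := by exact_mod_cast h7
    have hs : √(Y:ℝ) ≤ N i := by
      have h8 : √(Y:ℝ) * LL Y ^ c ≤ Y := by
        calc √(Y:ℝ) * LL Y ^ c ≤ √(Y:ℝ) * (Y:ℝ) ^ (1/2:ℝ) := by gcongr
          _ = Y := by rw [← Real.sqrt_eq_rpow]; exact Real.mul_self_sqrt hY0.le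
      have h9 : √(Y:ℝ) * LL Y ^ c ≤ N i * LL Y ^ c := h8.trans h4
      exact le_of_mul_le_mul_right h9 (by positivity)
    have hl : Real.log Y / 2 ≤ Real.log (N i) := by
      have := Real.log_le_log (Real.sqrt_pos.mpr hY0) hs
      rwa [Real.log_sqrt hY0.le] at this
    have hlN0 : 0 < Real.log (N i) := by linarith
    have hlN : Real.log (N i) ≤ LL Y := by
      have := Real.log_le_log hN0 hNY
      unfold LL; linarith
    have hlow : Y / LL Y ^ (A + c) ≤ N i / Real.log (N i) ^ A := by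
      calc Y / LL Y ^ (A + c) ≤ (N i * LL Y ^ c) / LL Y ^ (A + c) := by gcongr
        _ = N i / LL Y ^ A := by rw [pow_add]; field_simp
        _ ≤ _ := by gcongr
    have hd1 := D_lev_le (g := g1) hε hε1 h6 h7 (by linarith) hl
    have hd2 := D_lev_le (g := g2) hε hε1 h6 h7 (by linarith) hl
    have hn1 := VV_nonneg g1 Y (Real.log Y ^ ε / 2) (N i)
    have hn2 := VV_nonneg g2 Y (Real.log Y ^ ε / 2) (N i)
    simp only [hv]
    unfold OKl at h5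
    by_contra hcon
    push Not at hcon
    exact h5 ⟨by linarith, by linarith⟩
  have h10 := markov (Finset.filter_subset _ _ : J ⊆ I) (v := v)
    (fun i _ => add_nonneg (VV_nonneg _ _ _ _) (VV_nonneg _ _ _ _)) hT
  have h11 : (∑ i ∈ I, v i) * LL Y ^ (A + c + A2 + 1) ≤ 2 * (I.card * Y) := by
    simp only [hv]
    rw [Finset.sum_add_distrib, add_mul]
    linarith
  have h12 : (J.card : ℝ) * LL Y ^ A2 * (LL Y * Y) ≤ I.card * (LL Y * Y) := by
    calc (J.card : ℝ) * LL Y ^ A2 * (LL Y * Y) = ((J.card : ℝ) * (Y / LL Y ^ (A + c))) * LL Y ^ (A + c + A2 + 1) := by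
          rw [show A + c + A2 + 1 = (A + c) + (A2 + 1) by ring, pow_add _ (A + c) (A2 + 1), pow_succ]
          field_simp
      _ ≤ (∑ i ∈ I, v i) * LL Y ^ (A + c + A2 + 1) := by gcongr
      _ ≤ 2 * (I.card * Y) := h11
      _ ≤ LL Y * (I.card * Y) := by gcongr
      _ = _ := by ring
  exact le_of_mul_le_mul_right h12 (by positivity)

end Pool.Agent.SEH.En
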