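import Pool.Agent.SEH.Fin1

/-!
# Final part 2: the three theorems
-/

open Complex Pool.Agent.ANT Pool.Agent.DEH Filter

namespace Pool.Agent.SEH.En

open Classical in
/-- From the members which are not too small to all members of the family. -/
lemma fam_count {a b c : ℤ} (ha : 0 < a) (A : ℕ) : ∀ᶠ X : ℕ in atTop, ∀ W : Finset ℕ,
    ∀ bad : ℕ × ℕ → Prop, ∀ [DecidablePred bad],
    (((fam b c X W).filter (fun x => ((Hz a b c * X : ℕ) : ℝ) ≤
        Nv a b c x.1 x.2 * LL (Hz a b c * X) ^ (2 * (A + 1)) ∧ bad x)).card : ℝ) *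
      LL (Hz a b c * X) ^ (A + 1) ≤ (fam b c X W).card →
    ((((Finset.range (Nat.sqrt X + 1)) ×ˢ W).filter bad).card : ℝ) ≤ W.card * √X / Real.log X ^ A := by
  set H := Hz a b c with hH
  have hH1 : 1 ≤ H := by rw [hH]; unfold Hz; omega
  have hHR : (1:ℝ) ≤ H := by exact_mod_cast hH1
  filter_upwards [ev_LL_pow (kz b c + 1) (A + 1) (show (0:ℝ) < 1 / 2 by norm_num), ev_LL_ge (2 + 2 * H),
    eventually_ge_atTop 3] with X e1 e2 hX3 W bad _ hcount
  have hX1 : 1 ≤ X := by omega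
  have hX0 : (0:ℝ) < X := by exact_mod_cast (by omega : 0 < X)
  have hlX := one_le_log (show (3:ℝ) ≤ X by exact_mod_cast hX3)
  set Y := H * X with hY
  have hXY : X ≤ Y := Nat.le_mul_of_pos_left X hH1
  have hYR : (Y:ℝ) = H * X := by rw [hY]; push_cast; ring
  have hY0 : (0:ℝ) < Y := by rw [hYR]; positivity
  have hLX := LL_pos X
  have hLXY : LL X ≤ LL Y := LL_mono hX1 hXY
  have hLY := LL_pos Y
  rw [← Real.sqrt_eq_rpow] at e1
  set n : ℝ := (W.card : ℝ) with hn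
  have hn0 : 0 ≤ n := Nat.cast_nonneg _
  set R := ⌊√(2 * (Y:ℝ)) / LL Y ^ (A + 1)⌋₊ with hR
  set J := (fam b c X W).filter (fun x => ((Hz a b c * X : ℕ) : ℝ) ≤
        Nv a b c x.1 x.2 * LL (Hz a b c * X) ^ (2 * (A + 1)) ∧ bad x) with hJ
  have hsub : ((Finset.range (Nat.sqrt X + 1)) ×ˢ W).filter bad ⊆
      ((Finset.range (kz b c + 1)) ×ˢ W) ∪ (((Finset.Ioc 0 R) ×ˢ W) ∪ J) := by
    intro x hx
    obtain ⟨h1, h2⟩ := Finset.mem_filter.mp hx
    obtain ⟨h3, h4⟩ := Finset.mem_product.mp h1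
    have h5 := Finset.mem_range.mp h3
    rcases Nat.lt_or_ge (kz b c) x.1 with hk | hk
    · refine Finset.mem_union_right _ ?_
      have hfam : x ∈ fam b c X W :=
        Finset.mem_product.mpr ⟨Finset.mem_Ioc.mpr ⟨hk, by omega⟩, h4⟩
      by_cases h6 : (Y:ℝ) ≤ Nv a b c x.1 x.2 * LL Y ^ (2 * (A + 1))
      · exact Finset.mem_union_right _ (Finset.mem_filter.mpr ⟨hfam, h6, h2⟩)
      · refine Finset.mem_union_left _ (Finset.mem_product.mpr ⟨Finset.mem_Ioc.mpr ⟨by omega, ?_⟩, h4⟩)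
        push Not at h6
        have h7 := Nv_cast ha hk x.2
        have h8 := Fv_low ha hk
        have h9 : ((x.1:ℤ)) ^ 2 ≤ 2 * (Nv a b c x.1 x.2 : ℤ) := by
          rw [h7]
          have : (0:ℤ) ≤ x.2 := Nat.cast_nonneg _
          linarith
        have h10 : (x.1:ℝ) ^ 2 ≤ 2 * (Nv a b c x.1 x.2 : ℝ) := by exact_mod_cast h9
        refine Nat.le_floor ?_
        rw [le_div_iff₀ (by positivity)]
        refine Real.le_sqrt_of_sq_le ?_
        calc ((x.1:ℝ) * LL Y ^ (A + 1)) ^ 2 = (x.1:ℝ) ^ 2 * LL Y ^ (2 * (A + 1)) := by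
              rw [mul_pow, ← pow_mul, mul_comm (A + 1) 2]
          _ ≤ (2 * (Nv a b c x.1 x.2 : ℝ)) * LL Y ^ (2 * (A + 1)) := by gcongr
          _ ≤ 2 * Y := by linarith
    · exact Finset.mem_union_left _ (Finset.mem_product.mpr ⟨Finset.mem_range.mpr (by omega), h4⟩)
  have hcard : ((((Finset.range (Nat.sqrt X + 1)) ×ˢ W).filter bad).card : ℝ) ≤
      (kz b c + 1) * n + (R * n + J.card) := by
    have h1 := Finset.card_le_card hsub
    have h2 := Finset.card_union_le ((Finset.range (kz b c + 1)) ×ˢ W) (((Finset.Ioc 0 R) ×ˢ W) ∪ J)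
    have h3 := Finset.card_union_le ((Finset.Ioc 0 R) ×ˢ W) J
    rw [Finset.card_product, Finset.card_range] at h2
    rw [Finset.card_product, Nat.card_Ioc, Nat.sub_zero] at h3
    have h4 : (((Finset.range (Nat.sqrt X + 1)) ×ˢ W).filter bad).card ≤
        (kz b c + 1) * W.card + (R * W.card + J.card) := by omega
    have h5 : (((((Finset.range (Nat.sqrt X + 1)) ×ˢ W).filter bad).card : ℕ) : ℝ) ≤
        (((kz b c + 1) * W.card + (R * W.card + J.card) : ℕ) : ℝ) := by exact_mod_cast h4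
    push_cast at h5
    exact h5
  have hRle : (R:ℝ) ≤ 2 * H * √(X:ℝ) / LL X ^ (A + 1) := by
    have h1 : (R:ℝ) ≤ √(2 * (Y:ℝ)) / LL Y ^ (A + 1) := Nat.floor_le (by positivity)
    refine h1.trans ?_
    have h2 : √(2 * (Y:ℝ)) ≤ 2 * H * √(X:ℝ) := by
      have h3 : 2 * (Y:ℝ) = (2 * H) * X := by rw [hYR]; ring
      rw [h3, Real.sqrt_mul (by positivity)]
      have h4 : √(2 * (H:ℝ)) ≤ 2 * H := by
        rw [Real.sqrt_le_left (by positivity)]
        nlinarith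
      gcongr
    gcongr
  have hJle : (J.card : ℝ) ≤ n * √(X:ℝ) / LL X ^ (A + 1) := by
    have h1 : (J.card : ℝ) ≤ (fam b c X W).card / LL Y ^ (A + 1) := by
      rw [le_div_iff₀ (by positivity)]; exact hcount
    refine h1.trans ?_
    have h2 : ((fam b c X W).card : ℝ) ≤ n * √(X:ℝ) := by
      unfold fam
      rw [Finset.card_product]
      push_cast
      have := card_s_le (kz b c) X
      rw [mul_comm]
      gcongr
    gcongr
  have hkle : ((kz b c : ℝ) + 1) ≤ √(X:ℝ) / LL X ^ (A + 1) := by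
    rw [le_div_iff₀ (by positivity)]; exact e1
  calc ((((Finset.range (Nat.sqrt X + 1)) ×ˢ W).filter bad).card : ℝ)
      ≤ (kz b c + 1) * n + (R * n + J.card) := hcard
    _ ≤ (√(X:ℝ) / LL X ^ (A + 1)) * n + ((2 * H * √(X:ℝ) / LL X ^ (A + 1)) * n +
        n * √(X:ℝ) / LL X ^ (A + 1)) := by gcongr
    _ = (2 + 2 * H) * (n * √(X:ℝ)) / LL X ^ (A + 1) := by ring
    _ ≤ LL X * (n * √(X:ℝ)) / LL X ^ (A + 1) := by gcongr
    _ = n * √(X:ℝ) / LL X ^ A := by rw [pow_succ]; field_simp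
    _ ≤ n * √(X:ℝ) / Real.log X ^ A := by
        have : Real.log X ≤ LL X := by unfold LL; linarith
        gcongr

/-- from the level `lev (min ε 1)` to all levels `≤ N exp(-(log N)^ε)` -/
lemma ok_of_OKl {A : ℕ} {ε : ℝ} {N : ℕ} (hN : 3 ≤ N) (h : OKl A (min ε 1) N) : ∀ Q : ℝ,
    Q ≤ N * Real.exp (-(Real.log N) ^ ε) →
      D g1 N Q ≤ N / Real.log N ^ A ∧ D g2 N Q ≤ N / Real.log N ^ A := by
  intro Q hQ
  have h1 : Q ≤ lev (min ε 1) N := hQ.trans (lev_mono (min_le_left ε 1) hN)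
  exact ⟨(D_mono g1 N h1).trans h.1, (D_mono g2 N h1).trans h.2⟩

open Classical in
/-- **Part B.** -/
theorem finB {a b c : ℤ} (ha : 0 < a) {δ ε : ℝ} (hδ : 0 < δ) (hε : 0 < ε) (A : ℕ) :
    ∃ X₀ : ℕ, ∀ X : ℕ, X₀ ≤ X → ∀ W : Finset ℕ, W ⊆ Finset.range (X + 1) → (X:ℝ) ^ δ ≤ W.card →
      ((((Finset.range (Nat.sqrt X + 1)) ×ˢ W).filter (fun x => ¬ ∀ N : ℕ,
        (N:ℤ) = a * (x.1:ℤ) ^ 2 + b * x.1 + c + x.2 → ∀ Q : ℝ, Q ≤ N * Real.exp (-(Real.log N) ^ ε) →
          D g1 N Q ≤ N / Real.log N ^ A ∧ D g2 N Q ≤ N / Real.log N ^ A)).card : ℝ) ≤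
        W.card * √X / Real.log X ^ A := by
  have hε' : 0 < min ε 1 := lt_min hε one_pos
  have hδ' : 0 < min δ (1 / 2) := lt_min hδ (by norm_num)
  obtain ⟨B, X₁, h₁⟩ := count_gen A (2 * (A + 1)) (A + 1) 16 hε' (min_le_right _ _)
  obtain ⟨X₂, hX₂⟩ := eventually_atTop.mp ((energyB ha hδ' (min_le_right _ _) B).and
    ((fam_count ha A).and (eventually_ge_atTop 1)))
  obtain ⟨X₃, hX₃⟩ := eventually_atTop.mp (ev_LL_pow 3 (2 * (A + 1)) one_pos)
  refine ⟨max X₁ (max X₂ X₃), fun X hX W hW hWc => ?_⟩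
  have hX1 : X₁ ≤ X := (le_max_left _ _).trans hX
  have hX2 : X₂ ≤ X := ((le_max_left _ _).trans (le_max_right _ _)).trans hX
  have hX3 : X₃ ≤ X := ((le_max_right _ _).trans (le_max_right _ _)).trans hX
  obtain ⟨e1, e2, hX1'⟩ := hX₂ X hX2
  have hXR : (1:ℝ) ≤ X := by exact_mod_cast hX1'
  set H := Hz a b c with hH
  have hH1 : 1 ≤ H := by rw [hH]; unfold Hz; omega
  have hXY : X ≤ H * X := Nat.le_mul_of_pos_left X hH1
  have hWc' : (X:ℝ) ^ min δ (1 / 2) ≤ W.card :=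
    (Real.rpow_le_rpow_of_exponent_le hXR (min_le_left _ _)).trans hWc
  obtain ⟨f1, f2, f3⟩ := e1 W hW hWc'
  have h2 := h₁ (H * X) (hX1.trans hXY) (ℕ × ℕ) (fam b c X W) (fun x => Nv a b c x.1 x.2)
    (fam_range ha hX1' hW) f1 f2 f3
  refine e2 W _ (le_trans ?_ h2)
  have hL := LL_pos (H * X)
  refine mul_le_mul_of_nonneg_right ?_ (by positivity)
  refine Nat.cast_le.mpr (Finset.card_le_card fun x hx => ?_)
  obtain ⟨h3, h4, h5⟩ := Finset.mem_filter.mp hx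
  refine Finset.mem_filter.mpr ⟨h3, h4, fun hok => h5 fun N hN => ?_⟩
  have h6 := Nv_cast ha (Finset.mem_Ioc.mp (Finset.mem_product.mp h3).1).1 x.2
  have h7 : N = Nv a b c x.1 x.2 := by
    have : (N:ℤ) = (Nv a b c x.1 x.2 : ℤ) := by rw [h6, hN]; unfold Fv; ring
    exact_mod_cast this
  rw [h7]
  refine ok_of_OKl ?_ hok
  have h8 := hX₃ (H * X) (hX3.trans hXY)
  rw [Real.rpow_one] at h8
  have h9 : 3 * LL (H * X) ^ (2 * (A + 1)) ≤ Nv a b c x.1 x.2 * LL (H * X) ^ (2 * (A + 1)) := h8.trans h4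
  have h10 : (3:ℝ) ≤ Nv a b c x.1 x.2 := le_of_mul_le_mul_right h9 (by positivity)
  exact_mod_cast h10

/-! ### Sets in `(X, 2X]` -/

lemma rr_id_eq (S : Finset ℕ) {h : ℤ} (hh : h ≠ 0) :
    rr S id h = ((S.filter (fun n => n + h.natAbs ∈ S)).card : ℝ) := by
  unfold rr
  congr 1
  rcases lt_or_gt_of_ne hh with h0 | h0
  · refine Finset.card_bij' (fun x _ => x.2) (fun n _ => (n + h.natAbs, n)) ?_ ?_ ?_ ?_
    · intro x hx
      obtain ⟨h1, h2⟩ := Finset.mem_filter.mp hx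
      obtain ⟨h3, h4⟩ := Finset.mem_product.mp h1
      simp only [id] at h2
      refine Finset.mem_filter.mpr ⟨h4, ?_⟩
      have : x.2 + h.natAbs = x.1 := by omega
      rw [this]; exact h3
    · intro n hn
      obtain ⟨h1, h2⟩ := Finset.mem_filter.mp hn
      refine Finset.mem_filter.mpr ⟨Finset.mem_product.mpr ⟨h2, h1⟩, ?_⟩
      simp only [id]
      omega
    · intro x hx
      have h2 := (Finset.mem_filter.mp hx).2
      simp only [id] at h2
      refine Prod.ext ?_ rfl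
      simp only; omega
    · intro n _; rfl
  · refine Finset.card_bij' (fun x _ => x.1) (fun n _ => (n, n + h.natAbs)) ?_ ?_ ?_ ?_
    · intro x hx
      obtain ⟨h1, h2⟩ := Finset.mem_filter.mp hx
      obtain ⟨h3, h4⟩ := Finset.mem_product.mp h1
      simp only [id] at h2
      refine Finset.mem_filter.mpr ⟨h3, ?_⟩
      have : x.1 + h.natAbs = x.2 := by omega
      rw [this]; exact h4
    · intro n hn
      obtain ⟨h1, h2⟩ := Finset.mem_filter.mp hn
      refine Finset.mem_filter.mpr ⟨Finset.mem_product.mpr ⟨h1, h2⟩, ?_⟩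
      simp only [id]
      omega
    · intro x hx
      have h2 := (Finset.mem_filter.mp hx).2
      simp only [id] at h2
      refine Prod.ext rfl ?_
      simp only; omega
    · intro n _; rfl

/-- the energy of a set with the divisor weight -/
noncomputable def En (S : Finset ℕ) (X : ℕ) : ℝ :=
  ∑ h ∈ Finset.Icc 1 X, (h.divisors.card : ℝ) ^ 2 * ((S.filter (fun n => n + h ∈ S)).card : ℝ) ^ 2

lemma H2_set_le {S : Finset ℕ} {X : ℕ} (hS : S ⊆ Finset.Ioc X (2 * X)) : H2 S id (2 * X) ≤ 2 * En S X := by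
  have h1 : H2 S id (2 * X) = ∑ h ∈ Zs (2 * X), (fun n : ℕ => tauR n ^ 2 *
      ((S.filter (fun m => m + n ∈ S)).card : ℝ) ^ 2) h.natAbs := by
    unfold H2
    refine Finset.sum_congr rfl fun h hh => ?_
    rw [rr_id_eq S (mem_Zs.mp hh).1]
  rw [h1, sum_Zs (fun n : ℕ => tauR n ^ 2 * ((S.filter (fun m => m + n ∈ S)).card : ℝ) ^ 2)]
  refine mul_le_mul_of_nonneg_left ?_ (by norm_num)
  unfold En
  have h2 : Finset.Icc 1 X = Finset.Ioc 0 X := rfl
  rw [h2]
  have h3 : Finset.Ioc 0 X ⊆ Finset.Ioc 0 (2 * X) := Finset.Ioc_subset_Ioc_right (by omega)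
  rw [← Finset.sum_subset h3]
  · exact le_rfl
  · intro n hn hn'
    have h4 := Finset.mem_Ioc.mp hn
    have h5 : X < n := by
      by_contra h6
      exact hn' (Finset.mem_Ioc.mpr ⟨h4.1, by omega⟩)
    have h6 : S.filter (fun m => m + n ∈ S) = ∅ := by
      rw [Finset.filter_eq_empty_iff]
      intro m hm hm'
      have h7 := Finset.mem_Ioc.mp (hS hm)
      have h8 := Finset.mem_Ioc.mp (hS hm')
      omega
    rw [h6]; simp

lemma H3_set_le (S : Finset ℕ) (Y : ℕ) : H3 S id Y ^ 2 ≤ 2 * Y * H2 S id Y := by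
  have h1 : H3 S id Y ≤ ∑ h ∈ Zs Y, tauR h.natAbs * rr S id h := by
    unfold H3
    refine Finset.sum_le_sum fun h _ => mul_le_mul_of_nonneg_left ?_ (tauR_nonneg _)
    calc ∑ x ∈ PP S id h, (((PP S id h).filter (fun y => id y.1 = id x.1)).card : ℝ)
        ≤ ∑ _x ∈ PP S id h, (1:ℝ) := by
          refine Finset.sum_le_sum fun x hx => ?_
          have : ((PP S id h).filter (fun y => id y.1 = id x.1)).card ≤ 1 := by
            rw [Finset.card_le_one]
            intro y hy z hz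
            obtain ⟨h2, h3⟩ := Finset.mem_filter.mp hy
            obtain ⟨h4, h5⟩ := Finset.mem_filter.mp hz
            have h6 := (Finset.mem_filter.mp h2).2
            have h7 := (Finset.mem_filter.mp h4).2
            simp only [id] at h3 h5 h6 h7
            refine Prod.ext (h3.trans h5.symm) ?_
            have : (y.1:ℤ) = z.1 := by exact_mod_cast h3.trans h5.symm
            omega
          exact_mod_cast this
      _ = rr S id h := by rw [Finset.sum_const, nsmul_eq_mul, mul_one]; rfl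
  have h30 : 0 ≤ H3 S id Y := by
    unfold H3
    refine Finset.sum_nonneg fun _ _ => mul_nonneg (tauR_nonneg _) (Finset.sum_nonneg fun _ _ => Nat.cast_nonneg _)
  calc H3 S id Y ^ 2 ≤ (∑ h ∈ Zs Y, tauR h.natAbs * rr S id h) ^ 2 := by gcongr
    _ ≤ (Zs Y).card * ∑ h ∈ Zs Y, (tauR h.natAbs * rr S id h) ^ 2 := sq_sum_le_card_mul_sum_sq
    _ = (Zs Y).card * H2 S id Y := by
        unfold H2
        congr 1
        exact Finset.sum_congr rfl fun h _ => by ring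
    _ ≤ 2 * Y * H2 S id Y := by
        have h2 : ((Zs Y).card : ℝ) ≤ 2 * Y := by
          have h3 := sum_Zs (X := Y) (fun _ => (1:ℝ))
          rw [Finset.sum_const, Finset.sum_const, nsmul_eq_mul, nsmul_eq_mul, Nat.card_Ioc] at h3
          simp only [mul_one, Nat.sub_zero] at h3
          exact h3.le
        have h4 : 0 ≤ H2 S id Y := Finset.sum_nonneg fun _ _ => by positivity
        gcongr

open Classical in
/-- **Part C.** -/
theorem finC {ε : ℝ} (hε : 0 < ε) (A C : ℕ) :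
    ∃ B X₀ : ℕ, ∀ X : ℕ, X₀ ≤ X → ∀ S : Finset ℕ, S ⊆ Finset.Ioc X (2 * X) →
      √X * Real.log X ^ B ≤ S.card →
      X * ∑ h ∈ Finset.Icc 1 X, (h.divisors.card : ℝ) ^ 2 * ((S.filter (fun n => n + h ∈ S)).card : ℝ) ^ 2 ≤
        (S.card : ℝ) ^ 4 * Real.log X ^ C →
      ((S.filter (fun N : ℕ => ¬ ∀ Q : ℝ, Q ≤ N * Real.exp (-(Real.log N) ^ ε) →
          D g1 N Q ≤ N / Real.log N ^ A ∧ D g2 N Q ≤ N / Real.log N ^ A)).card : ℝ) ≤
        S.card / Real.log X ^ A := by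
  have hε' : 0 < min ε 1 := lt_min hε one_pos
  obtain ⟨B, X₁, h₁⟩ := count_gen A 1 A (C + 1) hε' (min_le_right _ _)
  obtain ⟨X₂, hX₂⟩ := eventually_atTop.mp ((ev_LL_ge (2 * 4 ^ B + 8 * 4 ^ (B + C + 1))).and
    ((ev_LL_ge 8).and (eventually_ge_atTop 3)))
  refine ⟨B + C + 4, max X₁ X₂, fun X hX S hS hc hE => ?_⟩
  have hX1 : X₁ ≤ X := (le_max_left _ _).trans hX
  have hX2 : X₂ ≤ X := (le_max_right _ _).trans hX
  obtain ⟨e1, e2, hX3⟩ := hX₂ X hX2
  have hX0 : (0:ℝ) < X := by exact_mod_cast (by omega : 0 < X)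
  have hlX := one_le_log (show (3:ℝ) ≤ X by exact_mod_cast hX3)
  set l := Real.log X with hl
  have hLX : LL X = 1 + l := rfl
  have hL2 : LL (2 * X) ≤ 4 * l := by
    have h1 := LL_mul_le (H := 2) (by norm_num) (by omega : 1 ≤ X)
    have h2 := Real.log_two_lt_d9
    push_cast at h1
    linarith
  have hlL : l ≤ LL (2 * X) := by
    have := LL_mono (by omega : 1 ≤ X) (by omega : X ≤ 2 * X)
    linarith
  have hLp := LL_pos (2 * X)
  have hL1 := LL_one_le (2 * X)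
  have hbig : 2 * 4 ^ B + 8 * 4 ^ (B + C + 1) ≤ 2 * l := by linarith
  have hl0 : 0 < l := by linarith
  set n : ℝ := (S.card : ℝ) with hn
  have hn0 : 0 ≤ n := Nat.cast_nonneg _
  have hYR : ((2 * X : ℕ) : ℝ) = 2 * X := by push_cast; ring
  have hp4 : (1:ℝ) ≤ 4 ^ (B + C + 1) := one_le_pow₀ (by norm_num)
  have hp4' : (1:ℝ) ≤ 4 ^ B := one_le_pow₀ (by norm_num)
  have hr0 : rr S id 0 ≤ n := rr_id_le S 0
  have hn1 : √(X:ℝ) * l ^ (B + C + 4) ≤ n := hc
  have hH2 : H2 S id (2 * X) * ((2 * X : ℕ) : ℝ) ≤ n ^ 4 * LL (2 * X) ^ (C + 1) := by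
    have h1 := H2_set_le hS
    have h4 : X * En S X ≤ n ^ 4 * l ^ C := hE
    calc H2 S id (2 * X) * ((2 * X : ℕ) : ℝ) ≤ (2 * En S X) * ((2 * X : ℕ) : ℝ) := by gcongr
      _ = 4 * (X * En S X) := by rw [hYR]; ring
      _ ≤ 4 * (n ^ 4 * l ^ C) := by gcongr
      _ = n ^ 4 * (4 * l ^ C) := by ring
      _ ≤ n ^ 4 * (LL (2 * X) * LL (2 * X) ^ C) := by
          have h5 : 4 ≤ LL (2 * X) := by
            have := LL_mono (by omega : 1 ≤ X) (by omega : X ≤ 2 * X)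
            linarith
          gcongr
      _ = _ := by rw [pow_succ]; ring
  have hcnt := h₁ (2 * X) (by omega) ℕ S id (fun i hi => by
    have := Finset.mem_Ioc.mp (hS hi)
    exact ⟨by simp only [id]; omega, this.2⟩) ?_ hH2 ?_
  · have hL := LL_pos (2 * X)
    have h5 : ((S.filter (fun N : ℕ => ¬ ∀ Q : ℝ, Q ≤ N * Real.exp (-(Real.log N) ^ ε) →
          D g1 N Q ≤ N / Real.log N ^ A ∧ D g2 N Q ≤ N / Real.log N ^ A)).card : ℝ) ≤
        ((S.filter (fun i : ℕ => ((2 * X : ℕ):ℝ) ≤ id i * LL (2 * X) ^ 1 ∧ ¬ OKl A (min ε 1) (id i))).card : ℝ) := by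
      refine Nat.cast_le.mpr (Finset.card_le_card fun N hN => ?_)
      obtain ⟨h6, h7⟩ := Finset.mem_filter.mp hN
      have h8 := Finset.mem_Ioc.mp (hS h6)
      refine Finset.mem_filter.mpr ⟨h6, ?_, fun hok => h7 (ok_of_OKl (by omega) hok)⟩
      rw [pow_one, hYR]
      have h9 : (X:ℝ) ≤ (N:ℝ) := by exact_mod_cast h8.1.le
      have h10 : 2 ≤ LL (2 * X) := by
        have := LL_mono (by omega : 1 ≤ X) (by omega : X ≤ 2 * X)
        linarith
      simp only [id]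
      calc (2:ℝ) * X = X * 2 := by ring
        _ ≤ N * LL (2 * X) := by gcongr
    rw [le_div_iff₀ (by positivity)]
    calc _ ≤ ((S.filter (fun i : ℕ => ((2 * X : ℕ):ℝ) ≤ id i * LL (2 * X) ^ 1 ∧ ¬ OKl A (min ε 1) (id i))).card : ℝ) *
          LL (2 * X) ^ A := by gcongr
      _ ≤ _ := hcnt
  · -- r(0)
    calc rr S id 0 * √((2 * X : ℕ) : ℝ) * LL (2 * X) ^ B ≤ n * (2 * √(X:ℝ)) * (4 * l) ^ B := by
          have h3 : √((2 * X : ℕ) : ℝ) ≤ 2 * √(X:ℝ) := by
            rw [hYR, Real.sqrt_mul (by norm_num)]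
            have : √(2:ℝ) ≤ 2 := by
              rw [Real.sqrt_le_left (by norm_num)]; norm_num
            gcongr
          gcongr
      _ = n * (√(X:ℝ) * ((2 * 4 ^ B) * l ^ B)) := by rw [mul_pow]; ring
      _ ≤ n * (√(X:ℝ) * ((2 * l) * l ^ B)) := by
          have h4 : 2 * 4 ^ B ≤ 2 * l := by linarith
          gcongr
      _ ≤ n * (√(X:ℝ) * (l * l * l ^ B)) := by
          have h4 : (2:ℝ) ≤ l := by linarith
          gcongr
      _ = n * (√(X:ℝ) * l ^ (B + 2)) := by ring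
      _ ≤ n * (√(X:ℝ) * l ^ (B + C + 4)) := by
          have : l ^ (B + 2) ≤ l ^ (B + C + 4) := pow_le_pow_right₀ hlX (by omega)
          gcongr
      _ ≤ n * n := by gcongr
      _ = n ^ 2 := by ring
  · -- H3
    have h3 := H3_set_le S (2 * X)
    have h30 : 0 ≤ H3 S id (2 * X) := by
      unfold H3
      refine Finset.sum_nonneg fun _ _ => mul_nonneg (tauR_nonneg _) (Finset.sum_nonneg fun _ _ => Nat.cast_nonneg _)
    have h4 : H3 S id (2 * X) ^ 2 ≤ (2 * n ^ 2 * LL (2 * X) ^ (C + 1)) ^ 2 := by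
      calc H3 S id (2 * X) ^ 2 ≤ 2 * ((2 * X : ℕ):ℝ) * H2 S id (2 * X) := h3
        _ = 2 * (H2 S id (2 * X) * ((2 * X : ℕ) : ℝ)) := by ring
        _ ≤ 2 * (n ^ 4 * LL (2 * X) ^ (C + 1)) := by gcongr
        _ ≤ 4 * (n ^ 4 * LL (2 * X) ^ (C + 1 + (C + 1))) := by
            have h5 : LL (2 * X) ^ (C + 1) ≤ LL (2 * X) ^ (C + 1 + (C + 1)) := pow_le_pow_right₀ hL1 (by omega)
            have h6 : 0 ≤ n ^ 4 * LL (2 * X) ^ (C + 1) := by positivity
            have h7 : n ^ 4 * LL (2 * X) ^ (C + 1) ≤ n ^ 4 * LL (2 * X) ^ (C + 1 + (C + 1)) := by gcongr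
            linarith
        _ = _ := by rw [pow_add _ (C + 1) (C + 1)]; ring
    have h5 : H3 S id (2 * X) ≤ 2 * n ^ 2 * LL (2 * X) ^ (C + 1) :=
      le_of_sq_le_sq h4 (by positivity)
    calc H3 S id (2 * X) * ((2 * X : ℕ) : ℝ) * LL (2 * X) ^ B
        ≤ (2 * n ^ 2 * LL (2 * X) ^ (C + 1)) * ((2 * X : ℕ) : ℝ) * LL (2 * X) ^ B := by gcongr
      _ = 4 * n ^ 2 * X * LL (2 * X) ^ (B + C + 1) := by
          rw [hYR, show B + C + 1 = (C + 1) + B by ring, pow_add]; ring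
      _ ≤ 4 * n ^ 2 * X * (4 * l) ^ (B + C + 1) := by gcongr
      _ = n ^ 2 * (X * ((4 * 4 ^ (B + C + 1)) * l ^ (B + C + 1))) := by rw [mul_pow]; ring
      _ ≤ n ^ 2 * (X * (l * l ^ (B + C + 1))) := by
          have h6 : 4 * 4 ^ (B + C + 1) ≤ l := by linarith
          gcongr
      _ = n ^ 2 * (X * l ^ (B + C + 2)) := by ring
      _ ≤ n ^ 2 * (X * l ^ (2 * (B + C + 4))) := by
          have : l ^ (B + C + 2) ≤ l ^ (2 * (B + C + 4)) := pow_le_pow_right₀ hlX (by omega)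
          gcongr
      _ = n ^ 2 * (√(X:ℝ) * l ^ (B + C + 4)) ^ 2 := by
          rw [mul_pow, Real.sq_sqrt hX0.le, ← pow_mul, mul_comm (B + C + 4) 2]
      _ ≤ n ^ 2 * n ^ 2 := by gcongr
      _ = n ^ 4 := by ring

end Pool.Agent.SEH.En
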