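import Pool.Agent.SEH.Fin2

/-!
# Final part 3: one shift, level `√N (log N)^(-B)`
-/

open Complex Pool.Agent.ANT Pool.Agent.DEH Filter

namespace Pool.Agent.SEH.En

lemma D_le_US {g : ℕ → ℝ} {N Q₁ Y : ℕ} {Q : ℝ} (hQ1 : 1 ≤ Q₁) (hQY : Q₁ ≤ Y) (h : ⌊Q⌋₊ ≤ Q₁) :
    D g N Q ≤ (1 + LL Y ^ 2) * US g Q₁ N := by
  unfold D
  have h1 := S_le_US (g := g) (N := N) hQ1
  have h2 := sum_phi_le (X := Y) (s := Finset.Ioc 0 Q₁) (Finset.Ioc_subset_Ioc_right hQY)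
  have h3 := US_nonneg g Q₁ N
  have hL := LL_pos Y
  calc _ ≤ ∑ q ∈ (Finset.Icc 1 ⌊Q⌋₊).filter (fun q => q.Coprime N),
        (|E g N q| + 1 / (q.totient : ℝ) * |S g N|) := by
        refine Finset.sum_le_sum fun q _ => ?_
        refine (abs_sub _ _).trans ?_
        rw [abs_mul, abs_of_nonneg (by positivity : (0:ℝ) ≤ 1 / (q.totient : ℝ))]
    _ ≤ ∑ q ∈ Finset.Ioc 0 Q₁, (|E g N q| + 1 / (q.totient : ℝ) * |S g N|) := by
        refine Finset.sum_le_sum_of_subset_of_nonneg ?_ fun _ _ _ => by positivity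
        intro q hq
        have h4 := Finset.mem_Icc.mp (Finset.mem_filter.mp hq).1
        exact Finset.mem_Ioc.mpr ⟨h4.1, h4.2.trans h⟩
    _ = US g Q₁ N + (∑ q ∈ Finset.Ioc 0 Q₁, 1 / (q.totient : ℝ)) * |S g N| := by
        rw [Finset.sum_add_distrib, ← Finset.sum_mul]; rfl
    _ ≤ US g Q₁ N + LL Y ^ 2 * US g Q₁ N := by gcongr
    _ = _ := by ring

/-- the small moduli for one shift -/
lemma smallA {g : ℕ → ℝ} (hg : g = g1 ∨ g = g2) {a b c : ℤ} (ha : 0 < a) (A₁ : ℕ) :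
    ∀ᶠ X : ℕ in atTop, ∀ w : ℕ, w ≤ X → ∀ Q₁ : ℕ,
      (Q₁:ℝ) * LL (Hz a b c * X) ^ (4 * A₁ + 31) ≤ √((Hz a b c * X : ℕ) : ℝ) →
      (∑ x ∈ fam b c X {w}, US g Q₁ (Nv a b c x.1 x.2)) * LL (Hz a b c * X) ^ A₁ ≤
        (fam b c X {w}).card * ((Hz a b c * X : ℕ) : ℝ) := by
  set m := 4 * A₁ + 35 with hm
  obtain ⟨K, hK, h₂⟩ := partS (good_g hg) (bound_g hg) m
  set H := Hz a b c with hH
  have hH1 : 1 ≤ H := by rw [hH]; unfold Hz; omega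
  have hHR : (1:ℝ) ≤ H := by exact_mod_cast hH1
  filter_upwards [card_s (kz b c), ev_LL_ge (K * (2 * H + 8 * H * 2 ^ m)), ev_LL_ge 2, eventually_ge_atTop 3]
    with X e1 e2 e3 hX3 w hw Q₁ hQ
  have hX1 : 1 ≤ X := by omega
  have hX0 : (0:ℝ) < X := by exact_mod_cast (by omega : 0 < X)
  set Y := H * X with hY
  have hXY : X ≤ Y := Nat.le_mul_of_pos_left X hH1
  have hYR : (Y:ℝ) = H * X := by rw [hY]; push_cast; ring
  have hY0 : (0:ℝ) < Y := by rw [hYR]; positivity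
  have hLXY : LL X ≤ LL Y := LL_mono hX1 hXY
  have hL := LL_pos Y
  have hL1 := LL_one_le Y
  have hlog : LL Y / 2 ≤ Real.log Y := by
    have : 2 ≤ LL Y := e3.trans hLXY
    unfold LL at this ⊢; linarith
  set s := Finset.Ioc (kz b c) (Nat.sqrt X) with hs
  have hsk : ∀ k ∈ s, kz b c < k := fun k hk => (Finset.mem_Ioc.mp hk).1
  set P : ℝ := (s.card : ℝ) with hP
  have hP0 : 0 ≤ P := Nat.cast_nonneg _
  have hcard : ((fam b c X {w}).card : ℝ) = P := by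
    unfold fam; rw [Finset.card_product, Finset.card_singleton, mul_one]
  have hfam : fam b c X {w} = s ×ˢ {w} := rfl
  have hW : ({w} : Finset ℕ) ⊆ Finset.range (X + 1) := by
    rw [Finset.singleton_subset_iff, Finset.mem_range]; omega
  -- size of P
  have hXP : (X:ℝ) ≤ 4 * P ^ 2 := by
    have h1 : √(X:ℝ) ^ 2 ≤ (2 * P) ^ 2 := by
      have : √(X:ℝ) ≤ 2 * P := by linarith
      gcongr
    rw [Real.sq_sqrt hX0.le] at h1
    linarith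
  have hYP : (Y:ℝ) ≤ 4 * H * P ^ 2 := by
    rw [hYR]
    calc (H:ℝ) * X ≤ H * (4 * P ^ 2) := by gcongr
      _ = _ := by ring
  have hsY : √(Y:ℝ) ≤ 2 * H * P := by
    rw [Real.sqrt_le_left (by positivity)]
    calc (Y:ℝ) ≤ 4 * H * P ^ 2 := hYP
      _ ≤ 4 * H * P ^ 2 * H := by
          have : 0 ≤ 4 * (H:ℝ) * P ^ 2 := by positivity
          nlinarith
      _ = _ := by ring
  have hr0 := (rr_single ha hsk w).1
  have hH1' := H1_single ha hsk w Y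
  rw [← hfam] at hr0 hH1'
  have hr00 := rr_nonneg (fam b c X {w}) (fun x => Nv a b c x.1 x.2) 0
  have hQ0 : (0:ℝ) ≤ Q₁ := Nat.cast_nonneg _
  have hQY : Q₁ ^ 2 ≤ Y := by
    have h1 : (Q₁:ℝ) ≤ √(Y:ℝ) := by
      refine le_trans ?_ hQ
      have : (1:ℝ) ≤ LL Y ^ (4 * A₁ + 31) := one_le_pow₀ hL1
      nlinarith
    have h2 : (Q₁:ℝ) ^ 2 ≤ Y := by
      calc (Q₁:ℝ) ^ 2 ≤ √(Y:ℝ) ^ 2 := by gcongr
        _ = (Y:ℝ) := Real.sq_sqrt hY0.le
    exact_mod_cast h2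
  have t2 := h₂ Y (by omega) (ℕ × ℕ) (fam b c X {w}) (fun x => Nv a b c x.1 x.2) (fam_range ha hX1 hW) Q₁ hQY
  rw [hcard] at t2 ⊢
  have hUU : ∑ x ∈ fam b c X {w}, US g Q₁ (Nv a b c x.1 x.2) =
      ∑ i ∈ fam b c X {w}, ∑ q ∈ Finset.Ioc 0 Q₁, |E g (Nv a b c i.1 i.2) q| := rfl
  rw [hUU]
  set U := ∑ i ∈ fam b c X {w}, ∑ q ∈ Finset.Ioc 0 Q₁, |E g (Nv a b c i.1 i.2) q| with hU
  have hs1 : rr (fam b c X {w}) (fun x => Nv a b c x.1 x.2) 0 * Y * Q₁ ≤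
      2 * H * P ^ 2 * Y / LL Y ^ (4 * A₁ + 31) := by
    rw [le_div_iff₀ (by positivity)]
    calc rr (fam b c X {w}) (fun x => Nv a b c x.1 x.2) 0 * Y * Q₁ * LL Y ^ (4 * A₁ + 31)
        = rr (fam b c X {w}) (fun x => Nv a b c x.1 x.2) 0 * Y * (Q₁ * LL Y ^ (4 * A₁ + 31)) := by ring
      _ ≤ P * Y * (2 * H * P) := by
          have := hQ.trans hsY
          gcongr
      _ = _ := by ring
  have hs2 : √(H1 (fam b c X {w}) (fun x => Nv a b c x.1 x.2) Y) * Y * √(Y:ℝ) / Real.log Y ^ m ≤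
      8 * H * 2 ^ m * P ^ 2 * Y / LL Y ^ (4 * A₁ + 31) := by
    have h3 : √(H1 (fam b c X {w}) (fun x => Nv a b c x.1 x.2) Y) * √(Y:ℝ) ≤ 2 * Y * LL Y ^ 4 := by
      rw [← Real.sqrt_mul H1_nonneg]
      refine Real.sqrt_le_iff.mpr ⟨by positivity, ?_⟩
      calc H1 (fam b c X {w}) (fun x => Nv a b c x.1 x.2) Y * Y ≤ (2 * (Y * LL Y ^ 7)) * Y := by gcongr
        _ ≤ (4 * (Y * LL Y ^ 8)) * Y := by
            have h5 : LL Y ^ 7 ≤ LL Y ^ 8 := pow_le_pow_right₀ hL1 (by norm_num)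
            have h6 : (Y:ℝ) * LL Y ^ 7 ≤ Y * LL Y ^ 8 := by gcongr
            have h7 : 0 ≤ (Y:ℝ) * LL Y ^ 7 := by positivity
            have h8 : 2 * ((Y:ℝ) * LL Y ^ 7) ≤ 4 * (Y * LL Y ^ 8) := by linarith
            gcongr
        _ = _ := by ring
    calc √(H1 (fam b c X {w}) (fun x => Nv a b c x.1 x.2) Y) * Y * √(Y:ℝ) / Real.log Y ^ m
        = (√(H1 (fam b c X {w}) (fun x => Nv a b c x.1 x.2) Y) * √(Y:ℝ)) * Y / Real.log Y ^ m := by ring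
      _ ≤ (2 * Y * LL Y ^ 4) * Y / (LL Y / 2) ^ m := by gcongr
      _ = 2 * Y * 2 ^ m * Y / LL Y ^ (4 * A₁ + 31) := by
          have h9 : LL Y ^ m = LL Y ^ (4 * A₁ + 31) * LL Y ^ 4 := by rw [hm, ← pow_add]
          rw [div_pow, h9]
          field_simp
      _ ≤ 2 * (4 * H * P ^ 2) * 2 ^ m * Y / LL Y ^ (4 * A₁ + 31) := by gcongr
      _ = _ := by ring
  have hU4 : U ^ 4 ≤ (P * Y / LL Y ^ A₁) ^ 4 := by
    calc U ^ 4 ≤ K * P ^ 2 * (Y:ℝ) ^ 3 * LL Y ^ 30 *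
          (rr (fam b c X {w}) (fun x => Nv a b c x.1 x.2) 0 * Y * Q₁ +
            √(H1 (fam b c X {w}) (fun x => Nv a b c x.1 x.2) Y) * Y * √(Y:ℝ) / Real.log Y ^ m) := t2
      _ ≤ K * P ^ 2 * (Y:ℝ) ^ 3 * LL Y ^ 30 * (2 * H * P ^ 2 * Y / LL Y ^ (4 * A₁ + 31) +
            8 * H * 2 ^ m * P ^ 2 * Y / LL Y ^ (4 * A₁ + 31)) := by gcongr
      _ = (P * Y) ^ 4 * ((K * (2 * H + 8 * H * 2 ^ m)) * LL Y ^ 30 / LL Y ^ (4 * A₁ + 31)) := by ring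
      _ ≤ (P * Y) ^ 4 * (LL Y * LL Y ^ 30 / LL Y ^ (4 * A₁ + 31)) := by
          have := e2.trans hLXY
          gcongr
      _ = (P * Y / LL Y ^ A₁) ^ 4 := by
          have h9 : LL Y ^ (4 * A₁ + 31) = (LL Y ^ A₁) ^ 4 * (LL Y * LL Y ^ 30) := by
            rw [← pow_mul]; ring
          rw [h9]
          field_simp
  have hUb : U ≤ P * Y / LL Y ^ A₁ := le_of_pow_le_pow_left₀ (by norm_num) (by positivity) hU4
  rwa [le_div_iff₀ (by positivity)] at hUb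

open Classical in
/-- **Part A.** -/
theorem finA {a b c : ℤ} (ha : 0 < a) (A : ℕ) :
    ∃ X₀ : ℕ, ∀ X : ℕ, X₀ ≤ X → ∀ w : ℕ, w ≤ X →
      (((Finset.range (Nat.sqrt X + 1)).filter (fun k : ℕ => ¬ ∀ N : ℕ,
        (N:ℤ) = a * (k:ℤ) ^ 2 + b * k + c + w → ∀ Q : ℝ, Q ≤ √N / Real.log N ^ (16 * A + 56) →
          D g1 N Q ≤ N / Real.log N ^ A ∧ D g2 N Q ≤ N / Real.log N ^ A)).card : ℝ) ≤
        √X / Real.log X ^ A := by
  set A₁ := A + 2 * (A + 1) + (A + 1) + 3 with hA₁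
  set B₁ := 4 * A₁ + 31 with hB₁
  set H := Hz a b c with hH
  have hH1 : 1 ≤ H := by rw [hH]; unfold Hz; omega
  obtain ⟨X₁, hX₁⟩ := eventually_atTop.mp ((smallA (g := g1) (Or.inl rfl) (b := b) (c := c) ha A₁).and
    ((smallA (g := g2) (Or.inr rfl) (b := b) (c := c) ha A₁).and ((fam_count (b := b) (c := c) ha A).and (eventually_ge_atTop 3))))
  obtain ⟨X₂, hX₂⟩ := eventually_atTop.mp ((ev_LL_pow 1 (2 * (A + 1)) (show (0:ℝ) < 1 / 2 by norm_num)).and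
    ((ev_LL_pow 2 B₁ (show (0:ℝ) < 1 / 2 by norm_num)).and (ev_LL_ge (2 + 4 ^ (B₁ + 1)))))
  have hexp : 16 * A + 56 = B₁ + 1 := by rw [hB₁, hA₁]; ring
  rw [hexp]
  refine ⟨max X₁ X₂, fun X hX w hw => ?_⟩
  have hX1 : X₁ ≤ X := (le_max_left _ _).trans hX
  have hX2 : X₂ ≤ X := (le_max_right _ _).trans hX
  obtain ⟨e1, e2, e3, hX3⟩ := hX₁ X hX1
  have hX0 : (0:ℝ) < X := by exact_mod_cast (by omega : 0 < X)
  set Y := H * X with hY
  have hXY : X ≤ Y := Nat.le_mul_of_pos_left X hH1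
  obtain ⟨f1, f2, f3⟩ := hX₂ Y (hX2.trans hXY)
  rw [one_mul] at f1
  rw [← Real.sqrt_eq_rpow] at f1 f2
  have hY0 : (0:ℝ) < Y := by exact_mod_cast (by omega : 0 < Y)
  have hL := LL_pos Y
  have hL1 := LL_one_le Y
  have hp4 : (1:ℝ) ≤ 4 ^ (B₁ + 1) := one_le_pow₀ (by norm_num)
  have hL3 : 2 ≤ LL Y := by linarith
  have hlY : LL Y / 2 ≤ Real.log Y := by unfold LL at hL3 ⊢; linarith
  set Q₁ := ⌊√(Y:ℝ) / LL Y ^ B₁⌋₊ with hQ₁
  have hQ₁le : (Q₁:ℝ) * LL Y ^ B₁ ≤ √(Y:ℝ) := by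
    have h1 : (Q₁:ℝ) ≤ √(Y:ℝ) / LL Y ^ B₁ := Nat.floor_le (by positivity)
    rwa [le_div_iff₀ (by positivity)] at h1
  have hQ₁1 : 1 ≤ Q₁ := by
    refine Nat.le_floor ?_
    rw [le_div_iff₀ (by positivity)]
    have : (0:ℝ) < LL Y ^ B₁ := by positivity
    push_cast; linarith
  have hQ₁Y : Q₁ ≤ Y := by
    have h1 : (Q₁:ℝ) ≤ Y := by
      have h2 : (1:ℝ) ≤ LL Y ^ B₁ := one_le_pow₀ hL1
      have h3 : √(Y:ℝ) ≤ Y := by
        rw [Real.sqrt_le_left hY0.le]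
        have : (1:ℝ) ≤ Y := by exact_mod_cast (by omega : 1 ≤ Y)
        nlinarith
      have h4 : (0:ℝ) ≤ Q₁ := Nat.cast_nonneg _
      nlinarith
    exact_mod_cast h1
  have t1 := e1 w hw Q₁ hQ₁le
  have t2 := e2 w hw Q₁ hQ₁le
  -- the predicate on pairs
  set bad : ℕ × ℕ → Prop := fun x => ¬ ∀ N : ℕ,
        (N:ℤ) = a * (x.1:ℤ) ^ 2 + b * x.1 + c + x.2 → ∀ Q : ℝ, Q ≤ √N / Real.log N ^ (B₁ + 1) →
          D g1 N Q ≤ N / Real.log N ^ A ∧ D g2 N Q ≤ N / Real.log N ^ A with hbad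
  set I := fam b c X {w} with hI
  set J := I.filter (fun x => ((Hz a b c * X : ℕ) : ℝ) ≤
        Nv a b c x.1 x.2 * LL (Hz a b c * X) ^ (2 * (A + 1)) ∧ bad x) with hJ
  set v : ℕ × ℕ → ℝ := fun x => (1 + LL Y ^ 2) * US g1 Q₁ (Nv a b c x.1 x.2) +
    (1 + LL Y ^ 2) * US g2 Q₁ (Nv a b c x.1 x.2) with hv
  have hW : ({w} : Finset ℕ) ⊆ Finset.range (X + 1) := by
    rw [Finset.singleton_subset_iff, Finset.mem_range]; omega
  have hJv : ∀ x ∈ J, Y / LL Y ^ (A + 2 * (A + 1)) ≤ v x := by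
    intro x hx
    obtain ⟨h3, h4, h5⟩ := Finset.mem_filter.mp hx
    obtain ⟨h6, h7⟩ := fam_range ha (by omega : 1 ≤ X) hW x h3
    have hNc := Nv_cast ha (Finset.mem_Ioc.mp (Finset.mem_product.mp h3).1).1 x.2
    set M := Nv a b c x.1 x.2 with hM
    have hN0 : (0:ℝ) < M := by exact_mod_cast h6
    have hNY : (M:ℝ) ≤ Y := by exact_mod_cast h7
    have hs : √(Y:ℝ) ≤ M := by
      have h8 : √(Y:ℝ) * LL Y ^ (2 * (A + 1)) ≤ Y := by
        calc √(Y:ℝ) * LL Y ^ (2 * (A + 1)) ≤ √(Y:ℝ) * √(Y:ℝ) := by gcongr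
          _ = Y := Real.mul_self_sqrt hY0.le
      have h9 : √(Y:ℝ) * LL Y ^ (2 * (A + 1)) ≤ M * LL Y ^ (2 * (A + 1)) := h8.trans h4
      exact le_of_mul_le_mul_right h9 (by positivity)
    have hl : Real.log Y / 2 ≤ Real.log M := by
      have := Real.log_le_log (Real.sqrt_pos.mpr hY0) hs
      rwa [Real.log_sqrt hY0.le] at this
    have hl4 : LL Y / 4 ≤ Real.log M := by linarith
    have hlN0 : 0 < Real.log M := by linarith
    have hlN : Real.log M ≤ LL Y := by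
      have := Real.log_le_log hN0 hNY
      unfold LL; linarith
    have hlow : Y / LL Y ^ (A + 2 * (A + 1)) ≤ M / Real.log M ^ A := by
      calc Y / LL Y ^ (A + 2 * (A + 1)) ≤ (M * LL Y ^ (2 * (A + 1))) / LL Y ^ (A + 2 * (A + 1)) := by gcongr
        _ = M / LL Y ^ A := by rw [pow_add]; field_simp
        _ ≤ _ := by gcongr
    have hn1 := US_nonneg g1 Q₁ M
    have hn2 := US_nonneg g2 Q₁ M
    have hL20 : 0 ≤ 1 + LL Y ^ 2 := by positivity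
    by_contra hcon
    push Not at hcon
    have hcon' : v x = (1 + LL Y ^ 2) * US g1 Q₁ M + (1 + LL Y ^ 2) * US g2 Q₁ M := rfl
    have hm1 := mul_nonneg hL20 hn1
    have hm2 := mul_nonneg hL20 hn2
    apply h5
    intro N hN Q hQ
    have hNM : N = M := by
      have : (N:ℤ) = (M : ℤ) := by rw [hNc, hN]; unfold Fv; ring
      exact_mod_cast this
    subst hNM
    have hfl : ⌊Q⌋₊ ≤ Q₁ := by
      refine Nat.floor_le_floor (hQ.trans ?_)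
      rw [div_le_div_iff₀ (by positivity) (by positivity)]
      have h10 : LL Y ^ (B₁ + 1) ≤ 4 ^ (B₁ + 1) * Real.log M ^ (B₁ + 1) := by
        rw [← mul_pow]
        have : LL Y ≤ 4 * Real.log M := by linarith
        gcongr
      have h11 : 4 ^ (B₁ + 1) ≤ LL Y := by linarith
      have h12 : √(M:ℝ) ≤ √(Y:ℝ) := Real.sqrt_le_sqrt hNY
      have h13 : LL Y ^ B₁ ≤ Real.log M ^ (B₁ + 1) := by
        have h14 : LL Y ^ B₁ * LL Y ≤ Real.log M ^ (B₁ + 1) * LL Y := by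
          calc LL Y ^ B₁ * LL Y = LL Y ^ (B₁ + 1) := (pow_succ _ _).symm
            _ ≤ 4 ^ (B₁ + 1) * Real.log M ^ (B₁ + 1) := h10
            _ ≤ LL Y * Real.log M ^ (B₁ + 1) := by gcongr
            _ = _ := by ring
        exact le_of_mul_le_mul_right h14 hL
      gcongr
    have hd1 := D_le_US (g := g1) (N := M) hQ₁1 hQ₁Y hfl
    have hd2 := D_le_US (g := g2) (N := M) hQ₁1 hQ₁Y hfl
    constructor <;> linarith
  have hvn : ∀ x ∈ I, 0 ≤ v x := by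
    intro x _
    have := US_nonneg g1 Q₁ (Nv a b c x.1 x.2)
    have := US_nonneg g2 Q₁ (Nv a b c x.1 x.2)
    simp only [hv]
    positivity
  have h10 := markov (Finset.filter_subset _ _ : J ⊆ I) (v := v) hvn hJv
  have h11 : (∑ x ∈ I, v x) * LL Y ^ A₁ ≤ (2 * LL Y ^ 2) * (2 * (I.card * Y)) := by
    simp only [hv]
    rw [Finset.sum_add_distrib, ← Finset.mul_sum, ← Finset.mul_sum, ← mul_add]
    have h12 : 1 + LL Y ^ 2 ≤ 2 * LL Y ^ 2 := by nlinarith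
    have h13 : 0 ≤ ∑ x ∈ I, US g1 Q₁ (Nv a b c x.1 x.2) := Finset.sum_nonneg fun _ _ => US_nonneg _ _ _
    have h14 : 0 ≤ ∑ x ∈ I, US g2 Q₁ (Nv a b c x.1 x.2) := Finset.sum_nonneg fun _ _ => US_nonneg _ _ _
    calc (1 + LL Y ^ 2) * (∑ x ∈ I, US g1 Q₁ (Nv a b c x.1 x.2) + ∑ x ∈ I, US g2 Q₁ (Nv a b c x.1 x.2)) * LL Y ^ A₁
        = (1 + LL Y ^ 2) * ((∑ x ∈ I, US g1 Q₁ (Nv a b c x.1 x.2)) * LL Y ^ A₁ +
          (∑ x ∈ I, US g2 Q₁ (Nv a b c x.1 x.2)) * LL Y ^ A₁) := by ring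
      _ ≤ (1 + LL Y ^ 2) * (I.card * Y + I.card * Y) := by gcongr
      _ ≤ (2 * LL Y ^ 2) * (I.card * Y + I.card * Y) := by gcongr
      _ = _ := by ring
  have h12 : (J.card : ℝ) * LL Y ^ (A + 1) * (LL Y ^ 3 * Y) ≤ I.card * (LL Y ^ 3 * Y) := by
    calc (J.card : ℝ) * LL Y ^ (A + 1) * (LL Y ^ 3 * Y) =
          ((J.card : ℝ) * (Y / LL Y ^ (A + 2 * (A + 1)))) * LL Y ^ A₁ := by
          rw [hA₁, show A + 2 * (A + 1) + (A + 1) + 3 = (A + 2 * (A + 1)) + ((A + 1) + 3) by ring,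
            pow_add _ (A + 2 * (A + 1)) ((A + 1) + 3), pow_add _ (A + 1) 3]
          field_simp
      _ ≤ (∑ x ∈ I, v x) * LL Y ^ A₁ := by gcongr
      _ ≤ (2 * LL Y ^ 2) * (2 * (I.card * Y)) := h11
      _ = 4 * (LL Y ^ 2 * (I.card * Y)) := by ring
      _ ≤ LL Y * (LL Y ^ 2 * (I.card * Y)) := by
          have : 4 ≤ LL Y := by
            have h15 : (4:ℝ) ≤ 4 ^ (B₁ + 1) := le_self_pow₀ (by norm_num) (by omega)
            linarith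
          gcongr
      _ = _ := by ring
  have h13 : (J.card : ℝ) * LL Y ^ (A + 1) ≤ I.card := le_of_mul_le_mul_right h12 (by positivity)
  have h14 := e3 {w} bad h13
  rw [Finset.card_singleton, Nat.cast_one, one_mul] at h14
  refine le_trans ?_ h14
  refine Nat.cast_le.mpr (Finset.card_le_card_of_injOn (fun k => (k, w)) ?_ ?_)
  · intro k hk
    obtain ⟨h15, h16⟩ := Finset.mem_filter.mp (Finset.mem_coe.mp hk)
    exact Finset.mem_coe.mpr (Finset.mem_filter.mpr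
      ⟨Finset.mem_product.mpr ⟨h15, Finset.mem_singleton_self w⟩, h16⟩)
  · intro k _ k' _ h
    exact (Prod.mk.inj h).1

end Pool.Agent.SEH.En
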