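import Pool.Agent.SEH.Fin2
import Pool.Agent.SEH.Energy4

/-!
Final part 4: the families `a k^2 + b k + c + w` with few shifts.
-/

open Complex Pool.Agent.ANT Pool.Agent.DEH Filter

namespace Pool.Agent.SEH.En

lemma dW_eq (W : Finset ℕ) : dW W = ∑ w ∈ W, ∑ v ∈ W.erase w, (((v:ℤ) - w).natAbs.divisors.card : ℝ) ^ 2 := by
  unfold dW tauR
  rw [Finset.sum_filter, Finset.sum_product]
  refine Finset.sum_congr rfl fun w hw => ?_
  rw [← Finset.sum_filter]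
  refine Finset.sum_congr ?_ fun v _ => rfl
  ext v
  simp only [Finset.mem_filter, Finset.mem_erase]
  constructor
  · rintro ⟨h1, h2⟩; exact ⟨fun h => h2 h.symm, h1⟩
  · rintro ⟨h1, h2⟩; exact ⟨h2, fun h => h1 h.symm⟩

open Classical in
/-- **Part B, few shifts.** -/
theorem finB2 {a b c : ℤ} (ha : 0 < a) {δ ε : ℝ} (hδ : 0 < δ) (hε : 0 < ε) (A C : ℕ) :
    ∃ B X₀ : ℕ, ∀ X : ℕ, X₀ ≤ X → ∀ W : Finset ℕ, W ⊆ Finset.range (X + 1) →
      ((X:ℝ) ^ δ ≤ W.card ∨ (Real.log X ^ B ≤ W.card ∧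
        ∑ w ∈ W, ∑ v ∈ W.erase w, (((v:ℤ) - w).natAbs.divisors.card : ℝ) ^ 2 ≤
          (W.card : ℝ) ^ 3 * Real.log X ^ C)) →
      ((((Finset.range (Nat.sqrt X + 1)) ×ˢ W).filter (fun x => ¬ ∀ N : ℕ,
        (N:ℤ) = a * (x.1:ℤ) ^ 2 + b * x.1 + c + x.2 → ∀ Q : ℝ, Q ≤ N * Real.exp (-(Real.log N) ^ ε) →
          D g1 N Q ≤ N / Real.log N ^ A ∧ D g2 N Q ≤ N / Real.log N ^ A)).card : ℝ) ≤
        W.card * √X / Real.log X ^ A := by
  obtain ⟨X₅, hX₅⟩ := finB (b := b) (c := c) ha hδ hε A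
  have hε' : 0 < min ε 1 := lt_min hε one_pos
  obtain ⟨B, X₁, h₁⟩ := count_gen A (2 * (A + 1)) (A + 1) (C + 17) hε' (min_le_right _ _)
  set D' := Hz a b c with hD'
  have hH1 : 1 ≤ D' := by rw [hD']; unfold Hz; omega
  have hLt : Tendsto (fun n : ℕ => Real.log (n:ℝ)) atTop atTop :=
    Real.tendsto_log_atTop.comp tendsto_natCast_atTop_atTop
  obtain ⟨X₂, hX₂⟩ := eventually_atTop.mp ((SEH.energyB' b c (by omega : (1:ℤ) ≤ a) C hH1 B).and
    ((fam_count (b := b) (c := c) ha A).and (eventually_ge_atTop 3)))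
  obtain ⟨X₃, hX₃⟩ := eventually_atTop.mp (ev_LL_pow 3 (2 * (A + 1)) one_pos)
  obtain ⟨X₄, hX₄⟩ := eventually_atTop.mp ((SEH.LL_mul_le hH1).and
    ((hLt.eventually_ge_atTop (2 ^ (B + C + 18))).and (card_s (kz b c))))
  refine ⟨B + C + 19, max (max X₁ X₅) (max X₂ (max X₃ X₄)), fun X hX W hW hWc => ?_⟩
  have hX1 : X₁ ≤ X := ((le_max_left _ _).trans (le_max_left _ _)).trans hX
  have hX5 : X₅ ≤ X := ((le_max_right _ _).trans (le_max_left _ _)).trans hX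
  have hX2 : X₂ ≤ X := ((le_max_left _ _).trans (le_max_right _ _)).trans hX
  have hX3 : X₃ ≤ X := (((le_max_left _ _).trans (le_max_right _ _)).trans (le_max_right _ _)).trans hX
  have hX4 : X₄ ≤ X := (((le_max_right _ _).trans (le_max_right _ _)).trans (le_max_right _ _)).trans hX
  rcases hWc with hWc | ⟨hWc, hWd⟩
  · exact hX₅ X hX5 W hW hWc
  obtain ⟨e1, e2, hX3'⟩ := hX₂ X hX2
  obtain ⟨e3, e4, e5⟩ := hX₄ X hX4
  have hX1' : 1 ≤ X := by omega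
  have hXR : (1:ℝ) ≤ X := by exact_mod_cast hX1'
  have hlX := one_le_log (show (3:ℝ) ≤ X by exact_mod_cast hX3')
  have hXY : X ≤ D' * X := Nat.le_mul_of_pos_left X hH1
  have hL := LL_pos (D' * X)
  have hL1 := LL_one_le (D' * X)
  have hlL : Real.log X ≤ LL (D' * X) := by
    have h1 : Real.log X ≤ Real.log ((D' * X : ℕ) : ℝ) :=
      Real.log_le_log (by linarith) (by exact_mod_cast hXY)
    unfold LL; linarith
  have hc1 : LL (D' * X) ^ (B + C + 18) ≤ W.card := by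
    refine le_trans ?_ hWc
    calc LL (D' * X) ^ (B + C + 18) ≤ (2 * Real.log X) ^ (B + C + 18) := by gcongr
      _ = 2 ^ (B + C + 18) * Real.log X ^ (B + C + 18) := by rw [mul_pow]
      _ ≤ Real.log X * Real.log X ^ (B + C + 18) := by gcongr
      _ = _ := by rw [← pow_succ']
  have hc2 : dW W ≤ (W.card : ℝ) ^ 3 * LL (D' * X) ^ C := by
    rw [dW_eq]
    refine hWd.trans ?_
    gcongr
  have hpos : ∀ k ∈ Finset.Ioc (kz b c) (Nat.sqrt X), 0 ≤ SEH.Fv a b c k := by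
    intro k hk
    have h1 := Fv_low (a := a) (b := b) (c := c) ha (Finset.mem_Ioc.mp hk).1
    have h2 : (0:ℤ) ≤ (k:ℤ) ^ 2 := sq_nonneg _
    show 0 ≤ Fv a b c k
    linarith
  have hkb : ∀ k ∈ Finset.Ioc (kz b c) (Nat.sqrt X), b.natAbs < k := by
    intro k hk
    have h1 := (Finset.mem_Ioc.mp hk).1
    unfold kz at h1
    omega
  have hWX : ∀ w ∈ W, w ≤ X := fun w hw => by
    have := Finset.mem_range.mp (hW hw); omega
  obtain ⟨f1, f2, f3⟩ := e1 (Finset.Ioc (kz b c) (Nat.sqrt X)) W hkb hpos e5 (card_s_le _ _) hWX hc1 hc2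
  have h2 := h₁ (D' * X) (hX1.trans hXY) (ℕ × ℕ) (fam b c X W) (fun x => Nv a b c x.1 x.2)
    (fam_range ha hX1' hW) f1 f2 f3
  refine e2 W _ (le_trans ?_ h2)
  refine mul_le_mul_of_nonneg_right ?_ (by positivity)
  refine Nat.cast_le.mpr (Finset.card_le_card fun x hx => ?_)
  obtain ⟨h3, h4, h5⟩ := Finset.mem_filter.mp hx
  refine Finset.mem_filter.mpr ⟨h3, h4, fun hok => h5 fun N hN => ?_⟩
  have h6 := Nv_cast ha (Finset.mem_Ioc.mp (Finset.mem_product.mp h3).1).1 x.2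
  have h7 : N = Nv a b c x.1 x.2 := by
    have : (N:ℤ) = (Nv a b c x.1 x.2 : ℤ) := by rw [h6, hN]; unfold Fv; ring
    exact_mod_cast this
  rw [h7]
  refine ok_of_OKl ?_ hok
  have h8 := hX₃ (D' * X) (hX3.trans hXY)
  rw [Real.rpow_one] at h8
  have h9 : 3 * LL (D' * X) ^ (2 * (A + 1)) ≤ Nv a b c x.1 x.2 * LL (D' * X) ^ (2 * (A + 1)) := h8.trans h4
  have h10 : (3:ℝ) ≤ Nv a b c x.1 x.2 := le_of_mul_le_mul_right h9 (by positivity)
  exact_mod_cast h10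

end Pool.Agent.SEH.En
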