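import Pool.Agent.SEH.Master

/-!
# Sets with the divisor weighted energy of the expected order
(part (C) of doc `proof/MP_e9eb55_nt_SE`)
-/

open Complex Pool.Agent.ANT Pool.Agent.DEH Filter

namespace Pool.Agent.SEH

lemma rr_id_eq (S : Finset ℕ) (h : ℤ) : rr S id h = ((S.filter (fun N => N + h.natAbs ∈ S)).card : ℝ) := by
  unfold rr PP
  congr 1
  rcases le_or_gt 0 h with h0 | h0
  · refine Finset.card_nbij' (fun x => x.1) (fun N => (N, N + h.natAbs)) ?_ ?_ ?_ ?_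
    · rintro ⟨a, b⟩ hx
      simp only [Finset.coe_filter, Finset.mem_product, id, Set.mem_ofPred_eq] at hx ⊢
      have : a + h.natAbs = b := by omega
      rw [this]
      exact hx.1
    · intro N hN
      simp only [Finset.coe_filter, Finset.mem_product, id, Set.mem_ofPred_eq] at hN ⊢
      exact ⟨hN, by omega⟩
    · rintro ⟨a, b⟩ hx
      simp only [Finset.coe_filter, Finset.mem_product, id, Set.mem_ofPred_eq] at hx
      simp only [Prod.mk.injEq, true_and]
      omega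
    · intro N _; rfl
  · refine Finset.card_nbij' (fun x => x.2) (fun N => (N + h.natAbs, N)) ?_ ?_ ?_ ?_
    · rintro ⟨a, b⟩ hx
      simp only [Finset.coe_filter, Finset.mem_product, id, Set.mem_ofPred_eq] at hx ⊢
      have : b + h.natAbs = a := by omega
      rw [this]
      exact ⟨hx.1.2, hx.1.1⟩
    · intro N hN
      simp only [Finset.coe_filter, Finset.mem_product, id, Set.mem_ofPred_eq] at hN ⊢
      exact ⟨⟨hN.2, hN.1⟩, by omega⟩
    · rintro ⟨a, b⟩ hx
      simp only [Finset.coe_filter, Finset.mem_product, id, Set.mem_ofPred_eq] at hx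
      simp only [Prod.mk.injEq, and_true]
      omega
    · intro N _; rfl

lemma rr_id_zero (S : Finset ℕ) : rr S id 0 = S.card := by
  rw [rr_id_eq]
  simp

lemma H3_id (S : Finset ℕ) (X : ℕ) : H3 S id X = ∑ h ∈ Zs X, tauR h.natAbs * rr S id h := by
  classical
  unfold H3
  refine Finset.sum_congr rfl fun h _ => ?_
  congr 1
  have h1 : ∀ x ∈ PP S id h, (((PP S id h).filter (fun y => id y.1 = id x.1)).card : ℝ) = 1 := by
    intro x hx
    have e : (PP S id h).filter (fun y => id y.1 = id x.1) = {x} := by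
      ext y
      rw [Finset.mem_filter, Finset.mem_singleton]
      constructor
      · rintro ⟨h2, h3⟩
        have h4 := (mem_PP.mp h2).2
        have h5 := (mem_PP.mp hx).2
        simp only [id] at h3 h4 h5
        refine Prod.ext h3 ?_
        omega
      · rintro rfl
        exact ⟨hx, rfl⟩
    rw [e]; simp
  rw [Finset.sum_congr rfl h1, Finset.sum_const, nsmul_eq_mul, mul_one]
  rfl

lemma card_Zs (X : ℕ) : ((Zs X).card : ℝ) = 2 * X := by
  have h := sum_Zs (X := X) (fun _ => 1)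
  simpa using h

lemma H3_id_sq (S : Finset ℕ) (X : ℕ) : H3 S id X ^ 2 ≤ 2 * X * H2 S id X := by
  rw [H3_id]
  have h := Finset.sum_mul_sq_le_sq_mul_sq (Zs X) (fun _ : ℤ => (1:ℝ)) (fun h : ℤ => tauR h.natAbs * rr S id h)
  simp only [one_mul, one_pow] at h
  rw [Finset.sum_const, nsmul_eq_mul, mul_one, card_Zs] at h
  refine h.trans (le_of_eq ?_)
  unfold H2
  congr 1
  refine Finset.sum_congr rfl fun h _ => ?_
  rw [mul_pow]

lemma H2_id {S : Finset ℕ} {X : ℕ} (hS : ∀ N ∈ S, X < N ∧ N ≤ 2 * X) : H2 S id (2 * X) =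
    2 * ∑ h ∈ Finset.Icc 1 X, (h.divisors.card : ℝ) ^ 2 * ((S.filter (fun N => N + h ∈ S)).card : ℝ) ^ 2 := by
  have h0 := sum_Zs (X := 2 * X)
    (fun n : ℕ => (n.divisors.card : ℝ) ^ 2 * ((S.filter (fun N => N + n ∈ S)).card : ℝ) ^ 2)
  have h1 : H2 S id (2 * X) = ∑ h ∈ Zs (2 * X),
      (fun n : ℕ => (n.divisors.card : ℝ) ^ 2 * ((S.filter (fun N => N + n ∈ S)).card : ℝ) ^ 2) h.natAbs := by
    unfold H2
    refine Finset.sum_congr rfl fun h _ => ?_
    rw [rr_id_eq]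
    rfl
  rw [h1, h0]
  congr 1
  symm
  have hsub : Finset.Icc 1 X ⊆ Finset.Ioc 0 (2 * X) := by
    intro n hn
    have := Finset.mem_Icc.mp hn
    exact Finset.mem_Ioc.mpr ⟨by omega, by omega⟩
  rw [← Finset.sum_subset hsub]
  intro n hn hn'
  have h2 := Finset.mem_Ioc.mp hn
  have h3 : X < n := by
    by_contra h
    exact hn' (Finset.mem_Icc.mpr ⟨by omega, by omega⟩)
  have h4 : S.filter (fun N => N + n ∈ S) = ∅ := by
    rw [Finset.filter_eq_empty_iff]
    intro N hN hNn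
    have := hS N hN
    have := hS _ hNn
    omega
  rw [h4]
  simp

open Classical in
/-- **Sets of expected energy**, one weight. -/
theorem setsC {g : ℕ → ℝ} (hg : g = g1 ∨ g = g2) (A C : ℕ) {ε : ℝ} (hε : 0 < ε) (hε1 : ε ≤ 1) :
    ∃ B X₀ : ℕ, ∀ X : ℕ, X₀ ≤ X → ∀ S : Finset ℕ, (∀ N ∈ S, X < N ∧ N ≤ 2 * X) →
    √X * Real.log X ^ B ≤ S.card →
    (∑ h ∈ Finset.Icc 1 X, (h.divisors.card : ℝ) ^ 2 * ((S.filter (fun N => N + h ∈ S)).card : ℝ) ^ 2) * X ≤
      (S.card : ℝ) ^ 4 * Real.log X ^ C →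
    ((S.filter (fun N => N ∈ Bad g ε A)).card : ℝ) * Real.log X ^ A ≤ S.card := by
  obtain ⟨B₀, X₁, h1⟩ := count_large hg A (C + 2) 1 hε hε1
  set B : ℕ := C + 2 * B₀ + 3 with hB
  obtain ⟨X₂, hX₂⟩ := eventually_atTop.mp ((Real.tendsto_log_atTop.comp
    tendsto_natCast_atTop_atTop).eventually_ge_atTop (max 2 (8 * 3 ^ (C + 2 + 2 * B₀))))
  refine ⟨B, max X₁ (max X₂ 3), fun X hX S hS hcard hen => ?_⟩
  have hX1 : X₁ ≤ X := le_trans (le_max_left _ _) hX
  have hX3 : 3 ≤ X := le_trans (le_max_right _ _) (le_trans (le_max_right _ _) hX)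
  have hl' := hX₂ X (le_trans (le_max_left _ _) (le_trans (le_max_right _ _) hX))
  simp only [Function.comp_apply] at hl'
  have hl2 : 2 ≤ Real.log X := le_trans (le_max_left _ _) hl'
  have hl8 : 8 * 3 ^ (C + 2 + 2 * B₀) ≤ Real.log X := le_trans (le_max_right _ _) hl'
  have hXR : (3:ℝ) ≤ X := by exact_mod_cast hX3
  have hX0 : (0:ℝ) < X := by linarith
  set l := Real.log X with hldef
  have hl0 : 0 < l := by linarith
  have hl1 : 1 ≤ l := by linarith
  set L := LL (2 * X) with hL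
  have hLeq : L = 1 + Real.log 2 + l := by
    rw [hL, LL]
    push_cast
    rw [Real.log_mul (by norm_num) hX0.ne', hldef]
    ring
  have hlog2 := Real.log_two_lt_d9
  have hlog2' := Real.log_two_gt_d9
  have hL3 : L ≤ 3 * l := by rw [hLeq]; linarith
  have hLl : l ≤ L := by rw [hLeq]; linarith
  have hL2 : 2 ≤ L := by linarith
  have hL0 : 0 < L := by linarith
  set n : ℝ := (S.card : ℝ) with hn
  have hn0 : 0 ≤ n := Nat.cast_nonneg _
  have hX' : X₁ ≤ 2 * X := by omega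
  -- the power of the logarithm
  have hpow : 8 * L ^ (C + 2 + 2 * B₀) ≤ l ^ B := by
    calc 8 * L ^ (C + 2 + 2 * B₀) ≤ 8 * (3 * l) ^ (C + 2 + 2 * B₀) := by gcongr
      _ = (8 * 3 ^ (C + 2 + 2 * B₀)) * l ^ (C + 2 + 2 * B₀) := by rw [mul_pow]; ring
      _ ≤ l * l ^ (C + 2 + 2 * B₀) := by gcongr
      _ = l ^ B := by rw [hB, ← pow_succ']; congr 1; ring
  have hn2 : X * l ^ (2 * B) ≤ n ^ 2 := by
    calc X * l ^ (2 * B) = (√(X:ℝ) * l ^ B) ^ 2 := by
          rw [mul_pow, Real.sq_sqrt hX0.le, ← pow_mul, mul_comm B 2]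
      _ ≤ n ^ 2 := by gcongr
  have hr : rr S id 0 * √((2 * X : ℕ) : ℝ) * L ^ B₀ ≤ n ^ 2 := by
    rw [rr_id_zero, ← hn, sq, mul_assoc]
    refine mul_le_mul_of_nonneg_left (le_trans ?_ hcard) hn0
    push_cast
    rw [Real.sqrt_mul (by norm_num)]
    calc √2 * √X * L ^ B₀ = √X * (√2 * L ^ B₀) := by ring
      _ ≤ √X * (8 * L ^ (C + 2 + 2 * B₀)) := by
          have h2 : √2 ≤ 8 := by
            rw [Real.sqrt_le_left (by norm_num)]; norm_num
          have h3 : L ^ B₀ ≤ L ^ (C + 2 + 2 * B₀) := pow_le_pow_right₀ (by linarith) (by omega)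
          gcongr
      _ ≤ √X * l ^ B := by gcongr
  have hH2 : H2 S id (2 * X) * ((2 * X : ℕ) : ℝ) ≤ n ^ 4 * L ^ (C + 2) := by
    rw [H2_id hS]
    push_cast
    calc 2 * (∑ h ∈ Finset.Icc 1 X, (h.divisors.card : ℝ) ^ 2 *
          ((S.filter (fun N => N + h ∈ S)).card : ℝ) ^ 2) * (2 * X)
        = 4 * ((∑ h ∈ Finset.Icc 1 X, (h.divisors.card : ℝ) ^ 2 *
          ((S.filter (fun N => N + h ∈ S)).card : ℝ) ^ 2) * X) := by ring
      _ ≤ 4 * (n ^ 4 * l ^ C) := by gcongr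
      _ ≤ L ^ 2 * (n ^ 4 * L ^ C) := by
          have : (4:ℝ) ≤ L ^ 2 := by nlinarith
          gcongr
      _ = _ := by rw [pow_add]; ring
  have hH2' : 0 ≤ H2 S id (2 * X) := Finset.sum_nonneg fun _ _ => by positivity
  have hH3 : H3 S id (2 * X) * ((2 * X : ℕ) : ℝ) * L ^ B₀ ≤ n ^ 4 := by
    have h2 := H3_id_sq S (2 * X)
    have h3 : 0 ≤ H3 S id (2 * X) := by
      rw [H3_id]
      exact Finset.sum_nonneg fun _ _ => mul_nonneg (tauR_nonneg _) (Nat.cast_nonneg _)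
    set Y : ℝ := ((2 * X : ℕ) : ℝ) with hY
    have hY0 : 0 ≤ Y := Nat.cast_nonneg _
    have hY2 : Y = 2 * X := by rw [hY]; push_cast; ring
    have h4 : (H3 S id (2 * X) * Y * L ^ B₀) ^ 2 ≤ (n ^ 4) ^ 2 := by
      calc (H3 S id (2 * X) * Y * L ^ B₀) ^ 2 = H3 S id (2 * X) ^ 2 * (Y ^ 2 * L ^ (2 * B₀)) := by
            rw [mul_pow, mul_pow, ← pow_mul, mul_comm B₀ 2]; ring
        _ ≤ (2 * Y * H2 S id (2 * X)) * (Y ^ 2 * L ^ (2 * B₀)) := by gcongr
        _ = 2 * Y ^ 2 * L ^ (2 * B₀) * (H2 S id (2 * X) * Y) := by ring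
        _ ≤ 2 * Y ^ 2 * L ^ (2 * B₀) * (n ^ 4 * L ^ (C + 2)) := by gcongr
        _ = n ^ 4 * (X ^ 2 * (8 * L ^ (C + 2 + 2 * B₀))) := by
            rw [hY2, pow_add L (C + 2)]; ring
        _ ≤ n ^ 4 * (X ^ 2 * l ^ B) := by gcongr
        _ ≤ n ^ 4 * (X * l ^ (2 * B)) ^ 2 := by
            rw [mul_pow, ← pow_mul]
            have : l ^ B ≤ l ^ (2 * B * 2) := pow_le_pow_right₀ hl1 (by omega)
            gcongr
        _ ≤ n ^ 4 * (n ^ 2) ^ 2 := by gcongr
        _ = _ := by ring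
    exact le_of_pow_le_pow_left₀ (by norm_num) (by positivity) h4
  have h5 := h1 (2 * X) hX' ℕ S id (fun N hN => by
    have := hS N hN
    exact ⟨by simp only [id]; omega, by simp only [id]; omega⟩) hr hH2 hH3
  have e : S.filter (fun i => (((2 * X : ℕ) : ℝ)) < (id i : ℕ) * LL (2 * X) ^ 1 ∧ id i ∈ Bad g ε A) =
      S.filter (fun N => N ∈ Bad g ε A) := by
    refine Finset.filter_congr fun N hN => ?_
    simp only [id, and_iff_right_iff_imp]
    intro _
    rw [pow_one, ← hL]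
    have h6 : (X:ℝ) < N := by exact_mod_cast (hS N hN).1
    push_cast
    nlinarith
  rw [e] at h5
  refine le_trans ?_ h5
  rw [← hL]
  gcongr

end Pool.Agent.SEH
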