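import Pool.Agent.SEH.Mom

/-!
Key lemma, part 1: reindexing, moments of `f`, completeness of Ramanujan sums.
-/

open Complex Pool.Agent.ANT Pool.Agent.DEH

namespace Pool.Agent.SEH

lemma Supp.zero {f : ℤ → ℝ} {X : ℕ} (hs : Supp f X) {n : ℤ} (h : ¬ (1 ≤ n ∧ n ≤ X)) : f n = 0 := by
  by_contra h1
  exact h (hs n h1)

/-- Reindexing `n = N - q m`. -/
lemma reindex {φ : ℤ → ℝ} {X m : ℕ} {N : ℤ} (hφ : ∀ n : ℤ, ¬ (1 ≤ n ∧ n ≤ X) → φ n = 0) (hm : 1 ≤ m)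
    (hN1 : 1 ≤ N) (hNX : N ≤ X) :
    ∑ q ∈ Finset.Icc (-(X:ℤ)) X, φ (N - q * m) =
      ∑ n ∈ Finset.Ioc 0 X, if (m:ℤ) ∣ N - n then φ n else 0 := by
  have hm0 : (0:ℤ) < m := by exact_mod_cast hm
  rw [← Finset.sum_filter]
  have h1 : ∑ q ∈ Finset.Icc (-(X:ℤ)) X, φ (N - q * m) =
      ∑ q ∈ (Finset.Icc (-(X:ℤ)) X).filter (fun q => 1 ≤ N - q * m ∧ N - q * m ≤ X), φ (N - q * m) := by
    rw [Finset.sum_filter]
    refine Finset.sum_congr rfl fun q _ => ?_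
    by_cases h : 1 ≤ N - q * m ∧ N - q * m ≤ X
    · rw [if_pos h]
    · rw [if_neg h, hφ _ h]
  rw [h1]
  refine Finset.sum_bij' (fun q _ => (N - q * m).toNat) (fun n _ => (N - n) / m) ?_ ?_ ?_ ?_ ?_
  · intro q hq
    obtain ⟨_, h2, h3⟩ := Finset.mem_filter.mp hq
    refine Finset.mem_filter.mpr ⟨Finset.mem_Ioc.mpr ⟨by omega, by omega⟩, ?_⟩
    have : ((N - q * m).toNat : ℤ) = N - q * m := Int.toNat_of_nonneg (by omega)
    rw [this]
    exact ⟨q, by ring⟩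
  · intro n hn
    obtain ⟨h2, h3⟩ := Finset.mem_filter.mp hn
    obtain ⟨h4, h5⟩ := Finset.mem_Ioc.mp h2
    obtain ⟨k, hk⟩ := h3
    have e : (N - n) / m = k := by rw [hk]; exact Int.mul_ediv_cancel_left k hm0.ne'
    have e2 : N - (N - n) / m * m = n := by rw [e]; linarith
    refine Finset.mem_filter.mpr ⟨Finset.mem_Icc.mpr ?_, ?_⟩
    · rw [e]
      have h6 : |N - n| ≤ X := by rw [abs_le]; constructor <;> omega
      have h7 : |k| ≤ |N - n| := by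
        rw [hk, abs_mul, abs_of_pos hm0]
        have := abs_nonneg k
        nlinarith
      have h8 := abs_le.mp (h7.trans h6)
      exact ⟨by linarith [h8.1], h8.2⟩
    · rw [e2]; omega
  · intro q hq
    obtain ⟨_, h2, h3⟩ := Finset.mem_filter.mp hq
    have : ((N - q * m).toNat : ℤ) = N - q * m := Int.toNat_of_nonneg (by omega)
    rw [this]
    have : N - (N - q * m) = m * q := by ring
    rw [this]
    exact Int.mul_ediv_cancel_left q hm0.ne'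
  · intro n hn
    obtain ⟨h2, h3⟩ := Finset.mem_filter.mp hn
    obtain ⟨k, hk⟩ := h3
    have e : (N - n) / m = k := by rw [hk]; exact Int.mul_ediv_cancel_left k hm0.ne'
    have e2 : N - (N - n) / m * m = n := by rw [e]; linarith
    rw [e2]
    exact Int.toNat_natCast n
  · intro q hq
    obtain ⟨_, h2, h3⟩ := Finset.mem_filter.mp hq
    have : ((N - q * m).toNat : ℤ) = N - q * m := Int.toNat_of_nonneg (by omega)
    rw [this]

section

variable {f : ℤ → ℝ} {X : ℕ}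

lemma f_sq_le (hf : ∀ n : ℕ, |f n| ≤ LL X ^ 4 * tauR n) :
    ∑ n ∈ Finset.Ioc 0 X, f n ^ 2 ≤ X * LL X ^ 11 := by
  have hL := LL_pos X
  calc ∑ n ∈ Finset.Ioc 0 X, f n ^ 2 ≤ ∑ n ∈ Finset.Ioc 0 X, LL X ^ 8 * tauR n ^ 2 := by
        refine Finset.sum_le_sum fun n _ => ?_
        rw [← sq_abs]
        calc |f n| ^ 2 ≤ (LL X ^ 4 * tauR n) ^ 2 := by
              have := hf n
              gcongr
          _ = _ := by ring
    _ = LL X ^ 8 * ∑ n ∈ Finset.Ioc 0 X, tauR n ^ 2 := by rw [Finset.mul_sum]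
    _ ≤ LL X ^ 8 * (X * LL X ^ 3) := by
        have := sum_tau_pow_le_LL 2 X
        norm_num at this
        gcongr
    _ = _ := by ring

lemma f_four_le (hf : ∀ n : ℕ, |f n| ≤ LL X ^ 4 * tauR n) :
    ∑ n ∈ Finset.Ioc 0 X, f n ^ 4 ≤ X * LL X ^ 31 := by
  have hL := LL_pos X
  calc ∑ n ∈ Finset.Ioc 0 X, f n ^ 4 ≤ ∑ n ∈ Finset.Ioc 0 X, LL X ^ 16 * tauR n ^ 4 := by
        refine Finset.sum_le_sum fun n _ => ?_
        have e : f n ^ 4 = |f n| ^ 4 := by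
          have : |f n| ^ 4 = (|f n| ^ 2) ^ 2 := by ring
          rw [this, sq_abs]; ring
        rw [e]
        calc |f n| ^ 4 ≤ (LL X ^ 4 * tauR n) ^ 4 := by
              have := hf n
              gcongr
          _ = _ := by ring
    _ = LL X ^ 16 * ∑ n ∈ Finset.Ioc 0 X, tauR n ^ 4 := by rw [Finset.mul_sum]
    _ ≤ LL X ^ 16 * (X * LL X ^ 15) := by
        have := sum_tau_pow_le_LL 4 X
        norm_num at this
        gcongr
    _ = _ := by ring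

/-- `∑_{n ≠ N} τ(|N - n|) f(n)^2` -/
lemma tau_f_sq (hf : ∀ n : ℕ, |f n| ≤ LL X ^ 4 * tauR n) {N : ℤ} (hN1 : 1 ≤ N) (hNX : N ≤ X) :
    ∑ n ∈ (Finset.Ioc 0 X).filter (fun n : ℕ => (n:ℤ) ≠ N), tauR (N - n).natAbs * f n ^ 2 ≤
      2 * (X * LL X ^ 31) := by
  have hL := LL_one_le X
  have h1 : ∑ n ∈ (Finset.Ioc 0 X).filter (fun n : ℕ => (n:ℤ) ≠ N), tauR (N - n).natAbs ^ 2 ≤
      2 * (X * LL X ^ 3) := by
    have h2 := sum_Zs_tau_pow 2 X
    norm_num at h2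
    refine le_trans ?_ h2
    have h3 : ∑ n ∈ (Finset.Ioc 0 X).filter (fun n : ℕ => (n:ℤ) ≠ N), tauR (N - n).natAbs ^ 2 =
        ∑ h ∈ ((Finset.Ioc 0 X).filter (fun n : ℕ => (n:ℤ) ≠ N)).image (fun n : ℕ => N - n),
          tauR h.natAbs ^ 2 := by
      rw [Finset.sum_image]
      intro a _ b _ hab
      simp only at hab
      omega
    rw [h3]
    refine Finset.sum_le_sum_of_subset_of_nonneg ?_ fun _ _ _ => by positivity
    intro h hh
    obtain ⟨n, hn, rfl⟩ := Finset.mem_image.mp hh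
    obtain ⟨h4, h5⟩ := Finset.mem_filter.mp hn
    obtain ⟨h6, h7⟩ := Finset.mem_Ioc.mp h4
    exact Finset.mem_erase.mpr ⟨by omega, Finset.mem_Icc.mpr ⟨by omega, by omega⟩⟩
  have h2 := f_four_le hf
  have h3 : ∑ n ∈ (Finset.Ioc 0 X).filter (fun n : ℕ => (n:ℤ) ≠ N), f n ^ 4 ≤ X * LL X ^ 31 :=
    (Finset.sum_le_sum_of_subset_of_nonneg (Finset.filter_subset _ _)
      fun _ _ _ => by positivity).trans h2
  have h4 : (X:ℝ) * LL X ^ 3 ≤ X * LL X ^ 31 := by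
    have : LL X ^ 3 ≤ LL X ^ 31 := pow_le_pow_right₀ hL (by norm_num)
    gcongr
  have h0 : 0 ≤ (X:ℝ) * LL X ^ 31 := by have := LL_pos X; positivity
  calc _ ≤ ∑ n ∈ (Finset.Ioc 0 X).filter (fun n : ℕ => (n:ℤ) ≠ N),
        (1 / 2 * tauR (N - n).natAbs ^ 2 + 1 / 2 * f n ^ 4) := by
        refine Finset.sum_le_sum fun n _ => ?_
        nlinarith [sq_nonneg (tauR (N - n).natAbs - f n ^ 2)]
    _ = 1 / 2 * ∑ n ∈ (Finset.Ioc 0 X).filter (fun n : ℕ => (n:ℤ) ≠ N), tauR (N - n).natAbs ^ 2 +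
        1 / 2 * ∑ n ∈ (Finset.Ioc 0 X).filter (fun n : ℕ => (n:ℤ) ≠ N), f n ^ 4 := by
        rw [Finset.sum_add_distrib, Finset.mul_sum, Finset.mul_sum]
    _ ≤ _ := by linarith

/-- the sum of `f^2` over the progressions `N mod m`, `m ≤ M` -/
lemma sum_prog (hf : ∀ n : ℕ, |f n| ≤ LL X ^ 4 * tauR n) {N : ℤ} (hN1 : 1 ≤ N)
    (hNX : N ≤ X) (M : ℕ) :
    ∑ m ∈ Finset.Ioc 0 M, ∑ n ∈ Finset.Ioc 0 X, (if (m:ℤ) ∣ N - n then f n ^ 2 else 0) ≤
      M * f N ^ 2 + 2 * (X * LL X ^ 31) := by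
  rw [Finset.sum_comm]
  have hsplit : ∑ n ∈ Finset.Ioc 0 X, ∑ m ∈ Finset.Ioc 0 M, (if (m:ℤ) ∣ N - n then f n ^ 2 else 0) =
      ∑ n ∈ (Finset.Ioc 0 X).filter (fun n : ℕ => (n:ℤ) = N), ∑ m ∈ Finset.Ioc 0 M, (if (m:ℤ) ∣ N - n then f n ^ 2 else 0) +
      ∑ n ∈ (Finset.Ioc 0 X).filter (fun n : ℕ => (n:ℤ) ≠ N), ∑ m ∈ Finset.Ioc 0 M, (if (m:ℤ) ∣ N - n then f n ^ 2 else 0) :=
    (Finset.sum_filter_add_sum_filter_not _ _ _).symm
  rw [hsplit]
  refine add_le_add ?_ ?_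
  · have h1 : (Finset.Ioc 0 X).filter (fun n : ℕ => (n:ℤ) = N) = {N.toNat} := by
      ext n
      simp only [Finset.mem_filter, Finset.mem_Ioc, Finset.mem_singleton]
      omega
    rw [h1, Finset.sum_singleton]
    have h2 : ((N.toNat : ℕ) : ℤ) = N := Int.toNat_of_nonneg (by omega)
    rw [h2]
    simp
  · refine le_trans (Finset.sum_le_sum fun n hn => ?_) (tau_f_sq hf hN1 hNX)
    obtain ⟨h4, h5⟩ := Finset.mem_filter.mp hn
    rw [← Finset.sum_filter, Finset.sum_const, nsmul_eq_mul]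
    have h6 : ((Finset.Ioc 0 M).filter (fun m : ℕ => (m:ℤ) ∣ N - n)).card ≤ (N - n).natAbs.divisors.card := by
      refine Finset.card_le_card fun m hm => ?_
      obtain ⟨_, h8⟩ := Finset.mem_filter.mp hm
      refine Nat.mem_divisors.mpr ⟨Int.natCast_dvd.mp h8, ?_⟩
      intro h
      have := Int.natAbs_eq_zero.mp h
      omega
    have h7 : (((Finset.Ioc 0 M).filter (fun m : ℕ => (m:ℤ) ∣ N - n)).card : ℝ) ≤ tauR (N - n).natAbs := by
      unfold tauR; exact_mod_cast h6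
    gcongr

end

/-- reduced residues -/
def rd (r : ℕ) : Finset ℕ := (Finset.range r).filter (fun b => Nat.Coprime b r)

/-- Splitting the fractions `c / n` by their reduced denominator. -/
lemma sum_fractions {n : ℕ} (hn : 1 ≤ n) (G : ℝ → ℂ) :
    ∑ c ∈ Finset.range n, G ((c:ℝ) / n) = ∑ r ∈ n.divisors, ∑ b ∈ rd r, G ((b:ℝ) / r) := by
  have hn0 : 0 < n := hn
  rw [Finset.sum_sigma']
  refine Finset.sum_bij' (i := fun c _ => (⟨n / Nat.gcd c n, c / Nat.gcd c n⟩ : Σ _ : ℕ, ℕ))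
    (j := fun x _ => x.2 * (n / x.1)) ?_ ?_ ?_ ?_ ?_
  · intro c hc
    have hc := Finset.mem_range.mp hc
    have hg : 0 < Nat.gcd c n := Nat.gcd_pos_of_pos_right c hn0
    refine Finset.mem_sigma.mpr ⟨Nat.mem_divisors.mpr ⟨Nat.div_dvd_of_dvd (Nat.gcd_dvd_right c n), by omega⟩, ?_⟩
    refine Finset.mem_filter.mpr ⟨Finset.mem_range.mpr ?_, Nat.coprime_div_gcd_div_gcd hg⟩
    exact Nat.div_lt_div_of_lt_of_dvd (Nat.gcd_dvd_right c n) hc
  · rintro ⟨r, b⟩ hx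
    obtain ⟨h1, h2⟩ := Finset.mem_sigma.mp hx
    obtain ⟨h3, h4⟩ := Finset.mem_filter.mp h2
    obtain ⟨h5, _⟩ := Nat.mem_divisors.mp h1
    have h3 := Finset.mem_range.mp h3
    obtain ⟨k, hk⟩ := h5
    simp only at h3 hk ⊢
    have hr0 : 0 < r := by omega
    have hk0 : 0 < k := Nat.pos_of_ne_zero (by rintro rfl; omega)
    refine Finset.mem_range.mpr ?_
    rw [hk, Nat.mul_div_cancel_left k hr0]
    exact Nat.mul_lt_mul_of_pos_right h3 hk0
  · intro c hc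
    have hg : 0 < Nat.gcd c n := Nat.gcd_pos_of_pos_right c hn0
    simp only
    have e2 : n / (n / Nat.gcd c n) = Nat.gcd c n :=
      Nat.div_div_self (Nat.gcd_dvd_right c n) hn0.ne'
    rw [e2]
    exact Nat.div_mul_cancel (Nat.gcd_dvd_left c n)
  · rintro ⟨r, b⟩ hx
    obtain ⟨h1, h2⟩ := Finset.mem_sigma.mp hx
    obtain ⟨h3, h4⟩ := Finset.mem_filter.mp h2
    obtain ⟨h5, _⟩ := Nat.mem_divisors.mp h1
    have h3 := Finset.mem_range.mp h3
    obtain ⟨k, hk⟩ := h5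
    simp only at h3 h4 hk ⊢
    have hr0 : 0 < r := by omega
    have hk0 : 0 < k := Nat.pos_of_ne_zero (by rintro rfl; omega)
    have e1 : n / r = k := by rw [hk, Nat.mul_div_cancel_left k hr0]
    have e2 : Nat.gcd (b * (n / r)) n = k := by
      rw [e1, hk, Nat.gcd_mul_right, h4, one_mul]
    rw [e2, e1, Nat.mul_div_cancel _ hk0]
    congr 1
    rw [hk, Nat.mul_div_cancel _ hk0]
  · intro c hc
    have hg : 0 < Nat.gcd c n := Nat.gcd_pos_of_pos_right c hn0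
    simp only
    congr 1
    rw [Nat.cast_div (Nat.gcd_dvd_left c n) (by exact_mod_cast hg.ne'),
      Nat.cast_div (Nat.gcd_dvd_right c n) (by exact_mod_cast hg.ne')]
    have hgR : (Nat.gcd c n : ℝ) ≠ 0 := by exact_mod_cast hg.ne'
    have hnR : (n : ℝ) ≠ 0 := by exact_mod_cast hn0.ne'
    field_simp

/-- the full sum -/
lemma full_sum {n : ℕ} (hn : 1 ≤ n) (v : ℤ) :
    ∑ c ∈ Finset.range n, ee (v * ((c:ℝ) / n)) = if (n : ℤ) ∣ v then (n : ℂ) else 0 := by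
  have : NeZero n := ⟨by omega⟩
  have h1 : ∀ c ∈ Finset.range n, ee (v * ((c:ℝ) / n)) =
      (fun b : ZMod n => (ZMod.stdAddChar (N := n)) (b * (v : ZMod n))) (c : ZMod n) := by
    intro c _
    have h2 : ((c : ZMod n) * (v : ZMod n)) = ((c * v : ℤ) : ZMod n) := by push_cast; ring
    simp only
    rw [h2, ZMod.stdAddChar_coe]
    unfold ee
    congr 1
    push_cast
    ring
  rw [Finset.sum_congr rfl h1]
  have h3 : ∑ a ∈ Finset.range n, (fun b : ZMod n => (ZMod.stdAddChar (N := n)) (b * (v : ZMod n)))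
      (a : ZMod n) = ∑ b : ZMod n, (ZMod.stdAddChar (N := n)) (b * (v : ZMod n)) := by
    refine Finset.sum_nbij' (fun a => (a : ZMod n)) ZMod.val ?_ ?_ ?_ ?_ ?_
    · intro a _; exact Finset.mem_univ _
    · intro b _; exact Finset.mem_range.2 (ZMod.val_lt b)
    · intro a ha; exact ZMod.val_natCast_of_lt (Finset.mem_range.1 ha)
    · intro b _; exact ZMod.natCast_zmod_val b
    · intro a _; rfl
  rw [h3, AddChar.sum_mulShift _ (ZMod.isPrimitive_stdAddChar n), ZMod.card]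
  simp only [ZMod.intCast_zmod_eq_zero_iff_dvd]
  split_ifs <;> simp

/-- completeness: `∑_{r ∣ n} c_r(v) = n 1_{n ∣ v}` -/
lemma full_rd {n : ℕ} (hn : 1 ≤ n) (v : ℤ) :
    ∑ r ∈ n.divisors, ∑ b ∈ rd r, ee (v * ((b:ℝ) / r)) = if (n : ℤ) ∣ v then (n : ℂ) else 0 := by
  rw [← full_sum hn v, ← sum_fractions hn (fun x => ee (v * x))]

end Pool.Agent.SEH
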