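import Pool.Agent.SEH.Key1

/-!
Key lemma, part 3: the sums over the family.
-/

open Complex Pool.Agent.ANT Pool.Agent.DEH

namespace Pool.Agent.SEH

section

variable {ι : Type*} (I : Finset ι) (N : ι → ℕ) (X : ℕ)

/-- `∑ e(-N_i α)` over the pairs with difference `h` -/
noncomputable def SH (h : ℤ) (α : ℝ) : ℂ := ∑ x ∈ PP I N h, ee (-(N x.1 * α))

variable {I N X}

lemma mem_PP {h : ℤ} {x : ι × ι} : x ∈ PP I N h ↔ (x.1 ∈ I ∧ x.2 ∈ I) ∧ (N x.2 : ℤ) - N x.1 = h := by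
  unfold PP
  rw [Finset.mem_filter, Finset.mem_product]

lemma PP_abs (hN : ∀ i ∈ I, 1 ≤ N i ∧ N i ≤ X) {h : ℤ} {x : ι × ι} (hx : x ∈ PP I N h) : |h| ≤ X := by
  obtain ⟨⟨h1, h2⟩, h3⟩ := mem_PP.mp hx
  have := hN _ h1
  have := hN _ h2
  rw [abs_le]
  constructor <;> omega

lemma SH_zero (hN : ∀ i ∈ I, 1 ≤ N i ∧ N i ≤ X) {h : ℤ} (hh : (X:ℤ) < |h|) (α : ℝ) : SH I N h α = 0 := by
  unfold SH
  have : PP I N h = ∅ := by
    rw [Finset.eq_empty_iff_forall_notMem]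
    intro x hx
    have := PP_abs hN hx
    omega
  rw [this, Finset.sum_empty]

/-- Parseval over all residues. -/
lemma SH_full {r : ℕ} (hr : 1 ≤ r) (h : ℤ) :
    ∑ b ∈ Finset.range r, ‖SH I N h ((b:ℝ) / r)‖ ^ 2 =
      r * ∑ x ∈ PP I N h, ∑ y ∈ PP I N h, if (r:ℤ) ∣ (N y.1 : ℤ) - N x.1 then (1:ℝ) else 0 := by
  have key : ((∑ b ∈ Finset.range r, ‖SH I N h ((b:ℝ) / r)‖ ^ 2 : ℝ) : ℂ) =
      ((r * ∑ x ∈ PP I N h, ∑ y ∈ PP I N h, (if (r:ℤ) ∣ (N y.1 : ℤ) - N x.1 then (1:ℝ) else 0) : ℝ) : ℂ) := by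
    push_cast
    simp_rw [← Complex.mul_conj']
    have e1 : ∀ b ∈ Finset.range r, SH I N h ((b:ℝ) / r) * (starRingEnd ℂ) (SH I N h ((b:ℝ) / r)) =
        ∑ x ∈ PP I N h, ∑ y ∈ PP I N h, ee ((((N y.1 : ℤ) - N x.1 : ℤ) : ℝ) * ((b:ℝ) / r)) := by
      intro b _
      unfold SH
      rw [map_sum, Finset.sum_mul_sum]
      refine Finset.sum_congr rfl fun x _ => Finset.sum_congr rfl fun y _ => ?_
      rw [conj_ee, ← ee_add]
      congr 1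
      push_cast
      ring
    rw [Finset.sum_congr rfl e1, Finset.sum_comm, Finset.mul_sum]
    refine Finset.sum_congr rfl fun x _ => ?_
    rw [Finset.sum_comm, Finset.mul_sum]
    refine Finset.sum_congr rfl fun y _ => ?_
    rw [full_sum hr]
    split_ifs <;> simp
  exact_mod_cast key

/-- the set of additive quadruples -/
noncomputable def QQ (I : Finset ι) (N : ι → ℕ) : Finset ((ι × ι) × (ι × ι)) :=
  ((I ×ˢ I) ×ˢ (I ×ˢ I)).filter (fun z => (N z.1.2 : ℤ) - N z.1.1 = (N z.2.2 : ℤ) - N z.2.1 ∧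
    N z.1.2 ≠ N z.1.1 ∧ N z.2.1 ≠ N z.1.1)

lemma sum_QQ (hN : ∀ i ∈ I, 1 ≤ N i ∧ N i ≤ X) (F : ι × ι → ι × ι → ℝ) :
    ∑ h ∈ Zs X, ∑ x ∈ PP I N h, ∑ y ∈ (PP I N h).filter (fun y => N y.1 ≠ N x.1), F x y =
      ∑ z ∈ QQ I N, F z.1 z.2 := by
  classical
  have h1 : ∑ z ∈ QQ I N, F z.1 z.2 =
      ∑ h ∈ Zs X, ∑ z ∈ (QQ I N).filter (fun z => (N z.1.2 : ℤ) - N z.1.1 = h), F z.1 z.2 := by
    refine (Finset.sum_fiberwise_of_maps_to (g := fun z : (ι × ι) × (ι × ι) => (N z.1.2 : ℤ) - N z.1.1) ?_ _).symm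
    intro z hz
    obtain ⟨h2, h3, h4, h5⟩ := Finset.mem_filter.mp hz
    obtain ⟨h6, h7⟩ := Finset.mem_product.mp h2
    obtain ⟨h8, h9⟩ := Finset.mem_product.mp h6
    have := hN _ h8
    have := hN _ h9
    exact Finset.mem_erase.mpr ⟨by omega, Finset.mem_Icc.mpr ⟨by omega, by omega⟩⟩
  rw [h1]
  refine Finset.sum_congr rfl fun h hh => ?_
  rw [Finset.sum_sigma']
  have hh0 : h ≠ 0 := (Finset.mem_erase.mp hh).1
  refine Finset.sum_bij' (fun x _ => (x.1, x.2)) (fun z _ => ⟨z.1, z.2⟩) ?_ ?_ ?_ ?_ ?_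
  · rintro ⟨x, y⟩ hxy
    obtain ⟨h2, h3⟩ := Finset.mem_sigma.mp hxy
    obtain ⟨h4, h5⟩ := Finset.mem_filter.mp h3
    obtain ⟨⟨h6, h7⟩, h8⟩ := mem_PP.mp h2
    obtain ⟨⟨h9, h10⟩, h11⟩ := mem_PP.mp h4
    simp only at h5 h6 h7 h8 h9 h10 h11
    refine Finset.mem_filter.mpr ⟨Finset.mem_filter.mpr ⟨Finset.mem_product.mpr ⟨Finset.mem_product.mpr ⟨h6, h7⟩,
      Finset.mem_product.mpr ⟨h9, h10⟩⟩, ?_, ?_, ?_⟩, ?_⟩
    · simp only; omega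
    · simp only; omega
    · exact h5
    · exact h8
  · rintro ⟨x, y⟩ hxy
    obtain ⟨h2, h3⟩ := Finset.mem_filter.mp hxy
    obtain ⟨h4, h5, h6, h7⟩ := Finset.mem_filter.mp h2
    obtain ⟨h8, h9⟩ := Finset.mem_product.mp h4
    simp only at h3 h5 h6 h7 h8 h9
    refine Finset.mem_sigma.mpr ⟨mem_PP.mpr ⟨Finset.mem_product.mp h8, h3⟩, Finset.mem_filter.mpr
      ⟨mem_PP.mpr ⟨Finset.mem_product.mp h9, ?_⟩, h7⟩⟩
    simp only; omega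
  · rintro ⟨x, y⟩ _; rfl
  · rintro ⟨x, y⟩ _; rfl
  · rintro ⟨x, y⟩ _; rfl

lemma QQ_swap (F : (ι × ι) × (ι × ι) → ℝ) :
    ∑ z ∈ QQ I N, F ((z.1.1, z.2.1), (z.1.2, z.2.2)) = ∑ z ∈ QQ I N, F z := by
  refine Finset.sum_bij' (fun z _ => ((z.1.1, z.2.1), (z.1.2, z.2.2))) (fun z _ => ((z.1.1, z.2.1), (z.1.2, z.2.2)))
    ?_ ?_ ?_ ?_ ?_
  · rintro ⟨⟨a, b⟩, ⟨c, d⟩⟩ hz
    unfold QQ at hz ⊢
    simp only [Finset.mem_filter, Finset.mem_product] at hz ⊢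
    obtain ⟨⟨⟨h1, h2⟩, h3, h4⟩, h5, h6, h7⟩ := hz
    exact ⟨⟨⟨h1, h3⟩, h2, h4⟩, by omega, h7, h6⟩
  · rintro ⟨⟨a, b⟩, ⟨c, d⟩⟩ hz
    unfold QQ at hz ⊢
    simp only [Finset.mem_filter, Finset.mem_product] at hz ⊢
    obtain ⟨⟨⟨h1, h2⟩, h3, h4⟩, h5, h6, h7⟩ := hz
    exact ⟨⟨⟨h1, h3⟩, h2, h4⟩, by omega, h7, h6⟩
  · rintro ⟨⟨a, b⟩, ⟨c, d⟩⟩ _; rfl
  · rintro ⟨⟨a, b⟩, ⟨c, d⟩⟩ _; rfl
  · rintro ⟨⟨a, b⟩, ⟨c, d⟩⟩ _; rfl

/-- the divisor weighted energy is symmetric -/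
lemma quad_le (hN : ∀ i ∈ I, 1 ≤ N i ∧ N i ≤ X) :
    ∑ h ∈ Zs X, tauR h.natAbs * ∑ x ∈ PP I N h, ∑ y ∈ (PP I N h).filter (fun y => N y.1 ≠ N x.1),
      tauR ((N y.1 : ℤ) - N x.1).natAbs ≤ H2 I N X := by
  have e1 : ∑ h ∈ Zs X, tauR h.natAbs * ∑ x ∈ PP I N h, ∑ y ∈ (PP I N h).filter (fun y => N y.1 ≠ N x.1),
      tauR ((N y.1 : ℤ) - N x.1).natAbs = ∑ z ∈ QQ I N, tauR ((N z.1.2 : ℤ) - N z.1.1).natAbs *
        tauR ((N z.2.1 : ℤ) - N z.1.1).natAbs := by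
    rw [← sum_QQ hN (fun x y => tauR ((N x.2 : ℤ) - N x.1).natAbs * tauR ((N y.1 : ℤ) - N x.1).natAbs)]
    refine Finset.sum_congr rfl fun h _ => ?_
    rw [Finset.mul_sum]
    refine Finset.sum_congr rfl fun x hx => ?_
    rw [Finset.mul_sum]
    refine Finset.sum_congr rfl fun y _ => ?_
    rw [(mem_PP.mp hx).2]
  have e2 : ∑ z ∈ QQ I N, tauR ((N z.2.1 : ℤ) - N z.1.1).natAbs ^ 2 =
      ∑ z ∈ QQ I N, tauR ((N z.1.2 : ℤ) - N z.1.1).natAbs ^ 2 :=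
    QQ_swap (fun z => tauR ((N z.1.2 : ℤ) - N z.1.1).natAbs ^ 2)
  have e3 : ∑ z ∈ QQ I N, tauR ((N z.1.2 : ℤ) - N z.1.1).natAbs ^ 2 ≤ H2 I N X := by
    rw [← sum_QQ hN (fun x _ => tauR ((N x.2 : ℤ) - N x.1).natAbs ^ 2)]
    unfold H2
    refine Finset.sum_le_sum fun h _ => ?_
    calc ∑ x ∈ PP I N h, ∑ y ∈ (PP I N h).filter (fun y => N y.1 ≠ N x.1), tauR ((N x.2 : ℤ) - N x.1).natAbs ^ 2
        ≤ ∑ x ∈ PP I N h, (PP I N h).card * tauR h.natAbs ^ 2 := by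
          refine Finset.sum_le_sum fun x hx => ?_
          rw [Finset.sum_const, nsmul_eq_mul, (mem_PP.mp hx).2]
          have : (((PP I N h).filter (fun y => N y.1 ≠ N x.1)).card : ℝ) ≤ (PP I N h).card := by
            exact_mod_cast Finset.card_filter_le _ _
          gcongr
      _ = _ := by
          rw [Finset.sum_const, nsmul_eq_mul]
          unfold rr
          ring
  rw [e1]
  calc _ ≤ ∑ z ∈ QQ I N, (1 / 2 * tauR ((N z.1.2 : ℤ) - N z.1.1).natAbs ^ 2 +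
        1 / 2 * tauR ((N z.2.1 : ℤ) - N z.1.1).natAbs ^ 2) := by
        refine Finset.sum_le_sum fun z _ => ?_
        nlinarith [sq_nonneg (tauR ((N z.1.2 : ℤ) - N z.1.1).natAbs - tauR ((N z.2.1 : ℤ) - N z.1.1).natAbs)]
    _ = 1 / 2 * ∑ z ∈ QQ I N, tauR ((N z.1.2 : ℤ) - N z.1.1).natAbs ^ 2 +
        1 / 2 * ∑ z ∈ QQ I N, tauR ((N z.2.1 : ℤ) - N z.1.1).natAbs ^ 2 := by
        rw [Finset.sum_add_distrib, Finset.mul_sum, Finset.mul_sum]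
    _ ≤ _ := by rw [e2]; linarith

/-- the mean square of `SH` over a dyadic block of denominators -/
lemma gamS_le (hN : ∀ i ∈ I, 1 ≤ N i ∧ N i ≤ X) (R : ℕ) (hR : 1 ≤ R) :
    ∑ r ∈ Finset.Ico R (2 * R), ∑ b ∈ rd r, ∑ h ∈ Zs X, tauR h.natAbs * ‖SH I N h ((b:ℝ) / r)‖ ^ 2 ≤
      2 * R * (R * H3 I N X + H2 I N X) := by
  classical
  -- the counting function
  set cnt : ℤ → ℕ → ℝ := fun h r =>
    ∑ x ∈ PP I N h, ∑ y ∈ PP I N h, if (r:ℤ) ∣ (N y.1 : ℤ) - N x.1 then (1:ℝ) else 0 with hcnt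
  have hcnt0 : ∀ h r, 0 ≤ cnt h r := fun h r =>
    Finset.sum_nonneg fun _ _ => Finset.sum_nonneg fun _ _ => by split_ifs <;> norm_num
  have h1 : ∀ r ∈ Finset.Ico R (2 * R), ∀ h : ℤ, ∑ b ∈ rd r, ‖SH I N h ((b:ℝ) / r)‖ ^ 2 ≤ 2 * R * cnt h r := by
    intro r hr h
    obtain ⟨hr1, hr2⟩ := Finset.mem_Ico.mp hr
    have h2 : ∑ b ∈ rd r, ‖SH I N h ((b:ℝ) / r)‖ ^ 2 ≤ ∑ b ∈ Finset.range r, ‖SH I N h ((b:ℝ) / r)‖ ^ 2 := by
      refine Finset.sum_le_sum_of_subset_of_nonneg (Finset.filter_subset _ _) fun _ _ _ => by positivity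
    rw [SH_full (by omega : 1 ≤ r)] at h2
    refine h2.trans ?_
    have h3 : (r:ℝ) ≤ 2 * R := by exact_mod_cast hr2.le
    exact mul_le_mul_of_nonneg_right h3 (hcnt0 h r)
  have h2 : ∀ h : ℤ, ∑ r ∈ Finset.Ico R (2 * R), cnt h r ≤
      R * (∑ x ∈ PP I N h, (((PP I N h).filter (fun y => N y.1 = N x.1)).card : ℝ)) +
      ∑ x ∈ PP I N h, ∑ y ∈ (PP I N h).filter (fun y => N y.1 ≠ N x.1), tauR ((N y.1 : ℤ) - N x.1).natAbs := by
    intro h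
    simp only [hcnt]
    rw [Finset.sum_comm, Finset.mul_sum, ← Finset.sum_add_distrib]
    refine Finset.sum_le_sum fun x _ => ?_
    rw [Finset.sum_comm, ← Finset.sum_filter_add_sum_filter_not (PP I N h) (fun y => N y.1 = N x.1)]
    refine add_le_add ?_ (Finset.sum_le_sum fun y hy => ?_)
    · calc _ ≤ ∑ y ∈ (PP I N h).filter (fun y => N y.1 = N x.1), (R:ℝ) := by
            refine Finset.sum_le_sum fun y _ => ?_
            calc _ ≤ ∑ r ∈ Finset.Ico R (2 * R), (1:ℝ) := by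
                  refine Finset.sum_le_sum fun r _ => ?_
                  split_ifs <;> norm_num
              _ = R := by
                  rw [Finset.sum_const, Nat.card_Ico, nsmul_eq_mul, mul_one]
                  have : 2 * R - R = R := by omega
                  rw [this]
        _ = _ := by rw [Finset.sum_const, nsmul_eq_mul]; ring
    · obtain ⟨_, hy2⟩ := Finset.mem_filter.mp hy
      rw [← Finset.sum_filter, Finset.sum_const, nsmul_eq_mul, mul_one]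
      unfold tauR
      have : ((Finset.Ico R (2 * R)).filter (fun r : ℕ => (r:ℤ) ∣ (N y.1 : ℤ) - N x.1)).card ≤
          ((N y.1 : ℤ) - N x.1).natAbs.divisors.card := by
        refine Finset.card_le_card fun r hr => ?_
        obtain ⟨_, h4⟩ := Finset.mem_filter.mp hr
        refine Nat.mem_divisors.mpr ⟨Int.natCast_dvd.mp h4, ?_⟩
        intro h0
        have := Int.natAbs_eq_zero.mp h0
        omega
      exact_mod_cast this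
  have h3 : ∑ r ∈ Finset.Ico R (2 * R), ∑ b ∈ rd r, ∑ h ∈ Zs X, tauR h.natAbs * ‖SH I N h ((b:ℝ) / r)‖ ^ 2 =
      ∑ h ∈ Zs X, tauR h.natAbs * ∑ r ∈ Finset.Ico R (2 * R), ∑ b ∈ rd r, ‖SH I N h ((b:ℝ) / r)‖ ^ 2 := by
    simp_rw [Finset.mul_sum]
    rw [Finset.sum_comm' (s := Finset.Ico R (2 * R)) (t := fun _ => Zs X) (t' := Zs X) (s' := fun _ => Finset.Ico R (2 * R))
      (f := fun r h => ∑ b ∈ rd r, tauR h.natAbs * ‖SH I N h ((b:ℝ) / r)‖ ^ 2) (by intro x y; tauto) |>.symm]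
    refine Finset.sum_congr rfl fun r _ => ?_
    rw [Finset.sum_comm]
  rw [h3]
  calc _ ≤ ∑ h ∈ Zs X, tauR h.natAbs * (2 * R *
        (R * (∑ x ∈ PP I N h, (((PP I N h).filter (fun y => N y.1 = N x.1)).card : ℝ)) +
        ∑ x ∈ PP I N h, ∑ y ∈ (PP I N h).filter (fun y => N y.1 ≠ N x.1), tauR ((N y.1 : ℤ) - N x.1).natAbs)) := by
        refine Finset.sum_le_sum fun h _ => mul_le_mul_of_nonneg_left ?_ (tauR_nonneg _)
        calc _ ≤ ∑ r ∈ Finset.Ico R (2 * R), 2 * R * cnt h r := Finset.sum_le_sum fun r hr => h1 r hr h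
          _ = 2 * R * ∑ r ∈ Finset.Ico R (2 * R), cnt h r := by rw [Finset.mul_sum]
          _ ≤ _ := mul_le_mul_of_nonneg_left (h2 h) (by positivity)
    _ = 2 * R * (R * H3 I N X + ∑ h ∈ Zs X, tauR h.natAbs * ∑ x ∈ PP I N h,
        ∑ y ∈ (PP I N h).filter (fun y => N y.1 ≠ N x.1), tauR ((N y.1 : ℤ) - N x.1).natAbs) := by
        unfold H3
        rw [Finset.mul_sum, ← Finset.sum_add_distrib, Finset.mul_sum]
        exact Finset.sum_congr rfl fun h _ => by ring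
    _ ≤ _ := by
        have := quad_le hN
        gcongr

end

end Pool.Agent.SEH
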