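import Pool.Agent.SEH.Key2
import Pool.Agent.SEH.Key3

/-!
Key lemma, part 4: the off-diagonal sum.
-/

open Complex Pool.Agent.ANT Pool.Agent.DEH

namespace Pool.Agent.SEH

section

variable {f : ℤ → ℝ} {X : ℕ}

lemma FF_zero (hs : Supp f X) {u : ℤ} (hu : (X:ℤ) < |u|) (α : ℝ) : FF f X u α = 0 := by
  unfold FF
  refine Finset.sum_eq_zero fun n hn => ?_
  have := Finset.mem_Ioc.mp hn
  have h1 : f (n - u) = 0 := by
    apply hs.zero
    rintro ⟨h2, h3⟩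
    have : |u| ≤ X := by rw [abs_le]; constructor <;> omega
    omega
  rw [h1]; simp

/-- sums over divisors, positive multipliers -/
lemma dv_pos {κ : Type*} (A : Finset κ) (δ : κ → ℕ) (hδ0 : ∀ m ∈ A, 0 < δ m)
    (hδi : ∀ m ∈ A, ∀ m' ∈ A, δ m = δ m' → m = m') {ψ : ℤ → ℝ} (hψ : ∀ u, 0 ≤ ψ u)
    (hψ0 : ∀ u : ℤ, (X:ℤ) < |u| → ψ u = 0) :
    ∑ m ∈ A, ∑ s ∈ Zs X, ψ (δ m * s) ≤ ∑ u ∈ Zs X, tauR u.natAbs * ψ u := by
  classical
  have h1 : ∀ m ∈ A, ∑ s ∈ Zs X, ψ (δ m * s) ≤ ∑ u ∈ Zs X, if (δ m : ℤ) ∣ u then ψ u else 0 := by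
    intro m hm
    have hd : (0:ℤ) < δ m := by exact_mod_cast hδ0 m hm
    rw [← Finset.sum_filter]
    have h2 : ∑ s ∈ Zs X, ψ (δ m * s) = ∑ s ∈ (Zs X).filter (fun s => |(δ m : ℤ) * s| ≤ X), ψ (δ m * s) := by
      rw [Finset.sum_filter]
      refine Finset.sum_congr rfl fun s _ => ?_
      split_ifs with h
      · rfl
      · exact hψ0 _ (by omega)
    rw [h2]
    have h3 : ∑ s ∈ (Zs X).filter (fun s => |(δ m : ℤ) * s| ≤ X), ψ (δ m * s) =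
        ∑ u ∈ ((Zs X).filter (fun s => |(δ m : ℤ) * s| ≤ X)).image (fun s => (δ m : ℤ) * s), ψ u := by
      rw [Finset.sum_image]
      intro a _ b _ hab
      exact mul_left_cancel₀ hd.ne' hab
    rw [h3]
    refine Finset.sum_le_sum_of_subset_of_nonneg ?_ fun _ _ _ => hψ _
    intro u hu
    obtain ⟨s, hs, rfl⟩ := Finset.mem_image.mp hu
    obtain ⟨h4, h5⟩ := Finset.mem_filter.mp hs
    obtain ⟨h6, _⟩ := Finset.mem_erase.mp h4
    have h7 := abs_le.mp h5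
    exact Finset.mem_filter.mpr ⟨Finset.mem_erase.mpr ⟨mul_ne_zero hd.ne' h6, Finset.mem_Icc.mpr h7⟩, dvd_mul_right _ _⟩
  refine (Finset.sum_le_sum h1).trans ?_
  rw [Finset.sum_comm]
  refine Finset.sum_le_sum fun u hu => ?_
  rw [← Finset.sum_filter, Finset.sum_const, nsmul_eq_mul]
  have h2 : (A.filter (fun m => (δ m : ℤ) ∣ u)).card ≤ u.natAbs.divisors.card := by
    refine Finset.card_le_card_of_injOn δ ?_ ?_
    · intro m hm
      obtain ⟨_, h4⟩ := Finset.mem_filter.mp (Finset.mem_coe.mp hm)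
      refine Finset.mem_coe.mpr (Nat.mem_divisors.mpr ⟨Int.natCast_dvd.mp h4, ?_⟩)
      have := (Finset.mem_erase.mp hu).1
      omega
    · intro m hm m' hm' h
      exact hδi m (Finset.mem_filter.mp (Finset.mem_coe.mp hm)).1 m' (Finset.mem_filter.mp (Finset.mem_coe.mp hm')).1 h
  have h3 : ((A.filter (fun m => (δ m : ℤ) ∣ u)).card : ℝ) ≤ tauR u.natAbs := by
    unfold tauR; exact_mod_cast h2
  exact mul_le_mul_of_nonneg_right h3 (hψ u)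

lemma Zs_neg (φ : ℤ → ℝ) : ∑ u ∈ Zs X, φ (-u) = ∑ u ∈ Zs X, φ u := by
  refine Finset.sum_bij' (fun u _ => -u) (fun u _ => -u) ?_ ?_ ?_ ?_ ?_
  · intro u hu
    unfold Zs at hu ⊢
    rw [Finset.mem_erase, Finset.mem_Icc] at hu ⊢
    omega
  · intro u hu
    unfold Zs at hu ⊢
    rw [Finset.mem_erase, Finset.mem_Icc] at hu ⊢
    omega
  · intro u _; ring
  · intro u _; ring
  · intro u _; rfl

/-- sums over differences -/
lemma dv_diff (M m' : ℕ) {ψ : ℤ → ℝ} (hψ : ∀ u, 0 ≤ ψ u)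
    (hψ0 : ∀ u : ℤ, (X:ℤ) < |u| → ψ u = 0) :
    ∑ m ∈ (Finset.Ioc 0 M).erase m', ∑ s ∈ Zs X, ψ (((m':ℤ) - m) * s) ≤
      2 * ∑ u ∈ Zs X, tauR u.natAbs * ψ u := by
  classical
  rw [← Finset.sum_filter_add_sum_filter_not ((Finset.Ioc 0 M).erase m') (fun m => m < m')]
  have h1 : ∑ m ∈ ((Finset.Ioc 0 M).erase m').filter (fun m => m < m'), ∑ s ∈ Zs X, ψ (((m':ℤ) - m) * s) ≤
      ∑ u ∈ Zs X, tauR u.natAbs * ψ u := by
    have := dv_pos (X := X) (((Finset.Ioc 0 M).erase m').filter (fun m => m < m')) (fun m => m' - m)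
      (fun m hm => by have := (Finset.mem_filter.mp hm).2; omega)
      (fun a ha b hb hab => by
        have := (Finset.mem_filter.mp ha).2
        have := (Finset.mem_filter.mp hb).2
        omega) hψ hψ0
    refine le_trans (le_of_eq ?_) this
    refine Finset.sum_congr rfl fun m hm => Finset.sum_congr rfl fun s _ => ?_
    have := (Finset.mem_filter.mp hm).2
    congr 2
    omega
  have h2 : ∑ m ∈ ((Finset.Ioc 0 M).erase m').filter (fun m => ¬ m < m'), ∑ s ∈ Zs X, ψ (((m':ℤ) - m) * s) ≤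
      ∑ u ∈ Zs X, tauR u.natAbs * ψ u := by
    have := dv_pos (X := X) (((Finset.Ioc 0 M).erase m').filter (fun m => ¬ m < m')) (fun m => m - m')
      (fun m hm => by
        obtain ⟨h3, h4⟩ := Finset.mem_filter.mp hm
        have := (Finset.mem_erase.mp h3).1
        omega)
      (fun a ha b hb hab => by
        have := (Finset.mem_filter.mp ha).2
        have := (Finset.mem_filter.mp hb).2
        omega) (ψ := fun u => ψ (-u)) (fun u => hψ _) (fun u hu => hψ0 _ (by rwa [abs_neg]))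
    have e : ∑ u ∈ Zs X, tauR u.natAbs * ψ (-u) = ∑ u ∈ Zs X, tauR u.natAbs * ψ u := by
      rw [← Zs_neg (fun u => tauR u.natAbs * ψ u)]
      refine Finset.sum_congr rfl fun u _ => ?_
      rw [Int.natAbs_neg]
    rw [e] at this
    refine le_trans (le_of_eq ?_) this
    refine Finset.sum_congr rfl fun m hm => Finset.sum_congr rfl fun s _ => ?_
    have := (Finset.mem_filter.mp hm).2
    congr 1
    have e2 : ((m - m' : ℕ) : ℤ) = (m:ℤ) - m' := by omega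
    rw [e2]; ring
  linarith

/-- autocorrelation in a progression -/
noncomputable def Phi (f : ℤ → ℝ) (X m : ℕ) (a u : ℤ) : ℝ :=
  ∑ n ∈ Finset.Ioc 0 X, if (m:ℤ) ∣ a - n then f n * f (n - u) else 0

lemma Phi_fourier {m : ℕ} (hm : 1 ≤ m) (a u : ℤ) :
    ((Phi f X m a u : ℝ) : ℂ) = (1 / (m:ℂ)) * ∑ r ∈ m.divisors, ∑ b ∈ rd r,
      FF f X u ((b:ℝ) / r) * ee (-(a * ((b:ℝ) / r))) := by
  have hm0 : (m:ℂ) ≠ 0 := by exact_mod_cast (by omega : m ≠ 0)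
  have h1 : ∑ r ∈ m.divisors, ∑ b ∈ rd r, FF f X u ((b:ℝ) / r) * ee (-(a * ((b:ℝ) / r))) =
      ∑ n ∈ Finset.Ioc 0 X, ((f n * f (n - u) : ℝ) : ℂ) *
        ∑ r ∈ m.divisors, ∑ b ∈ rd r, ee ((((n:ℤ) - a : ℤ) : ℝ) * ((b:ℝ) / r)) := by
    have h2 : ∀ r ∈ m.divisors, ∑ b ∈ rd r, FF f X u ((b:ℝ) / r) * ee (-(a * ((b:ℝ) / r))) =
        ∑ n ∈ Finset.Ioc 0 X, ((f n * f (n - u) : ℝ) : ℂ) * ∑ b ∈ rd r, ee ((((n:ℤ) - a : ℤ) : ℝ) * ((b:ℝ) / r)) := by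
      intro r _
      simp_rw [Finset.mul_sum]
      rw [Finset.sum_comm]
      refine Finset.sum_congr rfl fun b _ => ?_
      unfold FF
      rw [Finset.sum_mul]
      refine Finset.sum_congr rfl fun n _ => ?_
      rw [mul_assoc, ← ee_add]
      congr 2
      push_cast
      ring
    rw [Finset.sum_congr rfl h2, Finset.sum_comm]
    refine Finset.sum_congr rfl fun n _ => ?_
    rw [Finset.mul_sum]
  rw [h1]
  unfold Phi
  rw [Complex.ofReal_sum, Finset.mul_sum]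
  refine Finset.sum_congr rfl fun n _ => ?_
  rw [full_rd hm]
  by_cases h : (m:ℤ) ∣ a - n
  · have h' : (m:ℤ) ∣ (n:ℤ) - a := by rw [← dvd_neg]; simpa using h
    rw [if_pos h, if_pos h']
    field_simp
  · have h' : ¬ (m:ℤ) ∣ (n:ℤ) - a := fun h2 => h (by rw [← dvd_neg]; simpa using h2)
    rw [if_neg h, if_neg h']
    simp

variable {ι : Type*} {I : Finset ι} {N : ι → ℕ}

/-- the off-diagonal sum -/
noncomputable def TT (f : ℤ → ℝ) (X : ℕ) (I : Finset ι) (N : ι → ℕ) (M : ℕ) : ℝ :=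
  ∑ m' ∈ Finset.Ioc 0 M, ∑ m ∈ (Finset.Ioc 0 M).erase m', ∑ s ∈ Zs X, ∑ x ∈ PP I N (m * s),
    Phi f X m' (N x.1) (((m':ℤ) - m) * s)

/-- the contribution of one fraction and one `m'` -/
noncomputable def UU (f : ℤ → ℝ) (X : ℕ) (I : Finset ι) (N : ι → ℕ) (M m' : ℕ) (α : ℝ) : ℂ :=
  ∑ m ∈ (Finset.Ioc 0 M).erase m', ∑ s ∈ Zs X, FF f X (((m':ℤ) - m) * s) α * SH I N (m * s) α

lemma UU_le (hs : Supp f X) (hN : ∀ i ∈ I, 1 ≤ N i ∧ N i ≤ X) (M m' : ℕ) (α : ℝ) :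
    ‖UU f X I N M m' α‖ ≤ √(2 * ∑ u ∈ Zs X, tauR u.natAbs * ‖FF f X u α‖ ^ 2) *
      √(∑ h ∈ Zs X, tauR h.natAbs * ‖SH I N h α‖ ^ 2) := by
  set P := (Finset.Ioc 0 M).erase m' ×ˢ Zs X with hP
  have e1 : UU f X I N M m' α = ∑ z ∈ P, FF f X (((m':ℤ) - z.1) * z.2) α * SH I N (z.1 * z.2) α := by
    rw [hP, Finset.sum_product]; rfl
  have h1 : ∑ z ∈ P, ‖FF f X (((m':ℤ) - z.1) * z.2) α‖ ^ 2 ≤ 2 * ∑ u ∈ Zs X, tauR u.natAbs * ‖FF f X u α‖ ^ 2 := by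
    rw [hP, Finset.sum_product]
    exact dv_diff (X := X) M m' (ψ := fun u => ‖FF f X u α‖ ^ 2) (fun u => by positivity)
      (fun u hu => by rw [FF_zero hs hu]; simp)
  have h2 : ∑ z ∈ P, ‖SH I N (z.1 * z.2) α‖ ^ 2 ≤ ∑ h ∈ Zs X, tauR h.natAbs * ‖SH I N h α‖ ^ 2 := by
    rw [hP, Finset.sum_product]
    exact dv_pos (X := X) ((Finset.Ioc 0 M).erase m') (fun m => m)
      (fun m hm => (Finset.mem_Ioc.mp (Finset.mem_erase.mp hm).2).1) (fun a _ b _ h => h)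
      (ψ := fun u => ‖SH I N u α‖ ^ 2) (fun u => by positivity)
      (fun u hu => by rw [SH_zero hN hu]; simp)
  rw [e1]
  calc _ ≤ ∑ z ∈ P, √(‖FF f X (((m':ℤ) - z.1) * z.2) α‖ ^ 2) * √(‖SH I N (z.1 * z.2) α‖ ^ 2) := by
        refine (norm_sum_le _ _).trans (Finset.sum_le_sum fun z _ => ?_)
        rw [norm_mul, Real.sqrt_sq (norm_nonneg _), Real.sqrt_sq (norm_nonneg _)]
    _ ≤ √(∑ z ∈ P, ‖FF f X (((m':ℤ) - z.1) * z.2) α‖ ^ 2) * √(∑ z ∈ P, ‖SH I N (z.1 * z.2) α‖ ^ 2) :=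
        Real.sum_sqrt_mul_sqrt_le _ (fun _ => by positivity) (fun _ => by positivity)
    _ ≤ _ := mul_le_mul (Real.sqrt_le_sqrt h1) (Real.sqrt_le_sqrt h2) (Real.sqrt_nonneg _) (Real.sqrt_nonneg _)

/-- the sum over the multiples of `r` -/
lemma sum_mult_inv (M r : ℕ) (hr : 1 ≤ r) :
    ∑ m' ∈ (Finset.Ioc 0 M).filter (fun m' => r ∣ m'), (1:ℝ) / m' ≤ Hs M / r := by
  have hr0 : (0:ℝ) < r := by exact_mod_cast hr
  have h1 : ∑ m' ∈ (Finset.Ioc 0 M).filter (fun m' => r ∣ m'), (1:ℝ) / m' =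
      ∑ k ∈ Finset.Ioc 0 (M / r), (1:ℝ) / (r * k) := by
    refine Finset.sum_bij' (fun m' _ => m' / r) (fun k _ => r * k) ?_ ?_ ?_ ?_ ?_
    · intro m' hm'
      obtain ⟨h2, h3⟩ := Finset.mem_filter.mp hm'
      obtain ⟨h4, h5⟩ := Finset.mem_Ioc.mp h2
      exact Finset.mem_Ioc.mpr ⟨Nat.div_pos (Nat.le_of_dvd h4 h3) hr, Nat.div_le_div_right h5⟩
    · intro k hk
      obtain ⟨h4, h5⟩ := Finset.mem_Ioc.mp hk
      refine Finset.mem_filter.mpr ⟨Finset.mem_Ioc.mpr ⟨Nat.mul_pos hr h4, ?_⟩, dvd_mul_right _ _⟩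
      have := (Nat.le_div_iff_mul_le hr).mp h5
      linarith [Nat.mul_comm r k]
    · intro m' hm'
      exact Nat.mul_div_cancel' (Finset.mem_filter.mp hm').2
    · intro k _; exact Nat.mul_div_cancel_left _ hr
    · intro m' hm'
      obtain ⟨h2, h3⟩ := Finset.mem_filter.mp hm'
      obtain ⟨k, rfl⟩ := h3
      rw [Nat.mul_div_cancel_left _ hr]
      push_cast
      rfl
  rw [h1]
  have h2 : ∑ k ∈ Finset.Ioc 0 (M / r), (1:ℝ) / (r * k) = (1 / r) * Hs (M / r) := by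
    unfold Hs
    rw [Finset.mul_sum]
    refine Finset.sum_congr rfl fun k _ => ?_
    rw [one_div_mul_one_div]
  rw [h2]
  have := Hs_mono (Nat.div_le_self M r)
  calc (1 / (r:ℝ)) * Hs (M / r) ≤ (1 / (r:ℝ)) * Hs M := by gcongr
    _ = _ := by ring

lemma Phi_pairs {m' : ℕ} (hm1 : 1 ≤ m') (h u : ℤ) :
    ∑ x ∈ PP I N h, ((Phi f X m' (N x.1) u : ℝ) : ℂ) =
      (1 / (m':ℂ)) * ∑ r ∈ m'.divisors, ∑ b ∈ rd r, FF f X u ((b:ℝ) / r) * SH I N h ((b:ℝ) / r) := by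
  have h1 : ∀ x ∈ PP I N h, ((Phi f X m' (N x.1) u : ℝ) : ℂ) = (1 / (m':ℂ)) * ∑ r ∈ m'.divisors, ∑ b ∈ rd r,
      FF f X u ((b:ℝ) / r) * ee (-((N x.1 : ℝ) * ((b:ℝ) / r))) := by
    intro x _
    have := Phi_fourier (f := f) (X := X) hm1 (N x.1 : ℤ) u
    rw [this]
    push_cast
    rfl
  rw [Finset.sum_congr rfl h1, ← Finset.mul_sum]
  congr 1
  rw [Finset.sum_comm]
  refine Finset.sum_congr rfl fun r _ => ?_
  rw [Finset.sum_comm]
  refine Finset.sum_congr rfl fun b _ => ?_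
  rw [← Finset.mul_sum, SH]

lemma TT_eq1 (M : ℕ) : ((TT f X I N M : ℝ) : ℂ) =
    ∑ m' ∈ Finset.Ioc 0 M, (1 / (m':ℂ)) * ∑ r ∈ m'.divisors, ∑ b ∈ rd r, UU f X I N M m' ((b:ℝ) / r) := by
  unfold TT
  rw [Complex.ofReal_sum]
  refine Finset.sum_congr rfl fun m' hm' => ?_
  have hm1 := (Finset.mem_Ioc.mp hm').1
  rw [Complex.ofReal_sum]
  have h2 : ∀ m ∈ (Finset.Ioc 0 M).erase m', ((∑ s ∈ Zs X, ∑ x ∈ PP I N (m * s),
      Phi f X m' (N x.1) (((m':ℤ) - m) * s) : ℝ) : ℂ) = (1 / (m':ℂ)) * ∑ r ∈ m'.divisors, ∑ b ∈ rd r,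
        ∑ s ∈ Zs X, FF f X (((m':ℤ) - m) * s) ((b:ℝ) / r) * SH I N (m * s) ((b:ℝ) / r) := by
    intro m _
    rw [Complex.ofReal_sum]
    have h3 : ∀ s ∈ Zs X, ((∑ x ∈ PP I N (m * s), Phi f X m' (N x.1) (((m':ℤ) - m) * s) : ℝ) : ℂ) =
        (1 / (m':ℂ)) * ∑ r ∈ m'.divisors, ∑ b ∈ rd r,
          FF f X (((m':ℤ) - m) * s) ((b:ℝ) / r) * SH I N (m * s) ((b:ℝ) / r) := by
      intro s _
      rw [Complex.ofReal_sum]
      exact Phi_pairs hm1 _ _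
    rw [Finset.sum_congr rfl h3, ← Finset.mul_sum]
    congr 1
    rw [Finset.sum_comm]
    refine Finset.sum_congr rfl fun r _ => ?_
    rw [Finset.sum_comm]
  rw [Finset.sum_congr rfl h2, ← Finset.mul_sum]
  congr 1
  rw [Finset.sum_comm]
  refine Finset.sum_congr rfl fun r _ => ?_
  rw [Finset.sum_comm]
  refine Finset.sum_congr rfl fun b _ => ?_
  rw [UU]

lemma TT_eq (M : ℕ) : ((TT f X I N M : ℝ) : ℂ) = ∑ r ∈ Finset.Ioc 0 M, ∑ b ∈ rd r,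
    ∑ m' ∈ (Finset.Ioc 0 M).filter (fun m' => r ∣ m'), (1 / (m':ℂ)) * UU f X I N M m' ((b:ℝ) / r) := by
  rw [TT_eq1]
  simp_rw [Finset.mul_sum]
  rw [Finset.sum_comm' (t' := Finset.Ioc 0 M) (s' := fun r => (Finset.Ioc 0 M).filter (fun m' => r ∣ m'))]
  · refine Finset.sum_congr rfl fun r _ => ?_
    rw [Finset.sum_comm]
  · intro m' r
    simp only [Finset.mem_Ioc, Nat.mem_divisors, Finset.mem_filter]
    constructor
    · rintro ⟨⟨h2, h3⟩, h4, h5⟩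
      exact ⟨⟨⟨h2, h3⟩, h4⟩, Nat.pos_of_dvd_of_pos h4 h2, (Nat.le_of_dvd h2 h4).trans h3⟩
    · rintro ⟨⟨⟨h2, h3⟩, h4⟩, h5, h6⟩
      exact ⟨⟨h2, h3⟩, h4, by omega⟩

/-- sum over a dyadic block of the family `gamF` -/
noncomputable def GF (f : ℤ → ℝ) (X R : ℕ) : ℝ :=
  ∑ r ∈ Finset.Ico R (2 * R), ∑ b ∈ rd r, ∑ u ∈ Zs X, tauR u.natAbs * ‖FF f X u ((b:ℝ) / r)‖ ^ 2

noncomputable def GS (I : Finset ι) (N : ι → ℕ) (X R : ℕ) : ℝ :=
  ∑ r ∈ Finset.Ico R (2 * R), ∑ b ∈ rd r, ∑ h ∈ Zs X, tauR h.natAbs * ‖SH I N h ((b:ℝ) / r)‖ ^ 2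

/-- **the off-diagonal sum, dyadic bound** -/
theorem TT_le (hs : Supp f X) (hN : ∀ i ∈ I, 1 ≤ N i ∧ N i ≤ X) {M J : ℕ} (hMX : M ≤ X) (hJ : M < 2 ^ J) :
    |TT f X I N M| ≤ ∑ j ∈ Finset.range J, (2 * LL X / (2 ^ j : ℕ)) * (√(GF f X (2 ^ j)) * √(GS I N X (2 ^ j))) := by
  classical
  have hL := LL_pos X
  have hHs : Hs M ≤ LL X := (Hs_mono hMX).trans (Hs_le_LL X)
  have hHs0 := Hs_nonneg M
  set gF : ℝ → ℝ := fun α => ∑ u ∈ Zs X, tauR u.natAbs * ‖FF f X u α‖ ^ 2 with hgF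
  set gS : ℝ → ℝ := fun α => ∑ h ∈ Zs X, tauR h.natAbs * ‖SH I N h α‖ ^ 2 with hgS
  have hgF0 : ∀ α, 0 ≤ gF α := fun α => Finset.sum_nonneg fun u _ => mul_nonneg (tauR_nonneg _) (by positivity)
  have hgS0 : ∀ α, 0 ≤ gS α := fun α => Finset.sum_nonneg fun u _ => mul_nonneg (tauR_nonneg _) (by positivity)
  -- the bound for one fraction
  have h1 : ∀ r ∈ Finset.Ioc 0 M, ∀ b ∈ rd r,
      ‖∑ m' ∈ (Finset.Ioc 0 M).filter (fun m' => r ∣ m'), (1 / (m':ℂ)) * UU f X I N M m' ((b:ℝ) / r)‖ ≤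
      (LL X / r) * (√(2 * gF ((b:ℝ) / r)) * √(gS ((b:ℝ) / r))) := by
    intro r hr b _
    have hr1 := (Finset.mem_Ioc.mp hr).1
    have hr0 : (0:ℝ) < r := by exact_mod_cast hr1
    calc _ ≤ ∑ m' ∈ (Finset.Ioc 0 M).filter (fun m' => r ∣ m'), (1 / (m':ℝ)) *
          (√(2 * gF ((b:ℝ) / r)) * √(gS ((b:ℝ) / r))) := by
          refine (norm_sum_le _ _).trans (Finset.sum_le_sum fun m' _ => ?_)
          rw [norm_mul]
          have e : ‖(1 / (m':ℂ))‖ = 1 / (m':ℝ) := by simp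
          rw [e]
          exact mul_le_mul_of_nonneg_left (UU_le hs hN M m' _) (by positivity)
      _ = (∑ m' ∈ (Finset.Ioc 0 M).filter (fun m' => r ∣ m'), (1 / (m':ℝ))) *
          (√(2 * gF ((b:ℝ) / r)) * √(gS ((b:ℝ) / r))) := by rw [Finset.sum_mul]
      _ ≤ _ := by
          refine mul_le_mul_of_nonneg_right ((sum_mult_inv M r hr1).trans ?_) (by positivity)
          gcongr
  -- the total
  have h2 : |TT f X I N M| ≤ ∑ r ∈ Finset.Ioc 0 M, ∑ b ∈ rd r, (LL X / r) * (√(2 * gF ((b:ℝ) / r)) * √(gS ((b:ℝ) / r))) := by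
    have e : |TT f X I N M| = ‖((TT f X I N M : ℝ) : ℂ)‖ := by rw [Complex.norm_real, Real.norm_eq_abs]
    rw [e, TT_eq]
    refine (norm_sum_le _ _).trans (Finset.sum_le_sum fun r hr => ?_)
    exact (norm_sum_le _ _).trans (Finset.sum_le_sum fun b hb => h1 r hr b hb)
  refine h2.trans ?_
  -- dyadic decomposition
  have h3 : ∑ r ∈ Finset.Ioc 0 M, ∑ b ∈ rd r, (LL X / r) * (√(2 * gF ((b:ℝ) / r)) * √(gS ((b:ℝ) / r))) ≤
      ∑ j ∈ Finset.range J, ∑ r ∈ Finset.Ico (2 ^ j) (2 * 2 ^ j), ∑ b ∈ rd r,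
        (LL X / r) * (√(2 * gF ((b:ℝ) / r)) * √(gS ((b:ℝ) / r))) := by
    have hnn : ∀ r : ℕ, 0 ≤ ∑ b ∈ rd r, (LL X / r) * (√(2 * gF ((b:ℝ) / r)) * √(gS ((b:ℝ) / r))) :=
      fun r => Finset.sum_nonneg fun b _ => by positivity
    have hfib := Finset.sum_fiberwise_of_maps_to (s := Finset.Ioc 0 M) (t := Finset.range J) (g := Nat.log 2)
      (by
        intro r hr
        obtain ⟨hr1, hr2⟩ := Finset.mem_Ioc.mp hr
        refine Finset.mem_range.mpr ?_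
        exact Nat.log_lt_of_lt_pow (by omega) (lt_of_le_of_lt hr2 hJ))
      (fun r => ∑ b ∈ rd r, (LL X / r) * (√(2 * gF ((b:ℝ) / r)) * √(gS ((b:ℝ) / r))))
    rw [← hfib]
    refine Finset.sum_le_sum fun j _ => ?_
    refine Finset.sum_le_sum_of_subset_of_nonneg ?_ fun r _ _ => hnn r
    intro r hr
    obtain ⟨h4, h5⟩ := Finset.mem_filter.mp hr
    obtain ⟨h6, _⟩ := Finset.mem_Ioc.mp h4
    refine Finset.mem_Ico.mpr ⟨?_, ?_⟩
    · rw [← h5]; exact Nat.pow_log_le_self 2 (by omega)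
    · rw [← h5]
      have := Nat.lt_pow_succ_log_self (b := 2) (by norm_num) r
      rw [pow_succ] at this
      omega
  refine h3.trans (Finset.sum_le_sum fun j _ => ?_)
  set R := 2 ^ j with hR
  have hR1 : 1 ≤ R := Nat.one_le_two_pow
  have hR0 : (0:ℝ) < R := by exact_mod_cast hR1
  set Sg := (Finset.Ico R (2 * R)).sigma rd with hSg
  have e1 : GF f X R = ∑ z ∈ Sg, gF ((z.2:ℝ) / z.1) := by
    rw [hSg, Finset.sum_sigma]; rfl
  have e2 : GS I N X R = ∑ z ∈ Sg, gS ((z.2:ℝ) / z.1) := by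
    rw [hSg, Finset.sum_sigma]; rfl
  have h4 : ∑ z ∈ Sg, √(2 * gF ((z.2:ℝ) / z.1)) * √(gS ((z.2:ℝ) / z.1)) ≤
      √(∑ z ∈ Sg, 2 * gF ((z.2:ℝ) / z.1)) * √(∑ z ∈ Sg, gS ((z.2:ℝ) / z.1)) :=
    Real.sum_sqrt_mul_sqrt_le _ (fun z => by have := hgF0 ((z.2:ℝ) / z.1); positivity) (fun z => hgS0 _)
  rw [← Finset.mul_sum, ← e1, ← e2] at h4
  have h5 : √(2 * GF f X R) ≤ 2 * √(GF f X R) := by
    rw [Real.sqrt_mul (by norm_num)]
    have : √2 ≤ (2:ℝ) := by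
      rw [Real.sqrt_le_left (by norm_num)]; norm_num
    have := Real.sqrt_nonneg (GF f X R)
    gcongr
  calc ∑ r ∈ Finset.Ico R (2 * R), ∑ b ∈ rd r, (LL X / r) * (√(2 * gF ((b:ℝ) / r)) * √(gS ((b:ℝ) / r)))
      ≤ ∑ r ∈ Finset.Ico R (2 * R), ∑ b ∈ rd r, (LL X / R) * (√(2 * gF ((b:ℝ) / r)) * √(gS ((b:ℝ) / r))) := by
        refine Finset.sum_le_sum fun r hr => Finset.sum_le_sum fun b _ => ?_
        have hr1 : (R:ℝ) ≤ r := by exact_mod_cast (Finset.mem_Ico.mp hr).1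
        have : 0 ≤ √(2 * gF ((b:ℝ) / r)) * √(gS ((b:ℝ) / r)) := by positivity
        gcongr
    _ = (LL X / R) * ∑ z ∈ Sg, √(2 * gF ((z.2:ℝ) / z.1)) * √(gS ((z.2:ℝ) / z.1)) := by
        rw [hSg, Finset.sum_sigma, Finset.mul_sum]
        exact Finset.sum_congr rfl fun r _ => by rw [Finset.mul_sum]
    _ ≤ (LL X / R) * (2 * √(GF f X R) * √(GS I N X R)) := by
        refine mul_le_mul_of_nonneg_left (h4.trans ?_) (by positivity)
        exact mul_le_mul_of_nonneg_right h5 (Real.sqrt_nonneg _)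
    _ = _ := by ring

end

end Pool.Agent.SEH
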