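import Pool.Agent.SEH.Key4

/-!
Key lemma, part 5: expansion of the square and dispersion.
-/

open Complex Pool.Agent.ANT Pool.Agent.DEH

namespace Pool.Agent.SEH

section

variable {f : ℤ → ℝ} {X : ℕ}

/-- Reindexing `n = N - q m` for functions of `q`. -/
lemma reindex2 {ψ : ℤ → ℝ} {X m M : ℕ} {N : ℤ} (hψ : ∀ q : ℤ, (X:ℤ) < |q| → ψ q = 0) (hm : 1 ≤ m) (hmM : m ≤ M)
    (hN1 : 1 ≤ N) (hNX : N ≤ X) :
    ∑ n ∈ Finset.Icc (-((X + X * M : ℕ):ℤ)) ((X + X * M : ℕ):ℤ), (if (m:ℤ) ∣ N - n then ψ ((N - n) / m) else 0) =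
      ∑ q ∈ Finset.Icc (-(X:ℤ)) X, ψ q := by
  classical
  have hm0 : (0:ℤ) < m := by exact_mod_cast hm
  rw [← Finset.sum_filter]
  set A := (Finset.Icc (-((X + X * M : ℕ):ℤ)) ((X + X * M : ℕ):ℤ)).filter (fun n => (m:ℤ) ∣ N - n) with hA
  have h1 : ∑ n ∈ A, ψ ((N - n) / m) = ∑ n ∈ A.filter (fun n => |(N - n) / m| ≤ (X:ℤ)), ψ ((N - n) / m) := by
    refine (Finset.sum_subset (Finset.filter_subset _ _) fun n hn hn' => ?_).symm
    exact hψ _ (by
      by_contra hcon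
      exact hn' (Finset.mem_filter.mpr ⟨hn, by omega⟩))
  rw [h1]
  refine Finset.sum_bij' (fun n _ => (N - n) / m) (fun q _ => N - q * m) ?_ ?_ ?_ ?_ ?_
  · intro n hn
    obtain ⟨_, h2⟩ := Finset.mem_filter.mp hn
    exact Finset.mem_Icc.mpr (abs_le.mp h2)
  · intro q hq
    have hq' := Finset.mem_Icc.mp hq
    have e : N - (N - q * m) = m * q := by ring
    refine Finset.mem_filter.mpr ⟨Finset.mem_filter.mpr ⟨?_, ?_⟩, ?_⟩
    · have h2 : |q * (m:ℤ)| ≤ X * M := by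
        rw [abs_mul, abs_of_pos hm0]
        have h3 : |q| ≤ X := abs_le.mpr hq'
        have h4 : (m:ℤ) ≤ M := by exact_mod_cast hmM
        exact mul_le_mul h3 h4 hm0.le (by positivity)
      have h5 := abs_le.mp h2
      rw [Finset.mem_Icc]
      push_cast
      constructor <;> linarith [h5.1, h5.2]
    · rw [e]; exact dvd_mul_right _ _
    · rw [e, Int.mul_ediv_cancel_left q hm0.ne']
      exact abs_le.mpr hq'
  · intro n hn
    obtain ⟨h3, h2⟩ := Finset.mem_filter.mp hn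
    obtain ⟨k, hk⟩ := (Finset.mem_filter.mp h3).2
    have e : (N - n) / m = k := by rw [hk]; exact Int.mul_ediv_cancel_left k hm0.ne'
    rw [e]; linarith
  · intro q hq
    have e : N - (N - q * m) = m * q := by ring
    rw [e, Int.mul_ediv_cancel_left q hm0.ne']
  · intro n _; rfl

variable {ι : Type*} {I : Finset ι} {N : ι → ℕ}

/-- the dual function -/
noncomputable def Hf (f : ℤ → ℝ) (I : Finset ι) (N : ι → ℕ) (m m' : ℕ) (n : ℤ) : ℝ :=
  ∑ i ∈ I, if (m:ℤ) ∣ (N i:ℤ) - n then f (N i - ((N i:ℤ) - n) / m * m') else 0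

/-- the correlation of two dilations -/
noncomputable def VV' (f : ℤ → ℝ) (X : ℕ) (I : Finset ι) (N : ι → ℕ) (m m' : ℕ) : ℝ :=
  ∑ i ∈ I, ∑ q ∈ Finset.Icc (-(X:ℤ)) X, f (N i - q * m) * f (N i - q * m')

lemma VV_eq (hs : Supp f X) (hN : ∀ i ∈ I, 1 ≤ N i ∧ N i ≤ X) {m : ℕ} (hm : 1 ≤ m) (m' : ℕ) :
    VV' f X I N m m' = ∑ n ∈ Finset.Ioc 0 X, f n * Hf f I N m m' n := by
  unfold VV' Hf
  have hm0 : (0:ℤ) < m := by exact_mod_cast hm
  have h1 : ∀ i ∈ I, ∑ q ∈ Finset.Icc (-(X:ℤ)) X, f (N i - q * m) * f (N i - q * m') =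
      ∑ n ∈ Finset.Ioc 0 X, if (m:ℤ) ∣ (N i:ℤ) - n then f n * f (N i - ((N i:ℤ) - n) / m * m') else 0 := by
    intro i hi
    have h2 := hN i hi
    have h3 := reindex (X := X) (m := m) (N := (N i : ℤ)) (φ := fun x => f x * f (N i - ((N i:ℤ) - x) / m * m'))
      (fun n hn => by rw [hs.zero hn, zero_mul]) hm (by exact_mod_cast h2.1) (by exact_mod_cast h2.2)
    rw [← h3]
    refine Finset.sum_congr rfl fun q _ => ?_
    have e : (N i:ℤ) - (N i - q * m) = m * q := by ring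
    rw [e, Int.mul_ediv_cancel_left q hm0.ne']
  rw [Finset.sum_congr rfl h1, Finset.sum_comm]
  refine Finset.sum_congr rfl fun n _ => ?_
  rw [Finset.mul_sum]
  refine Finset.sum_congr rfl fun i _ => ?_
  split_ifs
  · rfl
  · simp

/-- one pair -/
lemma pair_eq (hs : Supp f X) {m m' M : ℕ} (hm : 1 ≤ m) (hmM : m ≤ M) (hm' : 1 ≤ m') {a b : ℤ}
    (ha1 : 1 ≤ a) (haX : a ≤ X) :
    ∑ n ∈ Finset.Icc (-((X + X * M : ℕ):ℤ)) ((X + X * M : ℕ):ℤ),
      (if (m:ℤ) ∣ a - n then f (a - (a - n) / m * m') else 0) *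
      (if (m:ℤ) ∣ b - n then f (b - (b - n) / m * m') else 0) =
      if (m:ℤ) ∣ b - a then Phi f X m' a (((m':ℤ) - m) * ((b - a) / m)) else 0 := by
  have hm0 : (0:ℤ) < m := by exact_mod_cast hm
  by_cases hd : (m:ℤ) ∣ b - a
  · rw [if_pos hd]
    obtain ⟨s, hsd⟩ := hd
    have es : (b - a) / m = s := by rw [hsd]; exact Int.mul_ediv_cancel_left s hm0.ne'
    rw [es]
    have h1 : ∀ n ∈ Finset.Icc (-((X + X * M : ℕ):ℤ)) ((X + X * M : ℕ):ℤ),
        (if (m:ℤ) ∣ a - n then f (a - (a - n) / m * m') else 0) *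
        (if (m:ℤ) ∣ b - n then f (b - (b - n) / m * m') else 0) =
        if (m:ℤ) ∣ a - n then (fun q : ℤ => f (a - q * m') * f (a - q * m' - ((m':ℤ) - m) * s)) ((a - n) / m) else 0 := by
      intro n _
      by_cases h : (m:ℤ) ∣ a - n
      · obtain ⟨q, hq⟩ := h
        have e1 : (a - n) / m = q := by rw [hq]; exact Int.mul_ediv_cancel_left q hm0.ne'
        have e2 : b - n = m * (q + s) := by linarith
        have e3 : (b - n) / m = q + s := by rw [e2]; exact Int.mul_ediv_cancel_left _ hm0.ne'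
        rw [if_pos ⟨q, hq⟩, if_pos ⟨q + s, e2⟩, if_pos ⟨q, hq⟩, e1, e3]
        simp only
        congr 2
        linarith
      · rw [if_neg h, if_neg h, zero_mul]
    rw [Finset.sum_congr rfl h1]
    rw [reindex2 (X := X) (M := M) (ψ := fun q : ℤ => f (a - q * m') * f (a - q * m' - ((m':ℤ) - m) * s)) ?_ hm hmM ha1 haX]
    · have h3 := reindex (X := X) (m := m') (N := a) (φ := fun x => f x * f (x - ((m':ℤ) - m) * s))
        (fun n hn => by rw [hs.zero hn, zero_mul]) hm' ha1 haX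
      unfold Phi
      rw [← h3]
    · intro q hq
      have h4 : f (a - q * m') = 0 := by
        apply hs.zero
        rintro ⟨h5, h6⟩
        have h7 : |q * (m':ℤ)| ≤ X := by rw [abs_le]; constructor <;> linarith
        rw [abs_mul] at h7
        have h8 : (1:ℤ) ≤ |(m':ℤ)| := by rw [abs_of_nonneg (by positivity)]; exact_mod_cast hm'
        have h9 := abs_nonneg q
        nlinarith
      rw [h4, zero_mul]
  · rw [if_neg hd]
    refine Finset.sum_eq_zero fun n _ => ?_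
    by_cases h : (m:ℤ) ∣ a - n
    · have : ¬ (m:ℤ) ∣ b - n := fun h' => hd (by
        have := dvd_sub h' h
        have e : b - n - (a - n) = b - a := by ring
        rwa [e] at this)
      rw [if_neg this, mul_zero]
    · rw [if_neg h, zero_mul]

lemma Hf_sq_le (hs : Supp f X) (hN : ∀ i ∈ I, 1 ≤ N i ∧ N i ≤ X) {m m' M : ℕ} (hm : 1 ≤ m) (hmM : m ≤ M)
    (hm' : 1 ≤ m') :
    ∑ n ∈ Finset.Ioc 0 X, Hf f I N m m' n ^ 2 ≤
      ∑ x ∈ I ×ˢ I, if (m:ℤ) ∣ (N x.2:ℤ) - N x.1 then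
        Phi f X m' (N x.1) (((m':ℤ) - m) * (((N x.2:ℤ) - N x.1) / m)) else 0 := by
  classical
  have h1 : ∑ n ∈ Finset.Ioc 0 X, Hf f I N m m' n ^ 2 ≤
      ∑ n ∈ Finset.Icc (-((X + X * M : ℕ):ℤ)) ((X + X * M : ℕ):ℤ), Hf f I N m m' n ^ 2 := by
    have h2 : ∑ n ∈ Finset.Ioc 0 X, Hf f I N m m' n ^ 2 =
        ∑ n ∈ (Finset.Ioc 0 X).image (fun n : ℕ => (n:ℤ)), Hf f I N m m' n ^ 2 := by
      rw [Finset.sum_image]
      intro a _ b _ hab
      simpa using hab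
    rw [h2]
    refine Finset.sum_le_sum_of_subset_of_nonneg ?_ fun _ _ _ => by positivity
    intro x hx
    obtain ⟨n, hn, rfl⟩ := Finset.mem_image.mp hx
    have := Finset.mem_Ioc.mp hn
    have h3 : (n:ℤ) ≤ ((X + X * M : ℕ):ℤ) := by
      have : n ≤ X + X * M := by nlinarith
      exact_mod_cast this
    exact Finset.mem_Icc.mpr ⟨by omega, h3⟩
  refine h1.trans (le_of_eq ?_)
  have h3 : ∀ n ∈ Finset.Icc (-((X + X * M : ℕ):ℤ)) ((X + X * M : ℕ):ℤ), Hf f I N m m' n ^ 2 =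
      ∑ x ∈ I ×ˢ I, (if (m:ℤ) ∣ (N x.1:ℤ) - n then f (N x.1 - ((N x.1:ℤ) - n) / m * m') else 0) *
        (if (m:ℤ) ∣ (N x.2:ℤ) - n then f (N x.2 - ((N x.2:ℤ) - n) / m * m') else 0) := by
    intro n _
    unfold Hf
    rw [sq, Finset.sum_mul_sum, Finset.sum_product]
  rw [Finset.sum_congr rfl h3, Finset.sum_comm]
  refine Finset.sum_congr rfl fun x hx => ?_
  have h4 := hN _ (Finset.mem_product.mp hx).1
  exact pair_eq hs hm hmM hm' (by exact_mod_cast h4.1) (by exact_mod_cast h4.2)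

/-- splitting the pairs according to the difference -/
lemma split_pairs (hN : ∀ i ∈ I, 1 ≤ N i ∧ N i ≤ X) {m : ℕ} (hm : 1 ≤ m) (G : ι × ι → ℤ → ℝ) :
    ∑ x ∈ I ×ˢ I, (if (m:ℤ) ∣ (N x.2:ℤ) - N x.1 then G x (((N x.2:ℤ) - N x.1) / m) else 0) =
      ∑ x ∈ PP I N 0, G x 0 + ∑ s ∈ Zs X, ∑ x ∈ PP I N (m * s), G x s := by
  classical
  have hm0 : (0:ℤ) < m := by exact_mod_cast hm
  rw [← Finset.sum_filter_add_sum_filter_not (I ×ˢ I) (fun x => (N x.2:ℤ) - N x.1 = 0)]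
  congr 1
  · refine Finset.sum_congr rfl fun x hx => ?_
    have := (Finset.mem_filter.mp hx).2
    rw [this]
    simp
  · rw [← Finset.sum_filter]
    set B := ((I ×ˢ I).filter (fun x => ¬ (N x.2:ℤ) - N x.1 = 0)).filter (fun x => (m:ℤ) ∣ (N x.2:ℤ) - N x.1) with hB
    rw [← Finset.sum_fiberwise_of_maps_to (s := B) (t := Zs X) (g := fun x => ((N x.2:ℤ) - N x.1) / m)]
    · refine Finset.sum_congr rfl fun s hs => ?_
      have hs0 : s ≠ 0 := (Finset.mem_erase.mp hs).1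
      have e : B.filter (fun x => ((N x.2:ℤ) - N x.1) / m = s) = PP I N (m * s) := by
        ext x
        simp only [hB, Finset.mem_filter, Finset.mem_product, PP]
        constructor
        · rintro ⟨⟨⟨h1, h2⟩, h3⟩, h4⟩
          refine ⟨h1, ?_⟩
          rw [← h4, Int.mul_ediv_cancel' h3]
        · rintro ⟨h1, h2⟩
          refine ⟨⟨⟨h1, ?_⟩, ?_⟩, ?_⟩
          · rw [h2]; exact mul_ne_zero hm0.ne' hs0
          · rw [h2]; exact dvd_mul_right _ _
          · rw [h2]; exact Int.mul_ediv_cancel_left s hm0.ne'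
      rw [e]
      refine Finset.sum_congr rfl fun x hx => ?_
      have : ((N x.2:ℤ) - N x.1) / m = s := by
        rw [(Finset.mem_filter.mp hx).2]; exact Int.mul_ediv_cancel_left s hm0.ne'
      rw [this]
    · intro x hx
      obtain ⟨h1, h2⟩ := Finset.mem_filter.mp hx
      obtain ⟨h3, h4⟩ := Finset.mem_filter.mp h1
      obtain ⟨h5, h6⟩ := Finset.mem_product.mp h3
      obtain ⟨k, hk⟩ := h2
      have e : ((N x.2:ℤ) - N x.1) / m = k := by rw [hk]; exact Int.mul_ediv_cancel_left k hm0.ne'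
      simp only [e]
      have h7 := hN _ h5
      have h8 := hN _ h6
      have h9 : |(N x.2:ℤ) - N x.1| ≤ X := by rw [abs_le]; constructor <;> omega
      have h10 : |k| ≤ X := by
        refine le_trans ?_ h9
        rw [hk, abs_mul, abs_of_pos hm0]
        have := abs_nonneg k
        nlinarith
      refine Finset.mem_erase.mpr ⟨?_, Finset.mem_Icc.mpr (abs_le.mp h10)⟩
      rintro rfl
      rw [mul_zero] at hk
      exact h4 hk

/-- the sum of the squares of the dual functions -/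
noncomputable def HH (f : ℤ → ℝ) (X : ℕ) (I : Finset ι) (N : ι → ℕ) (M : ℕ) : ℝ :=
  ∑ m' ∈ Finset.Ioc 0 M, ∑ m ∈ (Finset.Ioc 0 M).erase m', ∑ n ∈ Finset.Ioc 0 X, Hf f I N m m' n ^ 2

lemma Phi_zero_nonneg (m : ℕ) (a : ℤ) : 0 ≤ Phi f X m a 0 := by
  unfold Phi
  refine Finset.sum_nonneg fun n _ => ?_
  split_ifs
  · rw [sub_zero]; exact mul_self_nonneg _
  · exact le_rfl

lemma sum_Phi_zero (hf : ∀ n : ℕ, |f n| ≤ LL X ^ 4 * tauR n) {a : ℤ} (ha1 : 1 ≤ a) (haX : a ≤ X) (M : ℕ) :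
    ∑ m ∈ Finset.Ioc 0 M, Phi f X m a 0 ≤ M * f a ^ 2 + 2 * (X * LL X ^ 31) := by
  refine le_trans (le_of_eq ?_) (sum_prog hf ha1 haX M)
  refine Finset.sum_congr rfl fun m _ => ?_
  unfold Phi
  refine Finset.sum_congr rfl fun n _ => ?_
  split_ifs
  · rw [sub_zero, sq]
  · rfl

lemma HH_le (hs : Supp f X) (hf : ∀ n : ℕ, |f n| ≤ LL X ^ 4 * tauR n) (hN : ∀ i ∈ I, 1 ≤ N i ∧ N i ≤ X) {F₂ : ℝ}
    (hF : ∀ n : ℤ, f n ^ 2 ≤ F₂) (M : ℕ) :
    HH f X I N M ≤ M * (rr I N 0 * (M * F₂ + 2 * (X * LL X ^ 31))) + TT f X I N M := by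
  have h1 : HH f X I N M ≤ ∑ m' ∈ Finset.Ioc 0 M, ∑ m ∈ (Finset.Ioc 0 M).erase m',
      (∑ x ∈ PP I N 0, Phi f X m' (N x.1) 0 + ∑ s ∈ Zs X, ∑ x ∈ PP I N (m * s), Phi f X m' (N x.1) (((m':ℤ) - m) * s)) := by
    unfold HH
    refine Finset.sum_le_sum fun m' hm' => Finset.sum_le_sum fun m hm => ?_
    have hm'1 := (Finset.mem_Ioc.mp hm').1
    have hm1 := Finset.mem_Ioc.mp (Finset.mem_erase.mp hm).2
    refine (Hf_sq_le hs hN hm1.1 hm1.2 hm'1).trans (le_of_eq ?_)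
    rw [split_pairs hN hm1.1 (fun x s => Phi f X m' (N x.1) (((m':ℤ) - m) * s))]
    simp only [mul_zero]
  refine h1.trans ?_
  simp_rw [Finset.sum_add_distrib]
  refine add_le_add ?_ (le_of_eq rfl)
  calc ∑ m' ∈ Finset.Ioc 0 M, ∑ m ∈ (Finset.Ioc 0 M).erase m', ∑ x ∈ PP I N 0, Phi f X m' (N x.1) 0
      ≤ ∑ m' ∈ Finset.Ioc 0 M, M * ∑ x ∈ PP I N 0, Phi f X m' (N x.1) 0 := by
        refine Finset.sum_le_sum fun m' _ => ?_
        rw [Finset.sum_const, nsmul_eq_mul]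
        have h2 : (((Finset.Ioc 0 M).erase m').card : ℝ) ≤ M := by
          have := Finset.card_erase_le (a := m') (s := Finset.Ioc 0 M)
          rw [Nat.card_Ioc] at this
          exact_mod_cast this
        exact mul_le_mul_of_nonneg_right h2 (Finset.sum_nonneg fun x _ => Phi_zero_nonneg _ _)
    _ = M * ∑ x ∈ PP I N 0, ∑ m' ∈ Finset.Ioc 0 M, Phi f X m' (N x.1) 0 := by
        rw [← Finset.mul_sum, Finset.sum_comm]
    _ ≤ M * ∑ x ∈ PP I N 0, (M * F₂ + 2 * (X * LL X ^ 31)) := by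
        refine mul_le_mul_of_nonneg_left (Finset.sum_le_sum fun x hx => ?_) (Nat.cast_nonneg _)
        have h3 := hN _ (mem_PP.mp hx).1.1
        refine (sum_Phi_zero hf (by exact_mod_cast h3.1) (by exact_mod_cast h3.2) M).trans ?_
        have := hF (N x.1)
        gcongr
    _ = _ := by
        rw [Finset.sum_const, nsmul_eq_mul]
        rfl

/-- **expansion** of `WW` -/
theorem WW_le (hs : Supp f X) (hf : ∀ n : ℕ, |f n| ≤ LL X ^ 4 * tauR n) (hN : ∀ i ∈ I, 1 ≤ N i ∧ N i ≤ X) {F₂ : ℝ}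
    (hF : ∀ n : ℤ, f n ^ 2 ≤ F₂) {c : ℕ → ℝ} (hc : ∀ m, |c m| ≤ 1) (M : ℕ) :
    WW I N X f c M ≤ I.card * (M * F₂ + 2 * (X * LL X ^ 31)) + M * (√(X * LL X ^ 11) * √(HH f X I N M)) := by
  classical
  have hL := LL_pos X
  -- expansion
  have h1 : WW I N X f c M = ∑ m' ∈ Finset.Ioc 0 M, ∑ m ∈ Finset.Ioc 0 M, c m' * c m * VV' f X I N m m' := by
    unfold WW VV'
    have h2 : ∀ i ∈ I, ∀ q ∈ Finset.Icc (-(X:ℤ)) X, (∑ m ∈ Finset.Ioc 0 M, c m * f (N i - q * m)) ^ 2 =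
        ∑ m' ∈ Finset.Ioc 0 M, ∑ m ∈ Finset.Ioc 0 M, c m' * c m * (f (N i - q * m) * f (N i - q * m')) := by
      intro i _ q _
      rw [sq, Finset.sum_mul_sum]
      exact Finset.sum_congr rfl fun m' _ => Finset.sum_congr rfl fun m _ => by ring
    rw [Finset.sum_congr rfl fun i hi => Finset.sum_congr rfl (h2 i hi)]
    have h3 : ∀ i ∈ I, ∑ q ∈ Finset.Icc (-(X:ℤ)) X, ∑ m' ∈ Finset.Ioc 0 M, ∑ m ∈ Finset.Ioc 0 M,
        c m' * c m * (f (N i - q * m) * f (N i - q * m')) = ∑ m' ∈ Finset.Ioc 0 M, ∑ m ∈ Finset.Ioc 0 M,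
        c m' * c m * ∑ q ∈ Finset.Icc (-(X:ℤ)) X, f (N i - q * m) * f (N i - q * m') := by
      intro i _
      rw [Finset.sum_comm]
      refine Finset.sum_congr rfl fun m' _ => ?_
      rw [Finset.sum_comm]
      refine Finset.sum_congr rfl fun m _ => ?_
      rw [Finset.mul_sum]
    rw [Finset.sum_congr rfl h3, Finset.sum_comm]
    refine Finset.sum_congr rfl fun m' _ => ?_
    rw [Finset.sum_comm]
    refine Finset.sum_congr rfl fun m _ => ?_
    rw [Finset.mul_sum]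
  have h2 : WW I N X f c M ≤ ∑ m' ∈ Finset.Ioc 0 M, ∑ m ∈ Finset.Ioc 0 M, |VV' f X I N m m'| := by
    rw [h1]
    refine Finset.sum_le_sum fun m' _ => Finset.sum_le_sum fun m _ => ?_
    refine (le_abs_self _).trans ?_
    rw [abs_mul, abs_mul]
    have h3 : |c m'| * |c m| ≤ 1 := mul_le_one₀ (hc m') (abs_nonneg _) (hc m)
    exact mul_le_of_le_one_left (abs_nonneg _) h3
  have h3 : ∑ m' ∈ Finset.Ioc 0 M, ∑ m ∈ Finset.Ioc 0 M, |VV' f X I N m m'| =
      ∑ m' ∈ Finset.Ioc 0 M, |VV' f X I N m' m'| +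
      ∑ m' ∈ Finset.Ioc 0 M, ∑ m ∈ (Finset.Ioc 0 M).erase m', |VV' f X I N m m'| := by
    rw [← Finset.sum_add_distrib]
    refine Finset.sum_congr rfl fun m' hm' => ?_
    exact (Finset.add_sum_erase _ _ hm').symm
  -- the diagonal
  have h4 : ∑ m' ∈ Finset.Ioc 0 M, |VV' f X I N m' m'| ≤ I.card * (M * F₂ + 2 * (X * LL X ^ 31)) := by
    have h5 : ∀ m' ∈ Finset.Ioc 0 M, |VV' f X I N m' m'| = ∑ i ∈ I, ∑ n ∈ Finset.Ioc 0 X,
        (if (m':ℤ) ∣ (N i:ℤ) - n then f n ^ 2 else 0) := by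
      intro m' hm'
      have hm1 := (Finset.mem_Ioc.mp hm').1
      unfold VV'
      rw [abs_of_nonneg (Finset.sum_nonneg fun i _ => Finset.sum_nonneg fun q _ => mul_self_nonneg _)]
      refine Finset.sum_congr rfl fun i hi => ?_
      have h6 := hN i hi
      have h7 := reindex (X := X) (m := m') (N := (N i : ℤ)) (φ := fun x => f x ^ 2)
        (fun n hn => by rw [hs.zero hn]; simp) hm1 (by exact_mod_cast h6.1) (by exact_mod_cast h6.2)
      rw [← h7]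
      exact Finset.sum_congr rfl fun q _ => by ring
    rw [Finset.sum_congr rfl h5, Finset.sum_comm]
    calc _ ≤ ∑ i ∈ I, (M * F₂ + 2 * (X * LL X ^ 31)) := by
          refine Finset.sum_le_sum fun i hi => ?_
          have h6 := hN i hi
          refine (sum_prog hf (by exact_mod_cast h6.1) (by exact_mod_cast h6.2) M).trans ?_
          have := hF (N i)
          gcongr
      _ = _ := by rw [Finset.sum_const, nsmul_eq_mul]
  -- the off-diagonal terms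
  have h5 : ∑ m' ∈ Finset.Ioc 0 M, ∑ m ∈ (Finset.Ioc 0 M).erase m', |VV' f X I N m m'| ≤
      M * (√(X * LL X ^ 11) * √(HH f X I N M)) := by
    set Sg := (Finset.Ioc 0 M).sigma (fun m' => (Finset.Ioc 0 M).erase m') with hSg
    have e1 : ∑ m' ∈ Finset.Ioc 0 M, ∑ m ∈ (Finset.Ioc 0 M).erase m', |VV' f X I N m m'| =
        ∑ z ∈ Sg, |VV' f X I N z.2 z.1| := by rw [hSg, Finset.sum_sigma]
    have e2 : HH f X I N M = ∑ z ∈ Sg, ∑ n ∈ Finset.Ioc 0 X, Hf f I N z.2 z.1 n ^ 2 := by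
      rw [hSg, Finset.sum_sigma]; rfl
    have hcard : (Sg.card : ℝ) ≤ (M:ℝ) ^ 2 := by
      rw [hSg, Finset.card_sigma]
      push_cast
      calc ∑ m' ∈ Finset.Ioc 0 M, (((Finset.Ioc 0 M).erase m').card : ℝ) ≤ ∑ m' ∈ Finset.Ioc 0 M, (M:ℝ) := by
            refine Finset.sum_le_sum fun m' _ => ?_
            have := Finset.card_erase_le (a := m') (s := Finset.Ioc 0 M)
            rw [Nat.card_Ioc] at this
            exact_mod_cast this
        _ = _ := by rw [Finset.sum_const, Nat.card_Ioc, nsmul_eq_mul, Nat.sub_zero, sq]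
    have h6 : ∀ z ∈ Sg, |VV' f X I N z.2 z.1| ^ 2 ≤ (X * LL X ^ 11) * ∑ n ∈ Finset.Ioc 0 X, Hf f I N z.2 z.1 n ^ 2 := by
      intro z hz
      obtain ⟨h7, h8⟩ := Finset.mem_sigma.mp hz
      have hm1 := (Finset.mem_Ioc.mp (Finset.mem_erase.mp h8).2).1
      rw [sq_abs, VV_eq hs hN hm1]
      refine (Finset.sum_mul_sq_le_sq_mul_sq _ _ _).trans ?_
      have := f_sq_le hf
      have h9 : 0 ≤ ∑ n ∈ Finset.Ioc 0 X, Hf f I N z.2 z.1 n ^ 2 := Finset.sum_nonneg fun _ _ => by positivity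
      gcongr
    have h7 : (∑ z ∈ Sg, |VV' f X I N z.2 z.1|) ^ 2 ≤ (M * (√(X * LL X ^ 11) * √(HH f X I N M))) ^ 2 := by
      have hHH0 : 0 ≤ HH f X I N M := by
        rw [e2]; exact Finset.sum_nonneg fun _ _ => Finset.sum_nonneg fun _ _ => by positivity
      calc _ ≤ (Sg.card : ℝ) * ∑ z ∈ Sg, |VV' f X I N z.2 z.1| ^ 2 := sq_sum_le_card_mul_sum_sq
        _ ≤ (M:ℝ) ^ 2 * ((X * LL X ^ 11) * HH f X I N M) := by
            have h8 : ∑ z ∈ Sg, |VV' f X I N z.2 z.1| ^ 2 ≤ (X * LL X ^ 11) * HH f X I N M := by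
              rw [e2, Finset.mul_sum]
              exact Finset.sum_le_sum h6
            exact mul_le_mul hcard h8 (Finset.sum_nonneg fun _ _ => by positivity) (by positivity)
        _ = _ := by
            rw [mul_pow, mul_pow, Real.sq_sqrt (by positivity), Real.sq_sqrt hHH0]
    rw [e1]
    exact (abs_le_of_sq_le_sq' h7 (by positivity)).2
  linarith

end

end Pool.Agent.SEH
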