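import Pool.Agent.SEH.Key5
import Pool.Agent.DEH.Count

/-!
Key lemma, part 6: the conclusion.
-/

open Complex Pool.Agent.ANT Pool.Agent.DEH Filter

namespace Pool.Agent.SEH

section

variable {f : ℤ → ℝ} {X : ℕ} {ι : Type*} {I : Finset ι} {N : ι → ℕ}

lemma H2_nonneg : 0 ≤ H2 I N X := Finset.sum_nonneg fun _ _ => by positivity

lemma H3_nonneg : 0 ≤ H3 I N X := Finset.sum_nonneg fun _ _ => mul_nonneg (tauR_nonneg _)
  (Finset.sum_nonneg fun _ _ => Nat.cast_nonneg _)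

lemma rr_nonneg (h : ℤ) : 0 ≤ rr I N h := Nat.cast_nonneg _

lemma GF_nonneg (R : ℕ) : 0 ≤ GF f X R :=
  Finset.sum_nonneg fun _ _ => Finset.sum_nonneg fun _ _ => Finset.sum_nonneg fun _ _ =>
    mul_nonneg (tauR_nonneg _) (by positivity)

lemma GS_nonneg (R : ℕ) : 0 ≤ GS I N X R :=
  Finset.sum_nonneg fun _ _ => Finset.sum_nonneg fun _ _ => Finset.sum_nonneg fun _ _ =>
    mul_nonneg (tauR_nonneg _) (by positivity)

/-- the numerical inequality for one dyadic block -/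
lemma block_num {L x R G S h2 h3 K : ℝ} {a C B A₀ : ℕ} (hL : 1 ≤ L) (hx : 0 ≤ x) (hR : 1 ≤ R) (hG0 : 0 ≤ G)
    (hh2 : 0 ≤ h2) (hh3 : 0 ≤ h3) (hRx : R ^ 2 ≤ x) (haB : a ≤ B) (hA₀ : A₀ = 20 + 2 * C + 3 * a)
    (hG1 : G ≤ 24 * (2 * x + 4 * R ^ 2) * (x ^ 2 * L ^ 34)) (hG2 : G ≤ 4 * R ^ 2 * (x ^ 2 * L ^ 18 * (x / L ^ A₀)))
    (hS : S ≤ 2 * R * (R * h3 + h2)) (hK0 : 0 ≤ K)
    (h2K : h2 * x ≤ K * L ^ C) (h3K : h3 * x * L ^ B ≤ K) :
    (2 * L / R) ^ 2 * (G * S) * L ^ a ≤ 2304 * x ^ 2 * K * L ^ 36 := by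
  have hR0 : 0 < R := by linarith
  have hL0 : 0 < L := by linarith
  have hP0 : 0 ≤ 2 * R * (R * h3 + h2) := by positivity
  by_cases hc : L ^ (C + a) ≤ R
  · have h1 : h3 * x * L ^ a ≤ K := by
      refine le_trans ?_ h3K
      have : L ^ a ≤ L ^ B := pow_le_pow_right₀ hL haB
      gcongr
    have h2' : h2 * x * L ^ a / R ≤ K := by
      rw [div_le_iff₀ hR0]
      calc h2 * x * L ^ a ≤ (K * L ^ C) * L ^ a := by gcongr
        _ = K * L ^ (C + a) := by rw [pow_add]; ring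
        _ ≤ K * R := by gcongr
    have hG3 : G ≤ 144 * x ^ 3 * L ^ 34 := by
      refine hG1.trans ?_
      calc 24 * (2 * x + 4 * R ^ 2) * (x ^ 2 * L ^ 34) ≤ 24 * (2 * x + 4 * x) * (x ^ 2 * L ^ 34) := by gcongr
        _ = _ := by ring
    calc (2 * L / R) ^ 2 * (G * S) * L ^ a ≤ (2 * L / R) ^ 2 * (G * (2 * R * (R * h3 + h2))) * L ^ a := by gcongr
      _ ≤ (2 * L / R) ^ 2 * ((144 * x ^ 3 * L ^ 34) * (2 * R * (R * h3 + h2))) * L ^ a := by gcongr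
      _ = 1152 * x ^ 2 * L ^ 36 * (h3 * x * L ^ a + h2 * x * L ^ a / R) := by field_simp; ring
      _ ≤ 1152 * x ^ 2 * L ^ 36 * (K + K) := by gcongr
      _ = _ := by ring
  · push Not at hc
    have h1 : h3 * x ≤ K := by
      refine le_trans ?_ h3K
      have : 1 ≤ L ^ B := one_le_pow₀ hL
      have h0 : 0 ≤ h3 * x := by positivity
      nlinarith
    have hCa : L ^ C ≤ L ^ (C + a) := pow_le_pow_right₀ hL (by omega)
    have h5 : x * (R * h3 + h2) ≤ 2 * K * L ^ (C + a) := by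
      calc x * (R * h3 + h2) = R * (h3 * x) + h2 * x := by ring
        _ ≤ L ^ (C + a) * K + K * L ^ (C + a) := by
            have : h2 * x ≤ K * L ^ (C + a) := h2K.trans (by gcongr)
            have h6 : R * (h3 * x) ≤ L ^ (C + a) * K := by gcongr
            linarith
        _ = _ := by ring
    have h6 : 1 ≤ L ^ 36 := one_le_pow₀ hL
    calc (2 * L / R) ^ 2 * (G * S) * L ^ a ≤ (2 * L / R) ^ 2 * (G * (2 * R * (R * h3 + h2))) * L ^ a := by gcongr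
      _ ≤ (2 * L / R) ^ 2 * ((4 * R ^ 2 * (x ^ 2 * L ^ 18 * (x / L ^ A₀))) * (2 * R * (R * h3 + h2))) * L ^ a := by gcongr
      _ = 32 * x ^ 2 * L ^ 20 * L ^ a / L ^ A₀ * (R * (x * (R * h3 + h2))) := by field_simp; ring
      _ ≤ 32 * x ^ 2 * L ^ 20 * L ^ a / L ^ A₀ * (L ^ (C + a) * (2 * K * L ^ (C + a))) := by gcongr
      _ = 64 * x ^ 2 * K := by
          rw [hA₀]
          rw [show L ^ (20 + 2 * C + 3 * a) = L ^ 20 * L ^ a * L ^ (C + a) * L ^ (C + a) by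
            rw [← pow_add, ← pow_add, ← pow_add]; congr 1; ring]
          field_simp
          ring
      _ ≤ 2304 * x ^ 2 * K * 1 := by
          have : 0 ≤ x ^ 2 * K := by positivity
          linarith
      _ ≤ _ := by gcongr

/-- eventually the divisor function is small -/
lemma tau_small : ∀ᶠ X : ℕ in atTop, ∀ n : ℕ, n ≤ X → (LL X ^ 4 * tauR n) ^ 2 ≤ √X := by
  obtain ⟨C, hC, h⟩ := tauR_le_rpow (ε := 1 / 16) (by norm_num)
  have h1 := eventually_log_pow_le 8 (show (0:ℝ) < 1 / 8 by norm_num)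
  have h2 : Tendsto (fun n : ℕ => (n:ℝ) ^ (1 / 4 : ℝ)) atTop atTop :=
    (tendsto_rpow_atTop (by positivity)).comp tendsto_natCast_atTop_atTop
  filter_upwards [h1, h2.eventually_ge_atTop (2 ^ 8 * C ^ 2), eventually_ge_atTop 3] with X hX1 hX2 hX3
  intro n hn
  have hX3' : (3:ℝ) ≤ X := by exact_mod_cast hX3
  have hX0 : (0:ℝ) < X := by linarith
  rcases Nat.eq_zero_or_pos n with rfl | hn0
  · have : tauR 0 = 0 := by simp [tauR]
    rw [this]; simp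
  have hτ := h n hn0.ne'
  have hlog := one_le_log hX3'
  have hLL : LL X ≤ 2 * Real.log X := by unfold LL; linarith
  have hL0 := LL_pos X
  have hτX : tauR n ≤ C * (X:ℝ) ^ (1 / 16 : ℝ) := by
    refine hτ.trans ?_
    have : (n:ℝ) ^ (1 / 16 : ℝ) ≤ (X:ℝ) ^ (1 / 16 : ℝ) :=
      Real.rpow_le_rpow (Nat.cast_nonneg _) (by exact_mod_cast hn) (by norm_num)
    gcongr
  have hτ0 := tauR_nonneg n
  calc (LL X ^ 4 * tauR n) ^ 2 = LL X ^ 8 * tauR n ^ 2 := by ring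
    _ ≤ (2 * Real.log X) ^ 8 * (C * (X:ℝ) ^ (1 / 16 : ℝ)) ^ 2 := by gcongr
    _ = (2 ^ 8 * C ^ 2) * Real.log X ^ 8 * ((X:ℝ) ^ (1 / 16 : ℝ)) ^ 2 := by ring
    _ ≤ (X:ℝ) ^ (1 / 4 : ℝ) * (X:ℝ) ^ (1 / 8 : ℝ) * ((X:ℝ) ^ (1 / 16 : ℝ)) ^ 2 := by gcongr
    _ = √X := by
        rw [← Real.rpow_natCast ((X:ℝ) ^ (1 / 16 : ℝ)), ← Real.rpow_mul hX0.le, ← Real.rpow_add hX0,
          ← Real.rpow_add hX0, Real.sqrt_eq_rpow]
        norm_num

/-- the bound for the off-diagonal sum -/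
lemma TT_final (hs : Supp f X) (hf : ∀ n : ℕ, |f n| ≤ LL X ^ 4 * tauR n) (hN : ∀ i ∈ I, 1 ≤ N i ∧ N i ≤ X)
    {a₂ C B A₀ M : ℕ} (haB : 4 * a₂ ≤ B) (hA₀ : A₀ = 20 + 2 * C + 3 * (4 * a₂))
    (hS : ∀ α : ℝ, ‖∑ n ∈ Finset.Ioc 0 X, (f n : ℂ) * ee (n * α)‖ * LL X ^ A₀ ≤ X)
    (h2K : H2 I N X * X ≤ (I.card : ℝ) ^ 4 * LL X ^ C) (h3K : H3 I N X * X * LL X ^ B ≤ (I.card : ℝ) ^ 4)
    (hM1 : 1 ≤ M) (hMX : M ^ 2 ≤ X) :
    TT f X I N M * LL X ^ (2 * a₂) ≤ 96 * X * (I.card : ℝ) ^ 2 * LL X ^ 19 := by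
  have hL1 := LL_one_le X
  have hL0 := LL_pos X
  set L := LL X with hLdef
  have hMX' : M ≤ X := by nlinarith
  set J := Nat.log 2 M + 1 with hJ
  have hMJ : M < 2 ^ J := Nat.lt_pow_succ_log_self (by norm_num) M
  have h1 := TT_le hs hN hMX' hMJ
  have hS' : ∀ α : ℝ, ‖∑ n ∈ Finset.Ioc 0 X, (f n : ℂ) * ee (n * α)‖ ≤ X / L ^ A₀ := by
    intro α
    rw [le_div_iff₀ (by positivity)]
    exact hS α
  have hterm : ∀ j ∈ Finset.range J, (2 * L / (2 ^ j : ℕ)) * (√(GF f X (2 ^ j)) * √(GS I N X (2 ^ j))) * L ^ (2 * a₂) ≤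
      48 * X * (I.card : ℝ) ^ 2 * L ^ 18 := by
    intro j hj
    set R := 2 ^ j with hR
    have hR1 : 1 ≤ R := Nat.one_le_two_pow
    have hRM : R ≤ M := by
      have h3 : j ≤ Nat.log 2 M := by have := Finset.mem_range.mp hj; omega
      calc R ≤ 2 ^ Nat.log 2 M := Nat.pow_le_pow_right (by norm_num) h3
        _ ≤ M := Nat.pow_log_le_self 2 (by omega)
    have hRR : (1:ℝ) ≤ (R:ℝ) := by exact_mod_cast hR1
    have hRX : (R:ℝ) ^ 2 ≤ X := by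
      have : R ^ 2 ≤ X := (Nat.pow_le_pow_left hRM 2).trans hMX
      exact_mod_cast this
    have hG0 := GF_nonneg (f := f) (X := X) R
    have hS0 := GS_nonneg (I := I) (N := N) (X := X) R
    have hG1 := gamF_sieve hs hf R
    have hG2 := gamF_small hs hf hS' R
    have hGS := gamS_le hN R hR1
    have h4 := block_num (L := L) (x := X) (R := R) (G := GF f X R) (S := GS I N X R) (h2 := H2 I N X) (h3 := H3 I N X)
      (K := (I.card : ℝ) ^ 4) (a := 4 * a₂) (C := C) (B := B) (A₀ := A₀) hL1 (Nat.cast_nonneg _) hRR hG0 H2_nonneg H3_nonneg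
      hRX haB hA₀ hG1 hG2 hGS (by positivity) h2K h3K
    have h5 : ((2 * L / (R:ℝ)) * (√(GF f X R) * √(GS I N X R)) * L ^ (2 * a₂)) ^ 2 ≤
        (48 * X * (I.card : ℝ) ^ 2 * L ^ 18) ^ 2 := by
      calc ((2 * L / (R:ℝ)) * (√(GF f X R) * √(GS I N X R)) * L ^ (2 * a₂)) ^ 2
          = (2 * L / R) ^ 2 * (√(GF f X R) ^ 2 * √(GS I N X R) ^ 2) * L ^ (4 * a₂) := by ring
        _ = (2 * L / R) ^ 2 * (GF f X R * GS I N X R) * L ^ (4 * a₂) := by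
            rw [Real.sq_sqrt hG0, Real.sq_sqrt hS0]
        _ ≤ 2304 * (X:ℝ) ^ 2 * (I.card : ℝ) ^ 4 * L ^ 36 := h4
        _ = _ := by ring
    exact (abs_le_of_sq_le_sq' h5 (by positivity)).2
  have hJL : (J:ℝ) ≤ 2 * L := by
    have h6 : ((Nat.log 2 M : ℕ) : ℝ) ≤ 2 * Real.log M := by
      have h7 : (2:ℝ) ^ (Nat.log 2 M) ≤ M := by exact_mod_cast Nat.pow_log_le_self 2 (by omega : M ≠ 0)
      have h8 := Real.log_le_log (by positivity) h7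
      rw [Real.log_pow] at h8
      have h9 := Real.log_two_gt_d9
      have h10 : (0:ℝ) ≤ (Nat.log 2 M : ℕ) := Nat.cast_nonneg _
      nlinarith
    have h7 : Real.log M ≤ Real.log X := Real.log_le_log (by exact_mod_cast hM1) (by exact_mod_cast hMX')
    rw [hJ]
    push_cast
    rw [hLdef, LL]
    linarith
  calc TT f X I N M * L ^ (2 * a₂) ≤ |TT f X I N M| * L ^ (2 * a₂) := by
        gcongr; exact le_abs_self _
    _ ≤ (∑ j ∈ Finset.range J, (2 * L / (2 ^ j : ℕ)) * (√(GF f X (2 ^ j)) * √(GS I N X (2 ^ j)))) * L ^ (2 * a₂) := by gcongr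
    _ = ∑ j ∈ Finset.range J, (2 * L / (2 ^ j : ℕ)) * (√(GF f X (2 ^ j)) * √(GS I N X (2 ^ j))) * L ^ (2 * a₂) := by
        rw [Finset.sum_mul]
    _ ≤ ∑ j ∈ Finset.range J, 48 * X * (I.card : ℝ) ^ 2 * L ^ 18 := Finset.sum_le_sum hterm
    _ = J * (48 * X * (I.card : ℝ) ^ 2 * L ^ 18) := by rw [Finset.sum_const, Finset.card_range, nsmul_eq_mul]
    _ ≤ (2 * L) * (48 * X * (I.card : ℝ) ^ 2 * L ^ 18) := by gcongr
    _ = _ := by ring

end

/-- **Key lemma**. -/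
theorem keyW (A C : ℕ) : ∃ A₀ B X₀ : ℕ, ∀ X : ℕ, X₀ ≤ X → ∀ (ι : Type) (I : Finset ι) (N : ι → ℕ),
    (∀ i ∈ I, 1 ≤ N i ∧ N i ≤ X) →
    rr I N 0 * √X * LL X ^ B ≤ (I.card : ℝ) ^ 2 →
    H2 I N X * X ≤ (I.card : ℝ) ^ 4 * LL X ^ C →
    H3 I N X * X * LL X ^ B ≤ (I.card : ℝ) ^ 4 →
    ∀ f : ℤ → ℝ, Supp f X → (∀ n : ℕ, |f n| ≤ LL X ^ 4 * tauR n) →
    (∀ α : ℝ, ‖∑ n ∈ Finset.Ioc 0 X, (f n : ℂ) * ee (n * α)‖ * LL X ^ A₀ ≤ X) →
    ∀ c : ℕ → ℝ, (∀ m, |c m| ≤ 1) → ∀ M : ℕ, LL X ^ B ≤ M → M ^ 2 ≤ X →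
    WW I N X f c M * LL X ^ A ≤ I.card * X * M := by
  obtain ⟨a₂, ha₂⟩ : ∃ a₂ : ℕ, a₂ = A + 17 := ⟨_, rfl⟩
  obtain ⟨B, hB⟩ : ∃ B : ℕ, B = 4 * a₂ + A + 40 := ⟨_, rfl⟩
  obtain ⟨A₀, hA₀⟩ : ∃ A₀ : ℕ, A₀ = 20 + 2 * C + 3 * (4 * a₂) := ⟨_, rfl⟩
  have hlog : Tendsto (fun n : ℕ => Real.log (n:ℝ)) atTop atTop :=
    Real.tendsto_log_atTop.comp tendsto_natCast_atTop_atTop
  obtain ⟨X₁, hX₁⟩ := eventually_atTop.mp (tau_small.and (hlog.eventually_ge_atTop 12))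
  refine ⟨A₀, B, X₁, fun X hX ι I N hN hr0 h2 h3 f hs hf hS c hc M hM1 hM2 => ?_⟩
  obtain ⟨hts, hl12⟩ := hX₁ X hX
  have hL13 : 13 ≤ LL X := by unfold LL; linarith
  have hL1 := LL_one_le X
  have hL0 := LL_pos X
  have hMR1 : (1:ℝ) ≤ M := (one_le_pow₀ hL1).trans hM1
  have hM1' : 1 ≤ M := by exact_mod_cast hMR1
  have hX1 : 1 ≤ X := hM1'.trans (by nlinarith)
  have hX0 : (0:ℝ) < X := by exact_mod_cast hX1
  set F₂ : ℝ := √X with hF₂
  have hF : ∀ n : ℤ, f n ^ 2 ≤ F₂ := by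
    intro n
    by_cases h : 1 ≤ n ∧ n ≤ X
    · have e : ((n.toNat : ℕ) : ℤ) = n := Int.toNat_of_nonneg (by omega)
      have h1 := hf n.toNat
      rw [e] at h1
      rw [← sq_abs]
      refine le_trans ?_ (hts n.toNat (by omega))
      gcongr
    · rw [hs.zero h, hF₂]
      simp
  have hMs : (M:ℝ) ≤ √X := by
    rw [Real.le_sqrt (by positivity) hX0.le]
    exact_mod_cast hM2
  have hss : √(X:ℝ) * √X = X := Real.mul_self_sqrt hX0.le
  have hMF : M * F₂ ≤ X := by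
    calc (M:ℝ) * F₂ ≤ √X * √X := by rw [hF₂]; gcongr
      _ = X := hss
  have hTT := TT_final hs hf hN (a₂ := a₂) (C := C) (B := B) (A₀ := A₀) (M := M) (by omega) hA₀ hS h2 h3 hM1' hM2
  have hHH := HH_le hs hf hN hF M
  have hWW := WW_le hs hf hN hF hc M
  set L := LL X with hLdef
  set K : ℝ := (I.card : ℝ) with hK
  have hK0 : 0 ≤ K := Nat.cast_nonneg _
  have hr0' := rr_nonneg (I := I) (N := N) 0
  -- bound for HH
  have hHH2 : HH f X I N M * L ^ (2 * a₂) ≤ 100 * X * K ^ 2 * L ^ 19 := by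
    have h5 : (M * (rr I N 0 * (M * F₂ + 2 * (X * L ^ 31)))) * L ^ (2 * a₂) ≤ 3 * X * K ^ 2 * L ^ 19 := by
      have h6 : M * F₂ + 2 * (X * L ^ 31) ≤ 3 * X * L ^ 31 := by
        have h7 : (1:ℝ) ≤ L ^ 31 := one_le_pow₀ hL1
        nlinarith
      have h8 : M * rr I N 0 * L ^ B ≤ K ^ 2 := by
        refine le_trans ?_ hr0
        calc M * rr I N 0 * L ^ B ≤ √X * rr I N 0 * L ^ B := by gcongr
          _ = _ := by ring
      calc (M * (rr I N 0 * (M * F₂ + 2 * (X * L ^ 31)))) * L ^ (2 * a₂)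
          ≤ (M * (rr I N 0 * (3 * X * L ^ 31))) * L ^ (2 * a₂) := by gcongr
        _ = 3 * X * L ^ 19 * (M * rr I N 0 * L ^ (12 + 2 * a₂)) := by rw [pow_add L 12]; ring
        _ ≤ 3 * X * L ^ 19 * (M * rr I N 0 * L ^ B) := by
            have : L ^ (12 + 2 * a₂) ≤ L ^ B := pow_le_pow_right₀ hL1 (by omega)
            gcongr
        _ ≤ 3 * X * L ^ 19 * K ^ 2 := by gcongr
        _ = _ := by ring
    calc HH f X I N M * L ^ (2 * a₂)
        ≤ (M * (rr I N 0 * (M * F₂ + 2 * (X * L ^ 31))) + TT f X I N M) * L ^ (2 * a₂) := by gcongr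
      _ = (M * (rr I N 0 * (M * F₂ + 2 * (X * L ^ 31)))) * L ^ (2 * a₂) + TT f X I N M * L ^ (2 * a₂) := by ring
      _ ≤ 3 * X * K ^ 2 * L ^ 19 + 96 * X * K ^ 2 * L ^ 19 := add_le_add h5 hTT
      _ ≤ _ := by
          have : 0 ≤ X * K ^ 2 * L ^ 19 := by positivity
          linarith
  have hHH0 : 0 ≤ HH f X I N M :=
    Finset.sum_nonneg fun _ _ => Finset.sum_nonneg fun _ _ => Finset.sum_nonneg fun _ _ => by positivity
  -- the square root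
  have hsq : √(X * L ^ 11) * √(HH f X I N M) * L ^ a₂ ≤ 10 * X * K * L ^ 15 := by
    have h5 : (√(X * L ^ 11) * √(HH f X I N M) * L ^ a₂) ^ 2 ≤ (10 * X * K * L ^ 15) ^ 2 := by
      calc (√(X * L ^ 11) * √(HH f X I N M) * L ^ a₂) ^ 2
          = √(X * L ^ 11) ^ 2 * √(HH f X I N M) ^ 2 * L ^ (2 * a₂) := by ring
        _ = (X * L ^ 11) * (HH f X I N M * L ^ (2 * a₂)) := by
            rw [Real.sq_sqrt (by positivity), Real.sq_sqrt hHH0]; ring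
        _ ≤ (X * L ^ 11) * (100 * X * K ^ 2 * L ^ 19) := by gcongr
        _ = _ := by ring
    exact (abs_le_of_sq_le_sq' h5 (by positivity)).2
  -- conclusion
  have hfin1 : K * (M * F₂ + 2 * (X * L ^ 31)) * L ^ A ≤ 3 / 13 * (K * X * M) := by
    have h6 : M * F₂ + 2 * (X * L ^ 31) ≤ 3 * X * L ^ 31 := by
      have h7 : (1:ℝ) ≤ L ^ 31 := one_le_pow₀ hL1
      nlinarith
    have h7 : L ^ (A + 31) * 13 ≤ M := by
      calc L ^ (A + 31) * 13 ≤ L ^ (A + 31) * L := by gcongr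
        _ = L ^ (A + 32) := by rw [← pow_succ]
        _ ≤ L ^ B := pow_le_pow_right₀ hL1 (by omega)
        _ ≤ M := hM1
    calc K * (M * F₂ + 2 * (X * L ^ 31)) * L ^ A ≤ K * (3 * X * L ^ 31) * L ^ A := by gcongr
      _ = 3 / 13 * (K * X * (L ^ (A + 31) * 13)) := by rw [pow_add L A]; ring
      _ ≤ _ := by gcongr
  have hfin2 : M * (√(X * L ^ 11) * √(HH f X I N M)) * L ^ A ≤ 10 / 169 * (K * X * M) := by
    have h6 : √(X * L ^ 11) * √(HH f X I N M) * L ^ A * L ^ 17 ≤ 10 * X * K * L ^ 15 := by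
      refine le_trans (le_of_eq ?_) hsq
      rw [ha₂, pow_add L A]; ring
    have h7 : √(X * L ^ 11) * √(HH f X I N M) * L ^ A * L ^ 2 ≤ 10 * X * K := by
      have h8 : (√(X * L ^ 11) * √(HH f X I N M) * L ^ A * L ^ 2) * L ^ 15 ≤ (10 * X * K) * L ^ 15 := by
        calc _ = √(X * L ^ 11) * √(HH f X I N M) * L ^ A * L ^ 17 := by ring
          _ ≤ _ := h6
      exact le_of_mul_le_mul_right h8 (by positivity)
    have h9 : (√(X * L ^ 11) * √(HH f X I N M) * L ^ A) * 169 ≤ 10 * X * K := by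
      refine le_trans ?_ h7
      have : (169:ℝ) ≤ L ^ 2 := by nlinarith
      gcongr
    have hM0 : (0:ℝ) ≤ M := by positivity
    calc M * (√(X * L ^ 11) * √(HH f X I N M)) * L ^ A
        = (M / 169) * ((√(X * L ^ 11) * √(HH f X I N M) * L ^ A) * 169) := by ring
      _ ≤ (M / 169) * (10 * X * K) := mul_le_mul_of_nonneg_left h9 (by positivity)
      _ = _ := by ring
  have hP : 0 ≤ K * X * M := by positivity
  have hLA : 0 ≤ L ^ A := by positivity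
  have h20 := mul_le_mul_of_nonneg_right hWW hLA
  rw [add_mul] at h20
  refine h20.trans ((add_le_add hfin1 hfin2).trans ?_)
  linarith

end Pool.Agent.SEH
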