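import Pool.Agent.SEH.PartS
import Pool.Agent.SEH.PartT

/-!
From the two parts (`q ≤ √X`, `q > √X`) to the number of exceptional members of a family
(doc `proof/MP_e9eb55_nt_SE`).
-/

open Complex Pool.Agent.ANT Pool.Agent.DEH Filter

namespace Pool.Agent.SEH

lemma abs_g1_le' (n : ℕ) : |g1 n| ≤ 1 + Real.log n := by
  have h := Real.log_natCast_nonneg n
  unfold g1
  have h1 : |ArithmeticFunction.moebius n| ≤ 1 := ArithmeticFunction.abs_moebius_le_one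
  have h2 : |((ArithmeticFunction.moebius n : ℤ) : ℝ)| ≤ 1 := by
    rw [← Int.cast_abs]; exact_mod_cast h1
  linarith

lemma abs_g2_le' (n : ℕ) : |g2 n| ≤ 1 + Real.log n := by
  have h := Real.log_natCast_nonneg n
  unfold g2
  have h1 : |ArithmeticFunction.moebius n| ≤ 1 := ArithmeticFunction.abs_moebius_le_one
  have h2 : |((ArithmeticFunction.moebius n : ℤ) : ℝ)| ≤ 1 := by
    rw [← Int.cast_abs]; exact_mod_cast h1
  rw [abs_mul, abs_of_nonneg h]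
  nlinarith

lemma good_of {g : ℕ → ℝ} (hg : g = g1 ∨ g = g2) : Good g := by
  rcases hg with rfl | rfl
  · exact good_g1
  · exact good_g2

lemma abs_le_of {g : ℕ → ℝ} (hg : g = g1 ∨ g = g2) (n : ℕ) : |g n| ≤ 1 + Real.log n := by
  rcases hg with rfl | rfl
  · exact abs_g1_le' n
  · exact abs_g2_le' n

lemma ev_LL_ge' (K : ℝ) : ∀ᶠ X : ℕ in atTop, K ≤ LL X := by
  filter_upwards [(Real.tendsto_log_atTop.comp tendsto_natCast_atTop_atTop).eventually_ge_atTop K]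
    with X hX
  unfold LL
  simp only [Function.comp_apply] at hX
  linarith

section

variable {ι : Type} {I : Finset ι} {N : ι → ℕ} {X : ℕ}

lemma H1_nn : 0 ≤ H1 I N X := Finset.sum_nonneg fun _ _ => mul_nonneg (tauR_nonneg _) (by positivity)

lemma H1_le_H2' : H1 I N X ≤ H2 I N X := by
  unfold H1 H2
  refine Finset.sum_le_sum fun h hh => ?_
  have h0 : h ≠ 0 := (Finset.mem_erase.mp hh).1
  have h1 : 1 ≤ tauR h.natAbs := one_le_tauR (by omega)
  have h2 : tauR h.natAbs ≤ tauR h.natAbs ^ 2 := by nlinarith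
  gcongr

end

/-- the moduli `q ≤ Q₁`, under a condition on `r(0)` depending on `Q₁` and on `H₁` -/
theorem sumS1 {g : ℕ → ℝ} (hg : Good g) (hb : ∀ n, |g n| ≤ 1 + Real.log n) (A C : ℕ) :
    ∃ X₀ : ℕ, ∀ X : ℕ, X₀ ≤ X → ∀ (ι : Type) (I : Finset ι) (N : ι → ℕ),
      (∀ i ∈ I, 1 ≤ N i ∧ N i ≤ X) → ∀ Q₁ : ℕ, Q₁ ^ 2 ≤ X →
      rr I N 0 * Q₁ * LL X ^ (4 * A + 31) ≤ (I.card : ℝ) ^ 2 →
      H1 I N X * X ≤ (I.card : ℝ) ^ 4 * LL X ^ C →
      (∑ i ∈ I, ∑ q ∈ Finset.Ioc 0 Q₁, |E g (N i) q|) * LL X ^ A ≤ I.card * X := by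
  set m : ℕ := 4 * A + 31 + C with hm
  obtain ⟨K, hK, hS⟩ := partS hg hb m
  obtain ⟨X₀, hX₀⟩ := eventually_atTop.mp
    ((ev_LL_ge' (K * (1 + 2 ^ m))).and ((ev_LL_ge' 2).and (eventually_ge_atTop 3)))
  refine ⟨X₀, fun X hX ι I N hN Q₁ hQ hr hH => ?_⟩
  obtain ⟨hL2, hL3, hX3⟩ := hX₀ X hX
  have hXR : (3:ℝ) ≤ X := by exact_mod_cast hX3
  have hX0 : (0:ℝ) < X := by linarith
  have hl : 1 ≤ Real.log X := one_le_log hXR
  have hL1 := LL_one_le X
  have hL0 := LL_pos X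
  have hLlog : LL X ≤ 2 * Real.log X := by unfold LL; linarith
  set S : ℝ := ∑ i ∈ I, ∑ q ∈ Finset.Ioc 0 Q₁, |E g (N i) q| with hSd
  have hS0 : 0 ≤ S := Finset.sum_nonneg fun _ _ => Finset.sum_nonneg fun _ _ => abs_nonneg _
  set n : ℝ := (I.card : ℝ) with hn
  have hn0 : 0 ≤ n := Nat.cast_nonneg _
  have h1 := hS X hX3 ι I N hN Q₁ hQ
  rw [← hSd, ← hn] at h1
  have hr0 : 0 ≤ rr I N 0 := Nat.cast_nonneg _
  set L := LL X with hLdef
  have hH' : √(H1 I N X) * √X ≤ n ^ 2 * L ^ C := by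
    rw [← Real.sqrt_mul H1_nn]
    refine Real.sqrt_le_iff.mpr ⟨by positivity, hH.trans ?_⟩
    calc n ^ 4 * L ^ C ≤ n ^ 4 * L ^ (2 * C) := by
          have : L ^ C ≤ L ^ (2 * C) := pow_le_pow_right₀ hL1 (by omega)
          gcongr
      _ = _ := by ring
  have hV : (rr I N 0 * X * Q₁ + √(H1 I N X) * X * √X / Real.log X ^ m) * L ^ (4 * A + 31) ≤
      n ^ 2 * X * (1 + 2 ^ m) := by
    have e1 : rr I N 0 * X * Q₁ * L ^ (4 * A + 31) ≤ n ^ 2 * X := by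
      calc _ = (rr I N 0 * Q₁ * L ^ (4 * A + 31)) * X := by ring
        _ ≤ _ := by gcongr
    have e2 : √(H1 I N X) * X * √X / Real.log X ^ m * L ^ (4 * A + 31) ≤ n ^ 2 * X * 2 ^ m := by
      have e3 : L ^ (4 * A + 31 + C) ≤ 2 ^ m * Real.log X ^ m := by
        rw [← mul_pow, ← hm]
        gcongr
      rw [div_mul_eq_mul_div, div_le_iff₀ (by positivity)]
      calc √(H1 I N X) * X * √X * L ^ (4 * A + 31) = (√(H1 I N X) * √X) * (X * L ^ (4 * A + 31)) := by ring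
        _ ≤ (n ^ 2 * L ^ C) * (X * L ^ (4 * A + 31)) := by gcongr
        _ = n ^ 2 * X * L ^ (4 * A + 31 + C) := by rw [pow_add]; ring
        _ ≤ n ^ 2 * X * (2 ^ m * Real.log X ^ m) := by gcongr
        _ = _ := by ring
    calc _ = rr I N 0 * X * Q₁ * L ^ (4 * A + 31) +
          √(H1 I N X) * X * √X / Real.log X ^ m * L ^ (4 * A + 31) := by ring
      _ ≤ n ^ 2 * X + n ^ 2 * X * 2 ^ m := add_le_add e1 e2
      _ = _ := by ring
  have h2 : (S * L ^ A) ^ 4 ≤ (n * X) ^ 4 := by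
    refine le_of_mul_le_mul_right ?_ hL0
    calc (S * L ^ A) ^ 4 * L = S ^ 4 * L ^ (4 * A + 1) := by rw [pow_add, pow_mul' L 4 A]; ring
      _ ≤ (K * n ^ 2 * (X:ℝ) ^ 3 * L ^ 30 *
          (rr I N 0 * X * Q₁ + √(H1 I N X) * X * √X / Real.log X ^ m)) * L ^ (4 * A + 1) := by gcongr
      _ = K * n ^ 2 * (X:ℝ) ^ 3 *
          ((rr I N 0 * X * Q₁ + √(H1 I N X) * X * √X / Real.log X ^ m) * L ^ (4 * A + 31)) := by
          rw [show 4 * A + 31 = 30 + (4 * A + 1) by ring, pow_add L 30]; ring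
      _ ≤ K * n ^ 2 * (X:ℝ) ^ 3 * (n ^ 2 * X * (1 + 2 ^ m)) := by gcongr
      _ = (n * X) ^ 4 * (K * (1 + 2 ^ m)) := by ring
      _ ≤ (n * X) ^ 4 * L := by gcongr
  exact le_of_pow_le_pow_left₀ (by norm_num) (by positivity) h2

lemma sum_totient_le (X : ℕ) (L : ℝ) : ∑ q ∈ Sq X L, 1 / (q.totient : ℝ) ≤ LL X ^ 2 := by
  have hsub : Sq X L ⊆ Finset.Ioc 0 X := Finset.filter_subset _ _
  calc _ ≤ ∑ q ∈ Sq X L, tauR q / q := by
        refine Finset.sum_le_sum fun q hq => ?_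
        have h1 := (Finset.mem_Ioc.mp (hsub hq)).1
        exact one_div_totient_le (by omega)
    _ ≤ ∑ q ∈ Finset.Ioc 0 X, tauR q / q :=
        Finset.sum_le_sum_of_subset_of_nonneg hsub fun q _ _ =>
          div_nonneg (tauR_nonneg q) (Nat.cast_nonneg _)
    _ ≤ Hs X ^ 2 := sum_tau_div_le X
    _ ≤ LL X ^ 2 := by
        have := Hs_nonneg X
        have := Hs_le_LL X
        gcongr

/-- the majorant of the discrepancies, summed over the family -/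
theorem sumV {g : ℕ → ℝ} (hg : g = g1 ∨ g = g2) (A C : ℕ) {ε : ℝ} (hε : 0 < ε)
    (hε1 : ε ≤ 1) : ∃ B X₀ : ℕ, ∀ X : ℕ, X₀ ≤ X →
    ∀ (ι : Type) (I : Finset ι) (N : ι → ℕ), (∀ i ∈ I, 1 ≤ N i ∧ N i ≤ X) →
    rr I N 0 * √X * LL X ^ B ≤ (I.card : ℝ) ^ 2 →
    H2 I N X * X ≤ (I.card : ℝ) ^ 4 * LL X ^ C →
    H3 I N X * X * LL X ^ B ≤ (I.card : ℝ) ^ 4 →
    (∑ i ∈ I, VV g X (Real.log X ^ ε / 2) (N i)) * LL X ^ A ≤ I.card * X := by
  obtain ⟨B, X₁, h1⟩ := partT hg (A + 1) C hε hε1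
  obtain ⟨X₂, h2⟩ := sumS1 (good_of hg) (abs_le_of hg) (A + 3) C
  obtain ⟨X₃, hX₃⟩ := eventually_atTop.mp ((ev_LL_ge' 3).and (eventually_ge_atTop 3))
  set B' : ℕ := max B (4 * (A + 3) + 31) with hB'
  refine ⟨B', max X₁ (max X₂ X₃), fun X hX ι I N hN hr hH2 hH3 => ?_⟩
  obtain ⟨hL3, hX3⟩ := hX₃ X (le_trans (le_max_right _ _) (le_trans (le_max_right _ _) hX))
  have hX1 : X₁ ≤ X := le_trans (le_max_left _ _) hX
  have hX2 : X₂ ≤ X := le_trans (le_max_left _ _) (le_trans (le_max_right _ _) hX)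
  have hL1 := LL_one_le X
  have hL0 := LL_pos X
  have hX0 : (0:ℝ) < X := by
    have : (3:ℝ) ≤ X := by exact_mod_cast hX3
    linarith
  set L := LL X with hL
  set n : ℝ := (I.card : ℝ) with hn
  have hn0 : 0 ≤ n := Nat.cast_nonneg _
  have hr0 : 0 ≤ rr I N 0 := Nat.cast_nonneg _
  have hH30 : 0 ≤ H3 I N X := Finset.sum_nonneg fun _ _ => mul_nonneg (tauR_nonneg _)
    (Finset.sum_nonneg fun _ _ => Nat.cast_nonneg _)
  have hpB : L ^ B ≤ L ^ B' := pow_le_pow_right₀ hL1 (le_max_left _ _)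
  have hpS : L ^ (4 * (A + 3) + 31) ≤ L ^ B' := pow_le_pow_right₀ hL1 (le_max_right _ _)
  -- the large moduli
  have hTT := h1 X hX1 ι I N hN
    (le_trans (mul_le_mul_of_nonneg_left hpB (by positivity)) hr) hH2
    (le_trans (mul_le_mul_of_nonneg_left hpB (by positivity)) hH3)
  -- the small moduli
  set Q₁ := Nat.sqrt X with hQ1
  have hQs : Q₁ ^ 2 ≤ X := Nat.sqrt_le' X
  have hQs' : (Q₁:ℝ) ≤ √X := Real.nat_sqrt_le_real_sqrt
  have hSS := h2 X hX2 ι I N hN Q₁ hQs (by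
    calc rr I N 0 * Q₁ * L ^ (4 * (A + 3) + 31) ≤ rr I N 0 * √X * L ^ B' := by gcongr
      _ ≤ _ := hr) (le_trans (mul_le_mul_of_nonneg_right H1_le_H2' hX0.le) hH2)
  set S : ℝ := ∑ i ∈ I, ∑ q ∈ Finset.Ioc 0 Q₁, |E g (N i) q| with hSd
  set T : ℝ := ∑ i ∈ I, ∑ q ∈ (Sq X (Real.log X ^ ε / 2)).filter (fun q => X < q ^ 2), |E g (N i) q| with hTd
  have hS0 : 0 ≤ S := Finset.sum_nonneg fun _ _ => Finset.sum_nonneg fun _ _ => abs_nonneg _
  have hVV : ∑ i ∈ I, VV g X (Real.log X ^ ε / 2) (N i) ≤ (1 + L ^ 2) * S + T := by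
    have h3 : ∀ i ∈ I, VV g X (Real.log X ^ ε / 2) (N i) ≤
        (1 + L ^ 2) * (∑ q ∈ Finset.Ioc 0 Q₁, |E g (N i) q|) +
          ∑ q ∈ (Sq X (Real.log X ^ ε / 2)).filter (fun q => X < q ^ 2), |E g (N i) q| := by
      intro i _
      unfold VV
      rw [Finset.sum_add_distrib]
      have e1 : ∑ q ∈ Sq X (Real.log X ^ ε / 2), |E g (N i) q| ≤ (∑ q ∈ Finset.Ioc 0 Q₁, |E g (N i) q|) +
          ∑ q ∈ (Sq X (Real.log X ^ ε / 2)).filter (fun q => X < q ^ 2), |E g (N i) q| := by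
        rw [← Finset.sum_filter_add_sum_filter_not (Sq X (Real.log X ^ ε / 2)) (fun q => X < q ^ 2), add_comm]
        have : ∑ q ∈ (Sq X (Real.log X ^ ε / 2)).filter (fun q => ¬ X < q ^ 2), |E g (N i) q| ≤
            ∑ q ∈ Finset.Ioc 0 Q₁, |E g (N i) q| := by
          refine Finset.sum_le_sum_of_subset_of_nonneg ?_ fun _ _ _ => abs_nonneg _
          intro q hq
          obtain ⟨h4, h5⟩ := Finset.mem_filter.mp hq
          have h6 := Finset.mem_Ioc.mp (Finset.mem_filter.mp h4).1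
          refine Finset.mem_Ioc.mpr ⟨h6.1, ?_⟩
          rw [hQ1, Nat.le_sqrt']
          exact not_lt.mp h5
        linarith
      have e2 : ∑ q ∈ Sq X (Real.log X ^ ε / 2), 1 / (q.totient : ℝ) * |DEH.S g (N i)| ≤
          L ^ 2 * ∑ q ∈ Finset.Ioc 0 Q₁, |E g (N i) q| := by
        rw [← Finset.sum_mul, ← E_one]
        have h4 : |E g (N i) 1| ≤ ∑ q ∈ Finset.Ioc 0 Q₁, |E g (N i) q| := by
          have h5 : 1 ∈ Finset.Ioc 0 Q₁ := by
            refine Finset.mem_Ioc.mpr ⟨by norm_num, ?_⟩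
            rw [hQ1, Nat.le_sqrt']
            omega
          exact Finset.single_le_sum (f := fun q => |E g (N i) q|) (fun _ _ => abs_nonneg _) h5
        have h5 := sum_totient_le X (Real.log X ^ ε / 2)
        have h6 : 0 ≤ ∑ q ∈ Sq X (Real.log X ^ ε / 2), 1 / (q.totient : ℝ) :=
          Finset.sum_nonneg fun _ _ => by positivity
        exact mul_le_mul h5 h4 (abs_nonneg _) (by positivity)
      linarith
    refine (Finset.sum_le_sum h3).trans (le_of_eq ?_)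
    rw [Finset.sum_add_distrib, ← Finset.mul_sum]
  have hnX : 0 ≤ n * X := by positivity
  refine le_of_mul_le_mul_right ?_ hL0
  calc (∑ i ∈ I, VV g X (Real.log X ^ ε / 2) (N i)) * L ^ A * L
      ≤ ((1 + L ^ 2) * S + T) * L ^ A * L := by gcongr
    _ ≤ (2 * L ^ 2 * S + T) * L ^ A * L := by
        have : 1 ≤ L ^ 2 := one_le_pow₀ hL1
        have : (1 + L ^ 2) * S ≤ 2 * L ^ 2 * S := by
          refine mul_le_mul_of_nonneg_right ?_ hS0
          linarith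
        gcongr
    _ = 2 * (S * L ^ (A + 3)) + T * L ^ (A + 1) := by ring
    _ ≤ 2 * (n * X) + n * X := by gcongr
    _ = n * X * 3 := by ring
    _ ≤ n * X * L := by gcongr

open Classical in
/-- the number of exceptional members with `N_i > X / LL^s` -/
theorem count_large {g : ℕ → ℝ} (hg : g = g1 ∨ g = g2) (A C s : ℕ) {ε : ℝ} (hε : 0 < ε)
    (hε1 : ε ≤ 1) : ∃ B X₀ : ℕ, ∀ X : ℕ, X₀ ≤ X →
    ∀ (ι : Type) (I : Finset ι) (N : ι → ℕ), (∀ i ∈ I, 1 ≤ N i ∧ N i ≤ X) →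
    rr I N 0 * √X * LL X ^ B ≤ (I.card : ℝ) ^ 2 →
    H2 I N X * X ≤ (I.card : ℝ) ^ 4 * LL X ^ C →
    H3 I N X * X * LL X ^ B ≤ (I.card : ℝ) ^ 4 →
    ((I.filter (fun i => X < N i * LL X ^ s ∧ N i ∈ Bad g ε A)).card : ℝ) * LL X ^ A ≤ I.card := by
  obtain ⟨B, X₁, h1⟩ := sumV hg (s + 2 * A) C hε hε1
  obtain ⟨X₂, hX₂⟩ := eventually_atTop.mp
    ((eventually_log_pow_le (s + 1) (show (0:ℝ) < 1/2 by norm_num)).and
      ((ev_LL_ge' (1 + 2 ^ s)).and (eventually_ge_atTop 3)))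
  refine ⟨B, max X₁ X₂, fun X hX ι I N hN hr hH2 hH3 => ?_⟩
  obtain ⟨hXlog, hL2, hX3⟩ := hX₂ X (le_trans (le_max_right _ _) hX)
  have h2 := h1 X (le_trans (le_max_left _ _) hX) ι I N hN hr hH2 hH3
  have hXR3 : (3:ℝ) ≤ X := by exact_mod_cast hX3
  have hX0 : (0:ℝ) < X := by linarith
  have hlX := one_le_log hXR3
  have hlX0 : 0 < Real.log X := by linarith
  have hL1 := LL_one_le X
  have hL0 := LL_pos X
  set L : ℝ := Real.log X ^ ε / 2 with hL
  set Bd := I.filter (fun i => X < N i * LL X ^ s ∧ N i ∈ Bad g ε A) with hBd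
  have hsX : √(X:ℝ) * LL X ^ s ≤ X := by
    have h3 : 2 ^ s ≤ Real.log X := by unfold LL at hL2; linarith
    have h4 : LL X ≤ 2 * Real.log X := by unfold LL; linarith
    calc √(X:ℝ) * LL X ^ s ≤ √(X:ℝ) * (2 * Real.log X) ^ s := by gcongr
      _ = √(X:ℝ) * (2 ^ s * Real.log X ^ s) := by rw [mul_pow]
      _ ≤ √(X:ℝ) * (Real.log X * Real.log X ^ s) := by gcongr
      _ = √(X:ℝ) * Real.log X ^ (s + 1) := by ring
      _ ≤ √(X:ℝ) * (X:ℝ) ^ (1/2:ℝ) := by gcongr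
      _ = X := by rw [← Real.sqrt_eq_rpow]; exact Real.mul_self_sqrt hX0.le
  have hlow : ∀ i ∈ Bd, X ≤ VV g X L (N i) * LL X ^ (s + A) := by
    intro i hi
    obtain ⟨hiI, h4, hbad⟩ := Finset.mem_filter.mp hi
    obtain ⟨hN1, hN2⟩ := hN i hiI
    have hN0 : (0:ℝ) < N i := by exact_mod_cast hN1
    have hNX : (N i:ℝ) ≤ X := by exact_mod_cast hN2
    have hsN : √(X:ℝ) ≤ N i := by
      refine le_of_mul_le_mul_right ?_ (show 0 < LL X ^ s by positivity)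
      linarith
    have hlN : Real.log X / 2 ≤ Real.log (N i) := by
      have := Real.log_le_log (Real.sqrt_pos.mpr hX0) hsN
      rwa [Real.log_sqrt hX0.le] at this
    have hlN0 : 0 < Real.log (N i) := by linarith
    have hlNX : Real.log (N i) ≤ Real.log X := Real.log_le_log hN0 hNX
    have hbad' : (N i:ℝ) / Real.log (N i) ^ A < D g (N i) (lev ε (N i)) := hbad
    have hD : D g (N i) (lev ε (N i)) ≤ VV g X L (N i) := by
      refine D_le_VV hN1 hN2 (lev_le ε (N i)) fun q hq1 hq2 => ?_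
      have hq0 : (0:ℝ) < q := by exact_mod_cast (by omega : 0 < q)
      have h8 : Real.log (N i) ^ ε ≤ Real.log ((N i:ℝ) / q) := by
        have h9 : Real.log q ≤ Real.log (lev ε (N i)) := Real.log_le_log hq0 hq2
        unfold lev at h9
        rw [Real.log_mul hN0.ne' (Real.exp_pos _).ne', Real.log_exp] at h9
        rw [Real.log_div hN0.ne' hq0.ne']
        linarith
      have h10 : Real.log ((N i:ℝ) / q) ≤ Real.log ((X:ℝ) / q) :=
        Real.log_le_log (by positivity) (by gcongr)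
      have h11 : L ≤ Real.log (N i) ^ ε := by
        calc L = Real.log X ^ ε * (1/2) := by rw [hL]; ring
          _ ≤ Real.log X ^ ε * (1/2:ℝ) ^ ε := by
              gcongr
              calc (1/2:ℝ) = (1/2:ℝ) ^ (1:ℝ) := (Real.rpow_one _).symm
                _ ≤ (1/2:ℝ) ^ ε := Real.rpow_le_rpow_of_exponent_ge (by norm_num) (by norm_num) hε1
          _ = (Real.log X / 2) ^ ε := by
              rw [← Real.mul_rpow hlX0.le (by norm_num)]; congr 1; ring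
          _ ≤ Real.log (N i) ^ ε := Real.rpow_le_rpow (by positivity) hlN hε.le
      linarith
    have hV : (N i : ℝ) ≤ VV g X L (N i) * LL X ^ A := by
      have h5 : (N i:ℝ) / Real.log (N i) ^ A < VV g X L (N i) := lt_of_lt_of_le hbad' hD
      rw [div_lt_iff₀ (by positivity)] at h5
      refine h5.le.trans ?_
      have h6 : 0 ≤ VV g X L (N i) := by
        unfold VV
        exact Finset.sum_nonneg fun _ _ => by positivity
      have h7 : Real.log (N i) ≤ LL X := by unfold LL; linarith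
      gcongr
    calc (X:ℝ) ≤ N i * LL X ^ s := h4.le
      _ ≤ (VV g X L (N i) * LL X ^ A) * LL X ^ s := by gcongr
      _ = _ := by rw [pow_add]; ring
  have hsum : (Bd.card : ℝ) * X ≤ (∑ i ∈ I, VV g X L (N i)) * LL X ^ (s + A) := by
    calc (Bd.card : ℝ) * X = ∑ _i ∈ Bd, (X:ℝ) := by rw [Finset.sum_const, nsmul_eq_mul]
      _ ≤ ∑ i ∈ Bd, VV g X L (N i) * LL X ^ (s + A) := Finset.sum_le_sum hlow
      _ = (∑ i ∈ Bd, VV g X L (N i)) * LL X ^ (s + A) := by rw [Finset.sum_mul]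
      _ ≤ _ := by
          refine mul_le_mul_of_nonneg_right ?_ (by positivity)
          refine Finset.sum_le_sum_of_subset_of_nonneg (Finset.filter_subset _ _) fun i _ _ => ?_
          unfold VV
          exact Finset.sum_nonneg fun _ _ => by positivity
  refine le_of_mul_le_mul_right ?_ hX0
  calc (Bd.card : ℝ) * LL X ^ A * X = (Bd.card * X) * LL X ^ A := by ring
    _ ≤ ((∑ i ∈ I, VV g X L (N i)) * LL X ^ (s + A)) * LL X ^ A := by gcongr
    _ = (∑ i ∈ I, VV g X L (N i)) * LL X ^ (s + 2 * A) := by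
        rw [show s + 2 * A = (s + A) + A by ring, pow_add _ (s + A) A]; ring
    _ ≤ _ := h2

/-- the level `√N (log N)^(-B)` -/
noncomputable def levS (B N : ℕ) : ℝ := √N / Real.log N ^ B

/-- the bad `N` at the level `√N (log N)^(-B)` -/
def BadS (g : ℕ → ℝ) (B A : ℕ) : Set ℕ := {N | (N:ℝ) / Real.log N ^ A < D g N (levS B N)}

lemma D_le_sum {g : ℕ → ℝ} {N X Q₁ : ℕ} {Q : ℝ} (hQ₁ : 1 ≤ Q₁) (hQX : Q₁ ≤ X) (hQ : ⌊Q⌋₊ ≤ Q₁) :
    D g N Q ≤ (1 + LL X ^ 2) * ∑ q ∈ Finset.Ioc 0 Q₁, |E g N q| := by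
  have hsub : (Finset.Icc 1 ⌊Q⌋₊).filter (fun q => q.Coprime N) ⊆ Finset.Ioc 0 Q₁ := by
    intro q hq
    obtain ⟨h3, h4⟩ := Finset.mem_Icc.mp (Finset.mem_filter.mp hq).1
    exact Finset.mem_Ioc.mpr ⟨h3, h4.trans hQ⟩
  have hT : ∑ q ∈ Finset.Ioc 0 Q₁, 1 / (q.totient : ℝ) ≤ LL X ^ 2 := by
    refine le_trans ?_ (sum_totient_le X 0)
    refine Finset.sum_le_sum_of_subset_of_nonneg ?_ fun _ _ _ => by positivity
    intro q hq
    obtain ⟨h1, h2⟩ := Finset.mem_Ioc.mp hq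
    refine Finset.mem_filter.mpr ⟨Finset.mem_Ioc.mpr ⟨h1, h2.trans hQX⟩, ?_⟩
    refine Real.log_nonneg ?_
    have h3 : (0:ℝ) < q := by exact_mod_cast h1
    rw [le_div_iff₀ h3, one_mul]
    exact_mod_cast h2.trans hQX
  have hT0 : 0 ≤ ∑ q ∈ Finset.Ioc 0 Q₁, 1 / (q.totient : ℝ) := Finset.sum_nonneg fun _ _ => by positivity
  have h4 : |S g N| ≤ ∑ q ∈ Finset.Ioc 0 Q₁, |E g N q| := by
    rw [← E_one]
    exact Finset.single_le_sum (f := fun q => |E g N q|) (fun _ _ => abs_nonneg _)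
      (Finset.mem_Ioc.mpr ⟨by norm_num, hQ₁⟩)
  have h5 : 0 ≤ ∑ q ∈ Finset.Ioc 0 Q₁, |E g N q| := Finset.sum_nonneg fun _ _ => abs_nonneg _
  unfold D
  calc _ ≤ ∑ q ∈ (Finset.Icc 1 ⌊Q⌋₊).filter (fun q => q.Coprime N),
        (|E g N q| + 1 / (q.totient : ℝ) * |S g N|) := by
        refine Finset.sum_le_sum fun q _ => ?_
        refine (abs_sub _ _).trans ?_
        rw [abs_mul, abs_of_nonneg (by positivity : (0:ℝ) ≤ 1 / (q.totient : ℝ))]
    _ ≤ ∑ q ∈ Finset.Ioc 0 Q₁, (|E g N q| + 1 / (q.totient : ℝ) * |S g N|) :=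
        Finset.sum_le_sum_of_subset_of_nonneg hsub fun _ _ _ => by positivity
    _ = (∑ q ∈ Finset.Ioc 0 Q₁, |E g N q|) + (∑ q ∈ Finset.Ioc 0 Q₁, 1 / (q.totient : ℝ)) * |S g N| := by
        rw [Finset.sum_add_distrib, Finset.sum_mul]
    _ ≤ (∑ q ∈ Finset.Ioc 0 Q₁, |E g N q|) + LL X ^ 2 * ∑ q ∈ Finset.Ioc 0 Q₁, |E g N q| := by
        have := mul_le_mul hT h4 (abs_nonneg _) (by positivity)
        linarith
    _ = _ := by ring

open Classical in
/-- the number of exceptional members with `N_i > X / LL^s` at the level `√N (log N)^(-B)` -/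
theorem count_largeS {g : ℕ → ℝ} (hg : g = g1 ∨ g = g2) (A C s : ℕ) : ∃ B X₀ : ℕ, ∀ X : ℕ, X₀ ≤ X →
    ∀ (ι : Type) (I : Finset ι) (N : ι → ℕ), (∀ i ∈ I, 1 ≤ N i ∧ N i ≤ X) →
    rr I N 0 * √X ≤ (I.card : ℝ) ^ 2 * LL X ^ C →
    H1 I N X * X ≤ (I.card : ℝ) ^ 4 * LL X ^ C →
    ((I.filter (fun i => X < N i * LL X ^ s ∧ N i ∈ BadS g B A)).card : ℝ) * LL X ^ A ≤ I.card := by
  set A' : ℕ := s + 2 * A + 3 with hA'
  set B : ℕ := 4 * A' + 31 + C + 1 with hB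
  obtain ⟨X₁, h1⟩ := sumS1 (good_of hg) (abs_le_of hg) A' C
  obtain ⟨X₂, hX₂⟩ := eventually_atTop.mp
    ((eventually_log_pow_le (s + 1 + B) (show (0:ℝ) < 1/2 by norm_num)).and
      ((ev_LL_ge' (1 + 2 ^ s)).and ((ev_LL_ge' (4 ^ B)).and ((ev_LL_ge' 2).and (eventually_ge_atTop 3)))))
  refine ⟨B, max X₁ X₂, fun X hX ι I N hN hr hH1 => ?_⟩
  obtain ⟨hXlog, hL2, hL4, hL22, hX3⟩ := hX₂ X (le_trans (le_max_right _ _) hX)
  have hXR3 : (3:ℝ) ≤ X := by exact_mod_cast hX3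
  have hX0 : (0:ℝ) < X := by linarith
  have hlX := one_le_log hXR3
  have hlX0 : 0 < Real.log X := by linarith
  have hL1 := LL_one_le X
  have hL0 := LL_pos X
  have hLlog : LL X ≤ 2 * Real.log X := by unfold LL; linarith
  have hsX0 : 0 ≤ √(X:ℝ) := Real.sqrt_nonneg _
  have hXlog' : Real.log X ^ (s + 1 + B) ≤ √(X:ℝ) := by
    rw [Real.sqrt_eq_rpow]; exact hXlog
  set Q : ℝ := √X * 2 ^ B / Real.log X ^ B with hQ
  set Q₁ := ⌊Q⌋₊ with hQ₁
  have hQ0 : 0 ≤ Q := by positivity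
  have hQ1 : 1 ≤ Q₁ := by
    rw [hQ₁]
    refine Nat.le_floor ?_
    rw [hQ, le_div_iff₀ (by positivity)]
    push_cast
    calc 1 * Real.log X ^ B ≤ 1 * Real.log X ^ (s + 1 + B) := by
          have : Real.log X ^ B ≤ Real.log X ^ (s + 1 + B) := pow_le_pow_right₀ hlX (by omega)
          gcongr
      _ ≤ √X * 1 := by rw [one_mul, mul_one]; exact hXlog'
      _ ≤ _ := by
          have : (1:ℝ) ≤ 2 ^ B := one_le_pow₀ (by norm_num)
          gcongr
  have hlog2 : (2:ℝ) ^ B ≤ Real.log X ^ B := by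
    have h3 : (4:ℝ) ^ B ≥ 4 := by
      have : (4:ℝ) ^ 1 ≤ 4 ^ B := pow_le_pow_right₀ (by norm_num) (by omega)
      linarith
    have h4 : 2 ≤ Real.log X := by
      have : 4 ≤ LL X := le_trans h3 hL4
      unfold LL at this; linarith
    gcongr
  have hQsq : Q₁ ^ 2 ≤ X := by
    have h3 : (Q₁:ℝ) ≤ √X := by
      refine (Nat.floor_le hQ0).trans ?_
      rw [hQ, div_le_iff₀ (by positivity)]
      gcongr
    have h4 : ((Q₁ ^ 2 : ℕ) : ℝ) ≤ X := by
      push_cast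
      have h5 : (Q₁:ℝ) ^ 2 ≤ (√(X:ℝ)) ^ 2 := pow_le_pow_left₀ (Nat.cast_nonneg _) h3 2
      rwa [Real.sq_sqrt hX0.le] at h5
    exact_mod_cast h4
  have hQX : Q₁ ≤ X := by nlinarith
  set n : ℝ := (I.card : ℝ) with hn
  have hn0 : 0 ≤ n := Nat.cast_nonneg _
  have hr0 : 0 ≤ rr I N 0 := Nat.cast_nonneg _
  have h2 := h1 X (le_trans (le_max_left _ _) hX) ι I N hN Q₁ hQsq (by
    have h3 : (Q₁:ℝ) ≤ √X * 2 ^ B / Real.log X ^ B := Nat.floor_le hQ0
    have h4 : 2 ^ B * LL X ^ (4 * A' + 31 + C) ≤ Real.log X ^ B := by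
      refine le_of_mul_le_mul_right ?_ (show (0:ℝ) < LL X * 2 ^ B by positivity)
      calc 2 ^ B * LL X ^ (4 * A' + 31 + C) * (LL X * 2 ^ B)
          = 4 ^ B * LL X ^ B := by
            rw [show (4:ℝ) = 2 * 2 by norm_num, mul_pow, hB, pow_succ (LL X) (4 * A' + 31 + C)]; ring
        _ ≤ LL X * (2 * Real.log X) ^ B := by gcongr
        _ = _ := by rw [mul_pow]; ring
    calc rr I N 0 * Q₁ * LL X ^ (4 * A' + 31)
        ≤ rr I N 0 * (√X * 2 ^ B / Real.log X ^ B) * LL X ^ (4 * A' + 31) := by gcongr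
      _ = (rr I N 0 * √X) * (2 ^ B * LL X ^ (4 * A' + 31) / Real.log X ^ B) := by ring
      _ ≤ (n ^ 2 * LL X ^ C) * (2 ^ B * LL X ^ (4 * A' + 31) / Real.log X ^ B) := by gcongr
      _ = n ^ 2 * ((2 ^ B * LL X ^ (4 * A' + 31 + C)) / Real.log X ^ B) := by
          rw [pow_add _ (4 * A' + 31)]; ring
      _ ≤ n ^ 2 * 1 := by
          have : (2 ^ B * LL X ^ (4 * A' + 31 + C)) / Real.log X ^ B ≤ 1 := by
            rw [div_le_one (by positivity)]; exact h4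
          gcongr
      _ = n ^ 2 := mul_one _) hH1
  set Bd := I.filter (fun i => X < N i * LL X ^ s ∧ N i ∈ BadS g B A) with hBd
  have hsX : √(X:ℝ) * LL X ^ s ≤ X := by
    have h3 : 2 ^ s ≤ Real.log X := by unfold LL at hL2; linarith
    calc √(X:ℝ) * LL X ^ s ≤ √(X:ℝ) * (2 * Real.log X) ^ s := by gcongr
      _ = √(X:ℝ) * (2 ^ s * Real.log X ^ s) := by rw [mul_pow]
      _ ≤ √(X:ℝ) * (Real.log X * Real.log X ^ s) := by gcongr
      _ = √(X:ℝ) * Real.log X ^ (s + 1) := by ring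
      _ ≤ √(X:ℝ) * Real.log X ^ (s + 1 + B) := by
          have : Real.log X ^ (s + 1) ≤ Real.log X ^ (s + 1 + B) := pow_le_pow_right₀ hlX (by omega)
          gcongr
      _ ≤ √(X:ℝ) * √(X:ℝ) := by gcongr
      _ = X := Real.mul_self_sqrt hX0.le
  have hlow : ∀ i ∈ Bd, X ≤ ((1 + LL X ^ 2) * ∑ q ∈ Finset.Ioc 0 Q₁, |E g (N i) q|) * LL X ^ (s + A) := by
    intro i hi
    obtain ⟨hiI, h4, hbad⟩ := Finset.mem_filter.mp hi
    obtain ⟨hN1, hN2⟩ := hN i hiI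
    have hN0 : (0:ℝ) < N i := by exact_mod_cast hN1
    have hNX : (N i:ℝ) ≤ X := by exact_mod_cast hN2
    have hsN : √(X:ℝ) ≤ N i := by
      refine le_of_mul_le_mul_right ?_ (show 0 < LL X ^ s by positivity)
      linarith
    have hlN : Real.log X / 2 ≤ Real.log (N i) := by
      have := Real.log_le_log (Real.sqrt_pos.mpr hX0) hsN
      rwa [Real.log_sqrt hX0.le] at this
    have hlN0 : 0 < Real.log (N i) := by linarith
    have hlNX : Real.log (N i) ≤ Real.log X := Real.log_le_log hN0 hNX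
    have hbad' : (N i:ℝ) / Real.log (N i) ^ A < D g (N i) (levS B (N i)) := hbad
    have hlevS : levS B (N i) ≤ Q := by
      unfold levS
      rw [hQ, div_le_div_iff₀ (by positivity) (by positivity)]
      calc √(N i) * Real.log X ^ B ≤ √X * (2 * Real.log (N i)) ^ B := by
            have : Real.log X ≤ 2 * Real.log (N i) := by linarith
            have := Real.sqrt_le_sqrt hNX
            gcongr
        _ = _ := by rw [mul_pow]; ring
    have hD := D_le_sum (g := g) (N := N i) hQ1 hQX (Nat.floor_le_floor hlevS)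
    set V := (1 + LL X ^ 2) * ∑ q ∈ Finset.Ioc 0 Q₁, |E g (N i) q| with hV
    have hV0 : 0 ≤ V := mul_nonneg (by positivity) (Finset.sum_nonneg fun _ _ => abs_nonneg _)
    have hVN : (N i : ℝ) ≤ V * LL X ^ A := by
      have h5 : (N i:ℝ) / Real.log (N i) ^ A < V := lt_of_lt_of_le hbad' hD
      rw [div_lt_iff₀ (by positivity)] at h5
      refine h5.le.trans ?_
      have h7 : Real.log (N i) ≤ LL X := by unfold LL; linarith
      gcongr
    calc (X:ℝ) ≤ N i * LL X ^ s := h4.le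
      _ ≤ (V * LL X ^ A) * LL X ^ s := by gcongr
      _ = _ := by rw [pow_add]; ring
  have hsum : (Bd.card : ℝ) * X ≤
      ((1 + LL X ^ 2) * ∑ i ∈ I, ∑ q ∈ Finset.Ioc 0 Q₁, |E g (N i) q|) * LL X ^ (s + A) := by
    calc (Bd.card : ℝ) * X = ∑ _i ∈ Bd, (X:ℝ) := by rw [Finset.sum_const, nsmul_eq_mul]
      _ ≤ ∑ i ∈ Bd, ((1 + LL X ^ 2) * ∑ q ∈ Finset.Ioc 0 Q₁, |E g (N i) q|) * LL X ^ (s + A) :=
          Finset.sum_le_sum hlow
      _ = ((1 + LL X ^ 2) * ∑ i ∈ Bd, ∑ q ∈ Finset.Ioc 0 Q₁, |E g (N i) q|) * LL X ^ (s + A) := by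
          rw [← Finset.sum_mul, Finset.mul_sum]
      _ ≤ _ := by
          have : ∑ i ∈ Bd, ∑ q ∈ Finset.Ioc 0 Q₁, |E g (N i) q| ≤
              ∑ i ∈ I, ∑ q ∈ Finset.Ioc 0 Q₁, |E g (N i) q| :=
            Finset.sum_le_sum_of_subset_of_nonneg (Finset.filter_subset _ _) fun i _ _ =>
              Finset.sum_nonneg fun _ _ => abs_nonneg _
          gcongr
  set SS : ℝ := ∑ i ∈ I, ∑ q ∈ Finset.Ioc 0 Q₁, |E g (N i) q| with hSS
  have hSS0 : 0 ≤ SS := Finset.sum_nonneg fun _ _ => Finset.sum_nonneg fun _ _ => abs_nonneg _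
  refine le_of_mul_le_mul_right ?_ hX0
  calc (Bd.card : ℝ) * LL X ^ A * X = (Bd.card * X) * LL X ^ A := by ring
    _ ≤ (((1 + LL X ^ 2) * SS) * LL X ^ (s + A)) * LL X ^ A := by gcongr
    _ ≤ (((LL X * LL X ^ 2) * SS) * LL X ^ (s + A)) * LL X ^ A := by
        have h3 : 1 + LL X ^ 2 ≤ LL X * LL X ^ 2 := by
          have : 1 ≤ LL X ^ 2 := one_le_pow₀ hL1
          nlinarith
        gcongr
    _ = SS * LL X ^ A' := by
        rw [hA', show s + 2 * A + 3 = 3 + ((s + A) + A) by ring, pow_add _ 3, pow_add _ (s + A) A]; ring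
    _ ≤ n * X := h2

end Pool.Agent.SEH
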