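import Pool.Agent.SEH.Key1
import Pool.Agent.Lib.ANT.LSieve
import Pool.Agent.Lib.ANT.Minor
import Pool.Agent.DEH.Count

/-!
The model of `Λ`, part 1: Ramanujan sums and coefficients.
-/

open Complex Pool.Agent.ANT Pool.Agent.DEH
open scoped ArithmeticFunction.Moebius ArithmeticFunction.vonMangoldt

namespace Pool.Agent.SEH

/-- complex Ramanujan sum -/
noncomputable def crC (r : ℕ) (n : ℤ) : ℂ := ∑ b ∈ rd r, ee (n * ((b:ℝ) / r))

/-- real Ramanujan sum -/
noncomputable def cr (r : ℕ) (n : ℤ) : ℝ := (crC r n).re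

/-- the coefficients `-∑_{d ≤ D, r ∣ d} μ(d) log d / d` -/
noncomputable def bet (D r : ℕ) : ℝ := -∑ d ∈ (Finset.Ioc 0 D).filter (fun d => r ∣ d), g2 d / d

/-- the truncated model -/
noncomputable def LamS (D P : ℕ) (n : ℤ) : ℝ := ∑ r ∈ Finset.Ioc 0 P, bet D r * cr r n

/-- the type I model -/
noncomputable def LamD (D : ℕ) (n : ℤ) : ℝ := -∑ d ∈ Finset.Ioc 0 D, if (d:ℤ) ∣ n then g2 d else 0

lemma crC_mobius (n : ℤ) {r : ℕ} (hr : 0 < r) :
    crC r n = ∑ x ∈ r.divisorsAntidiagonal, (μ x.1 : ℂ) * (if (x.2 : ℤ) ∣ n then (x.2 : ℂ) else 0) := by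
  have h := (ArithmeticFunction.sum_eq_iff_sum_mul_moebius_eq (R := ℂ) (f := fun r => crC r n)
    (g := fun m => if (m : ℤ) ∣ n then (m : ℂ) else 0)).mp (fun m hm => full_rd hm n)
  exact (h r hr).symm

/-- `|c_r(n)| ≤ ∑_{d ∣ r, d ∣ n} d` -/
lemma cr_abs_le (n : ℤ) {r : ℕ} (hr : 0 < r) :
    |cr r n| ≤ ∑ d ∈ r.divisors, if (d : ℤ) ∣ n then (d : ℝ) else 0 := by
  unfold cr
  refine (Complex.abs_re_le_norm _).trans ?_
  rw [crC_mobius n hr]
  calc _ ≤ ∑ x ∈ r.divisorsAntidiagonal, (if (x.2 : ℤ) ∣ n then (x.2 : ℝ) else 0) := by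
        refine (norm_sum_le _ _).trans (Finset.sum_le_sum fun x _ => ?_)
        rw [norm_mul]
        have h1 : ‖((μ x.1 : ℤ) : ℂ)‖ ≤ 1 := by
          have := ArithmeticFunction.abs_moebius_le_one (n := x.1)
          rw [Complex.norm_intCast]
          exact_mod_cast this
        have h2 : ‖(if (x.2 : ℤ) ∣ n then (x.2 : ℂ) else 0)‖ = if (x.2 : ℤ) ∣ n then (x.2 : ℝ) else 0 := by
          split_ifs <;> simp
        rw [h2]
        refine mul_le_of_le_one_left ?_ h1
        split_ifs <;> positivity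
    _ = ∑ d ∈ r.divisors, if (d : ℤ) ∣ n then (d : ℝ) else 0 :=
        Nat.sum_divisorsAntidiagonal' (fun _ j => if (j : ℤ) ∣ n then (j : ℝ) else 0)

/-- the full expansion -/
lemma LamS_full (D : ℕ) (n : ℤ) : LamS D D n = LamD D n := by
  have h1 : (∑ r ∈ Finset.Ioc 0 D, (bet D r : ℂ) * crC r n) = ((LamD D n : ℝ) : ℂ) := by
    unfold bet LamD
    have e1 : ∀ r ∈ Finset.Ioc 0 D, ((-∑ d ∈ (Finset.Ioc 0 D).filter (fun d => r ∣ d), g2 d / d : ℝ) : ℂ) * crC r n =
        -∑ d ∈ (Finset.Ioc 0 D).filter (fun d => r ∣ d), ((g2 d / d : ℝ) : ℂ) * crC r n := by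
      intro r _
      push_cast
      rw [neg_mul, Finset.sum_mul]
    rw [Finset.sum_congr rfl e1, Finset.sum_neg_distrib]
    rw [Finset.sum_comm' (t' := Finset.Ioc 0 D) (s' := fun d => d.divisors)]
    · push_cast
      congr 1
      refine Finset.sum_congr rfl fun d hd => ?_
      have hd1 := (Finset.mem_Ioc.mp hd).1
      have hd0 : (d:ℂ) ≠ 0 := by exact_mod_cast hd1.ne'
      rw [← Finset.mul_sum]
      have h2 := full_rd hd1 n
      have h3 : ∑ r ∈ d.divisors, crC r n = if (d:ℤ) ∣ n then (d:ℂ) else 0 := h2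
      rw [h3]
      split_ifs
      · field_simp
      · simp
    · intro r d
      simp only [Finset.mem_Ioc, Finset.mem_filter, Nat.mem_divisors]
      constructor
      · rintro ⟨⟨h2, h3⟩, ⟨h4, h5⟩, h6⟩
        exact ⟨⟨h6, by omega⟩, h4, h5⟩
      · rintro ⟨⟨h2, h3⟩, h4, h5⟩
        exact ⟨⟨Nat.pos_of_dvd_of_pos h2 h4, (Nat.le_of_dvd h4 h2).trans h5⟩, ⟨h4, h5⟩, h2⟩
  have h2 := congrArg Complex.re h1
  rw [Complex.ofReal_re] at h2
  rw [← h2, LamS, Complex.re_sum]
  refine Finset.sum_congr rfl fun r _ => ?_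
  rw [Complex.re_ofReal_mul]
  rfl

lemma g2_abs_le (n : ℕ) : |g2 n| ≤ Real.log n := by
  unfold g2
  rw [abs_mul, abs_of_nonneg (Real.log_natCast_nonneg n)]
  have h1 : |((μ n : ℤ) : ℝ)| ≤ 1 := by
    have := ArithmeticFunction.abs_moebius_le_one (n := n)
    exact_mod_cast this
  exact mul_le_of_le_one_left (Real.log_natCast_nonneg n) h1

/-- size of the coefficients -/
lemma bet_abs_le {D X r : ℕ} (hr : 0 < r) (hDX : D ≤ X) : |bet D r| ≤ LL X ^ 2 / r := by
  have hL := LL_pos X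
  have hr0 : (0:ℝ) < r := by exact_mod_cast hr
  unfold bet
  rw [abs_neg]
  have h1 : ∑ d ∈ (Finset.Ioc 0 D).filter (fun d => r ∣ d), (1:ℝ) / d ≤ Hs D / r := by
    have h2 : ∑ d ∈ (Finset.Ioc 0 D).filter (fun d => r ∣ d), (1:ℝ) / d = (1 / r) * Hs (D / r) := by
      unfold Hs
      rw [Finset.mul_sum]
      refine Finset.sum_bij' (fun m' _ => m' / r) (fun k _ => r * k) ?_ ?_ ?_ ?_ ?_
      · intro m' hm'
        obtain ⟨h2, h3⟩ := Finset.mem_filter.mp hm'
        obtain ⟨h4, h5⟩ := Finset.mem_Ioc.mp h2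
        exact Finset.mem_Ioc.mpr ⟨Nat.div_pos (Nat.le_of_dvd h4 h3) hr, Nat.div_le_div_right h5⟩
      · intro k hk
        obtain ⟨h4, h5⟩ := Finset.mem_Ioc.mp hk
        refine Finset.mem_filter.mpr ⟨Finset.mem_Ioc.mpr ⟨Nat.mul_pos hr h4, ?_⟩, dvd_mul_right _ _⟩
        have := (Nat.le_div_iff_mul_le hr).mp h5
        linarith [Nat.mul_comm r k]
      · intro m' hm'
        exact Nat.mul_div_cancel' (Finset.mem_filter.mp hm').2
      · intro k _; exact Nat.mul_div_cancel_left _ hr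
      · intro m' hm'
        obtain ⟨h2, h3⟩ := Finset.mem_filter.mp hm'
        obtain ⟨k, rfl⟩ := h3
        rw [Nat.mul_div_cancel_left _ hr]
        push_cast
        rw [one_div_mul_one_div]
    rw [h2]
    have := Hs_mono (Nat.div_le_self D r)
    calc (1 / (r:ℝ)) * Hs (D / r) ≤ (1 / (r:ℝ)) * Hs D := by gcongr
      _ = _ := by ring
  have hHs : Hs D ≤ LL X := (Hs_mono hDX).trans (Hs_le_LL X)
  calc |∑ d ∈ (Finset.Ioc 0 D).filter (fun d => r ∣ d), g2 d / d|
      ≤ ∑ d ∈ (Finset.Ioc 0 D).filter (fun d => r ∣ d), LL X * (1 / d) := by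
        refine (Finset.abs_sum_le_sum_abs _ _).trans (Finset.sum_le_sum fun d hd => ?_)
        obtain ⟨h3, h4⟩ := Finset.mem_filter.mp hd
        obtain ⟨h5, h6⟩ := Finset.mem_Ioc.mp h3
        have hd0 : (0:ℝ) < d := by exact_mod_cast h5
        rw [abs_div, abs_of_pos hd0, mul_one_div]
        have h7 : |g2 d| ≤ LL X := by
          refine (g2_abs_le d).trans ?_
          have : Real.log d ≤ Real.log X := Real.log_le_log hd0 (by exact_mod_cast h6.trans hDX)
          unfold LL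
          linarith
        gcongr
    _ = LL X * ∑ d ∈ (Finset.Ioc 0 D).filter (fun d => r ∣ d), (1:ℝ) / d := by rw [Finset.mul_sum]
    _ ≤ LL X * (Hs D / r) := by gcongr
    _ ≤ LL X * (LL X / r) := by gcongr
    _ = _ := by ring

/-- pointwise bound for the model -/
lemma LamS_abs_le {D P X : ℕ} (hDX : D ≤ X) (hPX : P ≤ X) {n : ℕ} (hn : 0 < n) :
    |LamS D P n| ≤ LL X ^ 3 * tauR n := by
  have hL := LL_pos X
  unfold LamS
  have h1 : ∀ r ∈ Finset.Ioc 0 P, |bet D r * cr r n| ≤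
      ∑ d ∈ r.divisors, (if d ∣ n then LL X ^ 2 * (d / r) else 0) := by
    intro r hr
    have hr1 := (Finset.mem_Ioc.mp hr).1
    have hr0 : (0:ℝ) < r := by exact_mod_cast hr1
    rw [abs_mul]
    calc |bet D r| * |cr r n| ≤ (LL X ^ 2 / r) * ∑ d ∈ r.divisors, (if (d : ℤ) ∣ (n:ℤ) then (d : ℝ) else 0) := by
          have := bet_abs_le hr1 hDX
          have := cr_abs_le (n:ℤ) hr1
          gcongr
      _ = _ := by
          rw [Finset.mul_sum]
          refine Finset.sum_congr rfl fun d _ => ?_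
          by_cases h : d ∣ n
          · rw [if_pos h, if_pos (by exact_mod_cast h)]; ring
          · rw [if_neg h, if_neg (by exact_mod_cast h)]; ring
  calc |∑ r ∈ Finset.Ioc 0 P, bet D r * cr r n|
      ≤ ∑ r ∈ Finset.Ioc 0 P, ∑ d ∈ r.divisors, (if d ∣ n then LL X ^ 2 * (d / r) else 0) :=
        (Finset.abs_sum_le_sum_abs _ _).trans (Finset.sum_le_sum h1)
    _ = ∑ d ∈ Finset.Ioc 0 P, ∑ r ∈ (Finset.Ioc 0 P).filter (fun r => d ∣ r), (if d ∣ n then LL X ^ 2 * (d / r) else 0) := by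
        refine Finset.sum_comm' ?_
        intro r d
        simp only [Finset.mem_Ioc, Finset.mem_filter, Nat.mem_divisors]
        constructor
        · rintro ⟨⟨h2, h3⟩, h4, h5⟩
          exact ⟨⟨⟨h2, h3⟩, h4⟩, Nat.pos_of_dvd_of_pos h4 h2, (Nat.le_of_dvd h2 h4).trans h3⟩
        · rintro ⟨⟨⟨h2, h3⟩, h4⟩, h5, h6⟩
          exact ⟨⟨h2, h3⟩, h4, by omega⟩
    _ ≤ ∑ d ∈ Finset.Ioc 0 P, (if d ∣ n then LL X ^ 3 else 0) := by
        refine Finset.sum_le_sum fun d hd => ?_
        have hd1 := (Finset.mem_Ioc.mp hd).1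
        have hd0 : (0:ℝ) < d := by exact_mod_cast hd1
        by_cases h : d ∣ n
        · simp only [if_pos h]
          have h2 : ∑ r ∈ (Finset.Ioc 0 P).filter (fun r => d ∣ r), LL X ^ 2 * ((d:ℝ) / r) =
              LL X ^ 2 * Hs (P / d) := by
            unfold Hs
            rw [Finset.mul_sum]
            refine Finset.sum_bij' (fun m' _ => m' / d) (fun k _ => d * k) ?_ ?_ ?_ ?_ ?_
            · intro m' hm'
              obtain ⟨h2, h3⟩ := Finset.mem_filter.mp hm'
              obtain ⟨h4, h5⟩ := Finset.mem_Ioc.mp h2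
              exact Finset.mem_Ioc.mpr ⟨Nat.div_pos (Nat.le_of_dvd h4 h3) hd1, Nat.div_le_div_right h5⟩
            · intro k hk
              obtain ⟨h4, h5⟩ := Finset.mem_Ioc.mp hk
              refine Finset.mem_filter.mpr ⟨Finset.mem_Ioc.mpr ⟨Nat.mul_pos hd1 h4, ?_⟩, dvd_mul_right _ _⟩
              have := (Nat.le_div_iff_mul_le hd1).mp h5
              linarith [Nat.mul_comm d k]
            · intro m' hm'
              exact Nat.mul_div_cancel' (Finset.mem_filter.mp hm').2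
            · intro k _; exact Nat.mul_div_cancel_left _ hd1
            · intro m' hm'
              obtain ⟨h2, h3⟩ := Finset.mem_filter.mp hm'
              obtain ⟨k, rfl⟩ := h3
              rw [Nat.mul_div_cancel_left _ hd1]
              push_cast
              have hk : (0:ℝ) < k := by
                have h4 := (Finset.mem_Ioc.mp h2).1
                exact_mod_cast Nat.pos_of_mul_pos_left h4
              field_simp
          rw [h2]
          have h3 : Hs (P / d) ≤ LL X := (Hs_mono ((Nat.div_le_self _ _).trans hPX)).trans (Hs_le_LL X)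
          calc LL X ^ 2 * Hs (P / d) ≤ LL X ^ 2 * LL X := by gcongr
            _ = _ := by ring
        · simp only [if_neg h, Finset.sum_const_zero, le_refl]
    _ = ∑ d ∈ (Finset.Ioc 0 P).filter (fun d => d ∣ n), LL X ^ 3 := by rw [Finset.sum_filter]
    _ = ((Finset.Ioc 0 P).filter (fun d => d ∣ n)).card * LL X ^ 3 := by
        rw [Finset.sum_const, nsmul_eq_mul]
    _ ≤ tauR n * LL X ^ 3 := by
        have h2 : ((Finset.Ioc 0 P).filter (fun d => d ∣ n)).card ≤ n.divisors.card := by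
          refine Finset.card_le_card fun d hd => ?_
          exact Nat.mem_divisors.mpr ⟨(Finset.mem_filter.mp hd).2, hn.ne'⟩
        have h3 : (((Finset.Ioc 0 P).filter (fun d => d ∣ n)).card : ℝ) ≤ tauR n := by
          unfold tauR; exact_mod_cast h2
        gcongr
    _ = _ := by ring

/-- `Λ - Λ_D` -/
lemma Lam_sub_LamD (D : ℕ) {n : ℕ} (hn : 0 < n) :
    Λ n - LamD D n = -∑ p ∈ n.divisorsAntidiagonal, if D < p.1 then g2 p.1 else 0 := by
  have h1 := ArithmeticFunction.sum_moebius_mul_log_eq (n := n)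
  have h2 : LamD D n = -∑ d ∈ n.divisors, if D < d then 0 else g2 d := by
    unfold LamD
    congr 1
    have e : ∀ d ∈ n.divisors, (if D < d then 0 else g2 d) = if ¬ D < d then g2 d else 0 := by
      intro d _
      split_ifs <;> simp_all
    rw [Finset.sum_congr rfl e, ← Finset.sum_filter, ← Finset.sum_filter]
    refine Finset.sum_congr ?_ fun d _ => rfl
    ext d
    simp only [Finset.mem_filter, Finset.mem_Ioc, Nat.mem_divisors]
    constructor
    · rintro ⟨⟨h3, h4⟩, h5⟩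
      exact ⟨⟨by exact_mod_cast h5, hn.ne'⟩, by omega⟩
    · rintro ⟨⟨h3, h4⟩, h5⟩
      exact ⟨⟨Nat.pos_of_dvd_of_pos h3 hn, by omega⟩, by exact_mod_cast h3⟩
  have h3 : ∑ d ∈ n.divisors, g2 d = -Λ n := h1
  have h4 : ∑ d ∈ n.divisors, (if D < d then g2 d else 0) + ∑ d ∈ n.divisors, (if D < d then 0 else g2 d) =
      ∑ d ∈ n.divisors, g2 d := by
    rw [← Finset.sum_add_distrib]
    refine Finset.sum_congr rfl fun d _ => ?_
    split_ifs <;> simp
  have h5 : ∑ p ∈ n.divisorsAntidiagonal, (if D < p.1 then g2 p.1 else 0) =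
      ∑ d ∈ n.divisors, if D < d then g2 d else 0 :=
    Nat.sum_divisorsAntidiagonal (fun i _ => if D < i then g2 i else 0)
  rw [h2, h5]
  linarith

end Pool.Agent.SEH
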