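import Pool.Agent.SEH.Model1

/-!
The model of `Λ`, part 2: exponential sums.
-/

open Complex Pool.Agent.ANT Pool.Agent.DEH
open scoped ArithmeticFunction.Moebius ArithmeticFunction.vonMangoldt

namespace Pool.Agent.SEH

lemma nn_sub_le' (x y : ℝ) : nn (x - y) ≤ nn x + nn y := by
  have h := nn_le_abs_sub_int (x - y) (round x - round y)
  refine h.trans ?_
  unfold nn
  have e : x - y - ((round x - round y : ℤ) : ℝ) = (x - round x) - (y - round y) := by push_cast; ring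
  rw [e]
  exact abs_sub _ _

lemma nn_neg' (x : ℝ) : nn (-x) = nn x := by
  have key : ∀ y : ℝ, nn (-y) ≤ nn y := by
    intro y
    have h := nn_le_abs_sub_int (-y) (-round y)
    refine h.trans (le_of_eq ?_)
    unfold nn
    have e : -y - ((-round y : ℤ) : ℝ) = -(y - round y) := by push_cast; ring
    rw [e, abs_neg]
  refine le_antisymm (key x) ?_
  have := key (-x)
  rwa [neg_neg] at this

/-- the exponential sum of `Λ - Λ_D` -/
lemma LamD_exp (m : ℕ) : ∃ C : ℝ, 0 < C ∧ ∀ X D : ℕ, 2 ≤ D → ∀ α : ℝ,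
    ‖∑ n ∈ Finset.Ioc 0 X, ((Λ n - LamD D n : ℝ) : ℂ) * ee (n * α)‖ ≤
      C * LL X ^ 2 * X / Real.log D ^ m := by
  obtain ⟨C, hC, h⟩ := good_g2 m
  refine ⟨2 * C, by positivity, fun X D hD α => ?_⟩
  have hL := LL_pos X
  have hlD : 0 < Real.log D := Real.log_pos (by exact_mod_cast hD)
  -- the sum as a double sum
  have h1 : ∑ n ∈ Finset.Ioc 0 X, ((Λ n - LamD D n : ℝ) : ℂ) * ee (n * α) =
      -∑ l ∈ Finset.Ioc 0 X, ∑ d ∈ Finset.Ioc 0 (X / l), (if D < d then (g2 d : ℂ) else 0) * ee (d * (l * α)) := by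
    have e1 : ∀ n ∈ Finset.Ioc 0 X, ((Λ n - LamD D n : ℝ) : ℂ) * ee (n * α) =
        -∑ p ∈ n.divisorsAntidiagonal, (if D < p.1 then (g2 p.1 : ℂ) else 0) * ee (p.1 * (p.2 * α)) := by
      intro n hn
      rw [Lam_sub_LamD D (Finset.mem_Ioc.mp hn).1]
      push_cast
      rw [neg_mul, Finset.sum_mul]
      congr 1
      refine Finset.sum_congr rfl fun p hp => ?_
      have h3 := (Nat.mem_divisorsAntidiagonal.mp hp).1
      have h5 : ((n:ℝ) * α) = p.1 * (p.2 * α) := by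
        rw [← h3]; push_cast; ring
      rw [h5]
      split_ifs <;> simp
    rw [Finset.sum_congr rfl e1, Finset.sum_neg_distrib,
      sum_pairs' (fun d l => (if D < d then (g2 d : ℂ) else 0) * ee (d * (l * α))) X]
    congr 1
    refine Finset.sum_comm' ?_
    intro d l
    simp only [Finset.mem_Ioc]
    constructor
    · rintro ⟨⟨h2, h3⟩, h4, h5⟩
      have h6 := (Nat.le_div_iff_mul_le h2).mp h5
      refine ⟨⟨h2, (Nat.le_div_iff_mul_le h4).mpr (by rwa [mul_comm])⟩, h4, ?_⟩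
      calc l ≤ l * d := Nat.le_mul_of_pos_right _ h2
        _ ≤ X := h6
    · rintro ⟨⟨h2, h3⟩, h4, h5⟩
      have h6 := (Nat.le_div_iff_mul_le h4).mp h3
      refine ⟨⟨h2, ?_⟩, h4, (Nat.le_div_iff_mul_le h2).mpr (by rwa [mul_comm])⟩
      calc d ≤ d * l := Nat.le_mul_of_pos_right _ h4
        _ ≤ X := h6
  -- one inner sum
  have h2 : ∀ l ∈ Finset.Ioc 0 X, ‖∑ d ∈ Finset.Ioc 0 (X / l), (if D < d then (g2 d : ℂ) else 0) * ee (d * (l * α))‖ ≤
      2 * C * LL X * (X / Real.log D ^ m) * (1 / l) := by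
    intro l hl
    have hl1 := (Finset.mem_Ioc.mp hl).1
    have hl0 : (0:ℝ) < l := by exact_mod_cast hl1
    set Y := X / l with hY
    by_cases hYD : Y ≤ D
    · have : ∑ d ∈ Finset.Ioc 0 Y, (if D < d then (g2 d : ℂ) else 0) * ee (d * (l * α)) = 0 := by
        refine Finset.sum_eq_zero fun d hd => ?_
        have := (Finset.mem_Ioc.mp hd).2
        rw [if_neg (by omega), zero_mul]
      rw [this, norm_zero]
      positivity
    push Not at hYD
    have hb : ∀ Z : ℕ, Z ≤ Y → ‖∑ d ∈ Finset.Ioc 0 Z, (g2 d : ℂ) * ee (d * (l * α))‖ ≤ C * LL X * phim m Y := by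
      intro Z hZ
      have h3 := h 1 Z le_rfl (l * α)
      simp only [one_dvd, if_true, Nat.primeFactors_one, Finset.card_empty, pow_zero, mul_one, Nat.div_one] at h3
      refine h3.trans ?_
      have h4 := phim_nat_mono m hZ
      have h5 := phim_nat_nonneg m Z
      have h6 : 1 + Real.log Z ≤ LL X := by
        unfold LL
        rcases Nat.eq_zero_or_pos Z with rfl | hZ0
        · simp; exact Real.log_natCast_nonneg X
        · have : Real.log Z ≤ Real.log X := by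
            refine Real.log_le_log (by exact_mod_cast hZ0) ?_
            exact_mod_cast hZ.trans (Nat.div_le_self _ _)
          linarith
      have h7 : 0 ≤ 1 + Real.log Z := by
        have := Real.log_natCast_nonneg Z
        linarith
      gcongr
    have h3 : ∑ d ∈ Finset.Ioc 0 Y, (if D < d then (g2 d : ℂ) else 0) * ee (d * (l * α)) =
        ∑ d ∈ Finset.Ioc 0 Y, (g2 d : ℂ) * ee (d * (l * α)) - ∑ d ∈ Finset.Ioc 0 D, (g2 d : ℂ) * ee (d * (l * α)) := by
      have hsub : Finset.Ioc 0 D ⊆ Finset.Ioc 0 Y := Finset.Ioc_subset_Ioc_right hYD.le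
      rw [eq_sub_iff_add_eq]
      have e : ∑ d ∈ Finset.Ioc 0 D, (g2 d : ℂ) * ee (d * (l * α)) =
          ∑ d ∈ Finset.Ioc 0 Y, (if D < d then 0 else (g2 d : ℂ)) * ee (d * (l * α)) := by
        rw [← Finset.sum_subset hsub]
        · refine Finset.sum_congr rfl fun d hd => ?_
          have := (Finset.mem_Ioc.mp hd).2
          rw [if_neg (by omega)]
        · intro d hd hd'
          have : D < d := by
            by_contra hcon
            exact hd' (Finset.mem_Ioc.mpr ⟨(Finset.mem_Ioc.mp hd).1, by omega⟩)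
          rw [if_pos this, zero_mul]
      rw [e, ← Finset.sum_add_distrib]
      refine Finset.sum_congr rfl fun d _ => ?_
      split_ifs <;> simp
    have hph : phim m Y ≤ (X / l) / Real.log D ^ m := by
      unfold phim
      have hY0 : (0:ℝ) < Y := by exact_mod_cast (by omega : 0 < Y)
      have h4 : Real.log D ≤ Real.log Y := Real.log_le_log (by exact_mod_cast (by omega : 0 < D)) (by exact_mod_cast hYD.le)
      have h5 : (Y:ℝ) ≤ X / l := Nat.cast_div_le
      have h6 : Real.log D ≤ 2 * m + Real.log Y := by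
        have : (0:ℝ) ≤ m := Nat.cast_nonneg m
        linarith
      gcongr
    rw [h3]
    calc _ ≤ C * LL X * phim m Y + C * LL X * phim m Y :=
          (norm_sub_le _ _).trans (add_le_add (hb Y le_rfl) (hb D hYD.le))
      _ = 2 * C * LL X * phim m Y := by ring
      _ ≤ 2 * C * LL X * ((X / l) / Real.log D ^ m) := by gcongr
      _ = _ := by ring
  rw [h1, norm_neg]
  calc _ ≤ ∑ l ∈ Finset.Ioc 0 X, 2 * C * LL X * (X / Real.log D ^ m) * (1 / l) :=
        (norm_sum_le _ _).trans (Finset.sum_le_sum h2)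
    _ = 2 * C * LL X * (X / Real.log D ^ m) * Hs X := by
        rw [← Finset.mul_sum]; rfl
    _ ≤ 2 * C * LL X * (X / Real.log D ^ m) * LL X := by
        have := Hs_le_LL X
        gcongr
    _ = _ := by ring

/-- geometric sums at spaced fractions -/
lemma farey_geo {D P X : ℕ} (hP : 1 ≤ P) (hDX : D ≤ X) (hX : 1 ≤ X) {s : ℝ} (hs : s = 1 ∨ s = -1) (α : ℝ) :
    ∑ r ∈ Finset.Ioc P D, ∑ b ∈ rd r, |bet D r| * ‖∑ n ∈ Finset.Ioc 0 X, ee (n * (α + s * ((b:ℝ) / r)))‖ ≤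
      LL X ^ 2 * X / P + 2 * (D:ℝ) ^ 3 * LL X ^ 2 := by
  classical
  have hL := LL_pos X
  have hX0 : (0:ℝ) < X := by exact_mod_cast hX
  have hP0 : (0:ℝ) < P := by exact_mod_cast hP
  set Sg := (Finset.Ioc P D).sigma rd with hSg
  set θ : (Σ _ : ℕ, ℕ) → ℝ := fun z => α + s * ((z.2:ℝ) / z.1) with hθ
  set w : (Σ _ : ℕ, ℕ) → ℝ := fun z => LL X ^ 2 / z.1 with hw
  have hmem : ∀ z ∈ Sg, P < z.1 ∧ z.1 ≤ D ∧ z.2 ∈ rd z.1 := by
    intro z hz
    obtain ⟨h1, h2⟩ := Finset.mem_sigma.mp hz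
    obtain ⟨h3, h4⟩ := Finset.mem_Ioc.mp h1
    exact ⟨h3, h4, h2⟩
  have h1 : ∑ r ∈ Finset.Ioc P D, ∑ b ∈ rd r, |bet D r| * ‖∑ n ∈ Finset.Ioc 0 X, ee (n * (α + s * ((b:ℝ) / r)))‖ ≤
      ∑ z ∈ Sg, w z * Fy X (θ z) := by
    rw [hSg, Finset.sum_sigma]
    refine Finset.sum_le_sum fun r hr => Finset.sum_le_sum fun b _ => ?_
    have hr1 : 0 < r := by have := (Finset.mem_Ioc.mp hr).1; omega
    have h2 := norm_geom_le (Y := X) (θ := α + s * ((b:ℝ) / r)) hX0 (A := 0) (B := X) (by simp)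
    have h3 := bet_abs_le (X := X) hr1 hDX
    have h4 := (Fy_pos hX0 (α + s * ((b:ℝ) / r))).le
    exact mul_le_mul h3 h2 (norm_nonneg _) (by positivity)
  refine h1.trans ?_
  rcases Finset.eq_empty_or_nonempty Sg with hemp | ⟨z₀, hz₀⟩
  · rw [hemp, Finset.sum_empty]; positivity
  have hD1 : 1 ≤ D := by have := hmem z₀ hz₀; omega
  have hD0 : (0:ℝ) < D := by exact_mod_cast hD1
  rw [← Finset.sum_filter_add_sum_filter_not Sg (fun z => nn (θ z) < 1 / (2 * (D:ℝ) ^ 2))]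
  refine add_le_add ?_ ?_
  · -- at most one bad fraction
    have hcard : (Sg.filter (fun z => nn (θ z) < 1 / (2 * (D:ℝ) ^ 2))).card ≤ 1 := by
      rw [Finset.card_le_one]
      intro z hz z' hz'
      by_contra hne
      obtain ⟨h2, h3⟩ := Finset.mem_filter.mp hz
      obtain ⟨h4, h5⟩ := Finset.mem_filter.mp hz'
      obtain ⟨h6, h7, h8⟩ := hmem z h2
      obtain ⟨h9, h10, h11⟩ := hmem z' h4
      have hF : z ∈ Farey D := Finset.mem_sigma.mpr ⟨Finset.mem_Ioc.mpr ⟨by omega, h7⟩, h8⟩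
      have hF' : z' ∈ Farey D := Finset.mem_sigma.mpr ⟨Finset.mem_Ioc.mpr ⟨by omega, h10⟩, h11⟩
      have h12 := farey_spaced z z' hF hF' hne
      have h13 : nn (θ z - θ z') = nn ((z.2:ℝ) / z.1 - (z'.2:ℝ) / z'.1) := by
        have e : θ z - θ z' = s * ((z.2:ℝ) / z.1 - (z'.2:ℝ) / z'.1) := by
          simp only [hθ]; ring
        rw [e]
        rcases hs with rfl | rfl
        · rw [one_mul]
        · rw [neg_one_mul, nn_neg']
      have h14 := nn_sub_le' (θ z) (θ z')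
      rw [h13] at h14
      have h15 : (1:ℝ) / ((D ^ 2 : ℕ) : ℝ) = 1 / (2 * (D:ℝ) ^ 2) + 1 / (2 * (D:ℝ) ^ 2) := by
        push_cast; field_simp; norm_num
      rw [h15] at h12
      linarith
    calc ∑ z ∈ Sg.filter (fun z => nn (θ z) < 1 / (2 * (D:ℝ) ^ 2)), w z * Fy X (θ z)
        ≤ ∑ z ∈ Sg.filter (fun z => nn (θ z) < 1 / (2 * (D:ℝ) ^ 2)), LL X ^ 2 / P * X := by
          refine Finset.sum_le_sum fun z hz => ?_
          obtain ⟨h6, _⟩ := hmem z (Finset.mem_filter.mp hz).1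
          have h7 : w z ≤ LL X ^ 2 / P := by
            simp only [hw]
            have : (P:ℝ) ≤ z.1 := by exact_mod_cast h6.le
            gcongr
          exact mul_le_mul h7 (Fy_le hX0 _) (Fy_pos hX0 _).le (by positivity)
      _ = (Sg.filter (fun z => nn (θ z) < 1 / (2 * (D:ℝ) ^ 2))).card * (LL X ^ 2 / P * X) := by
          rw [Finset.sum_const, nsmul_eq_mul]
      _ ≤ 1 * (LL X ^ 2 / P * X) := by
          have : ((Sg.filter (fun z => nn (θ z) < 1 / (2 * (D:ℝ) ^ 2))).card : ℝ) ≤ 1 := by exact_mod_cast hcard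
          gcongr
      _ = _ := by ring
  · calc ∑ z ∈ Sg.filter (fun z => ¬ nn (θ z) < 1 / (2 * (D:ℝ) ^ 2)), w z * Fy X (θ z)
        ≤ ∑ z ∈ Sg.filter (fun z => ¬ nn (θ z) < 1 / (2 * (D:ℝ) ^ 2)), w z * (2 * (D:ℝ) ^ 2) := by
          refine Finset.sum_le_sum fun z hz => ?_
          obtain ⟨h5, h6⟩ := Finset.mem_filter.mp hz
          push Not at h6
          have h7 : Fy X (θ z) ≤ 2 * (D:ℝ) ^ 2 := by
            unfold Fy
            have h8 : 0 < 1 / (2 * (D:ℝ) ^ 2) := by positivity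
            calc (max (X:ℝ)⁻¹ (nn (θ z)))⁻¹ ≤ (1 / (2 * (D:ℝ) ^ 2))⁻¹ :=
                  inv_anti₀ h8 (h6.trans (le_max_right _ _))
              _ = _ := by rw [one_div, inv_inv]
          have h9 : 0 ≤ w z := by simp only [hw]; positivity
          gcongr
      _ ≤ ∑ z ∈ Sg, w z * (2 * (D:ℝ) ^ 2) := by
          refine Finset.sum_le_sum_of_subset_of_nonneg (Finset.filter_subset _ _) fun z _ _ => ?_
          simp only [hw]; positivity
      _ ≤ ∑ r ∈ Finset.Ioc P D, LL X ^ 2 * (2 * (D:ℝ) ^ 2) := by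
          rw [hSg, Finset.sum_sigma]
          refine Finset.sum_le_sum fun r hr => ?_
          have hr1 : 0 < r := by have := (Finset.mem_Ioc.mp hr).1; omega
          have hr0 : (0:ℝ) < r := by exact_mod_cast hr1
          simp only [hw]
          rw [Finset.sum_const, nsmul_eq_mul]
          have h1 : ((rd r).card : ℝ) ≤ r := by
            have : (rd r).card ≤ r := by
              unfold rd
              exact (Finset.card_filter_le _ _).trans (by simp)
            exact_mod_cast this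
          calc ((rd r).card : ℝ) * (LL X ^ 2 / r * (2 * (D:ℝ) ^ 2)) ≤ r * (LL X ^ 2 / r * (2 * (D:ℝ) ^ 2)) := by gcongr
            _ = _ := by field_simp
      _ = (D - P : ℕ) * (LL X ^ 2 * (2 * (D:ℝ) ^ 2)) := by
          rw [Finset.sum_const, Nat.card_Ioc, nsmul_eq_mul]
      _ ≤ D * (LL X ^ 2 * (2 * (D:ℝ) ^ 2)) := by
          have : ((D - P : ℕ) : ℝ) ≤ D := by exact_mod_cast Nat.sub_le _ _
          gcongr
      _ = _ := by ring

/-- the exponential sum of `Λ_D - Λ♯` -/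
lemma LamS_exp {D P X : ℕ} (hP : 1 ≤ P) (hPD : P ≤ D) (hDX : D ≤ X) (hX : 1 ≤ X) (α : ℝ) :
    ‖∑ n ∈ Finset.Ioc 0 X, ((LamD D n - LamS D P n : ℝ) : ℂ) * ee (n * α)‖ ≤
      LL X ^ 2 * X / P + 2 * (D:ℝ) ^ 3 * LL X ^ 2 := by
  -- real parts
  have hcr : ∀ (r : ℕ) (n : ℤ), ((cr r n : ℝ) : ℂ) =
      (1 / 2 : ℂ) * (∑ b ∈ rd r, ee (n * ((b:ℝ) / r)) + ∑ b ∈ rd r, ee (-(n * ((b:ℝ) / r)))) := by
    intro r n
    have e1 : (starRingEnd ℂ) (crC r n) = ∑ b ∈ rd r, ee (-(n * ((b:ℝ) / r))) := by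
      unfold crC
      rw [map_sum]
      exact Finset.sum_congr rfl fun b _ => conj_ee _
    have e2 := Complex.add_conj (crC r n)
    rw [e1] at e2
    unfold cr
    have e3 : crC r n = ∑ b ∈ rd r, ee (n * ((b:ℝ) / r)) := rfl
    rw [← e3, e2]
    push_cast
    ring
  have h1 : ∀ n : ℕ, LamD D n - LamS D P n = ∑ r ∈ Finset.Ioc P D, bet D r * cr r n := by
    intro n
    rw [← LamS_full]
    unfold LamS
    have hsub : Finset.Ioc 0 P ⊆ Finset.Ioc 0 D := Finset.Ioc_subset_Ioc_right hPD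
    rw [← Finset.sum_sdiff hsub]
    have e : Finset.Ioc 0 D \ Finset.Ioc 0 P = Finset.Ioc P D := by
      ext r; simp only [Finset.mem_sdiff, Finset.mem_Ioc]; omega
    rw [e]; ring
  have h2 : ∑ n ∈ Finset.Ioc 0 X, ((LamD D n - LamS D P n : ℝ) : ℂ) * ee (n * α) =
      (1 / 2 : ℂ) * (∑ r ∈ Finset.Ioc P D, ∑ b ∈ rd r, (bet D r : ℂ) * ∑ n ∈ Finset.Ioc 0 X, ee (n * (α + 1 * ((b:ℝ) / r))) +
        ∑ r ∈ Finset.Ioc P D, ∑ b ∈ rd r, (bet D r : ℂ) * ∑ n ∈ Finset.Ioc 0 X, ee (n * (α + -1 * ((b:ℝ) / r)))) := by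
    have e1 : ∀ n ∈ Finset.Ioc 0 X, ((LamD D n - LamS D P n : ℝ) : ℂ) * ee (n * α) =
        ∑ r ∈ Finset.Ioc P D, (1 / 2 : ℂ) * (∑ b ∈ rd r, (bet D r : ℂ) * ee (n * (α + 1 * ((b:ℝ) / r))) +
          ∑ b ∈ rd r, (bet D r : ℂ) * ee (n * (α + -1 * ((b:ℝ) / r)))) := by
      intro n _
      rw [h1 n]
      push_cast
      rw [Finset.sum_mul]
      refine Finset.sum_congr rfl fun r _ => ?_
      rw [hcr r n]
      have e2 : ∑ b ∈ rd r, (bet D r : ℂ) * ee (n * (α + 1 * ((b:ℝ) / r))) =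
          (bet D r : ℂ) * (∑ b ∈ rd r, ee (((n:ℤ):ℝ) * ((b:ℝ) / r))) * ee (n * α) := by
        rw [mul_assoc, Finset.sum_mul, Finset.mul_sum]
        refine Finset.sum_congr rfl fun b _ => ?_
        rw [← ee_add]
        congr 2
        push_cast; ring
      have e3 : ∑ b ∈ rd r, (bet D r : ℂ) * ee (n * (α + -1 * ((b:ℝ) / r))) =
          (bet D r : ℂ) * (∑ b ∈ rd r, ee (-(((n:ℤ):ℝ) * ((b:ℝ) / r)))) * ee (n * α) := by
        rw [mul_assoc, Finset.sum_mul, Finset.mul_sum]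
        refine Finset.sum_congr rfl fun b _ => ?_
        rw [← ee_add]
        congr 2
        push_cast; ring
      rw [e2, e3]
      ring
    rw [Finset.sum_congr rfl e1, Finset.sum_comm, ← Finset.sum_add_distrib, Finset.mul_sum]
    refine Finset.sum_congr rfl fun r _ => ?_
    rw [← Finset.mul_sum, Finset.sum_add_distrib, Finset.sum_comm, Finset.sum_comm (s := Finset.Ioc 0 X) (t := rd r)]
    congr 1
    congr 1
    · exact Finset.sum_congr rfl fun b _ => by rw [Finset.mul_sum]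
    · exact Finset.sum_congr rfl fun b _ => by rw [Finset.mul_sum]
  have h3 : ∀ s : ℝ, ‖∑ r ∈ Finset.Ioc P D, ∑ b ∈ rd r, (bet D r : ℂ) * ∑ n ∈ Finset.Ioc 0 X, ee (n * (α + s * ((b:ℝ) / r)))‖ ≤
      ∑ r ∈ Finset.Ioc P D, ∑ b ∈ rd r, |bet D r| * ‖∑ n ∈ Finset.Ioc 0 X, ee (n * (α + s * ((b:ℝ) / r)))‖ := by
    intro s
    refine (norm_sum_le _ _).trans (Finset.sum_le_sum fun r _ => ?_)
    refine (norm_sum_le _ _).trans (Finset.sum_le_sum fun b _ => ?_)
    rw [norm_mul, Complex.norm_real, Real.norm_eq_abs]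
  have h4 := (h3 1).trans (farey_geo hP hDX hX (Or.inl rfl) α)
  have h5 := (h3 (-1)).trans (farey_geo hP hDX hX (Or.inr rfl) α)
  rw [h2, norm_mul]
  have e6 : ‖(1 / 2 : ℂ)‖ = 1 / 2 := by simp
  rw [e6]
  have h7 := norm_add_le (∑ r ∈ Finset.Ioc P D, ∑ b ∈ rd r, (bet D r : ℂ) * ∑ n ∈ Finset.Ioc 0 X, ee (n * (α + 1 * ((b:ℝ) / r))))
    (∑ r ∈ Finset.Ioc P D, ∑ b ∈ rd r, (bet D r : ℂ) * ∑ n ∈ Finset.Ioc 0 X, ee (n * (α + -1 * ((b:ℝ) / r))))
  linarith

end Pool.Agent.SEH
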