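import Pool.Agent.SEH.Defs

/-!
Moments of the divisor function.
-/

open Complex Pool.Agent.ANT Pool.Agent.DEH

namespace Pool.Agent.SEH

lemma LL_one_le (X : ℕ) : 1 ≤ LL X := by
  unfold LL
  have := Real.log_natCast_nonneg X
  linarith

lemma LL_pos (X : ℕ) : 0 < LL X := lt_of_lt_of_le one_pos (LL_one_le X)

lemma Hs_le_LL (X : ℕ) : Hs X ≤ LL X := Hs_le X

theorem sum_tau_pow_div_le (k N : ℕ) : ∑ n ∈ Finset.Ioc 0 N, tauR n ^ k / n ≤ Hs N ^ (2 ^ k) := by
  induction k with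
  | zero => simp [Hs]
  | succ k ih =>
    have h1 := sum_tau_mul (fun n => tauR n ^ k / (n:ℝ)) N
    have h2 : ∑ n ∈ Finset.Ioc 0 N, tauR n ^ (k + 1) / n =
        ∑ n ∈ Finset.Ioc 0 N, tauR n * (tauR n ^ k / (n:ℝ)) :=
      Finset.sum_congr rfl fun n _ => by rw [pow_succ]; ring
    rw [h2, h1]
    have hT0 : 0 ≤ ∑ n ∈ Finset.Ioc 0 N, tauR n ^ k / (n:ℝ) :=
      Finset.sum_nonneg fun n _ => div_nonneg (pow_nonneg (tauR_nonneg n) k) (Nat.cast_nonneg _)
    calc ∑ m ∈ Finset.Ioc 0 N, ∑ n ∈ Finset.Ioc 0 (N / m), tauR (m * n) ^ k / ((m * n : ℕ) : ℝ)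
        ≤ ∑ m ∈ Finset.Ioc 0 N, (tauR m ^ k / m) * ∑ n ∈ Finset.Ioc 0 N, tauR n ^ k / (n:ℝ) := by
          refine Finset.sum_le_sum fun m _ => ?_
          calc ∑ n ∈ Finset.Ioc 0 (N / m), tauR (m * n) ^ k / ((m * n : ℕ) : ℝ)
              ≤ ∑ n ∈ Finset.Ioc 0 (N / m), (tauR m ^ k / m) * (tauR n ^ k / n) := by
                refine Finset.sum_le_sum fun n _ => ?_
                rw [div_mul_div_comm, ← mul_pow]
                push_cast
                have := tauR_mul_le m n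
                have := tauR_nonneg (m * n)
                gcongr
            _ = (tauR m ^ k / m) * ∑ n ∈ Finset.Ioc 0 (N / m), tauR n ^ k / (n:ℝ) := by
                rw [Finset.mul_sum]
            _ ≤ _ := by
                refine mul_le_mul_of_nonneg_left ?_
                  (div_nonneg (pow_nonneg (tauR_nonneg _) k) (Nat.cast_nonneg _))
                refine Finset.sum_le_sum_of_subset_of_nonneg
                  (Finset.Ioc_subset_Ioc_right (Nat.div_le_self _ _)) fun n _ _ => ?_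
                exact div_nonneg (pow_nonneg (tauR_nonneg n) k) (Nat.cast_nonneg _)
      _ = (∑ n ∈ Finset.Ioc 0 N, tauR n ^ k / (n:ℝ)) ^ 2 := by rw [← Finset.sum_mul, sq]
      _ ≤ (Hs N ^ (2 ^ k)) ^ 2 := by gcongr
      _ = Hs N ^ (2 ^ (k + 1)) := by rw [← pow_mul, pow_succ 2 k]

theorem sum_tau_pow_le (k N : ℕ) : ∑ n ∈ Finset.Ioc 0 N, tauR n ^ k ≤ N * Hs N ^ (2 ^ k - 1) := by
  induction k generalizing N with
  | zero => simp
  | succ k ih =>
    have h1 := sum_tau_mul (fun n => tauR n ^ k) N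
    have h2 : ∑ n ∈ Finset.Ioc 0 N, tauR n ^ (k + 1) =
        ∑ n ∈ Finset.Ioc 0 N, tauR n * (tauR n ^ k) :=
      Finset.sum_congr rfl fun n _ => by rw [pow_succ]; ring
    rw [h2, h1]
    have hH := Hs_nonneg N
    calc ∑ m ∈ Finset.Ioc 0 N, ∑ n ∈ Finset.Ioc 0 (N / m), tauR (m * n) ^ k
        ≤ ∑ m ∈ Finset.Ioc 0 N, (tauR m ^ k / m) * (N * Hs N ^ (2 ^ k - 1)) := by
          refine Finset.sum_le_sum fun m hm => ?_
          have hm0 : (0:ℝ) < m := by exact_mod_cast (Finset.mem_Ioc.mp hm).1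
          have ht : 0 ≤ tauR m ^ k := pow_nonneg (tauR_nonneg m) k
          calc ∑ n ∈ Finset.Ioc 0 (N / m), tauR (m * n) ^ k
              ≤ ∑ n ∈ Finset.Ioc 0 (N / m), tauR m ^ k * tauR n ^ k := by
                refine Finset.sum_le_sum fun n _ => ?_
                rw [← mul_pow]
                have := tauR_mul_le m n
                have := tauR_nonneg (m * n)
                gcongr
            _ = tauR m ^ k * ∑ n ∈ Finset.Ioc 0 (N / m), tauR n ^ k := by rw [Finset.mul_sum]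
            _ ≤ tauR m ^ k * ((N / m : ℕ) * Hs (N / m) ^ (2 ^ k - 1)) :=
                mul_le_mul_of_nonneg_left (ih _) ht
            _ ≤ tauR m ^ k * ((N / m : ℝ) * Hs N ^ (2 ^ k - 1)) := by
                refine mul_le_mul_of_nonneg_left ?_ ht
                exact mul_le_mul Nat.cast_div_le
                  (pow_le_pow_left₀ (Hs_nonneg _) (Hs_mono (Nat.div_le_self _ _)) _)
                  (pow_nonneg (Hs_nonneg _) _) (by positivity)
            _ = (tauR m ^ k / m) * (N * Hs N ^ (2 ^ k - 1)) := by ring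
      _ = (∑ m ∈ Finset.Ioc 0 N, (tauR m ^ k / m)) * (N * Hs N ^ (2 ^ k - 1)) := by
          rw [Finset.sum_mul]
      _ ≤ Hs N ^ (2 ^ k) * (N * Hs N ^ (2 ^ k - 1)) :=
          mul_le_mul_of_nonneg_right (sum_tau_pow_div_le k N) (by positivity)
      _ = N * Hs N ^ (2 ^ (k + 1) - 1) := by
          have e : 2 ^ (k + 1) - 1 = 2 ^ k + (2 ^ k - 1) := by
            have : 1 ≤ 2 ^ k := Nat.one_le_two_pow
            rw [pow_succ]; omega
          rw [e, pow_add]; ring

/-- moments with the logarithm -/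
lemma sum_tau_pow_le_LL (k X : ℕ) : ∑ n ∈ Finset.Ioc 0 X, tauR n ^ k ≤ X * LL X ^ (2 ^ k - 1) := by
  refine (sum_tau_pow_le k X).trans ?_
  have := Hs_nonneg X
  have := Hs_le_LL X
  gcongr

lemma sum_tau_pow_div_le_LL (k X : ℕ) : ∑ n ∈ Finset.Ioc 0 X, tauR n ^ k / n ≤ LL X ^ (2 ^ k) := by
  refine (sum_tau_pow_div_le k X).trans ?_
  have := Hs_nonneg X
  have := Hs_le_LL X
  gcongr

/-- a sum over the non-zero integers of absolute value at most `X` of an even function -/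
lemma sum_Zs {X : ℕ} (φ : ℕ → ℝ) : ∑ h ∈ Zs X, φ h.natAbs = 2 * ∑ n ∈ Finset.Ioc 0 X, φ n := by
  have h1 : Zs X = (Finset.Ioc 0 X).image (fun n : ℕ => (n : ℤ)) ∪
      (Finset.Ioc 0 X).image (fun n : ℕ => -(n : ℤ)) := by
    ext h
    simp only [Zs, Finset.mem_erase, Finset.mem_Icc, Finset.mem_union, Finset.mem_image, Finset.mem_Ioc]
    constructor
    · rintro ⟨h0, h1, h2⟩
      rcases lt_or_gt_of_ne h0 with h3 | h3
      · right; exact ⟨h.natAbs, by omega, by omega⟩
      · left; exact ⟨h.natAbs, by omega, by omega⟩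
    · rintro (⟨n, hn, rfl⟩ | ⟨n, hn, rfl⟩) <;> omega
  rw [h1, Finset.sum_union, Finset.sum_image, Finset.sum_image]
  · simp; ring
  · intro a _ b _ h; simpa using h
  · intro a _ b _ h; simpa using h
  · rw [Finset.disjoint_left]
    intro x hx hx'
    simp only [Finset.mem_image, Finset.mem_Ioc] at hx hx'
    obtain ⟨a, ha, rfl⟩ := hx
    obtain ⟨b, hb, hab⟩ := hx'
    omega

lemma sum_Zs_tau_pow (k X : ℕ) : ∑ h ∈ Zs X, tauR h.natAbs ^ k ≤ 2 * (X * LL X ^ (2 ^ k - 1)) := by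
  rw [sum_Zs (fun n => tauR n ^ k)]
  have := sum_tau_pow_le_LL k X
  linarith

end Pool.Agent.SEH
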