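import Pool.Agent.SEH.Key1

/-!
Part T, 1: the common divisors `e > E₀` contribute little, for every `N`.
-/

open Complex Pool.Agent.ANT Pool.Agent.DEH

namespace Pool.Agent.SEH

/-- reindexing multiples, real version -/
lemma sum_mult_real {d X : ℕ} (hd : 1 ≤ d) (h : ℕ → ℝ) :
    ∑ n ∈ (Finset.Ioc 0 X).filter (fun n => d ∣ n), h n = ∑ k ∈ Finset.Ioc 0 (X / d), h (d * k) := by
  have h1 := sum_multiples (X := X) hd (fun n => (h n : ℂ))
  rw [← Finset.sum_filter] at h1
  exact_mod_cast h1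

/-- the number of square divisors beyond `E₀` -/
noncomputable def KK (E₀ X v : ℕ) : ℝ := (((Finset.Ioc E₀ X).filter (fun e => e ^ 2 ∣ v)).card : ℝ)

lemma KK_nonneg (E₀ X v : ℕ) : 0 ≤ KK E₀ X v := Nat.cast_nonneg _

lemma KK_le_tau {E₀ X v : ℕ} (hv : v ≠ 0) : KK E₀ X v ≤ tauR v := by
  unfold KK tauR
  have : ((Finset.Ioc E₀ X).filter (fun e => e ^ 2 ∣ v)) ⊆ v.divisors := by
    intro e he
    have h1 := (Finset.mem_filter.mp he).2
    exact Nat.mem_divisors.mpr ⟨(dvd_pow_self e two_ne_zero).trans h1, hv⟩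
  exact_mod_cast Finset.card_le_card this

lemma sum_tau_KK {E₀ X : ℕ} (hE : 1 ≤ E₀) :
    ∑ v ∈ Finset.Ioc 0 X, tauR v ^ 3 * KK E₀ X v ≤ X * LL X ^ 71 / E₀ := by
  have hE0 : (0:ℝ) < E₀ := by exact_mod_cast hE
  have hL := LL_pos X
  calc ∑ v ∈ Finset.Ioc 0 X, tauR v ^ 3 * KK E₀ X v
      = ∑ v ∈ Finset.Ioc 0 X, ∑ e ∈ Finset.Ioc E₀ X, if e ^ 2 ∣ v then tauR v ^ 3 else 0 := by
        refine Finset.sum_congr rfl fun v _ => ?_
        rw [← Finset.sum_filter, Finset.sum_const, nsmul_eq_mul, mul_comm]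
        rfl
    _ = ∑ e ∈ Finset.Ioc E₀ X, ∑ v ∈ (Finset.Ioc 0 X).filter (fun v => e ^ 2 ∣ v), tauR v ^ 3 := by
        rw [Finset.sum_comm]
        exact Finset.sum_congr rfl fun e _ => by rw [Finset.sum_filter]
    _ ≤ ∑ e ∈ Finset.Ioc E₀ X, (tauR e ^ 6 / e) * (X * LL X ^ 7 / E₀) := by
        refine Finset.sum_le_sum fun e he => ?_
        obtain ⟨he1, he2⟩ := Finset.mem_Ioc.mp he
        have he0 : 0 < e := by omega
        have he0' : (0:ℝ) < e := by exact_mod_cast he0
        have heE : (E₀:ℝ) ≤ e := by exact_mod_cast he1.le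
        rw [sum_mult_real (pow_pos he0 2 : 0 < e ^ 2)]
        have hτe := tauR_nonneg e
        calc ∑ k ∈ Finset.Ioc 0 (X / e ^ 2), tauR (e ^ 2 * k) ^ 3
            ≤ ∑ k ∈ Finset.Ioc 0 (X / e ^ 2), tauR e ^ 6 * tauR k ^ 3 := by
              refine Finset.sum_le_sum fun k _ => ?_
              have h1 := tauR_mul_le (e ^ 2) k
              have h2 : tauR (e ^ 2) ≤ tauR e * tauR e := by rw [sq]; exact tauR_mul_le e e
              have h3 := tauR_nonneg k
              have h4 := tauR_nonneg (e ^ 2 * k)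
              calc tauR (e ^ 2 * k) ^ 3 ≤ (tauR e * tauR e * tauR k) ^ 3 := by
                    gcongr
                    exact h1.trans (by gcongr)
                _ = _ := by ring
          _ = tauR e ^ 6 * ∑ k ∈ Finset.Ioc 0 (X / e ^ 2), tauR k ^ 3 := by rw [Finset.mul_sum]
          _ ≤ tauR e ^ 6 * (((X / e ^ 2 : ℕ) : ℝ) * Hs (X / e ^ 2) ^ (2 ^ 3 - 1)) := by
              gcongr
              exact sum_tau_pow_le 3 _
          _ ≤ tauR e ^ 6 * ((X / e ^ 2) * LL X ^ 7) := by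
              have h5 : Hs (X / e ^ 2) ≤ LL X := (Hs_mono (Nat.div_le_self _ _)).trans (Hs_le_LL X)
              have h6 := Hs_nonneg (X / e ^ 2)
              have h7 : ((X / e ^ 2 : ℕ) : ℝ) ≤ X / e ^ 2 := by
                have := Nat.cast_div_le (α := ℝ) (m := X) (n := e ^ 2)
                push_cast at this
                exact this
              norm_num
              gcongr
          _ = (tauR e ^ 6 / e) * (X * LL X ^ 7 / e) := by field_simp
          _ ≤ _ := by gcongr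
    _ = (∑ e ∈ Finset.Ioc E₀ X, tauR e ^ 6 / e) * (X * LL X ^ 7 / E₀) := by rw [Finset.sum_mul]
    _ ≤ LL X ^ 64 * (X * LL X ^ 7 / E₀) := by
        have h1 : ∑ e ∈ Finset.Ioc E₀ X, tauR e ^ 6 / e ≤ ∑ e ∈ Finset.Ioc 0 X, tauR e ^ 6 / e := by
          refine Finset.sum_le_sum_of_subset_of_nonneg (Finset.Ioc_subset_Ioc_left (Nat.zero_le _)) ?_
          intro e _ _
          exact div_nonneg (pow_nonneg (tauR_nonneg e) _) (Nat.cast_nonneg _)
        have h2 := sum_tau_pow_div_le_LL 6 X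
        norm_num at h2
        have h3 := h1.trans h2
        gcongr
    _ = _ := by ring

variable {f : ℤ → ℝ} {X : ℕ}

/-- mean square of the shifted reflected function -/
lemma shift_sq_le (hs : Supp f X) (hf : ∀ n : ℕ, |f n| ≤ LL X ^ 4 * tauR n) {N : ℕ} (hN : N ≤ X) :
    ∑ v ∈ Finset.Ioc 0 X, f ((N:ℤ) - v) ^ 2 ≤ X * LL X ^ 11 := by
  refine le_trans ?_ (f_sq_le hf)
  have h1 : ∑ v ∈ Finset.Ioc 0 X, f ((N:ℤ) - v) ^ 2 = ∑ v ∈ Finset.Ico 1 N, f ((N:ℤ) - v) ^ 2 := by
    symm
    refine Finset.sum_subset ?_ ?_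
    · intro v hv
      have := Finset.mem_Ico.mp hv
      exact Finset.mem_Ioc.mpr ⟨by omega, by omega⟩
    · intro v hv hv2
      have h2 := Finset.mem_Ioc.mp hv
      have h3 : ¬ (1 ≤ v ∧ v < N) := fun h => hv2 (Finset.mem_Ico.mpr h)
      rw [hs.zero (by omega)]; norm_num
  have h2 : ∑ v ∈ Finset.Ico 1 N, f ((N:ℤ) - v) ^ 2 = ∑ n ∈ Finset.Ico 1 N, f n ^ 2 := by
    refine Finset.sum_bij' (fun v _ => N - v) (fun v _ => N - v) ?_ ?_ ?_ ?_ ?_
    · intro v hv; have := Finset.mem_Ico.mp hv; exact Finset.mem_Ico.mpr ⟨by omega, by omega⟩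
    · intro v hv; have := Finset.mem_Ico.mp hv; exact Finset.mem_Ico.mpr ⟨by omega, by omega⟩
    · intro v hv; have := Finset.mem_Ico.mp hv; omega
    · intro v hv; have := Finset.mem_Ico.mp hv; omega
    · intro v hv
      have := Finset.mem_Ico.mp hv
      rw [Nat.cast_sub this.2.le]
  rw [h1, h2]
  refine Finset.sum_le_sum_of_subset_of_nonneg ?_ fun _ _ _ => sq_nonneg _
  intro v hv
  have := Finset.mem_Ico.mp hv
  exact Finset.mem_Ioc.mpr ⟨by omega, by omega⟩

/-- the triple sum over `q e m = v` -/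
lemma triple_le {E₀ v : ℕ} (hv : v ∈ Finset.Ioc 0 X) :
    ∑ q ∈ Finset.Ioc 0 X, ∑ e ∈ (Finset.Ioc E₀ X).filter (fun e => e ∣ q), ∑ m ∈ Finset.Ioc 0 X,
      (if q * e * m = v then (1:ℝ) else 0) ≤ tauR v * KK E₀ X v := by
  have hv0 := (Finset.mem_Ioc.mp hv).1
  calc _ = ∑ e ∈ Finset.Ioc E₀ X, ∑ q ∈ Finset.Ioc 0 X, (if e ∣ q then ∑ m ∈ Finset.Ioc 0 X,
      (if q * e * m = v then (1:ℝ) else 0) else 0) := by
        rw [Finset.sum_comm]
        refine Finset.sum_congr rfl fun q _ => ?_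
        rw [Finset.sum_filter]
    _ ≤ ∑ e ∈ Finset.Ioc E₀ X, if e ^ 2 ∣ v then tauR v else 0 := by
        refine Finset.sum_le_sum fun e he => ?_
        have he0 : 0 < e := by have := (Finset.mem_Ioc.mp he).1; omega
        split_ifs with h
        · calc _ ≤ ∑ q ∈ Finset.Ioc 0 X, (if q ∣ v then (1:ℝ) else 0) := by
                refine Finset.sum_le_sum fun q hq => ?_
                have hq0 := (Finset.mem_Ioc.mp hq).1
                split_ifs with h1 h2 h2
                · rcases Finset.eq_empty_or_nonempty ((Finset.Ioc 0 X).filter (fun m => q * e * m = v)) with h3 | ⟨m₀, h3⟩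
                  · rw [← Finset.sum_filter, h3]; simp
                  · have h4 := (Finset.mem_filter.mp h3).2
                    rw [← Finset.sum_filter]
                    have h5 : (Finset.Ioc 0 X).filter (fun m => q * e * m = v) ⊆ {m₀} := by
                      intro m hm
                      have h6 := (Finset.mem_filter.mp hm).2
                      rw [Finset.mem_singleton]
                      exact Nat.eq_of_mul_eq_mul_left (Nat.mul_pos hq0 he0) (h6.trans h4.symm)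
                    have h7 := Finset.card_le_card h5
                    rw [Finset.card_singleton] at h7
                    rw [Finset.sum_const, nsmul_eq_mul, mul_one]
                    exact_mod_cast h7
                · refine le_of_eq (Finset.sum_eq_zero fun m _ => ?_)
                  rw [if_neg]
                  rintro rfl
                  exact h2 ((Dvd.intro _ rfl).mul_right _)
                · exact zero_le_one
                · exact le_refl _
            _ ≤ tauR v := by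
                rw [← Finset.sum_filter, Finset.sum_const, nsmul_eq_mul, mul_one]
                unfold tauR
                have : (Finset.Ioc 0 X).filter (fun q => q ∣ v) ⊆ v.divisors := by
                  intro q hq
                  exact Nat.mem_divisors.mpr ⟨(Finset.mem_filter.mp hq).2, by omega⟩
                exact_mod_cast Finset.card_le_card this
        · refine le_of_eq (Finset.sum_eq_zero fun q _ => ?_)
          split_ifs with h1
          · refine Finset.sum_eq_zero fun m _ => ?_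
            rw [if_neg]
            rintro rfl
            obtain ⟨k, rfl⟩ := h1
            exact h ⟨k * m, by ring⟩
          · rfl
    _ = tauR v * KK E₀ X v := by
        rw [← Finset.sum_filter, Finset.sum_const, nsmul_eq_mul, mul_comm]
        rfl

/-- **the tail** -/
lemma tail_le (hs : Supp f X) (hf : ∀ n : ℕ, |f n| ≤ LL X ^ 4 * tauR n) {N E₀ : ℕ} (hN : N ≤ X) (hE : 1 ≤ E₀) :
    ∑ q ∈ Finset.Ioc 0 X, ∑ e ∈ (Finset.Ioc E₀ X).filter (fun e => e ∣ q), ∑ m ∈ Finset.Ioc 0 X,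
      |f ((N:ℤ) - (q * e * m : ℕ))| ≤ X * LL X ^ 41 / √E₀ := by
  have hE0 : (0:ℝ) < E₀ := by exact_mod_cast hE
  have hL := LL_pos X
  have h1 : ∑ q ∈ Finset.Ioc 0 X, ∑ e ∈ (Finset.Ioc E₀ X).filter (fun e => e ∣ q), ∑ m ∈ Finset.Ioc 0 X,
      |f ((N:ℤ) - (q * e * m : ℕ))| =
      ∑ v ∈ Finset.Ioc 0 X, |f ((N:ℤ) - v)| * ∑ q ∈ Finset.Ioc 0 X,
        ∑ e ∈ (Finset.Ioc E₀ X).filter (fun e => e ∣ q), ∑ m ∈ Finset.Ioc 0 X,
          (if q * e * m = v then (1:ℝ) else 0) := by
    have h2 : ∀ q ∈ Finset.Ioc 0 X, ∀ e ∈ (Finset.Ioc E₀ X).filter (fun e => e ∣ q), ∀ m ∈ Finset.Ioc 0 X,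
        |f ((N:ℤ) - (q * e * m : ℕ))| =
        ∑ v ∈ Finset.Ioc 0 X, |f ((N:ℤ) - v)| * (if q * e * m = v then (1:ℝ) else 0) := by
      intro q hq e he m hm
      have hq0 := (Finset.mem_Ioc.mp hq).1
      have he0 := (Finset.mem_Ioc.mp (Finset.mem_filter.mp he).1).1
      have hm0 := (Finset.mem_Ioc.mp hm).1
      have hpos : 0 < q * e * m := Nat.mul_pos (Nat.mul_pos hq0 (by omega)) hm0
      simp only [mul_ite, mul_one, mul_zero]
      rw [Finset.sum_ite_eq]
      split_ifs with h3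
      · rfl
      · have h4 : X < q * e * m := by
          by_contra hcon
          exact h3 (Finset.mem_Ioc.mpr ⟨hpos, by omega⟩)
        rw [hs.zero (by omega), abs_zero]
    rw [Finset.sum_congr rfl fun q hq => Finset.sum_congr rfl fun e he => Finset.sum_congr rfl fun m hm => h2 q hq e he m hm]
    calc _ = ∑ q ∈ Finset.Ioc 0 X, ∑ e ∈ (Finset.Ioc E₀ X).filter (fun e => e ∣ q), ∑ v ∈ Finset.Ioc 0 X,
          ∑ m ∈ Finset.Ioc 0 X, |f ((N:ℤ) - v)| * (if q * e * m = v then (1:ℝ) else 0) :=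
          Finset.sum_congr rfl fun q _ => Finset.sum_congr rfl fun e _ => Finset.sum_comm
      _ = ∑ q ∈ Finset.Ioc 0 X, ∑ v ∈ Finset.Ioc 0 X, ∑ e ∈ (Finset.Ioc E₀ X).filter (fun e => e ∣ q),
          ∑ m ∈ Finset.Ioc 0 X, |f ((N:ℤ) - v)| * (if q * e * m = v then (1:ℝ) else 0) :=
          Finset.sum_congr rfl fun q _ => Finset.sum_comm
      _ = ∑ v ∈ Finset.Ioc 0 X, ∑ q ∈ Finset.Ioc 0 X, ∑ e ∈ (Finset.Ioc E₀ X).filter (fun e => e ∣ q),
          ∑ m ∈ Finset.Ioc 0 X, |f ((N:ℤ) - v)| * (if q * e * m = v then (1:ℝ) else 0) := Finset.sum_comm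
      _ = _ := by simp only [Finset.mul_sum]
  rw [h1]
  calc _ ≤ ∑ v ∈ Finset.Ioc 0 X, |f ((N:ℤ) - v)| * (tauR v * KK E₀ X v) := by
        refine Finset.sum_le_sum fun v hv => ?_
        exact mul_le_mul_of_nonneg_left (triple_le hv) (abs_nonneg _)
    _ ≤ √(∑ v ∈ Finset.Ioc 0 X, |f ((N:ℤ) - v)| ^ 2) * √(∑ v ∈ Finset.Ioc 0 X, (tauR v * KK E₀ X v) ^ 2) :=
        Real.sum_mul_le_sqrt_mul_sqrt _ _ _
    _ ≤ √(X * LL X ^ 11) * √(X * LL X ^ 71 / E₀) := by
        have e1 : ∑ v ∈ Finset.Ioc 0 X, |f ((N:ℤ) - v)| ^ 2 ≤ X * LL X ^ 11 := by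
          simp only [sq_abs]
          exact shift_sq_le hs hf hN
        have e2 : ∑ v ∈ Finset.Ioc 0 X, (tauR v * KK E₀ X v) ^ 2 ≤ X * LL X ^ 71 / E₀ := by
          refine le_trans (Finset.sum_le_sum fun v hv => ?_) (sum_tau_KK hE)
          have h3 := KK_le_tau (E₀ := E₀) (X := X) (v := v) (by have := (Finset.mem_Ioc.mp hv).1; omega)
          have h4 := KK_nonneg E₀ X v
          have h5 := tauR_nonneg v
          calc (tauR v * KK E₀ X v) ^ 2 = tauR v ^ 2 * (KK E₀ X v * KK E₀ X v) := by ring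
            _ ≤ tauR v ^ 2 * (tauR v * KK E₀ X v) := by gcongr
            _ = _ := by ring
        gcongr
    _ = X * LL X ^ 41 / √E₀ := by
        rw [← Real.sqrt_mul (by positivity)]
        have e3 : (X * LL X ^ 11) * (X * LL X ^ 71 / E₀) = (X * LL X ^ 41) ^ 2 / E₀ := by ring
        rw [e3, Real.sqrt_div (by positivity), Real.sqrt_sq (by positivity)]

end Pool.Agent.SEH
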