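import Pool.Agent.SEH.PartT1

/-!
Part T, 2: coprimality and the block bound.
-/

open Complex Pool.Agent.ANT Pool.Agent.DEH Filter

namespace Pool.Agent.SEH

lemma abs_g1_le (n : ℕ) : |g1 n| ≤ 1 := by
  unfold g1
  rw [← Int.cast_abs]
  exact_mod_cast ArithmeticFunction.abs_moebius_le_one

lemma cop_ind {m q X : ℕ} (hm : m ∈ Finset.Ioc 0 X) (hq : 0 < q) :
    (if m.Coprime q then (1:ℝ) else 0) =
      ∑ e ∈ (Finset.Ioc 0 X).filter (fun e => e ∣ q), if e ∣ m then g1 e else 0 := by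
  obtain ⟨hm1, hm2⟩ := Finset.mem_Ioc.mp hm
  have h1 : (Nat.gcd m q).divisors = ((Finset.Ioc 0 X).filter (fun e => e ∣ q)).filter (fun e => e ∣ m) := by
    ext e
    simp only [Nat.mem_divisors, Finset.mem_filter, Finset.mem_Ioc]
    constructor
    · rintro ⟨h2, _⟩
      have h3 := (Nat.dvd_gcd_iff.mp h2).1
      have h4 := (Nat.dvd_gcd_iff.mp h2).2
      have h5 := Nat.le_of_dvd hm1 h3
      have h6 := Nat.pos_of_dvd_of_pos h3 hm1
      exact ⟨⟨⟨h6, by omega⟩, h4⟩, h3⟩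
    · rintro ⟨⟨_, h4⟩, h3⟩
      exact ⟨Nat.dvd_gcd h3 h4, (Nat.gcd_pos_of_pos_left _ hm1).ne'⟩
  rw [← Finset.sum_filter, ← h1]
  have h2 : ∑ e ∈ (Nat.gcd m q).divisors, g1 e = ((ArithmeticFunction.moebius : ArithmeticFunction ℝ) *
      (ArithmeticFunction.zeta : ArithmeticFunction ℝ)) (Nat.gcd m q) := by
    rw [ArithmeticFunction.coe_mul_zeta_apply]
    rfl
  rw [h2, ArithmeticFunction.coe_moebius_mul_coe_zeta, ArithmeticFunction.one_apply]

/-- the sum over `m` coprime to `q` -/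
noncomputable def TC (f : ℤ → ℝ) (c : ℕ → ℝ) (X N q : ℕ) : ℝ :=
  ∑ m ∈ Finset.Ioc 0 X, if m.Coprime q then c m * f ((N:ℤ) - (q * m : ℕ)) else 0

/-- the sum for the common divisor `e` -/
noncomputable def TE (f : ℤ → ℝ) (c : ℕ → ℝ) (X N q e : ℕ) : ℝ :=
  ∑ m ∈ Finset.Ioc 0 X, c (e * m) * f ((N:ℤ) - (q * e * m : ℕ))

section

variable {f : ℤ → ℝ} {X : ℕ}

lemma TC_eq (hs : Supp f X) (c : ℕ → ℝ) {N q : ℕ} (hN : N ≤ X) (hq : 0 < q) :
    TC f c X N q = ∑ e ∈ (Finset.Ioc 0 X).filter (fun e => e ∣ q), g1 e * TE f c X N q e := by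
  unfold TC
  calc _ = ∑ m ∈ Finset.Ioc 0 X, ∑ e ∈ (Finset.Ioc 0 X).filter (fun e => e ∣ q),
        (if e ∣ m then g1 e * (c m * f ((N:ℤ) - (q * m : ℕ))) else 0) := by
        refine Finset.sum_congr rfl fun m hm => ?_
        have h1 := cop_ind hm hq
        have h2 : (if m.Coprime q then c m * f ((N:ℤ) - (q * m : ℕ)) else 0) =
            (if m.Coprime q then (1:ℝ) else 0) * (c m * f ((N:ℤ) - (q * m : ℕ))) := by
          split_ifs <;> ring
        rw [h2, h1, Finset.sum_mul]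
        refine Finset.sum_congr rfl fun e _ => ?_
        split_ifs <;> ring
    _ = ∑ e ∈ (Finset.Ioc 0 X).filter (fun e => e ∣ q), g1 e *
          ∑ m ∈ (Finset.Ioc 0 X).filter (fun m => e ∣ m), c m * f ((N:ℤ) - (q * m : ℕ)) := by
        rw [Finset.sum_comm]
        refine Finset.sum_congr rfl fun e _ => ?_
        rw [Finset.mul_sum, Finset.sum_filter]
    _ = _ := by
        refine Finset.sum_congr rfl fun e he => ?_
        have he0 := (Finset.mem_Ioc.mp (Finset.mem_filter.mp he).1).1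
        congr 1
        rw [sum_mult_real he0]
        unfold TE
        have h3 : ∀ k : ℕ, q * (e * k) = q * e * k := fun k => by ring
        simp only [h3]
        refine Finset.sum_subset (Finset.Ioc_subset_Ioc_right (Nat.div_le_self _ _)) ?_
        intro k hk hk2
        obtain ⟨hk3, hk4⟩ := Finset.mem_Ioc.mp hk
        have h4 : X / e < k := by
          by_contra hcon
          exact hk2 (Finset.mem_Ioc.mpr ⟨hk3, by omega⟩)
        have h5 : X < e * k := by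
          rw [Nat.div_lt_iff_lt_mul he0] at h4
          rw [mul_comm]; exact h4
        have h6 : e * k ≤ q * e * k := by
          rw [mul_assoc]; exact Nat.le_mul_of_pos_left _ hq
        rw [hs.zero (by omega), mul_zero]

lemma TC_le (hs : Supp f X) {c : ℕ → ℝ} (hc : ∀ m, |c m| ≤ 1) {N q E₀ : ℕ} (hN : N ≤ X) (hq : 0 < q)
    (hE : E₀ ≤ X) :
    |TC f c X N q| ≤ ∑ e ∈ Finset.Ioc 0 E₀, |TE f c X N q e| +
      ∑ e ∈ (Finset.Ioc E₀ X).filter (fun e => e ∣ q), ∑ m ∈ Finset.Ioc 0 X, |f ((N:ℤ) - (q * e * m : ℕ))| := by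
  rw [TC_eq hs c hN hq]
  have h1 : (Finset.Ioc 0 X).filter (fun e => e ∣ q) =
      (Finset.Ioc 0 E₀).filter (fun e => e ∣ q) ∪ (Finset.Ioc E₀ X).filter (fun e => e ∣ q) := by
    rw [← Finset.filter_union, Finset.Ioc_union_Ioc_eq_Ioc (Nat.zero_le _) hE]
  have h2 : Disjoint ((Finset.Ioc 0 E₀).filter (fun e => e ∣ q)) ((Finset.Ioc E₀ X).filter (fun e => e ∣ q)) := by
    refine Finset.disjoint_filter_filter ?_
    rw [Finset.disjoint_left]
    intro a ha hb
    have := Finset.mem_Ioc.mp ha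
    have := Finset.mem_Ioc.mp hb
    omega
  rw [h1, Finset.sum_union h2]
  refine (abs_add_le _ _).trans (add_le_add ?_ ?_)
  · refine (Finset.abs_sum_le_sum_abs _ _).trans ?_
    calc _ ≤ ∑ e ∈ (Finset.Ioc 0 E₀).filter (fun e => e ∣ q), |TE f c X N q e| := by
          refine Finset.sum_le_sum fun e _ => ?_
          rw [abs_mul]
          exact mul_le_of_le_one_left (abs_nonneg _) (abs_g1_le e)
      _ ≤ _ := Finset.sum_le_sum_of_subset_of_nonneg (Finset.filter_subset _ _) fun _ _ _ => abs_nonneg _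
  · refine (Finset.abs_sum_le_sum_abs _ _).trans (Finset.sum_le_sum fun e _ => ?_)
    rw [abs_mul]
    refine (mul_le_of_le_one_left (abs_nonneg _) (abs_g1_le e)).trans ?_
    unfold TE
    refine (Finset.abs_sum_le_sum_abs _ _).trans (Finset.sum_le_sum fun m _ => ?_)
    rw [abs_mul]
    exact mul_le_of_le_one_left (abs_nonneg _) (hc _)

variable {ι : Type*} {I : Finset ι} {N : ι → ℕ}

/-- squares over a block are contained in `WW` -/
lemma block_sq (hs : Supp f X) (c : ℕ → ℝ) {n Q e : ℕ} (hn : n ≤ X) (he : 1 ≤ e) :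
    ∑ q ∈ Finset.Ioc Q (2 * Q), TE f c X n q e ^ 2 ≤
      ∑ q ∈ Finset.Icc (-(X:ℤ)) X, (∑ m ∈ Finset.Ioc 0 (X / (e * (Q + 1))), c (e * m) * f (n - q * m)) ^ 2 := by
  set M := X / (e * (Q + 1)) with hM
  have hMX : M ≤ X := Nat.div_le_self _ _
  have h1 : ∀ q ∈ Finset.Ioc Q (2 * Q), TE f c X n q e =
      ∑ m ∈ Finset.Ioc 0 M, c (e * m) * f (n - ((q * e : ℕ) : ℤ) * m) := by
    intro q hq
    obtain ⟨hq1, hq2⟩ := Finset.mem_Ioc.mp hq
    unfold TE
    symm
    have e1 : ∀ m : ℕ, ((q * e : ℕ) : ℤ) * m = ((q * e * m : ℕ) : ℤ) := fun m => by push_cast; ring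
    simp only [e1]
    refine Finset.sum_subset (Finset.Ioc_subset_Ioc_right hMX) ?_
    intro m hm hm2
    obtain ⟨hm3, hm4⟩ := Finset.mem_Ioc.mp hm
    have h4 : M < m := by
      by_contra hcon
      exact hm2 (Finset.mem_Ioc.mpr ⟨hm3, by omega⟩)
    have h5 : X < m * (e * (Q + 1)) := by
      rwa [hM, Nat.div_lt_iff_lt_mul (Nat.mul_pos he (Nat.succ_pos _))] at h4
    have h6 : m * (e * (Q + 1)) ≤ q * e * m := by
      calc m * (e * (Q + 1)) ≤ m * (e * q) := by gcongr; omega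
        _ = _ := by ring
    rw [hs.zero (by omega), mul_zero]
  set φ : ℤ → ℝ := fun z => (∑ m ∈ Finset.Ioc 0 M, c (e * m) * f (n - z * m)) ^ 2 with hφ
  calc ∑ q ∈ Finset.Ioc Q (2 * Q), TE f c X n q e ^ 2 = ∑ q ∈ Finset.Ioc Q (2 * Q), φ ((q * e : ℕ) : ℤ) :=
        Finset.sum_congr rfl fun q hq => by rw [h1 q hq]
    _ = ∑ q ∈ (Finset.Ioc Q (2 * Q)).filter (fun q => q * e ≤ X), φ ((q * e : ℕ) : ℤ) := by
        symm
        refine Finset.sum_subset (Finset.filter_subset _ _) ?_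
        intro q hq hq2
        have h2 : X < q * e := by
          by_contra hcon
          exact hq2 (Finset.mem_filter.mpr ⟨hq, by omega⟩)
        simp only [hφ]
        rw [sq_eq_zero_iff]
        refine Finset.sum_eq_zero fun m hm => ?_
        have hm1 := (Finset.mem_Ioc.mp hm).1
        have h3 : q * e ≤ q * e * m := Nat.le_mul_of_pos_right _ hm1
        have e1 : ((q * e : ℕ) : ℤ) * m = ((q * e * m : ℕ) : ℤ) := by push_cast; ring
        rw [e1, hs.zero (by omega), mul_zero]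
    _ = ∑ z ∈ ((Finset.Ioc Q (2 * Q)).filter (fun q => q * e ≤ X)).image (fun q => ((q * e : ℕ) : ℤ)), φ z := by
        rw [Finset.sum_image]
        intro a _ b _ hab
        have h2 : a * e = b * e := by
          simp only at hab
          exact_mod_cast hab
        exact Nat.eq_of_mul_eq_mul_right he h2
    _ ≤ ∑ z ∈ Finset.Icc (-(X:ℤ)) X, φ z := by
        refine Finset.sum_le_sum_of_subset_of_nonneg ?_ fun _ _ _ => sq_nonneg _
        intro z hz
        obtain ⟨q, hq, rfl⟩ := Finset.mem_image.mp hz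
        have h2 := (Finset.mem_filter.mp hq).2
        have h3 : ((q * e : ℕ) : ℤ) ≤ X := by exact_mod_cast h2
        have h4 : (0:ℤ) ≤ ((q * e : ℕ) : ℤ) := Int.natCast_nonneg _
        exact Finset.mem_Icc.mpr ⟨by omega, h3⟩

/-- **block bound** -/
lemma block_le (hs : Supp f X) (hN : ∀ i ∈ I, 1 ≤ N i ∧ N i ≤ X) (c : ℕ → ℝ) {Q e A' : ℕ} (he : 1 ≤ e)
    (hW : WW I N X f (fun m => c (e * m)) (X / (e * (Q + 1))) * LL X ^ (2 * A') ≤
      I.card * X * ((X / (e * (Q + 1)) : ℕ) : ℝ)) :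
    (∑ i ∈ I, ∑ q ∈ Finset.Ioc Q (2 * Q), |TE f c X (N i) q e|) * LL X ^ A' ≤ I.card * X := by
  have hL := LL_pos X
  set M := X / (e * (Q + 1)) with hM
  set S := ∑ i ∈ I, ∑ q ∈ Finset.Ioc Q (2 * Q), |TE f c X (N i) q e| with hS
  have hS0 : 0 ≤ S := Finset.sum_nonneg fun _ _ => Finset.sum_nonneg fun _ _ => abs_nonneg _
  have h1 : S ^ 2 ≤ I.card * Q * WW I N X f (fun m => c (e * m)) M := by
    have e1 : S = ∑ x ∈ I ×ˢ Finset.Ioc Q (2 * Q), |TE f c X (N x.1) x.2 e| := by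
      rw [Finset.sum_product]
    have e2 : (((I ×ˢ Finset.Ioc Q (2 * Q)).card : ℕ) : ℝ) = I.card * Q := by
      rw [Finset.card_product, Nat.card_Ioc]
      have : 2 * Q - Q = Q := by omega
      rw [this]; push_cast; ring
    calc S ^ 2 ≤ ((I ×ˢ Finset.Ioc Q (2 * Q)).card : ℝ) *
          ∑ x ∈ I ×ˢ Finset.Ioc Q (2 * Q), |TE f c X (N x.1) x.2 e| ^ 2 := by
          rw [e1]; exact sq_sum_le_card_mul_sum_sq
      _ = I.card * Q * ∑ i ∈ I, ∑ q ∈ Finset.Ioc Q (2 * Q), TE f c X (N i) q e ^ 2 := by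
          rw [e2, Finset.sum_product]
          simp only [sq_abs]
      _ ≤ _ := by
          refine mul_le_mul_of_nonneg_left ?_ (by positivity)
          unfold WW
          refine Finset.sum_le_sum fun i hi => ?_
          exact block_sq hs c (hN i hi).2 he
  have hQM : (Q:ℝ) * M ≤ X := by
    have h2 : M * (e * (Q + 1)) ≤ X := Nat.div_mul_le_self _ _
    have h3 : Q * M ≤ M * (e * (Q + 1)) := by
      calc Q * M = M * (1 * Q) := by ring
        _ ≤ M * (e * (Q + 1)) := by gcongr; omega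
    exact_mod_cast h3.trans h2
  have h2 : (S * LL X ^ A') ^ 2 ≤ (I.card * X) ^ 2 := by
    calc (S * LL X ^ A') ^ 2 = S ^ 2 * LL X ^ (2 * A') := by rw [mul_pow, ← pow_mul, mul_comm 2 A']
      _ ≤ (I.card * Q * WW I N X f (fun m => c (e * m)) M) * LL X ^ (2 * A') := by gcongr
      _ = I.card * Q * (WW I N X f (fun m => c (e * m)) M * LL X ^ (2 * A')) := by ring
      _ ≤ I.card * Q * (I.card * X * M) := by gcongr
      _ = I.card ^ 2 * X * (Q * M) := by ring
      _ ≤ I.card ^ 2 * X * X := by gcongr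
      _ = _ := by ring
  exact (sq_le_sq₀ (by positivity) (by positivity)).mp h2

end

lemma dyadic {Q₀ J q : ℕ} (h1 : Q₀ < q) (h2 : q ≤ 2 ^ J * Q₀) :
    ∃ j ∈ Finset.range J, q ∈ Finset.Ioc (2 ^ j * Q₀) (2 * (2 ^ j * Q₀)) := by
  induction J with
  | zero => simp at h2; omega
  | succ J ih =>
    by_cases h : q ≤ 2 ^ J * Q₀
    · obtain ⟨j, hj, hj2⟩ := ih h
      exact ⟨j, Finset.mem_range.mpr (by have := Finset.mem_range.mp hj; omega), hj2⟩
    · refine ⟨J, Finset.mem_range.mpr (by omega), Finset.mem_Ioc.mpr ⟨by omega, ?_⟩⟩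
      calc q ≤ 2 ^ (J + 1) * Q₀ := h2
        _ = _ := by ring

lemma sum_dyadic {Q₀ J : ℕ} {s : Finset ℕ} {F : ℕ → ℝ} (hF : ∀ q, 0 ≤ F q)
    (hs : ∀ q ∈ s, Q₀ < q ∧ q ≤ 2 ^ J * Q₀) :
    ∑ q ∈ s, F q ≤ ∑ j ∈ Finset.range J, ∑ q ∈ s.filter (fun q => q ∈ Finset.Ioc (2 ^ j * Q₀) (2 * (2 ^ j * Q₀))), F q := by
  calc ∑ q ∈ s, F q ≤ ∑ q ∈ s, ∑ j ∈ Finset.range J,
        (if q ∈ Finset.Ioc (2 ^ j * Q₀) (2 * (2 ^ j * Q₀)) then F q else 0) := by
        refine Finset.sum_le_sum fun q hq => ?_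
        obtain ⟨j, hj, hj2⟩ := dyadic (hs q hq).1 (hs q hq).2
        calc F q = (if q ∈ Finset.Ioc (2 ^ j * Q₀) (2 * (2 ^ j * Q₀)) then F q else 0) := by rw [if_pos hj2]
          _ ≤ _ := Finset.single_le_sum (f := fun j => if q ∈ Finset.Ioc (2 ^ j * Q₀) (2 * (2 ^ j * Q₀)) then F q else 0)
              (fun j _ => by positivity [hF q]) hj
    _ = _ := by
        rw [Finset.sum_comm]
        exact Finset.sum_congr rfl fun j _ => by rw [Finset.sum_filter]

end Pool.Agent.SEH
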