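import Pool.Agent.SEH.PartT2
import Pool.Agent.SEH.Key6

/-!
Part T, 3: the sum over all moduli.
-/

open Complex Pool.Agent.ANT Pool.Agent.DEH Filter

namespace Pool.Agent.SEH

/-- powers of the logarithm against `exp ((log X)^ε / 2)` -/
lemma exp_big (n : ℕ) {ε : ℝ} (hε : 0 < ε) : ∀ᶠ X : ℕ in atTop, LL X ^ n ≤ Real.exp (Real.log X ^ ε / 2) := by
  have hlog : Tendsto (fun n : ℕ => Real.log (n:ℝ)) atTop atTop :=
    Real.tendsto_log_atTop.comp tendsto_natCast_atTop_atTop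
  have hy : Tendsto (fun n : ℕ => Real.log (n:ℝ) ^ ε / 2) atTop atTop :=
    ((tendsto_rpow_atTop hε).comp hlog).atTop_div_const (by norm_num)
  set K : ℝ := 2 ^ n * 2 ^ ((n:ℝ) / ε) with hK
  have hK0 : 0 < K := by positivity
  have h1 := (isLittleO_rpow_exp_atTop ((n:ℝ) / ε)).bound (c := 1 / K) (by positivity)
  filter_upwards [hy.eventually h1, hlog.eventually_ge_atTop 1] with X h2 h3
  have hl0 : 0 < Real.log X := by linarith
  set y := Real.log X ^ ε / 2 with hyd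
  have hy0 : 0 < y := by positivity
  rw [Real.norm_of_nonneg (by positivity), Real.norm_of_nonneg (Real.exp_pos _).le] at h2
  have h4 : Real.log X = (2 * y) ^ (1 / ε) := by
    rw [hyd, mul_div_cancel₀ _ (by norm_num : (2:ℝ) ≠ 0), ← Real.rpow_mul hl0.le, mul_one_div_cancel hε.ne',
      Real.rpow_one]
  have h5 : LL X ≤ 2 * Real.log X := by unfold LL; linarith
  have h6 := LL_pos X
  calc LL X ^ n ≤ (2 * Real.log X) ^ n := by gcongr
    _ = 2 ^ n * (2 * y) ^ ((n:ℝ) / ε) := by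
        rw [mul_pow]
        congr 1
        rw [h4, ← Real.rpow_natCast, ← Real.rpow_mul (by positivity)]
        congr 1
        ring
    _ = K * y ^ ((n:ℝ) / ε) := by rw [Real.mul_rpow (by norm_num) hy0.le, hK]; ring
    _ ≤ K * (1 / K * Real.exp y) := by gcongr
    _ = Real.exp y := by field_simp

lemma J_le {X : ℕ} (hX : 1 ≤ X) : ((Nat.log 2 X + 1 : ℕ) : ℝ) ≤ 2 * LL X := by
  have h1 : 2 ^ (Nat.log 2 X) ≤ X := Nat.pow_log_le_self 2 (by omega)
  have h2 : ((2:ℝ) ^ (Nat.log 2 X)) ≤ X := by exact_mod_cast h1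
  have h3 : Real.log ((2:ℝ) ^ (Nat.log 2 X)) ≤ Real.log X := Real.log_le_log (by positivity) h2
  rw [Real.log_pow] at h3
  have h4 := Real.log_two_gt_d9
  have h5 : (0:ℝ) ≤ Nat.log 2 X := Nat.cast_nonneg _
  push_cast
  unfold LL
  nlinarith

/-- the moduli of part T -/
noncomputable def ST (X : ℕ) (ε : ℝ) : Finset ℕ := (Sq X (Real.log X ^ ε / 2)).filter (fun q => X < q ^ 2)

lemma mem_ST {X : ℕ} {ε : ℝ} {q : ℕ} (hq : q ∈ ST X ε) :
    (0 < q ∧ q ≤ X) ∧ Real.log X ^ ε / 2 ≤ Real.log ((X:ℝ) / q) ∧ X < q ^ 2 := by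
  obtain ⟨h1, h2⟩ := Finset.mem_filter.mp hq
  obtain ⟨h3, h4⟩ := Finset.mem_filter.mp h1
  exact ⟨Finset.mem_Ioc.mp h3, h4, h2⟩

section

variable {f : ℤ → ℝ} {X : ℕ} {ι : Type*} {I : Finset ι} {N : ι → ℕ}

/-- one block, given `WW` -/
lemma block_ST (hs : Supp f X) (hN : ∀ i ∈ I, 1 ≤ N i ∧ N i ≤ X) {c : ℕ → ℝ} {A' B E₀ : ℕ} {ε : ℝ}
    (hW : ∀ M : ℕ, LL X ^ B ≤ M → M ^ 2 ≤ X → ∀ e : ℕ,
      WW I N X f (fun m => c (e * m)) M * LL X ^ (2 * A') ≤ I.card * X * M)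
    (hE : (E₀ : ℝ) * (LL X ^ B + 1) ≤ Real.exp (Real.log X ^ ε / 2))
    {Q e : ℕ} (hQ : Nat.sqrt X ≤ Q) (he : e ∈ Finset.Ioc 0 E₀) :
    (∑ i ∈ I, ∑ q ∈ (ST X ε).filter (fun q => q ∈ Finset.Ioc Q (2 * Q)), |TE f c X (N i) q e|) * LL X ^ A' ≤
      I.card * X := by
  have hL := LL_pos X
  obtain ⟨he1, he2⟩ := Finset.mem_Ioc.mp he
  rcases Finset.eq_empty_or_nonempty ((ST X ε).filter (fun q => q ∈ Finset.Ioc Q (2 * Q))) with h | ⟨q₀, h⟩
  · rw [h]
    simp only [Finset.sum_empty, Finset.sum_const_zero, zero_mul]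
    positivity
  obtain ⟨h1, h2⟩ := Finset.mem_filter.mp h
  obtain ⟨h3, h4⟩ := Finset.mem_Ioc.mp h2
  obtain ⟨⟨h5, h5'⟩, h6, h7⟩ := mem_ST h1
  have hX0 : (0:ℝ) < X := by exact_mod_cast (by omega : 0 < X)
  have hq0 : (0:ℝ) < q₀ := by exact_mod_cast h5
  have he0 : (0:ℝ) < e := by exact_mod_cast he1
  have hbig : Real.exp (Real.log X ^ ε / 2) * (Q + 1) ≤ X := by
    have e1 : Real.exp (Real.log X ^ ε / 2) ≤ X / q₀ := by
      calc _ ≤ Real.exp (Real.log ((X:ℝ) / q₀)) := Real.exp_le_exp.mpr h6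
        _ = _ := Real.exp_log (by positivity)
    have e2 : (Q:ℝ) + 1 ≤ q₀ := by exact_mod_cast h3
    calc Real.exp (Real.log X ^ ε / 2) * (Q + 1) ≤ (X / q₀ : ℝ) * q₀ := by gcongr
      _ = X := by field_simp
  set M := X / (e * (Q + 1)) with hM
  have hMr : LL X ^ B ≤ M := by
    have e1 : (X:ℝ) / (e * (Q + 1)) - 1 ≤ M := by
      have e2 : X < (M + 1) * (e * (Q + 1)) := by
        have := Nat.lt_div_mul_add (a := X) (b := e * (Q + 1)) (Nat.mul_pos he1 (Nat.succ_pos _))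
        rw [← hM] at this
        calc X < M * (e * (Q + 1)) + e * (Q + 1) := this
          _ = _ := by ring
      have e3 : (X:ℝ) < (M + 1) * (e * (Q + 1)) := by exact_mod_cast e2
      rw [sub_le_iff_le_add, div_le_iff₀ (by positivity)]
      exact e3.le
    refine le_trans ?_ e1
    rw [le_sub_iff_add_le, le_div_iff₀ (by positivity)]
    calc (LL X ^ B + 1) * (e * (Q + 1)) = (e * (LL X ^ B + 1)) * (Q + 1) := by ring
      _ ≤ (E₀ * (LL X ^ B + 1)) * (Q + 1) := by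
          have : (e:ℝ) ≤ E₀ := by exact_mod_cast he2
          gcongr
      _ ≤ Real.exp (Real.log X ^ ε / 2) * (Q + 1) := by gcongr
      _ ≤ X := hbig
  have hM2 : M ^ 2 ≤ X := by
    have e1 : M * (Q + 1) ≤ X := by
      calc M * (Q + 1) ≤ M * (e * (Q + 1)) := Nat.mul_le_mul_left _ (Nat.le_mul_of_pos_left _ he1)
        _ ≤ X := Nat.div_mul_le_self _ _
    have e2 : X < (Q + 1) ^ 2 := by
      calc X < (Nat.sqrt X + 1) ^ 2 := Nat.lt_succ_sqrt' X
        _ ≤ (Q + 1) ^ 2 := by gcongr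
    by_contra hcon
    have e3 : Q + 1 ≤ M := by
      by_contra h8
      have : M ^ 2 ≤ M * (Q + 1) := by rw [sq]; exact Nat.mul_le_mul_left _ (by omega)
      omega
    have : (Q + 1) ^ 2 ≤ M * (Q + 1) := by rw [sq]; exact Nat.mul_le_mul_right _ e3
    omega
  refine le_trans ?_ (block_le hs hN c (Q := Q) (A' := A') he1 (hW M hMr hM2 e))
  refine mul_le_mul_of_nonneg_right ?_ (by positivity)
  refine Finset.sum_le_sum fun i _ => Finset.sum_le_sum_of_subset_of_nonneg ?_ fun _ _ _ => abs_nonneg _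
  intro q hq
  exact (Finset.mem_filter.mp hq).2

/-- all moduli, given `WW` -/
lemma TC_sum (hX : 1 ≤ X) (hs : Supp f X) (hf : ∀ n : ℕ, |f n| ≤ LL X ^ 4 * tauR n)
    (hN : ∀ i ∈ I, 1 ≤ N i ∧ N i ≤ X) {c : ℕ → ℝ} (hc : ∀ m, |c m| ≤ 1) {A' B E₀ : ℕ} {ε : ℝ}
    (hW : ∀ M : ℕ, LL X ^ B ≤ M → M ^ 2 ≤ X → ∀ e : ℕ,
      WW I N X f (fun m => c (e * m)) M * LL X ^ (2 * A') ≤ I.card * X * M)
    (hE1 : 1 ≤ E₀) (hEX : E₀ ≤ X)
    (hE : (E₀ : ℝ) * (LL X ^ B + 1) ≤ Real.exp (Real.log X ^ ε / 2)) :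
    ∑ i ∈ I, ∑ q ∈ ST X ε, |TC f c X (N i) q| ≤
      E₀ * (2 * LL X) * (I.card * X / LL X ^ A') + I.card * (X * LL X ^ 41 / √E₀) := by
  have hL := LL_pos X
  set J := Nat.log 2 X + 1 with hJ
  calc ∑ i ∈ I, ∑ q ∈ ST X ε, |TC f c X (N i) q|
      ≤ ∑ i ∈ I, ∑ q ∈ ST X ε, (∑ e ∈ Finset.Ioc 0 E₀, |TE f c X (N i) q e| +
      ∑ e ∈ (Finset.Ioc E₀ X).filter (fun e => e ∣ q), ∑ m ∈ Finset.Ioc 0 X, |f (((N i : ℕ):ℤ) - (q * e * m : ℕ))|) := by
        refine Finset.sum_le_sum fun i hi => Finset.sum_le_sum fun q hq => ?_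
        exact TC_le hs hc (hN i hi).2 (mem_ST hq).1.1 hEX
    _ = ∑ i ∈ I, ∑ q ∈ ST X ε, ∑ e ∈ Finset.Ioc 0 E₀, |TE f c X (N i) q e| +
        ∑ i ∈ I, ∑ q ∈ ST X ε, ∑ e ∈ (Finset.Ioc E₀ X).filter (fun e => e ∣ q), ∑ m ∈ Finset.Ioc 0 X,
          |f (((N i : ℕ):ℤ) - (q * e * m : ℕ))| := by
        simp only [Finset.sum_add_distrib]
    _ ≤ _ := by
        refine add_le_add ?_ ?_
        · calc ∑ i ∈ I, ∑ q ∈ ST X ε, ∑ e ∈ Finset.Ioc 0 E₀, |TE f c X (N i) q e|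
              = ∑ e ∈ Finset.Ioc 0 E₀, ∑ i ∈ I, ∑ q ∈ ST X ε, |TE f c X (N i) q e| :=
                (Finset.sum_congr rfl fun i _ => Finset.sum_comm).trans Finset.sum_comm
            _ ≤ ∑ e ∈ Finset.Ioc 0 E₀, ∑ i ∈ I, ∑ j ∈ Finset.range J,
                ∑ q ∈ (ST X ε).filter (fun q => q ∈ Finset.Ioc (2 ^ j * Nat.sqrt X) (2 * (2 ^ j * Nat.sqrt X))),
                  |TE f c X (N i) q e| := by
                refine Finset.sum_le_sum fun e _ => Finset.sum_le_sum fun i _ => ?_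
                refine sum_dyadic (fun q => abs_nonneg _) fun q hq => ?_
                obtain ⟨⟨h1, h2⟩, _, h3⟩ := mem_ST hq
                refine ⟨Nat.sqrt_lt'.mpr h3, ?_⟩
                have h4 : X < 2 ^ J := Nat.lt_pow_succ_log_self (by norm_num) X
                have h5 : 1 ≤ Nat.sqrt X := Nat.sqrt_pos.mpr (by omega)
                calc q ≤ 2 ^ J * 1 := by omega
                  _ ≤ _ := Nat.mul_le_mul_left _ h5
            _ = ∑ e ∈ Finset.Ioc 0 E₀, ∑ j ∈ Finset.range J, ∑ i ∈ I,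
                ∑ q ∈ (ST X ε).filter (fun q => q ∈ Finset.Ioc (2 ^ j * Nat.sqrt X) (2 * (2 ^ j * Nat.sqrt X))),
                  |TE f c X (N i) q e| := Finset.sum_congr rfl fun e _ => Finset.sum_comm
            _ ≤ ∑ e ∈ Finset.Ioc 0 E₀, ∑ j ∈ Finset.range J, (I.card * X / LL X ^ A' : ℝ) := by
                refine Finset.sum_le_sum fun e he => Finset.sum_le_sum fun j _ => ?_
                rw [le_div_iff₀ (by positivity)]
                exact block_ST hs hN hW hE (Nat.le_mul_of_pos_left _ (by positivity)) he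
            _ = E₀ * (J * (I.card * X / LL X ^ A')) := by
                rw [Finset.sum_const, Finset.sum_const, Nat.card_Ioc, Finset.card_range, nsmul_eq_mul, nsmul_eq_mul,
                  Nat.sub_zero]
            _ ≤ E₀ * ((2 * LL X) * (I.card * X / LL X ^ A')) := by
                have := J_le hX
                rw [← hJ] at this
                gcongr
            _ = _ := by ring
        · calc _ ≤ ∑ i ∈ I, (X * LL X ^ 41 / √E₀ : ℝ) := by
                refine Finset.sum_le_sum fun i hi => ?_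
                refine le_trans ?_ (tail_le hs hf (hN i hi).2 hE1)
                refine Finset.sum_le_sum_of_subset_of_nonneg ?_ fun _ _ _ =>
                  Finset.sum_nonneg fun _ _ => Finset.sum_nonneg fun _ _ => abs_nonneg _
                intro q hq
                exact Finset.mem_Ioc.mpr (mem_ST hq).1
            _ = _ := by rw [Finset.sum_const, nsmul_eq_mul]

end

end Pool.Agent.SEH
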