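import Pool.Agent.SEH.Key1
import Pool.Agent.Lib.ANT.LSieve

/-!
# Module Model, part 1: Ramanujan sums and the truncated divisor sum for `Λ`
-/

open Complex Pool.Agent.ANT Pool.Agent.DEH

namespace Pool.Agent.SEH

/-- Ramanujan's sum -/
noncomputable def cr (r : ℕ) (v : ℤ) : ℝ :=
  ∑ d ∈ r.divisors, if (d:ℤ) ∣ v then ((ArithmeticFunction.moebius (r / d) : ℤ) : ℝ) * d else 0

lemma cr_eq {r : ℕ} (hr : 1 ≤ r) (v : ℤ) : (cr r v : ℂ) = ∑ b ∈ rd r, ee (v * ((b:ℝ) / r)) := by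
  have h1 := (ArithmeticFunction.sum_eq_iff_sum_mul_moebius_eq
    (f := fun r : ℕ => ∑ b ∈ rd r, ee (v * ((b:ℝ) / r)))
    (g := fun n : ℕ => if (n:ℤ) ∣ v then (n:ℂ) else 0)).mp (fun n hn => full_rd hn v) r hr
  rw [← h1, Nat.sum_divisorsAntidiagonal'
    (f := fun a b => ((ArithmeticFunction.moebius a : ℤ) : ℂ) * (if (b:ℤ) ∣ v then (b:ℂ) else 0))]
  unfold cr
  push_cast
  refine Finset.sum_congr rfl fun d _ => ?_
  split_ifs <;> simp

lemma sum_cr {d : ℕ} (hd : 1 ≤ d) (v : ℤ) : ∑ r ∈ d.divisors, cr r v = if (d:ℤ) ∣ v then (d:ℝ) else 0 := by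
  have h1 := full_rd hd v
  have h2 : ∑ r ∈ d.divisors, ∑ b ∈ rd r, ee (v * ((b:ℝ) / r)) = ((∑ r ∈ d.divisors, cr r v : ℝ) : ℂ) := by
    rw [Complex.ofReal_sum]
    refine Finset.sum_congr rfl fun r hr => ?_
    rw [cr_eq (Nat.pos_of_mem_divisors hr)]
  rw [h2] at h1
  have h3 : ((∑ r ∈ d.divisors, cr r v : ℝ) : ℂ) = ((if (d:ℤ) ∣ v then (d:ℝ) else 0 : ℝ) : ℂ) := by
    rw [h1]; split_ifs <;> simp
  exact_mod_cast h3

lemma abs_cr_le (r : ℕ) (v : ℤ) : |cr r v| ≤ ∑ d ∈ r.divisors, if (d:ℤ) ∣ v then (d:ℝ) else 0 := by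
  unfold cr
  refine (Finset.abs_sum_le_sum_abs _ _).trans (Finset.sum_le_sum fun d _ => ?_)
  split_ifs
  · rw [abs_mul, Nat.abs_cast]
    have h1 : |((ArithmeticFunction.moebius (r / d) : ℤ) : ℝ)| ≤ 1 := by
      exact_mod_cast ArithmeticFunction.abs_moebius_le_one
    exact mul_le_of_le_one_left (Nat.cast_nonneg _) h1
  · simp

/-- the coefficients of the model -/
noncomputable def bet (D r : ℕ) : ℝ := - ∑ d ∈ Finset.Ioc 0 D, if r ∣ d then g2 d / d else 0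

lemma lamD_eq (D : ℕ) (v : ℤ) : (∑ d ∈ Finset.Ioc 0 D, if (d:ℤ) ∣ v then g2 d else 0) =
    - ∑ r ∈ Finset.Ioc 0 D, bet D r * cr r v := by
  have h1 : ∀ r ∈ Finset.Ioc 0 D, bet D r * cr r v =
      - ∑ d ∈ Finset.Ioc 0 D, (if r ∣ d then g2 d / d * cr r v else 0) := by
    intro r _
    unfold bet
    rw [neg_mul, Finset.sum_mul]
    congr 1
    refine Finset.sum_congr rfl fun d _ => ?_
    split_ifs <;> simp
  rw [Finset.sum_congr rfl h1, Finset.sum_neg_distrib, neg_neg, Finset.sum_comm]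
  refine Finset.sum_congr rfl fun d hd => ?_
  obtain ⟨hd1, hd2⟩ := Finset.mem_Ioc.mp hd
  rw [← Finset.sum_filter]
  have h2 : (Finset.Ioc 0 D).filter (fun r => r ∣ d) = d.divisors := by
    ext r
    simp only [Finset.mem_filter, Finset.mem_Ioc, Nat.mem_divisors]
    constructor
    · rintro ⟨_, h⟩; exact ⟨h, by omega⟩
    · rintro ⟨h, _⟩
      exact ⟨⟨Nat.pos_of_dvd_of_pos h hd1, (Nat.le_of_dvd hd1 h).trans hd2⟩, h⟩
  rw [h2, ← Finset.mul_sum, sum_cr hd1]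
  have hd0 : (d:ℝ) ≠ 0 := by exact_mod_cast (by omega : d ≠ 0)
  split_ifs
  · field_simp
  · simp

lemma abs_g2_le {d X : ℕ} (hd : 1 ≤ d) (hX : d ≤ X) : |g2 d| ≤ Real.log X := by
  unfold g2
  have h1 : |((ArithmeticFunction.moebius d : ℤ) : ℝ)| ≤ 1 := by
    exact_mod_cast ArithmeticFunction.abs_moebius_le_one
  rw [abs_mul, abs_of_nonneg (Real.log_natCast_nonneg d)]
  have h2 : Real.log d ≤ Real.log X :=
    Real.log_le_log (by exact_mod_cast hd) (by exact_mod_cast hX)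
  have h3 := Real.log_natCast_nonneg d
  nlinarith [abs_nonneg ((ArithmeticFunction.moebius d : ℤ) : ℝ)]

lemma abs_bet_le {D r X : ℕ} (hr : 1 ≤ r) (hD : D ≤ X) : |bet D r| ≤ LL X ^ 2 / r := by
  have hr0 : (0:ℝ) < r := by exact_mod_cast hr
  have hlX := Real.log_natCast_nonneg X
  have hL := LL_pos X
  unfold bet
  rw [abs_neg]
  have h1 : ∑ d ∈ Finset.Ioc 0 D, (if r ∣ d then Real.log X / (d:ℝ) else 0) =
      ∑ k ∈ Finset.Ioc 0 (D / r), Real.log X / ((r * k : ℕ) : ℝ) := by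
    have h2 := sum_multiples (X := D) hr (fun d => ((Real.log X / (d:ℝ) : ℝ) : ℂ))
    have h3 : ((∑ d ∈ Finset.Ioc 0 D, (if r ∣ d then Real.log X / (d:ℝ) else 0) : ℝ) : ℂ) =
        ((∑ k ∈ Finset.Ioc 0 (D / r), Real.log X / ((r * k : ℕ) : ℝ) : ℝ) : ℂ) := by
      rw [Complex.ofReal_sum, Complex.ofReal_sum, ← h2]
      refine Finset.sum_congr rfl fun d _ => ?_
      split_ifs <;> simp
    exact_mod_cast h3
  calc |∑ d ∈ Finset.Ioc 0 D, (if r ∣ d then g2 d / (d:ℝ) else 0)|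
      ≤ ∑ d ∈ Finset.Ioc 0 D, (if r ∣ d then Real.log X / (d:ℝ) else 0) := by
        refine (Finset.abs_sum_le_sum_abs _ _).trans (Finset.sum_le_sum fun d hd => ?_)
        obtain ⟨hd1, hd2⟩ := Finset.mem_Ioc.mp hd
        split_ifs
        · rw [abs_div, Nat.abs_cast]
          have := abs_g2_le hd1 (hd2.trans hD)
          gcongr
        · simp
    _ = Real.log X / r * Hs (D / r) := by
        rw [h1]
        unfold Hs
        rw [Finset.mul_sum]
        refine Finset.sum_congr rfl fun k _ => ?_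
        push_cast
        rw [div_mul_div_comm, mul_one]
    _ ≤ LL X / r * LL X := by
        have h4 : Hs (D / r) ≤ LL X :=
          (Hs_mono ((Nat.div_le_self _ _).trans hD)).trans (Hs_le_LL X)
        have h5 := Hs_nonneg (D / r)
        have h6 : Real.log X ≤ LL X := by unfold LL; linarith
        gcongr
    _ = _ := by ring

/-- the model -/
noncomputable def lams (D P : ℕ) (v : ℤ) : ℝ := ∑ r ∈ Finset.Ioc 0 P, bet D r * cr r v

lemma abs_lams_le {D P X : ℕ} (hD : D ≤ X) (hP : P ≤ X) {n : ℕ} (hn : 1 ≤ n) :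
    |lams D P n| ≤ LL X ^ 3 * tauR n := by
  have hL := LL_pos X
  have h1 : ∀ r ∈ Finset.Ioc 0 P, |bet D r * cr r n| ≤
      ∑ d ∈ n.divisors, (if d ∣ r then LL X ^ 2 / r * d else 0) := by
    intro r hr
    obtain ⟨hr1, hr2⟩ := Finset.mem_Ioc.mp hr
    rw [abs_mul]
    calc |bet D r| * |cr r n| ≤ LL X ^ 2 / r * ∑ d ∈ r.divisors, (if (d:ℤ) ∣ (n:ℤ) then (d:ℝ) else 0) := by
          have h2 := abs_bet_le hr1 hD
          have h3 := abs_cr_le r n
          gcongr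
      _ = ∑ d ∈ n.divisors, (if d ∣ r then LL X ^ 2 / r * d else 0) := by
          rw [← Finset.sum_filter, ← Finset.sum_filter, Finset.mul_sum]
          refine Finset.sum_congr ?_ fun _ _ => rfl
          ext d
          simp only [Finset.mem_filter, Nat.mem_divisors]
          constructor
          · rintro ⟨⟨h4, _⟩, h5⟩; exact ⟨⟨by exact_mod_cast h5, by omega⟩, h4⟩
          · rintro ⟨⟨h4, _⟩, h5⟩; exact ⟨⟨h5, by omega⟩, by exact_mod_cast h4⟩
  unfold lams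
  calc |∑ r ∈ Finset.Ioc 0 P, bet D r * cr r n|
      ≤ ∑ r ∈ Finset.Ioc 0 P, ∑ d ∈ n.divisors, (if d ∣ r then LL X ^ 2 / r * d else 0) :=
        (Finset.abs_sum_le_sum_abs _ _).trans (Finset.sum_le_sum h1)
    _ = ∑ d ∈ n.divisors, ∑ r ∈ Finset.Ioc 0 P, (if d ∣ r then LL X ^ 2 / (r:ℝ) * d else 0) :=
        Finset.sum_comm
    _ ≤ ∑ d ∈ n.divisors, LL X ^ 3 := by
        refine Finset.sum_le_sum fun d hd => ?_
        have hd1 : 1 ≤ d := Nat.pos_of_mem_divisors hd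
        have hd0 : (0:ℝ) < d := by exact_mod_cast hd1
        have h2 := sum_multiples (X := P) hd1 (fun r => ((LL X ^ 2 / (r:ℝ) * d : ℝ) : ℂ))
        have h3 : ((∑ r ∈ Finset.Ioc 0 P, (if d ∣ r then LL X ^ 2 / (r:ℝ) * d else 0) : ℝ) : ℂ) =
            ((∑ k ∈ Finset.Ioc 0 (P / d), LL X ^ 2 / ((d * k : ℕ) : ℝ) * d : ℝ) : ℂ) := by
          rw [Complex.ofReal_sum, Complex.ofReal_sum, ← h2]
          refine Finset.sum_congr rfl fun r _ => ?_
          split_ifs <;> simp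
        have h4 : ∑ r ∈ Finset.Ioc 0 P, (if d ∣ r then LL X ^ 2 / (r:ℝ) * d else 0) =
            ∑ k ∈ Finset.Ioc 0 (P / d), LL X ^ 2 / ((d * k : ℕ) : ℝ) * d := by exact_mod_cast h3
        rw [h4]
        have h5 : ∑ k ∈ Finset.Ioc 0 (P / d), LL X ^ 2 / ((d * k : ℕ) : ℝ) * d = LL X ^ 2 * Hs (P / d) := by
          unfold Hs
          rw [Finset.mul_sum]
          refine Finset.sum_congr rfl fun k hk => ?_
          have hk0 : (0:ℝ) < k := by exact_mod_cast (Finset.mem_Ioc.mp hk).1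
          push_cast
          field_simp
        rw [h5]
        have h6 : Hs (P / d) ≤ LL X :=
          (Hs_mono ((Nat.div_le_self _ _).trans hP)).trans (Hs_le_LL X)
        calc LL X ^ 2 * Hs (P / d) ≤ LL X ^ 2 * LL X := by gcongr
          _ = _ := by ring
    _ = LL X ^ 3 * tauR n := by
        rw [Finset.sum_const, nsmul_eq_mul]; unfold tauR; ring

/-- `Λ` is a sum over the divisors up to `D`, the rest is a sum over larger divisors -/
lemma vonMangoldt_sub {n D X : ℕ} (hn : 1 ≤ n) (hnX : n ≤ X) (hD : D ≤ X) :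
    ArithmeticFunction.vonMangoldt n - lams D D n =
      - ∑ d ∈ Finset.Ioc D X, if d ∣ n then g2 d else 0 := by
  have h1 := ArithmeticFunction.sum_moebius_mul_log_eq (n := n)
  simp only [ArithmeticFunction.log_apply] at h1
  have h2 : ∑ d ∈ n.divisors, ((ArithmeticFunction.moebius d : ℤ) : ℝ) * Real.log d =
      ∑ d ∈ Finset.Ioc 0 X, if d ∣ n then g2 d else 0 := by
    rw [← Finset.sum_filter]
    refine Finset.sum_congr ?_ fun _ _ => rfl
    ext d
    simp only [Finset.mem_filter, Finset.mem_Ioc, Nat.mem_divisors]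
    constructor
    · rintro ⟨h, _⟩
      exact ⟨⟨Nat.pos_of_dvd_of_pos h hn, (Nat.le_of_dvd hn h).trans hnX⟩, h⟩
    · rintro ⟨_, h⟩; exact ⟨h, by omega⟩
  have h3 : ∑ d ∈ Finset.Ioc 0 X, (if d ∣ n then g2 d else 0) =
      ∑ d ∈ Finset.Ioc 0 D, (if d ∣ n then g2 d else 0) +
      ∑ d ∈ Finset.Ioc D X, (if d ∣ n then g2 d else 0) :=
    (Finset.sum_Ioc_consecutive _ (Nat.zero_le _) hD).symm
  have h4 := lamD_eq D n
  have h5 : ∑ d ∈ Finset.Ioc 0 D, (if (d:ℤ) ∣ (n:ℤ) then g2 d else 0) =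
      ∑ d ∈ Finset.Ioc 0 D, (if d ∣ n then g2 d else 0) := by
    refine Finset.sum_congr rfl fun d _ => ?_
    by_cases h : d ∣ n
    · rw [if_pos h, if_pos (by exact_mod_cast h)]
    · rw [if_neg h, if_neg (by exact_mod_cast h)]
  unfold lams
  linarith

end Pool.Agent.SEH
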